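import Pool.Agent.P.MP_749578_co.Rec

namespace Pool.Agent.P749578

open Finset

variable (c : Cert)

def Av (R : Fin 3) (v : List ℚ) : ℚ := dz (c.A R) v / 2 ^ 20
def Bw (R : Fin 3) (v : List ℚ) : ℚ := dz (c.B R) v / 2 ^ 20
def qf (R : Fin 3) (v : List ℚ) : ℚ := dq (mv (c.W R) v) (mv (c.W R) v) / 2 ^ 72

def rowLin (α β γ : ℤ) (cv : List ℤ) : List (List ℤ) → List ℤ → List ℤ → List ℤ
  | f :: F, a :: A, b :: B => (α * dot cv f + β * a + γ * b) :: rowLin α β γ cv F A B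
  | _, _, _ => []

theorem dz_rowLin (α β γ : ℤ) (cv : List ℤ) : ∀ (F : List (List ℤ)) (A B : List ℤ) (v : List ℚ),
    F.length = A.length → F.length = B.length →
    dz (rowLin α β γ cv F A B) v = α * dz cv (lcq v F) + β * dz A v + γ * dz B v
  | _, _, _, [], _, _ => by simp
  | [], [], [], _ :: _, _, _ => by simp [rowLin]
  | [], _ :: _, _, _ :: _, h, _ => by simp at h
  | [], [], _ :: _, _ :: _, _, h => by simp at h
  | _ :: _, [], _, _ :: _, h, _ => by simp at h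
  | _ :: _, _ :: _, [], _ :: _, _, h => by simp at h
  | f :: F, a :: A, b :: B, x :: v, h1, h2 => by
    have ih := dz_rowLin α β γ cv F A B v (by simpa using h1) (by simpa using h2)
    rw [dz_lcq] at ih ⊢
    simp only [rowLin, List.map_cons, dz_cons, ih]
    push_cast; ring

def uRows (W F : List (List ℤ)) : List (List ℤ) := W.map fun w => F.map fun f => 9 * dot w f

def negRows (R : Fin 3) : List (List ℤ) :=
  uRows (c.W (r1 R)) (c.F1 R) ++ (uRows (c.W (r2 R)) (c.F2 R) ++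
  [rowLin 1638400 (-1638400 * c.D) (-819200 * s1 R * c.D) (c.A (r1 R)) (c.F1 R) (c.A R) (c.B R),
   rowLin 1638400 0 (819200 * c.D) (c.B (r1 R)) (c.F1 R) (c.A R) (c.B R),
   rowLin 524288 (-524288 * c.D) (-262144 * s1 R * c.D) [1048576] (c.b1 R) (c.A R) (c.B R),
   rowLin 1638400 (-1638400 * c.D) (-819200 * s2 R * c.D) (c.A (r2 R)) (c.F2 R) (c.A R) (c.B R),
   rowLin 1638400 0 (819200 * c.D) (c.B (r2 R)) (c.F2 R) (c.A R) (c.B R),
   rowLin 524288 (-524288 * c.D) (-262144 * s2 R * c.D) [1048576] (c.b2 R) (c.A R) (c.B R)])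

structure Cert.Lyap (c : Cert) : Prop where
  l1 : ∀ R, (c.F1 R).length = (c.A R).length
  l2 : ∀ R, (c.F2 R).length = (c.A R).length
  l3 : ∀ R, (c.b1 R).length = (c.A R).length
  l4 : ∀ R, (c.b2 R).length = (c.A R).length
  l5 : ∀ R, (c.B R).length = (c.A R).length
  dom : ∀ R, ∃ C : List (List ℤ × List ℤ), tr 29 (c.W R) = C.map Prod.fst ∧
    tr 29 (negRows c R) = C.map Prod.snd ∧ chkDom (64 * c.D ^ 2) C = true

theorem dq_append : ∀ x y : List ℚ, dq (x ++ y) (x ++ y) = dq x x + dq y y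
  | [], _ => by simp
  | a :: x, y => by simp [dq_append x y, add_assoc]

theorem dq_self_nonneg : ∀ x : List ℚ, 0 ≤ dq x x
  | [] => by simp
  | a :: x => by rw [dq_cons]; nlinarith [dq_self_nonneg x, mul_self_nonneg a]

theorem dz_map_mul (k : ℤ) (g : List ℤ → ℤ) : ∀ (F : List (List ℤ)) (v : List ℚ),
    dz (F.map fun f => k * g f) v = k * dz (F.map g) v
  | [], _ => by simp
  | _ :: _, [] => by simp
  | f :: F, x :: v => by simp only [List.map_cons, dz_cons, dz_map_mul k g F v]; push_cast; ring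

theorem dq_uRows (hD : c.D ≠ 0) (F : List (List ℤ)) (v : List ℚ) : ∀ W : List (List ℤ),
    dq (mv (uRows W F) v) (mv (uRows W F) v) =
      81 * c.D ^ 2 * dq (mv W (ch c F v)) (mv W (ch c F v))
  | [] => by simp [uRows, mv]
  | w :: W => by
    have ih := dq_uRows hD F v W
    have hD' : (c.D : ℚ) ≠ 0 := by exact_mod_cast hD
    simp only [uRows, mv, List.map_cons, dq_cons] at ih ⊢
    rw [ih, dz_map_mul, ← dz_lcq, ch, dz_map_div]
    field_simp; push_cast; ring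

theorem qf_nonneg (R : Fin 3) (v : List ℚ) : 0 ≤ qf c R v :=
  div_nonneg (dq_self_nonneg _) (by positivity)

theorem lyap (hD : c.D ≠ 0) (h : c.Lyap) (R : Fin 3) (v : List ℚ) (hv : v.length ≤ 29) :
    81 / 64 * (qf c (r1 R) (ch c (c.F1 R) v) + qf c (r2 R) (ch c (c.F2 R) v)) +
      625 / 64 * ((Av c (r1 R) (ch c (c.F1 R) v) - Av c R v - s1 R / 2 * Bw c R v) ^ 2 +
        (Bw c (r1 R) (ch c (c.F1 R) v) + Bw c R v / 2) ^ 2 +
        (Av c (r2 R) (ch c (c.F2 R) v) - Av c R v - s2 R / 2 * Bw c R v) ^ 2 +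
        (Bw c (r2 R) (ch c (c.F2 R) v) + Bw c R v / 2) ^ 2) +
      (bv c (c.b1 R) v - Av c R v - s1 R / 2 * Bw c R v) ^ 2 +
      (bv c (c.b2 R) v - Av c R v - s2 R / 2 * Bw c R v) ^ 2 ≤ qf c R v := by
  obtain ⟨C, h1, h2, h3⟩ := h.dom R
  have k := chkDom_sound _ 29 _ _ C h1 h2 h3 v hv
  have hD' : (c.D : ℚ) ≠ 0 := by exact_mod_cast hD
  have hpos : (0 : ℚ) < (c.D : ℚ) ^ 2 := by positivity
  have e : ∀ x y : List (List ℤ), mv (x ++ y) v = mv x v ++ mv y v := fun x y => List.map_append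
  have e2 : ∀ l : List ℚ, dz [1048576] l = 1048576 * dz [1] l := fun l => by cases l <;> simp
  rw [negRows, e, e, dq_append, dq_append, dq_uRows c hD, dq_uRows c hD] at k
  simp only [mv, List.map_cons, List.map_nil, dq_cons, dq_nil_left] at k
  rw [dz_rowLin _ _ _ _ _ _ _ _ (h.l1 R) ((h.l1 R).trans (h.l5 R).symm),
    dz_rowLin _ _ _ _ _ _ _ _ (h.l1 R) ((h.l1 R).trans (h.l5 R).symm),
    dz_rowLin _ _ _ _ _ _ _ _ (h.l3 R) ((h.l3 R).trans (h.l5 R).symm),
    dz_rowLin _ _ _ _ _ _ _ _ (h.l2 R) ((h.l2 R).trans (h.l5 R).symm),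
    dz_rowLin _ _ _ _ _ _ _ _ (h.l2 R) ((h.l2 R).trans (h.l5 R).symm),
    dz_rowLin _ _ _ _ _ _ _ _ (h.l4 R) ((h.l4 R).trans (h.l5 R).symm), e2, e2] at k
  simp only [qf, Av, Bw, bv, mv]
  generalize dq (List.map (fun r => dz r (ch c (c.F1 R) v)) (c.W (r1 R)))
    (List.map (fun r => dz r (ch c (c.F1 R) v)) (c.W (r1 R))) = q1 at k ⊢
  generalize dq (List.map (fun r => dz r (ch c (c.F2 R) v)) (c.W (r2 R)))
    (List.map (fun r => dz r (ch c (c.F2 R) v)) (c.W (r2 R))) = q2 at k ⊢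
  generalize dq (List.map (fun r => dz r v) (c.W R)) (List.map (fun r => dz r v) (c.W R)) = q at k ⊢
  simp only [ch, dz_map_div]
  push_cast at k
  refine le_of_mul_le_mul_left ?_ (show (0 : ℚ) < 2 ^ 78 * (c.D : ℚ) ^ 2 by positivity)
  refine le_of_eq_of_le ?_ (k.trans_eq ?_)
  · field_simp; ring
  · ring

theorem step_bound (a b a' b' s q t : ℚ) (hs : s = 1 ∨ s = -1) (ht : 0 ≤ t) (hq : 0 ≤ q)
    (h : 81 / 64 * q + 625 / 64 * ((a' - a - s / 2 * b) ^ 2 + (b' + b / 2) ^ 2) ≤ t ^ 2) :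
    ∃ t', 0 ≤ t' ∧ q ≤ t' ^ 2 ∧ |a'| + |b'| + t' ≤ |a| + |b| + t := by
  set x := |a' - a - s / 2 * b| with hx
  set y := |b' + b / 2| with hy
  have hx0 : 0 ≤ x := abs_nonneg _
  have hy0 : 0 ≤ y := abs_nonneg _
  rw [← sq_abs (a' - a - s / 2 * b), ← sq_abs (b' + b / 2), ← hx, ← hy] at h
  have h2 : 81 / 64 * q + 625 / 128 * (x + y) ^ 2 ≤ t ^ 2 := by nlinarith [sq_nonneg (x - y)]
  have h3 : x + y ≤ t := by
    by_contra hc
    push Not at hc
    nlinarith
  refine ⟨t - (x + y), by linarith, ?_, ?_⟩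
  · nlinarith [sq_nonneg (17 * t - 81 * (x + y)), sq_nonneg (x + y)]
  · have e1 : |a'| ≤ x + |a| + |b| / 2 := by
      have : a' = (a' - a - s / 2 * b) + a + s / 2 * b := by ring
      have e : |s / 2 * b| = |b| / 2 := by
        rcases hs with rfl | rfl <;> rw [abs_mul] <;> norm_num [abs_of_neg] <;> ring
      calc |a'| = |(a' - a - s / 2 * b) + a + s / 2 * b| := by rw [← this]
        _ ≤ _ := by rw [← e]; exact abs_add_three _ _ _
    have e2 : |b'| ≤ y + |b| / 2 := by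
      have : b' = (b' + b / 2) - b / 2 := by ring
      calc |b'| = |(b' + b / 2) - b / 2| := by rw [← this]
        _ ≤ y + |b / 2| := abs_sub _ _
        _ = _ := by rw [abs_div]; norm_num
    linarith

theorem base_bound (a b z s t : ℚ) (hs : s = 1 ∨ s = -1) (ht : 0 ≤ t)
    (h : (z - a - s / 2 * b) ^ 2 ≤ t ^ 2) : |z| ≤ |a| + |b| + t := by
  have h1 := abs_le_of_sq_le_sq' h ht
  have h2 := abs_nonneg b
  rw [abs_le]
  rcases hs with rfl | rfl <;> constructor <;>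
    linarith [h1.1, h1.2, le_abs_self a, neg_abs_le a, le_abs_self b, neg_abs_le b]

theorem s1_or (R : Fin 3) : ((s1 R : ℤ) : ℚ) = 1 ∨ ((s1 R : ℤ) : ℚ) = -1 := by
  fin_cases R <;> simp [s1]
theorem s2_or (R : Fin 3) : ((s2 R : ℤ) : ℚ) = 1 ∨ ((s2 R : ℤ) : ℚ) = -1 := by
  fin_cases R <;> simp [s2]

theorem G_cases (n : ℕ) (R : Fin 3) (v : List ℚ) (p : Pt (n + 2)) (M : ℚ) (hM : 0 ≤ M)
    (h1 : |G c n (r1 R) (ch c (c.F1 R) v) (tl p)| ≤ M)
    (h2 : |G c n (r2 R) (ch c (c.F2 R) v) (tl p)| ≤ M) : |G c (n + 1) R v p| ≤ M := by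
  simp only [G]
  by_cases e : reg (tl p) = r1 R
  · rw [G_supp c n (r2 R) _ _ (by rw [e]; exact r1_ne R)]
    split_ifs <;> simpa
  · rw [G_supp c n (r1 R) _ _ e]
    split_ifs <;> simpa

theorem split_ineq (q1 q2 a1 b1 a2 b2 c1 c2 q : ℚ) (h1 : 0 ≤ q1) (h2 : 0 ≤ q2)
    (h : 81 / 64 * (q1 + q2) + 625 / 64 * (a1 ^ 2 + b1 ^ 2 + a2 ^ 2 + b2 ^ 2) + c1 ^ 2 + c2 ^ 2 ≤ q) :
    81 / 64 * q1 + 625 / 64 * (a1 ^ 2 + b1 ^ 2) ≤ q ∧ 81 / 64 * q2 + 625 / 64 * (a2 ^ 2 + b2 ^ 2) ≤ q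
      ∧ c1 ^ 2 ≤ q ∧ c2 ^ 2 ≤ q := by
  have := sq_nonneg a1; have := sq_nonneg b1; have := sq_nonneg a2; have := sq_nonneg b2
  have := sq_nonneg c1; have := sq_nonneg c2
  refine ⟨?_, ?_, ?_, ?_⟩ <;> linarith

theorem G_bound (hl : c.Lin) (h : c.Lyap) : ∀ (n : ℕ) (R : Fin 3) (v : List ℚ) (t : ℚ),
    v.length ≤ 29 → 0 ≤ t → qf c R v ≤ t ^ 2 → ∀ p, |G c n R v p| ≤ |Av c R v| + |Bw c R v| + t
  | 0, R, v, t, hv, ht, hq, p => by
    have k := split_ineq _ _ _ _ _ _ _ _ _ (qf_nonneg c _ _) (qf_nonneg c _ _)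
      (lyap c hl.hD h R v hv)
    have h1 := base_bound _ _ _ _ t (s1_or R) ht (k.2.2.1.trans hq)
    have h2 := base_bound _ _ _ _ t (s2_or R) ht (k.2.2.2.trans hq)
    have h0 : 0 ≤ |Av c R v| + |Bw c R v| + t := by positivity
    simp only [G, ind]
    by_cases e : reg (tl p) = r1 R
    · have e2 : reg (tl p) ≠ r2 R := by rw [e]; exact r1_ne R
      rw [if_pos e, if_neg e2]
      split_ifs <;> simpa
    · rw [if_neg e]
      split_ifs <;> simpa
  | n + 1, R, v, t, hv, ht, hq, p => by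
    have k := split_ineq _ _ _ _ _ _ _ _ _ (qf_nonneg c _ _) (qf_nonneg c _ _)
      (lyap c hl.hD h R v hv)
    obtain ⟨t1, a1, a2, a3⟩ := step_bound _ _ _ _ _ _ t (s1_or R) ht (qf_nonneg c _ _) (k.1.trans hq)
    obtain ⟨t2, b1, b2, b3⟩ :=
      step_bound _ _ _ _ _ _ t (s2_or R) ht (qf_nonneg c _ _) (k.2.1.trans hq)
    exact G_cases c n R v p _ (by positivity)
      ((G_bound hl h n _ _ t1 (ch_length c _ (hl.len1 R) v) a1 a2 _).trans a3)
      ((G_bound hl h n _ _ t2 (ch_length c _ (hl.len2 R) v) b1 b2 _).trans b3)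

def vaddz : List ℤ → List ℤ → List ℤ
  | a :: l, b :: m => (a + b) :: vaddz l m
  | [], m => m
  | l, [] => l

def lcz : List ℤ → List (List ℤ) → List ℤ
  | a :: l, f :: M => vaddz (f.map fun z => a * z) (lcz l M)
  | _, _ => []

def emb (den : ℤ) (v : List ℤ) : List ℚ := v.map fun z : ℤ => (z : ℚ) / den

theorem emb_vaddz (den : ℤ) : ∀ l m : List ℤ, emb den (vaddz l m) = vadd (emb den l) (emb den m)
  | [], m => by cases m <;> simp [emb, vaddz]
  | _ :: _, [] => by simp [emb, vaddz]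
  | a :: l, b :: m => by
    have ih := emb_vaddz den l m
    simp only [emb, vaddz, List.map_cons, vadd_cons] at ih ⊢
    rw [ih]; push_cast; rw [add_div]

theorem lcq_emb (den : ℤ) : ∀ (v : List ℤ) (M : List (List ℤ)), lcq (emb den v) M = emb den (lcz v M)
  | [], M => by cases M <;> simp [emb, lcz]
  | _ :: _, [] => by simp [emb, lcz]
  | a :: v, f :: M => by
    have ih := lcq_emb den v M
    rw [lcz, emb_vaddz, ← ih]
    simp only [emb, List.map_cons, lcq_cons, List.map_map]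
    congr 1
    refine List.map_congr_left fun z _ => ?_
    simp only [Function.comp]; push_cast; ring

theorem ch_emb (den : ℤ) (v : List ℤ) (F : List (List ℤ)) :
    ch c F (emb den v) = emb (den * c.D) (lcz v F) := by
  rw [ch, lcq_emb]
  simp only [emb, List.map_map]
  refine List.map_congr_left fun z _ => ?_
  simp only [Function.comp]; push_cast; rw [div_div]

theorem dz_emb (den : ℤ) (a v : List ℤ) : dz a (emb den v) = (dot a v : ℚ) / den := by
  rw [← dz_cast, ← dz_map_div, emb, List.map_map]; rfl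

def ssq (v : List ℤ) : List (List ℤ) → ℕ
  | [] => 0
  | w :: W => (dot w v).natAbs ^ 2 + ssq v W

theorem dq_ssq (den : ℤ) (v : List ℤ) : ∀ W : List (List ℤ),
    dq (mv W (emb den v)) (mv W (emb den v)) = (ssq v W : ℚ) / den ^ 2
  | [] => by simp [mv, ssq]
  | w :: W => by
    have ih := dq_ssq den v W
    simp only [mv, List.map_cons, dq_cons, ssq] at ih ⊢
    rw [ih, dz_emb]
    push_cast
    rw [Nat.cast_natAbs, Int.cast_abs, sq_abs]; ring

inductive Tr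
  | leaf (v : List ℤ) : Tr
  | node (v : List ℤ) (l r : Tr) : Tr

def Tr.root : Tr → List ℤ
  | leaf v => v
  | node v _ _ => v

def Tr.depth : Tr → ℕ
  | leaf _ => 0
  | node _ l r => max l.depth r.depth + 1

def leafOk (a b : ℤ) (den : ℤ) (ss : ℕ) : Bool :=
  decide (100 * (|a| + |b|) ≤ 48 * 2 ^ 20 * den) &&
    decide ((ss : ℤ) * (100 * 2 ^ 20) ^ 2 ≤ (48 * 2 ^ 20 * den - 100 * (|a| + |b|)) ^ 2 * 2 ^ 72)

def chkTr : Tr → Fin 3 → ℤ → Bool
  | .leaf v, R, den => leafOk (dot (c.A R) v) (dot (c.B R) v) den (ssq v (c.W R))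
  | .node v l r, R, den => decide (lcz v (c.F1 R) = l.root) && decide (lcz v (c.F2 R) = r.root) &&
      chkTr l (r1 R) (den * c.D) && chkTr r (r2 R) (den * c.D)

theorem chkTr_sound (hl : c.Lin) (h : c.Lyap) (hD : 0 < c.D) : ∀ (t : Tr) (n : ℕ) (R : Fin 3)
    (den : ℤ), 0 < den → t.root.length ≤ 29 → t.depth ≤ n → chkTr c t R den = true →
    ∀ p, |G c n R (emb den t.root) p| ≤ 48 / 100
  | .leaf v, n, R, den, hden, hv, _, hc, p => by
    simp only [chkTr, leafOk, Bool.and_eq_true, decide_eq_true_eq] at hc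
    obtain ⟨h1, h2⟩ := hc
    have hd : (0 : ℚ) < den := by exact_mod_cast hden
    have h1' : (100 : ℚ) * (|(dot (c.A R) v : ℚ)| + |(dot (c.B R) v : ℚ)|) ≤ 48 * 2 ^ 20 * den := by
      exact_mod_cast h1
    have h2' : (ssq v (c.W R) : ℚ) * (100 * 2 ^ 20) ^ 2 ≤
        (48 * 2 ^ 20 * den - 100 * (|(dot (c.A R) v : ℚ)| + |(dot (c.B R) v : ℚ)|)) ^ 2 * 2 ^ 72 := by
      exact_mod_cast h2
    have k := G_bound c hl h n R (emb den v)
      ((48 * 2 ^ 20 * den - 100 * (|(dot (c.A R) v : ℚ)| + |(dot (c.B R) v : ℚ)|)) /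
        (100 * 2 ^ 20 * den)) (by simpa [emb, Tr.root] using hv)
      (div_nonneg (by linarith) (by positivity)) (by
        rw [qf, dq_ssq, div_pow, div_div, div_le_div_iff₀ (by positivity) (by positivity)]
        nlinarith [mul_le_mul_of_nonneg_right h2' (sq_nonneg (den : ℚ))]) p
    refine k.trans (le_of_eq ?_)
    rw [Av, Bw, dz_emb, dz_emb, abs_div, abs_div, abs_div, abs_div, abs_of_pos hd,
      abs_of_pos (show (0 : ℚ) < 2 ^ 20 by positivity)]
    field_simp; ring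
  | .node v l r, 0, R, den, _, _, hn, _, p => by simp [Tr.depth] at hn
  | .node v l r, n + 1, R, den, hden, hv, hn, hc, p => by
    simp only [chkTr, Bool.and_eq_true, decide_eq_true_eq] at hc
    obtain ⟨⟨⟨e1, e2⟩, c1⟩, c2⟩ := hc
    simp only [Tr.depth, Nat.add_le_add_iff_right, max_le_iff] at hn
    have l1 := ch_length c _ (hl.len1 R) (emb den v)
    have l2 := ch_length c _ (hl.len2 R) (emb den v)
    rw [ch_emb, e1] at l1
    rw [ch_emb, e2] at l2
    refine G_cases c n R _ p _ (by norm_num) ?_ ?_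
    · rw [Tr.root, ch_emb, e1]
      exact chkTr_sound hl h hD l n _ _ (mul_pos hden hD) (by simpa [emb] using l1) hn.1 c1 _
    · rw [Tr.root, ch_emb, e2]
      exact chkTr_sound hl h hD r n _ _ (mul_pos hden hD) (by simpa [emb] using l2) hn.2 c2 _

end Pool.Agent.P749578
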