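import Pool.Agent.P.MP_749578_co.Cross

namespace Pool.Agent.P749578

open Finset

section

variable {V : Type} [Fintype V] (G : SimpleGraph V) (f : V → ℕ)

theorem bridge_le_max (v : V) : closedSum G f v ≤ maxSum G f :=
  le_csSup (Set.finite_range _).bddAbove ⟨v, rfl⟩

theorem bridge_min_le (v : V) : minSum G f ≤ closedSum G f v := Nat.sInf_le ⟨v, rfl⟩

theorem bridge_max [Nonempty V] : ∃ v, closedSum G f v = maxSum G f :=
  (Set.range_nonempty _).csSup_mem (Set.finite_range _)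

theorem bridge_min [Nonempty V] : ∃ v, closedSum G f v = minSum G f :=
  Nat.sInf_mem (Set.range_nonempty _)

theorem bridge_lab {f : V → ℕ} (hi : Function.Injective f)
    (h : ∀ v, 1 ≤ f v ∧ f v ≤ Fintype.card V) : IsLabeling f :=
  have hm : Set.MapsTo f Set.univ (Set.Icc 1 (Fintype.card V)) := fun v _ => h v
  ⟨hm, hi.injOn, (Set.eq_of_subset_of_ncard_le hm.image_subset
    (by simp [Set.ncard_range_of_injective hi]) (Set.finite_Icc _ _)).ge⟩

end

theorem closedSum_rook (k : ℕ) (f : Fin k × Fin k → ℕ) (a b : Fin k) :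
    (closedSum (rook k) f (a, b) : ℝ) = cross f a b := by
  have h0 : ∀ x y, (x, y) = (a, b) ∨ (rook k).Adj (x, y) (a, b) ↔ x = a ∨ y = b := fun x y => by
    by_cases h1 : x = a <;> by_cases h2 : y = b <;> simp [rook, h1, h2]
  have h : ∀ x y, (if x = a ∨ y = b then (f (x, y) : ℝ) else 0) =
      (if x = a then (f (x, y) : ℝ) else 0) + (if y = b then (f (x, y) : ℝ) else 0) -
        if y = b then (if x = a then (f (x, y) : ℝ) else 0) else 0 := fun x y => by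
    by_cases h1 : x = a <;> by_cases h2 : y = b <;> simp [h1, h2]
  rw [closedSum, Nat.cast_sum, sum_filter, Fintype.sum_prod_type]
  simp only [h0, h, sum_sub_distrib, sum_add_distrib, sum_ite_eq', mem_univ, if_true]
  rw [sum_comm]
  simp [cross]

theorem exists_labeling (k : ℕ) : ∃ f : Fin k × Fin k → ℕ, IsLabeling f := by
  refine ⟨fun v => (finProdFinEquiv v).val + 1, bridge_lab (fun v w h => ?_) fun v => ?_⟩
  · exact finProdFinEquiv.injective (Fin.ext (Nat.succ_injective h))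
  · exact ⟨Nat.succ_pos _, by simpa using (finProdFinEquiv v).2⟩

theorem NSsp_le (k : ℕ) (hk : 0 < k) (f : Fin k × Fin k → ℕ) (hf : IsLabeling f) (X Y : ℝ)
    (h : ∀ a b, X ≤ cross f a b ∧ cross f a b ≤ Y) : (NSsp (rook k) : ℝ) ≤ Y - X := by
  have : NeZero k := ⟨hk.ne'⟩
  obtain ⟨⟨a, b⟩, h1⟩ := bridge_max (rook k) f
  obtain ⟨⟨c, d⟩, h2⟩ := bridge_min (rook k) f
  have h3 : NSsp (rook k) ≤ maxSum (rook k) f - minSum (rook k) f := Nat.sInf_le ⟨f, hf, rfl⟩
  have h4 := (bridge_min_le (rook k) f (a, b)).trans h1.le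
  refine (Nat.cast_le.2 h3).trans ?_
  rw [Nat.cast_sub h4, ← h1, ← h2, closedSum_rook, closedSum_rook]
  exact sub_le_sub (h a b).2 (h c d).1

theorem le_NSsp (k : ℕ) (hk : 0 < k) (S : ℝ)
    (h : ∀ f : Fin k × Fin k → ℕ, IsLabeling f → ∀ X Y : ℝ,
      (∀ a b, X ≤ cross f a b ∧ cross f a b ≤ Y) → S ≤ Y - X) : S ≤ (NSsp (rook k) : ℝ) := by
  obtain ⟨g, hg⟩ := exists_labeling k
  obtain ⟨f, hf, h1⟩ : NSsp (rook k) ∈ {s | ∃ f, IsLabeling f ∧
    s = maxSum (rook k) f - minSum (rook k) f} := Nat.sInf_mem ⟨_, g, hg, rfl⟩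
  rw [h1, Nat.cast_sub ((bridge_min_le _ f (⟨0, hk⟩, ⟨0, hk⟩)).trans (bridge_le_max _ f _))]
  refine h f hf _ _ fun a b => ?_
  rw [← closedSum_rook]
  exact ⟨Nat.cast_le.2 (bridge_min_le _ _ _), Nat.cast_le.2 (bridge_le_max _ _ _)⟩

theorem NS_le (k : ℕ) (hk : 0 < k) (f : Fin k × Fin k → ℕ) (hf : IsLabeling f) (Y : ℝ)
    (h : ∀ a b, cross f a b ≤ Y) : (NS (rook k) : ℝ) ≤ Y := by
  have : NeZero k := ⟨hk.ne'⟩
  obtain ⟨⟨a, b⟩, h1⟩ := bridge_max (rook k) f
  have h3 : NS (rook k) ≤ maxSum (rook k) f := Nat.sInf_le ⟨f, hf, rfl⟩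
  refine (Nat.cast_le.2 h3).trans ?_
  rw [← h1, closedSum_rook]
  exact h a b

theorem le_NS (k : ℕ) (hk : 0 < k) (S : ℝ)
    (h : ∀ f : Fin k × Fin k → ℕ, IsLabeling f → ∀ Y : ℝ, (∀ a b, cross f a b ≤ Y) → S ≤ Y) :
    S ≤ (NS (rook k) : ℝ) := by
  obtain ⟨g, hg⟩ := exists_labeling k
  obtain ⟨f, hf, h1⟩ : NS (rook k) ∈ {s | ∃ f, IsLabeling f ∧ s = maxSum (rook k) f} :=
    Nat.sInf_mem ⟨_, g, hg, rfl⟩
  rw [h1]
  refine h f hf _ fun a b => ?_
  rw [← closedSum_rook]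
  exact Nat.cast_le.2 (bridge_le_max _ _ _)

theorem NSminus_add_NS (k : ℕ) (hk : 0 < k) :
    NSminus (rook k) + NS (rook k) = (2 * k - 1) * (k ^ 2 + 1) := by
  have : NeZero k := ⟨hk.ne'⟩
  have hc : Fintype.card (Fin k × Fin k) = k ^ 2 := by simp [sq]
  have key : ∀ f : Fin k × Fin k → ℕ, IsLabeling f → ∃ g, IsLabeling g ∧
      ∀ v, closedSum (rook k) f v + closedSum (rook k) g v = (2 * k - 1) * (k ^ 2 + 1) := by
    intro f hf
    have h1 : ∀ v, 1 ≤ f v ∧ f v ≤ k ^ 2 := fun v => hc ▸ hf.mapsTo (Set.mem_univ v)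
    refine ⟨fun v => k ^ 2 + 1 - f v, bridge_lab (fun v w h => hf.injOn trivial trivial ?_)
      fun v => ?_, fun ⟨a, b⟩ => Nat.cast_injective (R := ℝ) ?_⟩
    · have := h1 v
      have := h1 w
      omega
    · have := h1 v
      omega
    · have h2 : ∀ v, ((k ^ 2 + 1 - f v : ℕ) : ℝ) = k ^ 2 + 1 - f v := fun v => by
        rw [Nat.cast_sub (Nat.le_succ_of_le (h1 v).2)]
        simp
      rw [Nat.cast_add, closedSum_rook, closedSum_rook, Nat.cast_mul, Nat.cast_pred (by omega)]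
      simp only [cross, h2, sum_sub_distrib, sum_const, card_univ, Fintype.card_fin, nsmul_eq_mul]
      push_cast
      ring
  obtain ⟨g, hg⟩ := exists_labeling k
  obtain ⟨f, hf, h1⟩ : NS (rook k) ∈ {s | ∃ f, IsLabeling f ∧ s = maxSum (rook k) f} :=
    Nat.sInf_mem ⟨_, g, hg, rfl⟩
  have h2 : ∀ f, IsLabeling f →
      minSum (rook k) f + NS (rook k) ≤ (2 * k - 1) * (k ^ 2 + 1) := fun f hf => by
    obtain ⟨g, hg, h⟩ := key f hf
    obtain ⟨v, hv⟩ := bridge_max (rook k) g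
    have h3 : NS (rook k) ≤ maxSum (rook k) g := Nat.sInf_le ⟨g, hg, rfl⟩
    exact (add_le_add (bridge_min_le _ f v) (h3.trans hv.ge)).trans (h v).le
  obtain ⟨f', hf', h3⟩ := key f hf
  obtain ⟨v, hv⟩ := bridge_min (rook k) f'
  have h4 := h3 v
  have h5 := bridge_le_max (rook k) f v
  have h6 := h2 f' hf'
  have h7 : NSminus (rook k) = minSum (rook k) f' := IsGreatest.csSup_eq ⟨⟨f', hf', rfl⟩, by
    rintro _ ⟨g, hg, rfl⟩
    have := h2 g hg
    omega⟩
  omega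

theorem labeling_transfer {I : Type} [Fintype I] (K : ℕ) (hI : Fintype.card I = K)
    (f : I × I → ℕ) (hinj : Function.Injective f) (hlt : ∀ v, f v < K ^ 2) :
    ∃ g : Fin K × Fin K → ℕ, IsLabeling g ∧
      ∀ a b, ∃ u v, cross g a b = cross f u v + (2 * (K : ℝ) - 1) := by
  set e := (Fintype.equivFinOfCardEq hI).symm
  refine ⟨fun v => f (e v.1, e v.2) + 1, bridge_lab (fun v w h => ?_) fun v => ?_,
    fun a b => ⟨e a, e b, ?_⟩⟩
  · have h1 := Prod.ext_iff.1 (hinj (Nat.succ_injective h))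
    exact Prod.ext (e.injective h1.1) (e.injective h1.2)
  · exact ⟨Nat.succ_pos _, by simpa [sq] using hlt (e v.1, e v.2)⟩
  · simp only [cross, Nat.cast_succ, sum_add_distrib, sum_const, card_univ, Fintype.card_fin,
      nsmul_eq_mul, e.sum_comp fun y => (f (e a, y) : ℝ), e.sum_comp fun x => (f (x, e b) : ℝ)]
    ring

end Pool.Agent.P749578
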