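import Mathlib

namespace Pool.Agent.P749578

set_option maxRecDepth 100000

def dF10 : List (List ℤ) :=
  [[.ofNat 396361728, .ofNat 0, .ofNat 0, .ofNat 0, .ofNat 0, .ofNat 0, .ofNat 0, .ofNat 0, .ofNat 0, .ofNat 0, .ofNat 0, .ofNat 0, .ofNat 0, .ofNat 0, .ofNat 0, .ofNat 0, .ofNat 0, .ofNat 0, .ofNat 0, .ofNat 0, .ofNat 0, .ofNat 0, .ofNat 0, .ofNat 0, .ofNat 0, .ofNat 0, .ofNat 0, .ofNat 0, .ofNat 0],
  [.ofNat 198180864, .negSucc 198180863, .ofNat 0, .ofNat 0, .ofNat 0, .ofNat 0, .ofNat 0, .ofNat 0, .ofNat 0, .ofNat 0, .ofNat 0, .ofNat 0, .ofNat 0, .ofNat 0, .ofNat 0, .ofNat 0, .ofNat 0, .ofNat 0, .ofNat 0, .ofNat 0, .ofNat 0, .ofNat 0, .ofNat 0, .ofNat 0, .ofNat 0, .ofNat 0, .ofNat 0, .ofNat 0, .ofNat 0],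
  [.ofNat 0, .ofNat 0, .ofNat 0, .negSucc 2339747759, .negSucc 305398799, .negSucc 1301327999, .ofNat 2032646112, .negSucc 80302658687, .ofNat 2883563424, .ofNat 0, .ofNat 0, .ofNat 0, .ofNat 0, .ofNat 0, .ofNat 0, .ofNat 438833304, .negSucc 612389735, .ofNat 0, .ofNat 0, .negSucc 173556431, .ofNat 0, .ofNat 0, .ofNat 0, .ofNat 0, .ofNat 0, .ofNat 0, .ofNat 0, .ofNat 0, .ofNat 0],
  [.ofNat 0, .ofNat 0, .ofNat 0, .negSucc 2383532239, .negSucc 1526664047, .negSucc 12548620223, .ofNat 3419317440, .negSucc 148220537471, .ofNat 3952960704, .ofNat 0, .ofNat 0, .ofNat 0, .ofNat 0, .ofNat 0, .ofNat 0, .ofNat 288463896, .negSucc 1261151639, .ofNat 0, .ofNat 0, .negSucc 972687743, .ofNat 0, .ofNat 0, .ofNat 0, .ofNat 0, .ofNat 0, .ofNat 0, .ofNat 0, .ofNat 0, .ofNat 0],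
  [.ofNat 0, .ofNat 0, .ofNat 0, .negSucc 28847, .ofNat 5040, .ofNat 76608, .ofNat 20160, .negSucc 123717887, .ofNat 32256, .ofNat 0, .ofNat 0, .ofNat 0, .ofNat 0, .ofNat 0, .ofNat 0, .negSucc 4535, .ofNat 504, .ofNat 0, .ofNat 0, .negSucc 4031, .ofNat 0, .ofNat 0, .ofNat 0, .ofNat 0, .ofNat 0, .ofNat 0, .ofNat 0, .ofNat 0, .ofNat 0],
  [.ofNat 0, .ofNat 0, .ofNat 0, .ofNat 56407232, .negSucc 4109951, .negSucc 34324415, .negSucc 36620639, .negSucc 105452927, .negSucc 80738783, .ofNat 0, .ofNat 0, .ofNat 0, .ofNat 0, .ofNat 0, .ofNat 0, .negSucc 6278327, .ofNat 9906120, .ofNat 0, .ofNat 0, .ofNat 3627792, .ofNat 0, .ofNat 0, .ofNat 0, .ofNat 0, .ofNat 0, .ofNat 0, .ofNat 0, .ofNat 0, .ofNat 0],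
  [.ofNat 0, .ofNat 0, .ofNat 0, .negSucc 269848991, .negSucc 376310591, .negSucc 3215552255, .ofNat 575106336, .negSucc 37447861247, .ofNat 500125248, .ofNat 0, .ofNat 0, .ofNat 0, .ofNat 0, .ofNat 0, .ofNat 0, .ofNat 6205248, .negSucc 163314647, .ofNat 0, .ofNat 0, .negSucc 157109399, .ofNat 0, .ofNat 0, .ofNat 0, .ofNat 0, .ofNat 0, .ofNat 0, .ofNat 0, .ofNat 0, .ofNat 0],
  [.ofNat 0, .ofNat 0, .ofNat 0, .ofNat 220982896, .ofNat 10544535120, .ofNat 90887311872, .negSucc 10753785503, .ofNat 906049912320, .negSucc 3684016223, .ofNat 0, .ofNat 0, .ofNat 0, .ofNat 0, .ofNat 0, .ofNat 0, .ofNat 595529424, .ofNat 3176460504, .ofNat 0, .ofNat 0, .ofNat 3771989928, .ofNat 0, .ofNat 0, .ofNat 0, .ofNat 0, .ofNat 0, .ofNat 0, .ofNat 0, .ofNat 0, .ofNat 0],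
  [.ofNat 0, .ofNat 0, .ofNat 0, .ofNat 6396480160, .negSucc 6138009023, .negSucc 51997853375, .ofNat 1792582848, .negSucc 502750039679, .negSucc 7243961759, .ofNat 0, .ofNat 0, .ofNat 0, .ofNat 0, .ofNat 0, .ofNat 0, .negSucc 1171221407, .negSucc 791551151, .ofNat 0, .ofNat 0, .negSucc 1962772559, .ofNat 0, .ofNat 0, .ofNat 0, .ofNat 0, .ofNat 0, .ofNat 0, .ofNat 0, .ofNat 0, .ofNat 0],
  [.ofNat 0, .ofNat 0, .ofNat 0, .ofNat 1142570656, .negSucc 526143407, .negSucc 4572533951, .negSucc 213747407, .negSucc 41259601151, .negSucc 1298088287, .ofNat 0, .ofNat 0, .ofNat 0, .ofNat 0, .ofNat 0, .ofNat 0, .negSucc 218045519, .negSucc 36355031, .ofNat 0, .ofNat 0, .negSucc 254400551, .ofNat 0, .ofNat 0, .ofNat 0, .ofNat 0, .ofNat 0, .ofNat 0, .ofNat 0, .ofNat 0, .ofNat 0],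
  [.ofNat 0, .ofNat 0, .ofNat 0, .negSucc 4015, .negSucc 4703, .negSucc 76607, .ofNat 7056, .ofNat 125435520, .ofNat 24192, .ofNat 0, .ofNat 0, .ofNat 0, .ofNat 0, .ofNat 0, .ofNat 0, .ofNat 6048, .negSucc 12599, .ofNat 0, .ofNat 0, .negSucc 6551, .ofNat 0, .ofNat 0, .ofNat 0, .ofNat 0, .ofNat 0, .ofNat 0, .ofNat 0, .ofNat 0, .ofNat 0],
  [.ofNat 0, .ofNat 0, .ofNat 0, .negSucc 353463599, .ofNat 71596224, .ofNat 627879168, .ofNat 866504016, .ofNat 230380416, .ofNat 1848645792, .ofNat 0, .ofNat 0, .ofNat 0, .ofNat 0, .ofNat 0, .ofNat 0, .ofNat 201292560, .ofNat 32243400, .ofNat 55738368, .ofNat 445906944, .ofNat 159218136, .negSucc 594542591, .ofNat 148635648, .ofNat 0, .ofNat 0, .ofNat 0, .ofNat 55738368, .ofNat 0, .ofNat 0, .ofNat 0],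
  [.ofNat 0, .ofNat 0, .ofNat 0, .negSucc 2663159615, .ofNat 3277395072, .ofNat 32777789184, .ofNat 13601141568, .ofNat 259342134912, .ofNat 30477758976, .ofNat 0, .ofNat 0, .ofNat 0, .ofNat 0, .ofNat 0, .ofNat 0, .ofNat 3111898608, .ofNat 3860302824, .negSucc 1560674303, .negSucc 12485394431, .ofNat 729504216, .negSucc 24970788863, .ofNat 0, .negSucc 1560674303, .ofNat 0, .negSucc 6242697215, .ofNat 0, .ofNat 0, .ofNat 0, .ofNat 0],
  [.ofNat 0, .ofNat 0, .ofNat 0, .negSucc 19989207247, .ofNat 6394854144, .ofNat 58143544704, .ofNat 48715298352, .ofNat 186351967872, .ofNat 106727949216, .ofNat 0, .ofNat 0, .ofNat 0, .ofNat 0, .ofNat 0, .ofNat 0, .ofNat 11183922792, .ofNat 4606524216, .ofNat 780337152, .ofNat 6242697216, .ofNat 6426401184, .negSucc 37456183295, .ofNat 6242697216, .negSucc 780337151, .negSucc 1560674303, .negSucc 3121348607, .ofNat 0, .ofNat 0, .ofNat 0, .ofNat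 0],
  [.ofNat 0, .ofNat 0, .ofNat 0, .negSucc 7277497359, .ofNat 2397222240, .ofNat 22042593216, .ofNat 19018993392, .ofNat 79736323968, .ofNat 41400023616, .ofNat 0, .ofNat 0, .ofNat 0, .ofNat 0, .ofNat 0, .ofNat 0, .ofNat 4295179224, .ofNat 2265734520, .ofNat 0, .ofNat 0, .ofNat 2399115600, .negSucc 8323596287, .ofNat 2080899072, .ofNat 0, .negSucc 520224767, .negSucc 2080899071, .negSucc 390168575, .negSucc 130056191, .negSucc 24970788863, .negSucc 520224767],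
  [.ofNat 0, .ofNat 0, .ofNat 0, .ofNat 83936, .negSucc 136415, .negSucc 874943, .ofNat 86688, .negSucc 102549887, .negSucc 207647, .ofNat 0, .ofNat 0, .ofNat 0, .ofNat 0, .ofNat 0, .ofNat 0, .negSucc 5039, .negSucc 9071, .ofNat 0, .ofNat 0, .negSucc 14111, .ofNat 0, .ofNat 0, .ofNat 0, .ofNat 0, .ofNat 0, .ofNat 0, .ofNat 0, .ofNat 99090432, .ofNat 0],
  [.ofNat 0, .ofNat 0, .ofNat 0, .ofNat 189410352, .negSucc 78380063, .negSucc 855860543, .negSucc 680298191, .negSucc 2444504831, .negSucc 1402946495, .ofNat 0, .ofNat 0, .ofNat 0, .ofNat 0, .ofNat 0, .ofNat 0, .negSucc 143141543, .negSucc 75038039, .ofNat 0, .ofNat 0, .negSucc 69543935, .ofNat 396361728, .negSucc 99090431, .ofNat 0, .ofNat 0, .ofNat 0, .ofNat 0, .ofNat 0, .ofNat 0, .ofNat 0],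
  [.ofNat 0, .ofNat 0, .ofNat 0, .ofNat 2340758864, .negSucc 840163295, .negSucc 8236291391, .negSucc 5972642927, .negSucc 42439009535, .negSucc 9746771327, .ofNat 0, .ofNat 0, .ofNat 0, .ofNat 0, .ofNat 0, .ofNat 0, .negSucc 1161725039, .negSucc 374812703, .negSucc 130056191, .negSucc 1820786687, .negSucc 366032015, .ofNat 4161798144, .negSucc 1040449535, .ofNat 0, .ofNat 0, .ofNat 0, .ofNat 0, .ofNat 0, .ofNat 0, .ofNat 0],
  [.negSucc 693633023, .negSucc 1387266047, .ofNat 0, .ofNat 2339950512, .negSucc 962413199, .negSucc 10019128895, .negSucc 8339258591, .negSucc 31010587775, .negSucc 17096615423, .ofNat 0, .ofNat 0, .negSucc 346816511, .ofNat 0, .ofNat 0, .ofNat 346816512, .negSucc 1644737975, .negSucc 1164112991, .ofNat 86704128, .ofNat 606928896, .negSucc 944712215, .ofNat 4161798144, .negSucc 1040449535, .negSucc 173408255, .negSucc 173408255, .ofNat 0, .ofNat 0, .ofNat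 43352064, .ofNat 0, .ofNat 173408256],
  [.ofNat 16515072, .ofNat 33030144, .ofNat 0, .ofNat 77744, .negSucc 74927, .negSucc 431423, .ofNat 16551360, .negSucc 6556031, .negSucc 161279, .ofNat 0, .ofNat 0, .ofNat 8257536, .ofNat 0, .ofNat 0, .negSucc 8257535, .ofNat 4032, .ofNat 4105080, .negSucc 1032191, .ofNat 0, .negSucc 19655, .ofNat 0, .ofNat 0, .ofNat 4128768, .ofNat 4128768, .ofNat 0, .ofNat 0, .negSucc 1032191, .ofNat 0, .negSucc 4128767],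
  [.ofNat 0, .ofNat 0, .ofNat 0, .ofNat 58577168, .ofNat 36827952, .ofNat 452467008, .ofNat 202430592, .ofNat 2584310400, .ofNat 399595392, .ofNat 99090432, .ofNat 0, .ofNat 0, .ofNat 0, .ofNat 0, .ofNat 0, .negSucc 11211983, .ofNat 24860808, .ofNat 0, .ofNat 0, .ofNat 13648824, .ofNat 0, .ofNat 99090432, .ofNat 0, .ofNat 0, .ofNat 0, .ofNat 0, .ofNat 0, .ofNat 0, .ofNat 0],
  [.ofNat 198180864, .ofNat 0, .ofNat 0, .ofNat 1270784, .negSucc 639407, .negSucc 3915071, .negSucc 93743, .negSucc 50948351, .negSucc 2066399, .ofNat 0, .ofNat 0, .ofNat 0, .ofNat 0, .ofNat 0, .ofNat 0, .ofNat 250992, .negSucc 470735, .ofNat 0, .ofNat 0, .negSucc 219743, .ofNat 0, .ofNat 0, .ofNat 0, .ofNat 0, .ofNat 0, .ofNat 0, .ofNat 0, .ofNat 0, .ofNat 0],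
  [.ofNat 0, .ofNat 0, .ofNat 0, .ofNat 4841480112, .negSucc 1250441135, .negSucc 14432818175, .negSucc 15055804511, .negSucc 7976271743, .negSucc 30397846751, .ofNat 0, .ofNat 0, .ofNat 0, .ofNat 0, .ofNat 0, .ofNat 0, .negSucc 3077120591, .negSucc 1756216727, .ofNat 0, .ofNat 0, .negSucc 1711988711, .ofNat 8323596288, .negSucc 2080899071, .ofNat 0, .ofNat 0, .ofNat 0, .ofNat 0, .ofNat 0, .ofNat 0, .ofNat 0],
  [.ofNat 0, .ofNat 0, .ofNat 0, .negSucc 2687536671, .ofNat 910401072, .ofNat 34342281792, .ofNat 33603799824, .negSucc 152647238015, .ofNat 55498865184, .ofNat 6242697216, .ofNat 0, .ofNat 0, .negSucc 2080899071, .ofNat 0, .ofNat 0, .ofNat 5359855536, .ofNat 4421521944, .negSucc 1040449535, .negSucc 6242697215, .ofNat 2498230728, .negSucc 8323596287, .ofNat 8323596288, .ofNat 0, .ofNat 0, .ofNat 0, .negSucc 780337151, .negSucc 260112383, .ofNat 0, .ofNat 0],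
  [.ofNat 2080899072, .ofNat 0, .ofNat 0, .negSucc 1672279631, .ofNat 434708064, .ofNat 4049067456, .ofNat 4555374768, .ofNat 2729946240, .ofNat 9694464192, .ofNat 0, .ofNat 0, .negSucc 346816511, .ofNat 0, .ofNat 0, .ofNat 0, .ofNat 1159469640, .ofNat 408891672, .ofNat 173408256, .ofNat 1040449536, .ofNat 701320032, .negSucc 1387266047, .ofNat 346816512, .ofNat 0, .ofNat 0, .ofNat 0, .ofNat 130056192, .ofNat 43352064, .ofNat 0, .ofNat 0],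
  [.ofNat 0, .ofNat 0, .ofNat 0, .negSucc 3858940303, .negSucc 5014846031, .negSucc 34567565759, .ofNat 23381408736, .negSucc 579472959743, .ofNat 24593478336, .ofNat 0, .ofNat 0, .ofNat 0, .ofNat 0, .ofNat 0, .ofNat 0, .ofNat 3167550792, .negSucc 422203319, .ofNat 390168576, .ofNat 5462360064, .negSucc 766169711, .negSucc 12485394431, .ofNat 3121348608, .ofNat 0, .ofNat 0, .ofNat 0, .ofNat 0, .ofNat 0, .ofNat 0, .ofNat 0],
  [.ofNat 0, .ofNat 0, .ofNat 0, .negSucc 7057912351, .ofNat 2659432944, .ofNat 16417102464, .ofNat 7208801712, .ofNat 152414704512, .ofNat 25286998464, .ofNat 0, .ofNat 0, .ofNat 0, .ofNat 0, .ofNat 0, .ofNat 0, .ofNat 2567435976, .ofNat 715326192, .ofNat 390168576, .ofNat 2341011456, .ofNat 2372368824, .negSucc 4161798143, .negSucc 1040449535, .ofNat 0, .negSucc 520224767, .negSucc 2080899071, .ofNat 0, .ofNat 0, .ofNat 0, .ofNat 0],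
  [.ofNat 0, .ofNat 0, .ofNat 0, .negSucc 22092822879, .ofNat 11795419104, .ofNat 116628071616, .ofNat 65994076512, .ofNat 552858735744, .ofNat 153810677664, .ofNat 0, .ofNat 0, .ofNat 0, .ofNat 0, .ofNat 0, .ofNat 0, .ofNat 15170178744, .ofNat 10290534408, .negSucc 390168575, .negSucc 5462360063, .ofNat 10244138688, .negSucc 37456183295, .ofNat 9364045824, .ofNat 0, .ofNat 0, .ofNat 0, .ofNat 0, .ofNat 0, .ofNat 0, .ofNat 0],
  [.ofNat 0, .ofNat 0, .ofNat 0, .ofNat 398952576, .negSucc 137709935, .negSucc 1258508159, .negSucc 916097615, .negSucc 4538951423, .negSucc 2227381631, .ofNat 0, .ofNat 0, .ofNat 0, .ofNat 0, .ofNat 0, .negSucc 49545215, .negSucc 215000351, .negSucc 109432511, .ofNat 0, .ofNat 0, .negSucc 151024607, .ofNat 396361728, .negSucc 99090431, .ofNat 0, .ofNat 24772608, .ofNat 99090432, .ofNat 18579456, .ofNat 6193152, .ofNat 0, .ofNat 0]]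

def db10 : List (List ℤ) :=
  [[.ofNat 396361728],
  [.ofNat 198180864],
  [.ofNat 0],
  [.ofNat 0],
  [.ofNat 0],
  [.ofNat 0],
  [.ofNat 0],
  [.ofNat 0],
  [.ofNat 0],
  [.ofNat 0],
  [.ofNat 0],
  [.ofNat 0],
  [.ofNat 0],
  [.ofNat 0],
  [.ofNat 0],
  [.ofNat 0],
  [.ofNat 0],
  [.ofNat 0],
  [.ofNat 0],
  [.ofNat 0],
  [.ofNat 99090432],
  [.ofNat 198180864],
  [.ofNat 0],
  [.ofNat 18728091648],
  [.ofNat 0],
  [.ofNat 0],
  [.ofNat 0],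
  [.ofNat 0],
  [.negSucc 396361727]]

def dF20 : List (List ℤ) :=
  [[.ofNat 396361728, .ofNat 0, .ofNat 0, .ofNat 0, .ofNat 0, .ofNat 0, .ofNat 0, .ofNat 0, .ofNat 0, .ofNat 0, .ofNat 0, .ofNat 0, .ofNat 0, .ofNat 0, .ofNat 0, .ofNat 0, .ofNat 0, .ofNat 0, .ofNat 0, .ofNat 0, .ofNat 0, .ofNat 0, .ofNat 0, .ofNat 0, .ofNat 0],
  [.negSucc 198180863, .negSucc 198180863, .ofNat 0, .ofNat 0, .ofNat 0, .ofNat 0, .ofNat 0, .ofNat 0, .ofNat 0, .ofNat 0, .ofNat 0, .ofNat 0, .ofNat 0, .ofNat 0, .ofNat 0, .ofNat 0, .ofNat 0, .ofNat 0, .ofNat 0, .ofNat 0, .ofNat 0, .ofNat 0, .ofNat 0, .ofNat 0, .ofNat 0],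
  [.ofNat 325332000, .negSucc 650663999, .negSucc 129056895, .negSucc 106220447, .negSucc 141663295, .ofNat 0, .ofNat 0, .negSucc 10327999, .negSucc 20655999, .ofNat 30984000, .ofNat 0, .ofNat 1501498656, .negSucc 2687158655, .ofNat 493462464, .ofNat 0, .ofNat 291302208, .ofNat 0, .ofNat 0, .ofNat 0, .negSucc 61967999, .negSucc 185903999, .ofNat 10328000, .ofNat 0, .ofNat 10328000, .ofNat 0],
  [.ofNat 3137155056, .negSucc 6274310111, .negSucc 217099519, .negSucc 196058911, .negSucc 159212095, .ofNat 0, .ofNat 0, .negSucc 99592223, .negSucc 199184447, .ofNat 298776672, .ofNat 0, .negSucc 10531581983, .negSucc 4792362623, .ofNat 867505248, .ofNat 1783627776, .ofNat 2007973152, .ofNat 0, .ofNat 0, .ofNat 0, .negSucc 597553343, .negSucc 1792660031, .ofNat 99592224, .ofNat 0, .ofNat 99592224, .ofNat 0],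
  [.negSucc 19151, .ofNat 38304, .negSucc 1279, .negSucc 163647, .negSucc 164767, .ofNat 0, .ofNat 0, .ofNat 608, .ofNat 1216, .negSucc 1823, .ofNat 0, .ofNat 94752, .negSucc 8063, .negSucc 287, .negSucc 2359295, .negSucc 2360159, .ofNat 0, .ofNat 0, .ofNat 0, .ofNat 3648, .ofNat 10944, .negSucc 607, .ofNat 0, .negSucc 607, .ofNat 0],
  [.ofNat 8581104, .negSucc 17162207, .ofNat 2325120, .negSucc 139487, .ofNat 1414496, .ofNat 0, .ofNat 0, .negSucc 272415, .negSucc 544831, .ofNat 817248, .ofNat 0, .negSucc 207391967, .negSucc 158497919, .negSucc 564767, .ofNat 0, .negSucc 1694303, .ofNat 198180864, .negSucc 198180863, .ofNat 0, .negSucc 1634495, .negSucc 4903487, .ofNat 272416, .ofNat 0, .ofNat 272416, .ofNat 0],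
  [.ofNat 803888064, .negSucc 1607776127, .negSucc 36514687, .negSucc 49534207, .negSucc 31952447, .ofNat 0, .ofNat 0, .negSucc 25520255, .negSucc 51040511, .ofNat 76560768, .ofNat 0, .negSucc 2249468927, .ofNat 2613034368, .ofNat 164723520, .ofNat 0, .ofNat 409235904, .negSucc 1783627775, .ofNat 1783627776, .ofNat 0, .negSucc 153121535, .negSucc 459364607, .ofNat 16083072, .negSucc 132120575, .ofNat 25520256, .ofNat 0],
  [.negSucc 22721827967, .ofNat 45443655936, .ofNat 682780032, .ofNat 1198478720, .ofNat 535627296, .ofNat 0, .ofNat 0, .ofNat 721327872, .ofNat 1442655744, .negSucc 2163983615, .ofNat 0, .ofNat 82361587392, .negSucc 50823368063, .negSucc 4393655615, .ofNat 0, .negSucc 10802796479, .ofNat 24970788864, .ofNat 0, .negSucc 1189085183, .ofNat 4327967232, .ofNat 9416646144, .negSucc 721327871, .ofNat 0, .negSucc 721327871, .ofNat 0],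
  [.ofNat 12999463344, .negSucc 25998926687, .negSucc 113814783, .negSucc 665013279, .negSucc 137348383, .ofNat 0, .ofNat 0, .negSucc 412681375, .negSucc 825362751, .ofNat 1238044128, .ofNat 0, .negSucc 75454650431, .ofNat 12664818432, .ofNat 2382128736, .ofNat 0, .ofNat 5957301024, .ofNat 12485394432, .ofNat 0, .negSucc 594542591, .negSucc 3665173439, .negSucc 9211892543, .ofNat 412681376, .ofNat 0, .ofNat 412681376, .ofNat 0],
  [.ofNat 1143133488, .negSucc 2286266975, .ofNat 13571264, .negSucc 54576191, .ofNat 2318336, .ofNat 0, .ofNat 0, .negSucc 36289951, .negSucc 72579903, .ofNat 108869856, .ofNat 0, .negSucc 9843958655, .ofNat 581680512, .ofNat 205784352, .ofNat 0, .ofNat 617353056, .ofNat 4161798144, .ofNat 4161798144, .ofNat 0, .negSucc 614101439, .negSucc 1842304319, .ofNat 102350240, .ofNat 0, .ofNat 102350240, .ofNat 0],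
  [.ofNat 19152, .negSucc 38303, .negSucc 447, .ofNat 165920, .ofNat 166144, .ofNat 0, .ofNat 0, .negSucc 607, .negSucc 1215, .ofNat 1824, .ofNat 0, .negSucc 100799, .ofNat 201600, .ofNat 4320, .ofNat 0, .ofNat 12960, .ofNat 0, .ofNat 0, .ofNat 0, .negSucc 3647, .negSucc 10943, .ofNat 608, .ofNat 0, .negSucc 261535, .negSucc 262143],
  [.negSucc 156969791, .ofNat 313939584, .negSucc 55016127, .ofNat 304736, .negSucc 34022015, .ofNat 0, .ofNat 0, .ofNat 4983168, .ofNat 9966336, .negSucc 14949503, .ofNat 0, .ofNat 813613248, .negSucc 515894399, .ofNat 37642176, .ofNat 254803968, .ofNat 27991872, .ofNat 0, .ofNat 0, .ofNat 0, .ofNat 29899008, .ofNat 89697024, .negSucc 4983167, .ofNat 0, .negSucc 4983167, .ofNat 0],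
  [.negSucc 8194447295, .ofNat 16388894592, .negSucc 863564543, .ofNat 343045152, .negSucc 400869983, .ofNat 0, .ofNat 0, .ofNat 260141184, .ofNat 520282368, .negSucc 780423551, .ofNat 0, .ofNat 39157376832, .negSucc 61764845183, .negSucc 4229223743, .negSucc 7134511103, .negSucc 10309500863, .ofNat 0, .ofNat 0, .ofNat 0, .ofNat 1560847104, .ofNat 4682541312, .negSucc 260141183, .ofNat 0, .negSucc 260141183, .ofNat 0],
  [.negSucc 14535886175, .ofNat 29071772352, .negSucc 3093034815, .ofNat 246497312, .negSucc 1909053823, .ofNat 0, .ofNat 0, .ofNat 461456704, .ofNat 922913408, .negSucc 1384370111, .ofNat 0, .ofNat 72663931872, .negSucc 73704387455, .negSucc 2247076031, .ofNat 3567255552, .negSucc 7930313279, .ofNat 0, .ofNat 0, .ofNat 0, .ofNat 2768740224, .ofNat 8306220672, .negSucc 461456703, .ofNat 0, .negSucc 461456703, .ofNat 0],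
  [.negSucc 5510648303, .ofNat 11021296608, .negSucc 1207555135, .ofNat 105471328, .negSucc 726613119, .ofNat 0, .ofNat 0, .ofNat 174941216, .ofNat 349882432, .negSucc 524823647, .ofNat 0, .ofNat 27850856544, .negSucc 36251752319, .negSucc 1438772447, .ofNat 0, .negSucc 4316317343, .ofNat 0, .ofNat 0, .ofNat 0, .ofNat 1049647296, .ofNat 3148941888, .negSucc 174941215, .ofNat 0, .negSucc 174941215, .ofNat 0],
  [.ofNat 218736, .negSucc 437471, .negSucc 5503, .negSucc 135647, .negSucc 125407, .ofNat 0, .ofNat 0, .negSucc 6943, .negSucc 13887, .ofNat 20832, .ofNat 0, .negSucc 854783, .ofNat 145152, .ofNat 26208, .ofNat 0, .ofNat 78624, .ofNat 0, .ofNat 0, .ofNat 0, .negSucc 41663, .negSucc 124991, .ofNat 6944, .ofNat 0, .ofNat 6944, .ofNat 0],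
  [.ofNat 164419920, .negSucc 328839839, .ofNat 40047808, .negSucc 3233471, .ofNat 24255200, .ofNat 0, .ofNat 0, .negSucc 5219679, .negSucc 10439359, .ofNat 15659040, .ofNat 0, .negSucc 877836959, .ofNat 1200608640, .ofNat 42151968, .ofNat 0, .ofNat 126455904, .ofNat 0, .ofNat 0, .ofNat 0, .negSucc 31318079, .negSucc 93954239, .ofNat 5219680, .ofNat 0, .ofNat 5219680, .ofNat 0],
  [.ofNat 2059072848, .negSucc 4118145695, .ofNat 280124992, .negSucc 56136255, .ofNat 163941792, .ofNat 0, .ofNat 0, .negSucc 65367391, .negSucc 130734783, .ofNat 196102176, .ofNat 0, .negSucc 10327540607, .ofNat 5997003264, .ofNat 137362080, .negSucc 1040449535, .negSucc 33820703, .ofNat 0, .ofNat 0, .ofNat 0, .negSucc 392204351, .negSucc 1176613055, .ofNat 65367392, .ofNat 0, .ofNat 65367392, .ofNat 0],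
  [.ofNat 2504782224, .negSucc 5009564447, .ofNat 474426496, .negSucc 41019295, .ofNat 287852352, .ofNat 0, .ofNat 0, .negSucc 79516895, .negSucc 159033791, .ofNat 238550688, .ofNat 0, .negSucc 12556496735, .ofNat 15851275776, .ofNat 664501344, .ofNat 148635648, .ofNat 1943958816, .ofNat 0, .ofNat 0, .ofNat 0, .negSucc 477101375, .negSucc 1431304127, .ofNat 79516896, .ofNat 0, .ofNat 79516896, .ofNat 0],
  [.ofNat 107856, .negSucc 215711, .negSucc 2303, .negSucc 8671, .negSucc 2687, .ofNat 0, .ofNat 0, .negSucc 3423, .negSucc 6847, .ofNat 10272, .ofNat 0, .negSucc 447551, .ofNat 379008, .ofNat 17760, .ofNat 4718592, .ofNat 4771872, .ofNat 0, .ofNat 0, .ofNat 0, .negSucc 20543, .negSucc 61631, .ofNat 3424, .ofNat 0, .ofNat 3424, .ofNat 0],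
  [.negSucc 113116751, .ofNat 226233504, .negSucc 12852735, .ofNat 3418400, .negSucc 6515391, .ofNat 0, .ofNat 0, .ofNat 3591008, .ofNat 7182016, .negSucc 10773023, .ofNat 0, .ofNat 497314944, .negSucc 397772927, .negSucc 15972575, .ofNat 0, .negSucc 47917727, .ofNat 198180864, .ofNat 198180864, .ofNat 0, .ofNat 21546048, .ofNat 64638144, .negSucc 3591007, .ofNat 0, .negSucc 3591007, .ofNat 0],
  [.ofNat 978768, .negSucc 1957535, .ofNat 5952, .negSucc 67391, .negSucc 3519, .ofNat 0, .ofNat 0, .negSucc 31071, .negSucc 62143, .ofNat 93216, .ofNat 0, .negSucc 4919039, .ofNat 7531776, .ofNat 176928, .ofNat 0, .ofNat 530784, .ofNat 0, .ofNat 0, .ofNat 0, .negSucc 186431, .negSucc 559295, .ofNat 31072, .ofNat 0, .ofNat 31072, .ofNat 0],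
  [.ofNat 486855936, .negSucc 7216409087, .ofNat 889863808, .negSucc 10550623, .ofNat 586501056, .ofNat 0, .ofNat 0, .negSucc 147576319, .negSucc 295152639, .ofNat 343638528, .ofNat 0, .negSucc 19564251839, .ofNat 28099467648, .ofNat 896734272, .ofNat 0, .ofNat 2987474112, .ofNat 0, .ofNat 0, .ofNat 0, .negSucc 687277055, .negSucc 2061831167, .ofNat 147576320, .ofNat 0, .ofNat 114546176, .ofNat 0],
  [.negSucc 8585570447, .ofNat 17171140896, .negSucc 1869333439, .negSucc 201914335, .negSucc 1355406495, .ofNat 0, .ofNat 0, .ofNat 272557792, .ofNat 545115584, .negSucc 817673375, .ofNat 0, .ofNat 38666371968, .negSucc 70744351103, .negSucc 2958465503, .negSucc 3567255551, .negSucc 8875396511, .negSucc 12485394431, .negSucc 12485394431, .ofNat 0, .ofNat 1635346752, .ofNat 4906040256, .negSucc 404678367, .ofNat 0, .negSucc 272557791, .ofNat 0],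
  [.negSucc 1012266863, .ofNat 2024533728, .negSucc 289230143, .ofNat 3611040, .negSucc 182404799, .ofNat 0, .ofNat 0, .ofNat 32135456, .ofNat 64270912, .negSucc 96406367, .ofNat 0, .ofNat 5356614816, .negSucc 6542266751, .negSucc 99334751, .ofNat 594542592, .negSucc 496185119, .ofNat 0, .ofNat 0, .ofNat 0, .ofNat 192812736, .ofNat 578438208, .negSucc 32135455, .ofNat 0, .negSucc 32135455, .ofNat 0],
  [.ofNat 8641891440, .negSucc 17283782879, .negSucc 1187262591, .negSucc 766498623, .negSucc 882525535, .ofNat 0, .ofNat 0, .negSucc 274345759, .negSucc 548691519, .ofNat 823037280, .ofNat 0, .negSucc 54768641759, .negSucc 18215535743, .ofNat 2502177504, .ofNat 3121348608, .ofNat 6466082976, .ofNat 0, .ofNat 0, .ofNat 0, .negSucc 2835159743, .negSucc 8505479231, .ofNat 274345760, .ofNat 0, .ofNat 274345760, .ofNat 0],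
  [.negSucc 4104275615, .ofNat 8208551232, .negSucc 556792127, .ofNat 201606752, .negSucc 330068639, .ofNat 0, .ofNat 0, .ofNat 130294464, .ofNat 260588928, .negSucc 390883391, .ofNat 0, .ofNat 27154530144, .negSucc 11445219071, .negSucc 700100351, .ofNat 1337720832, .negSucc 2546207999, .ofNat 0, .ofNat 0, .ofNat 0, .ofNat 1178128512, .ofNat 3534385536, .negSucc 130294463, .ofNat 0, .negSucc 130294463, .ofNat 0],
  [.negSucc 29157017903, .ofNat 58314035808, .negSucc 4091009663, .ofNat 731294624, .negSucc 2635764319, .ofNat 0, .ofNat 0, .ofNat 925619616, .ofNat 1851239232, .negSucc 2182316255, .ofNat 0, .ofNat 153254160864, .negSucc 139677761663, .negSucc 7472111327, .negSucc 3121348607, .negSucc 23159512223, .negSucc 12485394431, .negSucc 12485394431, .ofNat 0, .ofNat 6742802880, .ofNat 20228408640, .negSucc 1123800479, .ofNat 0, .negSucc 925619615, .ofNat 0],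
  [.ofNat 314627040, .negSucc 629254079, .ofNat 58164928, .negSucc 6003903, .ofNat 39339520, .ofNat 0, .ofNat 0, .negSucc 9988159, .negSucc 19976319, .ofNat 20527296, .ofNat 0, .negSucc 1785772799, .ofNat 1750920192, .ofNat 78060480, .ofNat 0, .ofNat 262492992, .ofNat 198180864, .ofNat 198180864, .ofNat 0, .negSucc 78803327, .negSucc 236409983, .ofNat 13133888, .ofNat 0, .ofNat 9988160, .ofNat 0]]

def db20 : List (List ℤ) :=
  [[.ofNat 396361728],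
  [.negSucc 198180863],
  [.ofNat 0],
  [.ofNat 0],
  [.ofNat 0],
  [.ofNat 0],
  [.ofNat 0],
  [.ofNat 0],
  [.ofNat 0],
  [.ofNat 0],
  [.ofNat 0],
  [.ofNat 0],
  [.ofNat 0],
  [.ofNat 0],
  [.ofNat 0],
  [.ofNat 0],
  [.ofNat 0],
  [.ofNat 0],
  [.ofNat 0],
  [.ofNat 0],
  [.ofNat 99090432],
  [.ofNat 0],
  [.ofNat 0],
  [.negSucc 18728091647],
  [.ofNat 0],
  [.ofNat 0],
  [.ofNat 0],
  [.negSucc 24970788863],
  [.ofNat 396361728]]

def dS00 : List (List ℤ) :=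
  [[.ofNat 0, .ofNat 0, .ofNat 212, .ofNat 331, .ofNat 0, .negSucc 0, .ofNat 14, .negSucc 282, .negSucc 15, .negSucc 30, .ofNat 0, .ofNat 11, .negSucc 156, .ofNat 299, .ofNat 74, .ofNat 0, .negSucc 1, .negSucc 12, .negSucc 24, .ofNat 0, .negSucc 1, .ofNat 0, .negSucc 45, .ofNat 88, .ofNat 23, .ofNat 277, .ofNat 85, .negSucc 12, .negSucc 4],
  [.ofNat 4, .ofNat 2, .negSucc 22, .ofNat 47, .ofNat 0, .ofNat 1, .negSucc 4, .ofNat 31, .ofNat 142, .ofNat 31, .ofNat 0, .negSucc 4, .negSucc 94, .negSucc 298, .negSucc 115, .ofNat 0, .ofNat 4, .ofNat 34, .ofNat 46, .ofNat 0, .ofNat 2, .ofNat 2, .ofNat 88, .negSucc 129, .negSucc 8, .ofNat 38, .negSucc 105, .negSucc 553, .ofNat 7],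
  [.ofNat 4, .ofNat 2, .negSucc 188, .negSucc 125, .ofNat 0, .ofNat 0, .negSucc 8, .ofNat 252, .negSucc 125, .ofNat 0, .ofNat 0, .negSucc 5, .ofNat 252, .ofNat 0, .ofNat 42, .ofNat 0, .negSucc 1, .negSucc 20, .negSucc 20, .ofNat 0, .ofNat 2, .ofNat 0, .negSucc 41, .ofNat 42, .negSucc 13, .negSucc 314, .ofNat 21, .ofNat 315, .negSucc 1],
  [.ofNat 0, .ofNat 0, .ofNat 378, .ofNat 756, .ofNat 0, .ofNat 0, .ofNat 0, .ofNat 0, .ofNat 0, .ofNat 0, .ofNat 0, .ofNat 0, .ofNat 0, .ofNat 0, .ofNat 0, .ofNat 0, .ofNat 0, .ofNat 0, .ofNat 0, .ofNat 0, .ofNat 0, .ofNat 0, .ofNat 0, .ofNat 0, .ofNat 0, .ofNat 756, .ofNat 0, .negSucc 755, .ofNat 0],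
  [.ofNat 0, .negSucc 11, .ofNat 0, .ofNat 0, .ofNat 0, .ofNat 0, .ofNat 0, .ofNat 0, .ofNat 0, .ofNat 0, .ofNat 0, .ofNat 0, .ofNat 0, .ofNat 0, .ofNat 0, .ofNat 0, .ofNat 0, .ofNat 0, .ofNat 0, .ofNat 0, .ofNat 0, .ofNat 0, .ofNat 0, .ofNat 0, .ofNat 0, .ofNat 0, .ofNat 0, .ofNat 0, .ofNat 0],
  [.ofNat 0, .negSucc 11, .ofNat 378, .ofNat 0, .ofNat 0, .ofNat 0, .ofNat 0, .ofNat 0, .ofNat 0, .ofNat 0, .ofNat 0, .ofNat 0, .ofNat 0, .ofNat 0, .ofNat 0, .ofNat 0, .ofNat 0, .ofNat 0, .ofNat 0, .ofNat 0, .ofNat 0, .ofNat 0, .ofNat 0, .ofNat 0, .ofNat 0, .ofNat 0, .ofNat 0, .ofNat 0, .ofNat 0],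
  [.ofNat 0, .ofNat 12, .ofNat 0, .ofNat 756, .ofNat 0, .ofNat 0, .ofNat 0, .ofNat 0, .ofNat 0, .ofNat 0, .ofNat 0, .ofNat 0, .ofNat 0, .ofNat 0, .ofNat 0, .ofNat 0, .ofNat 0, .ofNat 0, .ofNat 0, .ofNat 0, .ofNat 0, .ofNat 0, .ofNat 126, .ofNat 0, .negSucc 83, .ofNat 0, .ofNat 0, .negSucc 755, .ofNat 0],
  [.ofNat 0, .ofNat 0, .negSucc 503, .negSucc 251, .ofNat 0, .ofNat 0, .negSucc 35, .ofNat 1008, .negSucc 503, .ofNat 0, .ofNat 0, .negSucc 35, .ofNat 1008, .negSucc 503, .ofNat 0, .ofNat 0, .ofNat 0, .ofNat 0, .ofNat 0, .ofNat 0, .ofNat 0, .ofNat 0, .ofNat 126, .ofNat 0, .negSucc 83, .negSucc 1007, .ofNat 0, .ofNat 252, .ofNat 0],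
  [.ofNat 0, .ofNat 12, .ofNat 0, .ofNat 756, .ofNat 0, .ofNat 0, .ofNat 0, .ofNat 0, .ofNat 0, .ofNat 0, .ofNat 0, .ofNat 0, .ofNat 0, .ofNat 0, .ofNat 0, .ofNat 0, .ofNat 0, .ofNat 0, .ofNat 0, .ofNat 0, .ofNat 0, .ofNat 0, .ofNat 0, .ofNat 0, .ofNat 0, .ofNat 0, .ofNat 0, .ofNat 0, .ofNat 0],
  [.ofNat 0, .ofNat 0, .ofNat 0, .ofNat 0, .ofNat 1, .ofNat 0, .ofNat 0, .ofNat 0, .ofNat 0, .ofNat 0, .ofNat 0, .ofNat 0, .ofNat 0, .ofNat 0, .ofNat 0, .ofNat 0, .ofNat 0, .ofNat 0, .ofNat 0, .ofNat 0, .ofNat 0, .ofNat 0, .ofNat 0, .ofNat 0, .ofNat 0, .ofNat 0, .ofNat 0, .ofNat 0, .ofNat 0]]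

def dS10 : List (List ℤ) :=
  [[.ofNat 0, .ofNat 0, .ofNat 0, .ofNat 0, .ofNat 0, .ofNat 0, .ofNat 0, .ofNat 0, .ofNat 0, .ofNat 0, .ofNat 0, .ofNat 0, .ofNat 0, .ofNat 0, .ofNat 0, .ofNat 0, .ofNat 0, .ofNat 0, .ofNat 0, .ofNat 0, .ofNat 0, .ofNat 0, .ofNat 0, .ofNat 0, .ofNat 0, .ofNat 0, .ofNat 0, .ofNat 0, .ofNat 0],
  [.ofNat 0, .ofNat 0, .ofNat 0, .ofNat 0, .ofNat 0, .ofNat 0, .ofNat 0, .ofNat 0, .ofNat 0, .ofNat 0, .ofNat 0, .ofNat 0, .ofNat 0, .ofNat 0, .ofNat 0, .ofNat 0, .ofNat 0, .ofNat 0, .ofNat 0, .ofNat 0, .ofNat 0, .ofNat 0, .ofNat 0, .ofNat 0, .ofNat 0, .ofNat 0, .ofNat 0, .ofNat 0, .ofNat 0],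
  [.ofNat 0, .ofNat 0, .ofNat 0, .ofNat 0, .ofNat 0, .ofNat 0, .ofNat 0, .ofNat 0, .ofNat 0, .ofNat 0, .ofNat 0, .ofNat 0, .ofNat 0, .ofNat 0, .ofNat 0, .ofNat 0, .ofNat 0, .ofNat 0, .ofNat 0, .ofNat 0, .ofNat 0, .ofNat 0, .ofNat 0, .ofNat 0, .ofNat 0, .ofNat 0, .ofNat 0, .ofNat 0, .ofNat 0],
  [.ofNat 0, .ofNat 0, .ofNat 0, .ofNat 0, .ofNat 0, .ofNat 0, .ofNat 0, .ofNat 0, .ofNat 0, .ofNat 0, .ofNat 0, .ofNat 0, .ofNat 0, .ofNat 0, .ofNat 0, .ofNat 0, .ofNat 0, .ofNat 0, .ofNat 0, .ofNat 0, .ofNat 0, .ofNat 0, .ofNat 0, .ofNat 0, .ofNat 0, .ofNat 0, .ofNat 0, .ofNat 0, .ofNat 0],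
  [.ofNat 0, .ofNat 0, .ofNat 0, .ofNat 0, .ofNat 0, .ofNat 0, .ofNat 0, .ofNat 0, .ofNat 0, .ofNat 0, .ofNat 0, .ofNat 0, .ofNat 0, .ofNat 0, .ofNat 0, .ofNat 0, .ofNat 0, .ofNat 0, .ofNat 0, .ofNat 0, .ofNat 0, .ofNat 0, .ofNat 0, .ofNat 0, .ofNat 0, .ofNat 0, .ofNat 0, .ofNat 0, .ofNat 0],
  [.ofNat 0, .ofNat 0, .ofNat 0, .ofNat 0, .ofNat 0, .ofNat 0, .ofNat 0, .ofNat 0, .ofNat 0, .ofNat 0, .ofNat 0, .ofNat 0, .ofNat 0, .ofNat 0, .ofNat 0, .ofNat 0, .ofNat 0, .ofNat 0, .ofNat 0, .ofNat 0, .ofNat 0, .ofNat 0, .ofNat 0, .ofNat 0, .ofNat 0, .ofNat 0, .ofNat 0, .ofNat 0, .ofNat 0],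
  [.ofNat 0, .ofNat 0, .ofNat 0, .ofNat 0, .ofNat 0, .ofNat 0, .ofNat 0, .ofNat 0, .ofNat 0, .ofNat 0, .ofNat 0, .ofNat 0, .ofNat 0, .ofNat 0, .ofNat 0, .ofNat 0, .ofNat 0, .ofNat 0, .ofNat 0, .ofNat 0, .ofNat 0, .ofNat 0, .ofNat 0, .ofNat 0, .ofNat 0, .ofNat 0, .ofNat 0, .ofNat 0, .ofNat 0],
  [.ofNat 0, .ofNat 0, .ofNat 0, .ofNat 0, .ofNat 0, .ofNat 0, .ofNat 0, .ofNat 0, .ofNat 0, .ofNat 0, .ofNat 0, .ofNat 0, .ofNat 0, .ofNat 0, .ofNat 0, .ofNat 0, .ofNat 0, .ofNat 0, .ofNat 0, .ofNat 0, .ofNat 0, .ofNat 0, .ofNat 0, .ofNat 0, .ofNat 0, .ofNat 0, .ofNat 0, .ofNat 0, .ofNat 0],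
  [.ofNat 0, .ofNat 0, .ofNat 0, .ofNat 0, .ofNat 0, .ofNat 0, .ofNat 0, .ofNat 0, .ofNat 0, .ofNat 0, .ofNat 0, .ofNat 0, .ofNat 0, .ofNat 0, .ofNat 0, .ofNat 0, .ofNat 0, .ofNat 0, .ofNat 0, .ofNat 0, .ofNat 0, .ofNat 0, .ofNat 0, .ofNat 0, .ofNat 0, .ofNat 0, .ofNat 0, .ofNat 0, .ofNat 0],
  [.ofNat 0, .ofNat 0, .ofNat 0, .ofNat 0, .ofNat 0, .ofNat 0, .ofNat 0, .ofNat 0, .ofNat 0, .ofNat 0, .ofNat 0, .ofNat 0, .ofNat 0, .ofNat 0, .ofNat 0, .ofNat 0, .ofNat 0, .ofNat 0, .ofNat 0, .ofNat 0, .ofNat 0, .ofNat 0, .ofNat 0, .ofNat 0, .ofNat 0, .ofNat 0, .ofNat 0, .ofNat 0, .ofNat 0]]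

def dS20 : List (List ℤ) :=
  [[.ofNat 4, .negSucc 5, .ofNat 0, .ofNat 0, .ofNat 0, .ofNat 0, .negSucc 8, .ofNat 126, .ofNat 63, .ofNat 84, .ofNat 0, .ofNat 0, .ofNat 0, .ofNat 0, .ofNat 0, .ofNat 0, .ofNat 0, .ofNat 0, .ofNat 0, .ofNat 0, .ofNat 1, .ofNat 0, .ofNat 0, .negSucc 188, .ofNat 0, .ofNat 0, .ofNat 0, .negSucc 251, .ofNat 4],
  [.ofNat 0, .ofNat 0, .ofNat 0, .ofNat 0, .ofNat 0, .negSucc 0, .ofNat 9, .negSucc 125, .negSucc 62, .ofNat 0, .ofNat 0, .ofNat 0, .ofNat 0, .ofNat 0, .ofNat 0, .ofNat 0, .ofNat 0, .ofNat 0, .ofNat 0, .ofNat 0, .ofNat 0, .ofNat 0, .ofNat 0, .ofNat 0, .ofNat 0, .ofNat 0, .ofNat 0, .ofNat 0, .ofNat 0],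
  [.ofNat 0, .ofNat 0, .ofNat 0, .ofNat 0, .ofNat 0, .ofNat 1, .ofNat 0, .ofNat 0, .ofNat 0, .ofNat 0, .ofNat 0, .ofNat 0, .ofNat 0, .ofNat 0, .ofNat 0, .ofNat 0, .ofNat 0, .ofNat 0, .ofNat 0, .ofNat 0, .ofNat 0, .ofNat 0, .ofNat 0, .ofNat 0, .ofNat 0, .ofNat 0, .ofNat 0, .ofNat 0, .ofNat 0],
  [.ofNat 0, .negSucc 11, .ofNat 0, .ofNat 0, .ofNat 0, .ofNat 0, .ofNat 0, .ofNat 0, .ofNat 378, .ofNat 252, .ofNat 0, .ofNat 0, .ofNat 0, .ofNat 0, .ofNat 0, .ofNat 0, .ofNat 0, .ofNat 0, .ofNat 0, .ofNat 0, .ofNat 0, .ofNat 0, .ofNat 0, .ofNat 0, .ofNat 0, .ofNat 756, .negSucc 251, .negSucc 755, .ofNat 12],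
  [.ofNat 0, .ofNat 0, .ofNat 0, .ofNat 0, .ofNat 0, .ofNat 0, .ofNat 0, .ofNat 756, .ofNat 0, .ofNat 0, .ofNat 0, .ofNat 0, .ofNat 0, .ofNat 0, .ofNat 0, .ofNat 0, .ofNat 0, .ofNat 0, .ofNat 0, .ofNat 0, .ofNat 0, .ofNat 0, .ofNat 0, .ofNat 0, .ofNat 0, .ofNat 0, .ofNat 0, .ofNat 0, .ofNat 0],
  [.ofNat 0, .ofNat 0, .ofNat 0, .ofNat 0, .ofNat 0, .ofNat 0, .ofNat 0, .ofNat 0, .ofNat 378, .ofNat 0, .ofNat 0, .ofNat 0, .ofNat 0, .ofNat 0, .ofNat 0, .ofNat 0, .ofNat 0, .ofNat 0, .ofNat 0, .ofNat 0, .ofNat 0, .ofNat 0, .ofNat 0, .ofNat 0, .ofNat 0, .ofNat 0, .ofNat 0, .ofNat 0, .ofNat 0],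
  [.ofNat 0, .negSucc 11, .ofNat 0, .ofNat 0, .ofNat 0, .ofNat 0, .ofNat 0, .ofNat 0, .ofNat 0, .ofNat 252, .ofNat 0, .ofNat 0, .ofNat 0, .ofNat 0, .ofNat 0, .ofNat 0, .ofNat 0, .ofNat 0, .ofNat 0, .ofNat 0, .ofNat 0, .ofNat 0, .ofNat 126, .negSucc 503, .ofNat 0, .ofNat 0, .ofNat 0, .negSucc 755, .ofNat 12],
  [.ofNat 0, .ofNat 0, .ofNat 0, .ofNat 0, .ofNat 0, .ofNat 0, .ofNat 36, .ofNat 0, .ofNat 0, .ofNat 0, .ofNat 0, .ofNat 0, .ofNat 0, .ofNat 0, .ofNat 0, .ofNat 0, .ofNat 0, .ofNat 0, .ofNat 0, .ofNat 0, .ofNat 0, .ofNat 0, .ofNat 0, .ofNat 0, .ofNat 0, .ofNat 0, .ofNat 0, .ofNat 0, .ofNat 0],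
  [.ofNat 0, .negSucc 11, .ofNat 0, .ofNat 0, .ofNat 0, .ofNat 0, .ofNat 0, .ofNat 0, .ofNat 0, .ofNat 252, .ofNat 0, .ofNat 0, .ofNat 0, .ofNat 0, .ofNat 0, .ofNat 0, .ofNat 0, .ofNat 0, .ofNat 0, .ofNat 0, .ofNat 0, .ofNat 0, .ofNat 0, .ofNat 0, .ofNat 0, .ofNat 0, .ofNat 0, .ofNat 0, .ofNat 0],
  [.ofNat 0, .ofNat 0, .ofNat 0, .ofNat 0, .ofNat 0, .ofNat 0, .ofNat 0, .ofNat 0, .ofNat 0, .ofNat 0, .ofNat 1, .ofNat 0, .ofNat 0, .ofNat 0, .ofNat 0, .ofNat 0, .ofNat 0, .ofNat 0, .ofNat 0, .ofNat 0, .ofNat 0, .ofNat 0, .ofNat 0, .ofNat 0, .ofNat 0, .ofNat 0, .ofNat 0, .ofNat 0, .ofNat 0]]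

def dS30 : List (List ℤ) :=
  [[.ofNat 0, .ofNat 0, .ofNat 0, .ofNat 0, .ofNat 0, .ofNat 0, .ofNat 0, .ofNat 0, .ofNat 0, .ofNat 0, .ofNat 0, .negSucc 5, .ofNat 126, .ofNat 189, .ofNat 126, .ofNat 0, .negSucc 1, .negSucc 20, .negSucc 20, .ofNat 0, .ofNat 1, .ofNat 0, .negSucc 41, .ofNat 231, .negSucc 13, .ofNat 63, .ofNat 21, .ofNat 189, .negSucc 5],
  [.ofNat 0, .ofNat 0, .ofNat 0, .ofNat 0, .ofNat 0, .ofNat 0, .ofNat 0, .ofNat 0, .ofNat 0, .ofNat 0, .ofNat 0, .negSucc 2, .ofNat 0, .negSucc 125, .negSucc 20, .ofNat 0, .ofNat 2, .ofNat 21, .ofNat 21, .ofNat 0, .negSucc 0, .ofNat 0, .ofNat 42, .negSucc 104, .negSucc 6, .negSucc 62, .ofNat 21, .negSucc 188, .ofNat 1],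
  [.ofNat 4, .ofNat 6, .ofNat 0, .ofNat 0, .ofNat 0, .ofNat 0, .ofNat 0, .ofNat 0, .ofNat 0, .ofNat 0, .ofNat 0, .ofNat 9, .negSucc 125, .negSucc 62, .negSucc 20, .ofNat 0, .ofNat 0, .ofNat 0, .ofNat 0, .ofNat 0, .ofNat 1, .ofNat 2, .ofNat 0, .ofNat 63, .ofNat 21, .ofNat 0, .negSucc 41, .ofNat 0, .ofNat 1],
  [.ofNat 0, .ofNat 0, .ofNat 0, .ofNat 0, .ofNat 0, .ofNat 0, .ofNat 0, .ofNat 0, .ofNat 0, .ofNat 0, .ofNat 0, .ofNat 0, .ofNat 0, .ofNat 378, .ofNat 252, .ofNat 0, .ofNat 0, .ofNat 0, .ofNat 0, .ofNat 0, .ofNat 0, .ofNat 0, .ofNat 0, .ofNat 0, .ofNat 0, .ofNat 0, .ofNat 252, .ofNat 0, .negSucc 11],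
  [.ofNat 0, .ofNat 0, .ofNat 0, .ofNat 0, .ofNat 0, .ofNat 0, .ofNat 0, .ofNat 0, .ofNat 0, .ofNat 0, .ofNat 0, .ofNat 0, .ofNat 756, .ofNat 0, .ofNat 0, .ofNat 0, .ofNat 0, .ofNat 0, .ofNat 0, .ofNat 0, .ofNat 0, .ofNat 0, .ofNat 0, .ofNat 0, .ofNat 0, .ofNat 0, .ofNat 0, .ofNat 0, .ofNat 0],
  [.ofNat 0, .negSucc 11, .ofNat 0, .ofNat 0, .ofNat 0, .ofNat 0, .ofNat 0, .ofNat 0, .ofNat 0, .ofNat 0, .ofNat 0, .ofNat 0, .ofNat 0, .ofNat 378, .ofNat 0, .ofNat 0, .ofNat 0, .ofNat 0, .ofNat 0, .ofNat 0, .ofNat 0, .ofNat 0, .ofNat 0, .ofNat 0, .ofNat 0, .ofNat 0, .ofNat 0, .ofNat 0, .ofNat 0],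
  [.ofNat 0, .ofNat 12, .ofNat 0, .ofNat 0, .ofNat 0, .ofNat 0, .ofNat 0, .ofNat 0, .ofNat 0, .ofNat 0, .ofNat 0, .ofNat 0, .ofNat 0, .ofNat 0, .ofNat 252, .ofNat 0, .ofNat 0, .ofNat 0, .ofNat 0, .ofNat 0, .ofNat 0, .ofNat 0, .ofNat 0, .ofNat 504, .negSucc 83, .ofNat 0, .ofNat 0, .ofNat 0, .negSucc 11],
  [.ofNat 0, .ofNat 12, .ofNat 0, .ofNat 0, .ofNat 0, .ofNat 0, .ofNat 0, .ofNat 0, .ofNat 0, .ofNat 0, .ofNat 0, .ofNat 36, .ofNat 0, .ofNat 0, .ofNat 0, .ofNat 0, .ofNat 0, .ofNat 0, .ofNat 0, .ofNat 0, .ofNat 0, .ofNat 0, .ofNat 0, .ofNat 0, .ofNat 0, .ofNat 0, .ofNat 0, .ofNat 0, .ofNat 0],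
  [.ofNat 0, .ofNat 12, .ofNat 0, .ofNat 0, .ofNat 0, .ofNat 0, .ofNat 0, .ofNat 0, .ofNat 0, .ofNat 0, .ofNat 0, .ofNat 0, .ofNat 0, .ofNat 0, .ofNat 252, .ofNat 0, .ofNat 0, .ofNat 0, .ofNat 0, .ofNat 0, .ofNat 0, .ofNat 0, .ofNat 0, .ofNat 0, .ofNat 0, .ofNat 0, .ofNat 0, .ofNat 0, .ofNat 0],
  [.ofNat 0, .ofNat 12, .ofNat 0, .ofNat 0, .ofNat 0, .ofNat 0, .ofNat 0, .ofNat 0, .ofNat 0, .ofNat 0, .ofNat 0, .ofNat 0, .ofNat 0, .ofNat 0, .ofNat 0, .ofNat 1, .ofNat 0, .ofNat 0, .ofNat 0, .ofNat 0, .ofNat 0, .ofNat 0, .ofNat 0, .ofNat 0, .ofNat 0, .ofNat 0, .ofNat 0, .ofNat 0, .ofNat 0]]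

def dS40 : List (List ℤ) :=
  [[.ofNat 0, .ofNat 0, .ofNat 0, .ofNat 0, .ofNat 0, .ofNat 0, .ofNat 0, .ofNat 0, .ofNat 0, .ofNat 0, .ofNat 0, .ofNat 0, .ofNat 0, .ofNat 0, .ofNat 0, .ofNat 0, .ofNat 2, .ofNat 0, .ofNat 28, .ofNat 0, .ofNat 0, .ofNat 0, .ofNat 42, .ofNat 0, .negSucc 27, .ofNat 0, .ofNat 0, .negSucc 251, .ofNat 0],
  [.ofNat 4, .ofNat 2, .ofNat 0, .ofNat 0, .ofNat 0, .ofNat 0, .ofNat 0, .ofNat 0, .ofNat 0, .ofNat 0, .ofNat 0, .ofNat 0, .ofNat 0, .ofNat 0, .ofNat 0, .ofNat 0, .ofNat 0, .ofNat 0, .ofNat 0, .ofNat 0, .ofNat 2, .ofNat 2, .ofNat 0, .ofNat 0, .ofNat 28, .ofNat 0, .ofNat 0, .ofNat 0, .ofNat 0],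
  [.ofNat 4, .ofNat 2, .ofNat 0, .ofNat 0, .ofNat 0, .ofNat 0, .ofNat 0, .ofNat 0, .ofNat 0, .ofNat 0, .ofNat 0, .ofNat 0, .ofNat 0, .ofNat 0, .ofNat 0, .ofNat 0, .negSucc 1, .ofNat 0, .ofNat 0, .ofNat 0, .ofNat 0, .ofNat 0, .negSucc 41, .ofNat 0, .ofNat 0, .ofNat 0, .ofNat 0, .ofNat 0, .ofNat 0],
  [.ofNat 0, .ofNat 0, .ofNat 0, .ofNat 0, .ofNat 0, .ofNat 0, .ofNat 0, .ofNat 0, .ofNat 0, .ofNat 0, .ofNat 0, .ofNat 0, .ofNat 0, .ofNat 0, .ofNat 0, .ofNat 0, .ofNat 6, .ofNat 0, .ofNat 84, .ofNat 0, .ofNat 0, .ofNat 0, .ofNat 126, .ofNat 0, .negSucc 83, .ofNat 0, .ofNat 0, .negSucc 755, .ofNat 0],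
  [.ofNat 0, .negSucc 11, .ofNat 0, .ofNat 0, .ofNat 0, .ofNat 0, .ofNat 0, .ofNat 0, .ofNat 0, .ofNat 0, .ofNat 0, .ofNat 0, .ofNat 0, .ofNat 0, .ofNat 0, .ofNat 0, .ofNat 6, .ofNat 189, .ofNat 21, .ofNat 0, .ofNat 0, .ofNat 0, .ofNat 126, .negSucc 503, .ofNat 0, .negSucc 566, .ofNat 189, .negSucc 188, .ofNat 0],
  [.ofNat 0, .negSucc 11, .ofNat 0, .ofNat 0, .ofNat 0, .ofNat 0, .ofNat 0, .ofNat 0, .ofNat 0, .ofNat 0, .ofNat 0, .ofNat 0, .ofNat 0, .ofNat 0, .ofNat 0, .ofNat 0, .ofNat 6, .ofNat 0, .ofNat 0, .ofNat 0, .ofNat 0, .ofNat 0, .ofNat 0, .ofNat 0, .ofNat 0, .ofNat 0, .ofNat 0, .ofNat 0, .ofNat 0],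
  [.ofNat 0, .ofNat 12, .ofNat 0, .ofNat 0, .ofNat 0, .ofNat 0, .ofNat 0, .ofNat 0, .ofNat 0, .ofNat 0, .ofNat 0, .ofNat 0, .ofNat 0, .ofNat 0, .ofNat 0, .ofNat 0, .ofNat 0, .ofNat 0, .ofNat 84, .ofNat 0, .ofNat 0, .ofNat 0, .ofNat 0, .ofNat 0, .ofNat 0, .ofNat 756, .ofNat 0, .negSucc 755, .ofNat 0],
  [.ofNat 0, .ofNat 0, .ofNat 0, .ofNat 0, .ofNat 0, .ofNat 0, .ofNat 0, .ofNat 0, .ofNat 0, .ofNat 0, .ofNat 0, .ofNat 0, .ofNat 0, .ofNat 0, .ofNat 0, .ofNat 0, .ofNat 0, .ofNat 252, .ofNat 0, .ofNat 0, .ofNat 0, .ofNat 0, .ofNat 0, .ofNat 0, .ofNat 0, .ofNat 0, .ofNat 0, .ofNat 0, .ofNat 0],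
  [.ofNat 0, .ofNat 12, .ofNat 0, .ofNat 0, .ofNat 0, .ofNat 0, .ofNat 0, .ofNat 0, .ofNat 0, .ofNat 0, .ofNat 0, .ofNat 0, .ofNat 0, .ofNat 0, .ofNat 0, .ofNat 0, .ofNat 0, .ofNat 0, .ofNat 84, .ofNat 0, .ofNat 0, .ofNat 0, .ofNat 0, .ofNat 0, .ofNat 0, .ofNat 0, .ofNat 0, .ofNat 0, .ofNat 0],
  [.ofNat 0, .ofNat 0, .ofNat 0, .ofNat 0, .ofNat 0, .ofNat 0, .ofNat 0, .ofNat 0, .ofNat 0, .ofNat 0, .ofNat 0, .ofNat 0, .ofNat 0, .ofNat 0, .ofNat 0, .ofNat 0, .ofNat 0, .ofNat 0, .ofNat 0, .ofNat 2, .ofNat 0, .ofNat 0, .ofNat 0, .ofNat 0, .ofNat 0, .ofNat 0, .ofNat 0, .ofNat 0, .ofNat 0]]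

def dS50 : List (List ℤ) :=
  [[.ofNat 4, .negSucc 5, .ofNat 0, .ofNat 0, .ofNat 0, .ofNat 0, .ofNat 0, .ofNat 0, .ofNat 0, .ofNat 0, .ofNat 0, .ofNat 0, .ofNat 0, .ofNat 0, .ofNat 0, .ofNat 0, .ofNat 0, .ofNat 0, .ofNat 0, .ofNat 0, .ofNat 0, .ofNat 0, .ofNat 0, .ofNat 0, .ofNat 0, .ofNat 0, .ofNat 0, .ofNat 0, .ofNat 0],
  [.ofNat 0, .ofNat 0, .ofNat 0, .ofNat 0, .ofNat 0, .ofNat 0, .ofNat 0, .ofNat 0, .ofNat 0, .ofNat 0, .ofNat 0, .ofNat 0, .ofNat 0, .ofNat 0, .ofNat 0, .ofNat 0, .ofNat 0, .ofNat 0, .ofNat 0, .ofNat 0, .ofNat 2, .ofNat 0, .ofNat 0, .ofNat 0, .ofNat 0, .ofNat 0, .ofNat 0, .ofNat 0, .ofNat 0],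
  [.ofNat 4, .ofNat 6, .ofNat 0, .ofNat 0, .ofNat 0, .ofNat 0, .ofNat 0, .ofNat 0, .ofNat 0, .ofNat 0, .ofNat 0, .ofNat 0, .ofNat 0, .ofNat 0, .ofNat 0, .ofNat 0, .ofNat 0, .ofNat 0, .ofNat 0, .ofNat 0, .ofNat 0, .ofNat 2, .ofNat 0, .ofNat 0, .ofNat 0, .ofNat 0, .ofNat 0, .ofNat 0, .ofNat 0],
  [.ofNat 0, .negSucc 11, .ofNat 0, .ofNat 0, .ofNat 0, .ofNat 0, .ofNat 0, .ofNat 0, .ofNat 0, .ofNat 0, .ofNat 0, .ofNat 0, .ofNat 0, .ofNat 0, .ofNat 0, .ofNat 0, .ofNat 0, .ofNat 0, .ofNat 0, .ofNat 0, .ofNat 0, .ofNat 0, .ofNat 126, .ofNat 0, .ofNat 0, .ofNat 0, .ofNat 0, .ofNat 0, .ofNat 0],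
  [.ofNat 0, .ofNat 0, .ofNat 0, .ofNat 0, .ofNat 0, .ofNat 0, .ofNat 0, .ofNat 0, .ofNat 0, .ofNat 0, .ofNat 0, .ofNat 0, .ofNat 0, .ofNat 0, .ofNat 0, .ofNat 0, .ofNat 0, .ofNat 0, .ofNat 0, .ofNat 0, .ofNat 0, .ofNat 0, .ofNat 0, .ofNat 504, .ofNat 0, .ofNat 0, .ofNat 0, .ofNat 0, .ofNat 0],
  [.ofNat 0, .negSucc 11, .ofNat 0, .ofNat 0, .ofNat 0, .ofNat 0, .ofNat 0, .ofNat 0, .ofNat 0, .ofNat 0, .ofNat 0, .ofNat 0, .ofNat 0, .ofNat 0, .ofNat 0, .ofNat 0, .ofNat 0, .ofNat 0, .ofNat 0, .ofNat 0, .ofNat 0, .ofNat 0, .ofNat 0, .ofNat 0, .ofNat 84, .ofNat 0, .ofNat 0, .ofNat 0, .ofNat 0],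
  [.ofNat 0, .ofNat 0, .ofNat 0, .ofNat 0, .ofNat 0, .ofNat 0, .ofNat 0, .ofNat 0, .ofNat 0, .ofNat 0, .ofNat 0, .ofNat 0, .ofNat 0, .ofNat 0, .ofNat 0, .ofNat 0, .ofNat 0, .ofNat 0, .ofNat 0, .ofNat 0, .ofNat 0, .ofNat 0, .ofNat 0, .ofNat 0, .ofNat 0, .ofNat 756, .ofNat 0, .ofNat 0, .ofNat 0],
  [.ofNat 0, .ofNat 12, .ofNat 0, .ofNat 0, .ofNat 0, .ofNat 0, .ofNat 0, .ofNat 0, .ofNat 0, .ofNat 0, .ofNat 0, .ofNat 0, .ofNat 0, .ofNat 0, .ofNat 0, .ofNat 0, .ofNat 0, .ofNat 0, .ofNat 0, .ofNat 0, .ofNat 0, .ofNat 0, .ofNat 0, .ofNat 0, .ofNat 0, .ofNat 0, .ofNat 252, .ofNat 0, .ofNat 0],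
  [.ofNat 0, .ofNat 0, .ofNat 0, .ofNat 0, .ofNat 0, .ofNat 0, .ofNat 0, .ofNat 0, .ofNat 0, .ofNat 0, .ofNat 0, .ofNat 0, .ofNat 0, .ofNat 0, .ofNat 0, .ofNat 0, .ofNat 0, .ofNat 0, .ofNat 0, .ofNat 0, .ofNat 0, .ofNat 0, .ofNat 0, .ofNat 0, .ofNat 0, .ofNat 0, .ofNat 0, .ofNat 756, .ofNat 0],
  [.ofNat 0, .ofNat 12, .ofNat 0, .ofNat 0, .ofNat 0, .ofNat 0, .ofNat 0, .ofNat 0, .ofNat 0, .ofNat 0, .ofNat 0, .ofNat 0, .ofNat 0, .ofNat 0, .ofNat 0, .ofNat 0, .ofNat 0, .ofNat 0, .ofNat 0, .ofNat 0, .ofNat 0, .ofNat 0, .ofNat 0, .ofNat 0, .ofNat 0, .ofNat 0, .ofNat 0, .ofNat 0, .ofNat 12]]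

def dA0 : List ℤ :=
  [.ofNat 1048576, .ofNat 0, .ofNat 0, .ofNat 0, .ofNat 0, .ofNat 0, .ofNat 0, .ofNat 0, .ofNat 0, .ofNat 0, .ofNat 0, .ofNat 0, .ofNat 0, .ofNat 0, .ofNat 0, .ofNat 0, .ofNat 0, .ofNat 0, .ofNat 0, .ofNat 0, .ofNat 262144, .ofNat 262144, .negSucc 3938014, .ofNat 0, .ofNat 2625343, .negSucc 5345720, .ofNat 0, .negSucc 4056332, .ofNat 0]

def dB0 : List ℤ :=
  [.ofNat 0, .ofNat 1048576, .negSucc 1147143, .negSucc 875271, .negSucc 715, .negSucc 127502, .ofNat 896611, .negSucc 11659869, .negSucc 16077873, .negSucc 4333880, .negSucc 679, .ofNat 210960, .ofNat 8655535, .ofNat 15132635, .ofNat 6655590, .negSucc 769, .negSucc 363005, .negSucc 4233755, .negSucc 3910233, .ofNat 6430, .ofNat 149221, .ofNat 275800, .negSucc 3704152, .ofNat 43785920, .ofNat 3550958, .ofNat 4090343, .negSucc 2182835, .ofNat 51434999, .negSucc 640581]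

def dW0 : List (List ℤ) :=
  [[.ofNat 0, .ofNat 0, .ofNat 4916392415253, .ofNat 3962384342846, .ofNat 1078320628, .negSucc 60205909286, .ofNat 234117334606, .ofNat 1762877051311, .negSucc 8559731506927, .negSucc 1732253842442, .negSucc 661033119, .ofNat 294453763966, .ofNat 9415378844447, .ofNat 21358793695620, .ofNat 8656439815975, .negSucc 187822572, .negSucc 335834612983, .negSucc 2735134550986, .negSucc 3834873632341, .negSucc 2591832160, .ofNat 43346630088, .ofNat 2887214045, .negSucc 7454612564457, .ofNat 22178444581370, .ofNat 2056644251799, .ofNat 7725485271419, .ofNat 3570508386153, .ofNat 36768882133100, .negSucc 509354944396],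
  [.ofNat 0, .ofNat 0, .ofNat 0, .ofNat 2470584140353, .negSucc 1077863968, .negSucc 13205742221, .ofNat 454649067980, .negSucc 10886588096167, .ofNat 5593862932348, .ofNat 632768212824, .ofNat 813383905, .ofNat 95998809359, .ofNat 386791599462, .ofNat 3097107265027, .ofNat 1494006083637, .ofNat 183226279, .negSucc 52674938589, .negSucc 285671027355, .negSucc 560806637924, .ofNat 2743764382, .ofNat 55351897779, .negSucc 97969715, .negSucc 726158501288, .ofNat 784705514822, .ofNat 491363107823, .ofNat 6247044459051, .ofNat 229025111104, .negSucc 377830353899, .negSucc 26371964889],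
  [.ofNat 0, .ofNat 0, .ofNat 0, .ofNat 0, .ofNat 3136183245, .ofNat 23974491373, .ofNat 128361690335, .negSucc 4360219516857, .ofNat 6252518756038, .ofNat 1069201790462, .negSucc 1969189583, .negSucc 42434185828, .negSucc 6361516250216, .negSucc 8999143248361, .negSucc 3927399745556, .negSucc 526630046, .ofNat 143715188674, .ofNat 2149409800026, .ofNat 1771342978743, .negSucc 7349063101, .ofNat 6107893540, .ofNat 1751688620, .ofNat 3269146049273, .negSucc 10426675728026, .negSucc 679845609748, .negSucc 2320065000926, .negSucc 976257520515, .negSucc 16326729560774, .ofNat 198793537392],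
  [.ofNat 0, .ofNat 0, .ofNat 0, .ofNat 0, .ofNat 0, .ofNat 117582560388, .negSucc 1013563819820, .ofNat 12621600327335, .ofNat 7307088073990, .ofNat 2147968215196, .ofNat 318547366, .negSucc 164824707659, .negSucc 3217585993825, .negSucc 9426600500699, .negSucc 3682790820085, .ofNat 35908742, .ofNat 106022062578, .ofNat 670218203817, .ofNat 1469545262039, .ofNat 386324448, .negSucc 32955975360, .ofNat 14263592005, .ofNat 2308327820565, .negSucc 5516910843983, .negSucc 768227302532, .ofNat 5915655944476, .negSucc 4503125193171, .negSucc 19745695817026, .ofNat 273890577250],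
  [.ofNat 0, .ofNat 0, .ofNat 0, .ofNat 0, .ofNat 0, .ofNat 0, .ofNat 408199852445, .negSucc 10020688672706, .ofNat 6755719414740, .ofNat 739254757221, .negSucc 202493038, .negSucc 105971978938, .negSucc 4637162969375, .negSucc 8381905031475, .negSucc 3601158905551, .ofNat 28571244, .ofNat 110439193636, .ofNat 690186680609, .ofNat 1505612669910, .negSucc 11976284, .ofNat 47889764798, .ofNat 6831461269, .ofNat 2999980353991, .negSucc 8444036913708, .negSucc 688054796039, .negSucc 687243227335, .negSucc 1762436931637, .negSucc 15599059452891, .ofNat 201364741818],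
  [.ofNat 0, .ofNat 0, .ofNat 0, .ofNat 0, .ofNat 0, .ofNat 0, .ofNat 0, .ofNat 4571422713117, .ofNat 2872494188201, .ofNat 776617370419, .negSucc 1076033246, .ofNat 63725563705, .ofNat 1062813657486, .ofNat 3327744950593, .ofNat 1302211175423, .negSucc 139342186, .negSucc 44639395001, .negSucc 289488358612, .negSucc 552894656379, .negSucc 309261769, .ofNat 31737490235, .ofNat 6464474797, .negSucc 1092307451089, .ofNat 1648276296130, .ofNat 376457647485, .ofNat 2590435877049, .negSucc 99719308514, .ofNat 3327306930210, .negSucc 36203325819],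
  [.ofNat 0, .ofNat 0, .ofNat 0, .ofNat 0, .ofNat 0, .ofNat 0, .ofNat 0, .ofNat 0, .ofNat 3674333687381, .ofNat 888726329739, .ofNat 2002015638, .negSucc 34196856043, .negSucc 192859057568, .negSucc 1377628663705, .negSucc 486046460871, .ofNat 161360456, .ofNat 6470670103, .negSucc 73932902072, .ofNat 141425556169, .ofNat 857856501, .ofNat 18984864393, .ofNat 11250738976, .ofNat 557455035420, .negSucc 509891114357, .negSucc 38919005829, .ofNat 3050727059214, .negSucc 1513180533332, .negSucc 5028696859768, .ofNat 77233914826],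
  [.ofNat 0, .ofNat 0, .ofNat 0, .ofNat 0, .ofNat 0, .ofNat 0, .ofNat 0, .ofNat 0, .ofNat 0, .ofNat 636261100710, .negSucc 590382133, .negSucc 98572057126, .negSucc 63119692776, .negSucc 4278756844499, .negSucc 1413306258993, .negSucc 115310737, .ofNat 37749783429, .ofNat 361359927854, .ofNat 515490654919, .negSucc 192709847, .negSucc 41224241810, .ofNat 8120233944, .ofNat 920856567854, .ofNat 627284568705, .negSucc 342696816518, .ofNat 2111253667395, .negSucc 2035486268199, .negSucc 6096126634848, .ofNat 89187562681],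
  [.ofNat 0, .ofNat 0, .ofNat 0, .ofNat 0, .ofNat 0, .ofNat 0, .ofNat 0, .ofNat 0, .ofNat 0, .ofNat 0, .ofNat 1209471228, .ofNat 85171911859, .ofNat 962202609108, .ofNat 4503075400990, .ofNat 1659162311524, .ofNat 145999761, .negSucc 52013536835, .negSucc 464968632093, .negSucc 674746058587, .ofNat 510841663, .negSucc 863896897, .negSucc 204878015, .negSucc 1519427797336, .ofNat 3290875103811, .ofNat 425338478428, .ofNat 2749197612002, .ofNat 289794850191, .ofNat 5561354079994, .negSucc 72549030075],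
  [.ofNat 0, .ofNat 0, .ofNat 0, .ofNat 0, .ofNat 0, .ofNat 0, .ofNat 0, .ofNat 0, .ofNat 0, .ofNat 0, .ofNat 0, .ofNat 868194714723, .ofNat 12866303062389, .ofNat 45130130005877, .ofNat 17194797668078, .negSucc 542681724, .negSucc 580962830422, .negSucc 4318800335682, .negSucc 6938086899615, .negSucc 803547572, .ofNat 99767763091, .ofNat 617193676, .negSucc 12968523936344, .ofNat 20922472217004, .ofNat 5086179491918, .ofNat 13645294923824, .ofNat 9672401571301, .ofNat 62741998628122, .negSucc 818519753096],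
  [.ofNat 0, .ofNat 0, .ofNat 0, .ofNat 0, .ofNat 0, .ofNat 0, .ofNat 0, .ofNat 0, .ofNat 0, .ofNat 0, .ofNat 0, .ofNat 0, .ofNat 31380278806572, .ofNat 20084439783409, .ofNat 11944661132928, .negSucc 222658145, .negSucc 398165248779, .negSucc 836822182381, .negSucc 5302093870301, .negSucc 514867037, .ofNat 48342215996, .negSucc 1788281612, .negSucc 8428412222115, .ofNat 9396946009382, .ofNat 4115162630529, .ofNat 2345889261695, .ofNat 8424494882280, .ofNat 47884236402700, .negSucc 568055191720],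
  [.ofNat 0, .ofNat 0, .ofNat 0, .ofNat 0, .ofNat 0, .ofNat 0, .ofNat 0, .ofNat 0, .ofNat 0, .ofNat 0, .ofNat 0, .ofNat 0, .ofNat 0, .ofNat 7353251068628, .ofNat 2363264519270, .ofNat 2200392014, .negSucc 69559184589, .negSucc 1488733098827, .negSucc 670478133117, .ofNat 3011870323, .ofNat 60411986613, .negSucc 58145159, .negSucc 1619421070367, .ofNat 9655187343228, .negSucc 481364378552, .ofNat 4424428288908, .negSucc 1133705035456, .ofNat 4947691744381, .negSucc 113965817508],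
  [.ofNat 0, .ofNat 0, .ofNat 0, .ofNat 0, .ofNat 0, .ofNat 0, .ofNat 0, .ofNat 0, .ofNat 0, .ofNat 0, .ofNat 0, .ofNat 0, .ofNat 0, .ofNat 0, .ofNat 755034194551, .ofNat 335907749, .negSucc 8659841057, .ofNat 344071410495, .negSucc 274105798274, .ofNat 238964001, .negSucc 66555282718, .negSucc 2856020508, .negSucc 305488835697, .negSucc 2937146177243, .ofNat 528022392989, .negSucc 967680217952, .ofNat 1740908569097, .ofNat 2321333450263, .negSucc 35443339719],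
  [.ofNat 0, .ofNat 0, .ofNat 0, .ofNat 0, .ofNat 0, .ofNat 0, .ofNat 0, .ofNat 0, .ofNat 0, .ofNat 0, .ofNat 0, .ofNat 0, .ofNat 0, .ofNat 0, .ofNat 0, .ofNat 3095900196, .ofNat 440737712, .ofNat 95891194180, .negSucc 196753442079, .ofNat 4397113662, .negSucc 24694869945, .ofNat 3623277539, .ofNat 66804291742, .negSucc 4538661804077, .ofNat 711929708851, .negSucc 274706097560, .ofNat 1695271258486, .ofNat 226372998526, .negSucc 4275612243],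
  [.ofNat 0, .ofNat 0, .ofNat 0, .ofNat 0, .ofNat 0, .ofNat 0, .ofNat 0, .ofNat 0, .ofNat 0, .ofNat 0, .ofNat 0, .ofNat 0, .ofNat 0, .ofNat 0, .ofNat 0, .ofNat 0, .ofNat 86507910191, .ofNat 1110645933022, .ofNat 772856023734, .negSucc 1234933103, .negSucc 79943832972, .ofNat 27415101084, .ofNat 1817762840619, .negSucc 5814237493587, .ofNat 123832028614, .negSucc 2435496241091, .ofNat 2107012415861, .negSucc 6103444385889, .negSucc 15990188370],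
  [.ofNat 0, .ofNat 0, .ofNat 0, .ofNat 0, .ofNat 0, .ofNat 0, .ofNat 0, .ofNat 0, .ofNat 0, .ofNat 0, .ofNat 0, .ofNat 0, .ofNat 0, .ofNat 0, .ofNat 0, .ofNat 0, .ofNat 0, .ofNat 1341985472988, .negSucc 6444343814, .negSucc 9223981342, .negSucc 30247629812, .ofNat 9051127175, .ofNat 176335279139, .negSucc 769096536279, .ofNat 381966068731, .negSucc 3485523000170, .ofNat 997819750999, .ofNat 3617552457954, .negSucc 30553057266],
  [.ofNat 0, .ofNat 0, .ofNat 0, .ofNat 0, .ofNat 0, .ofNat 0, .ofNat 0, .ofNat 0, .ofNat 0, .ofNat 0, .ofNat 0, .ofNat 0, .ofNat 0, .ofNat 0, .ofNat 0, .ofNat 0, .ofNat 0, .ofNat 0, .ofNat 457935419583, .negSucc 1204285401, .negSucc 112732668807, .negSucc 9908494535, .ofNat 854104622629, .negSucc 6320895058521, .ofNat 266027159103, .negSucc 344177601729, .ofNat 2408332241795, .negSucc 3790360566452, .ofNat 1899672534],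
  [.ofNat 0, .ofNat 0, .ofNat 0, .ofNat 0, .ofNat 0, .ofNat 0, .ofNat 0, .ofNat 0, .ofNat 0, .ofNat 0, .ofNat 0, .ofNat 0, .ofNat 0, .ofNat 0, .ofNat 0, .ofNat 0, .ofNat 0, .ofNat 0, .ofNat 0, .ofNat 4214569996, .negSucc 69271502709, .ofNat 4999596839, .ofNat 357252658399, .negSucc 3437461133997, .ofNat 368459629358, .ofNat 519620121981, .ofNat 1009181243715, .negSucc 1461596864041, .ofNat 8372831138],
  [.ofNat 0, .ofNat 0, .ofNat 0, .ofNat 0, .ofNat 0, .ofNat 0, .ofNat 0, .ofNat 0, .ofNat 0, .ofNat 0, .ofNat 0, .ofNat 0, .ofNat 0, .ofNat 0, .ofNat 0, .ofNat 0, .ofNat 0, .ofNat 0, .ofNat 0, .ofNat 0, .ofNat 212152956996, .negSucc 1171515867, .ofNat 848811449212, .ofNat 108758512366, .negSucc 669917076274, .negSucc 5096048719577, .negSucc 136637215597, .ofNat 77633786783, .ofNat 159368527],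
  [.ofNat 0, .ofNat 0, .ofNat 0, .ofNat 0, .ofNat 0, .ofNat 0, .ofNat 0, .ofNat 0, .ofNat 0, .ofNat 0, .ofNat 0, .ofNat 0, .ofNat 0, .ofNat 0, .ofNat 0, .ofNat 0, .ofNat 0, .ofNat 0, .ofNat 0, .ofNat 0, .ofNat 0, .ofNat 39215019398, .ofNat 1123329319539, .ofNat 3094674385028, .ofNat 731050259927, .negSucc 69797809328, .ofNat 23247417459, .ofNat 645022329783, .negSucc 19276444897],
  [.ofNat 0, .ofNat 0, .ofNat 0, .ofNat 0, .ofNat 0, .ofNat 0, .ofNat 0, .ofNat 0, .ofNat 0, .ofNat 0, .ofNat 0, .ofNat 0, .ofNat 0, .ofNat 0, .ofNat 0, .ofNat 0, .ofNat 0, .ofNat 0, .ofNat 0, .ofNat 0, .ofNat 0, .ofNat 0, .ofNat 1137454900354, .negSucc 10225626992997, .ofNat 380206078624, .negSucc 3825733416963, .ofNat 2767768488309, .negSucc 2015727577366, .ofNat 30876024757],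
  [.ofNat 0, .ofNat 0, .ofNat 0, .ofNat 0, .ofNat 0, .ofNat 0, .ofNat 0, .ofNat 0, .ofNat 0, .ofNat 0, .ofNat 0, .ofNat 0, .ofNat 0, .ofNat 0, .ofNat 0, .ofNat 0, .ofNat 0, .ofNat 0, .ofNat 0, .ofNat 0, .ofNat 0, .ofNat 0, .ofNat 0, .ofNat 7509912210711, .negSucc 737656866231, .ofNat 3129456345194, .negSucc 2327778414582, .negSucc 1635065653763, .ofNat 5522262421],
  [.ofNat 0, .ofNat 0, .ofNat 0, .ofNat 0, .ofNat 0, .ofNat 0, .ofNat 0, .ofNat 0, .ofNat 0, .ofNat 0, .ofNat 0, .ofNat 0, .ofNat 0, .ofNat 0, .ofNat 0, .ofNat 0, .ofNat 0, .ofNat 0, .ofNat 0, .ofNat 0, .ofNat 0, .ofNat 0, .ofNat 0, .ofNat 0, .ofNat 329437941086, .ofNat 1040495742583, .negSucc 368691029524, .negSucc 1136773931571, .ofNat 47038811176],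
  [.ofNat 0, .ofNat 0, .ofNat 0, .ofNat 0, .ofNat 0, .ofNat 0, .ofNat 0, .ofNat 0, .ofNat 0, .ofNat 0, .ofNat 0, .ofNat 0, .ofNat 0, .ofNat 0, .ofNat 0, .ofNat 0, .ofNat 0, .ofNat 0, .ofNat 0, .ofNat 0, .ofNat 0, .ofNat 0, .ofNat 0, .ofNat 0, .ofNat 0, .ofNat 2716266885714, .negSucc 1071604944372, .negSucc 2663049152572, .ofNat 54282653535],
  [.ofNat 0, .ofNat 0, .ofNat 0, .ofNat 0, .ofNat 0, .ofNat 0, .ofNat 0, .ofNat 0, .ofNat 0, .ofNat 0, .ofNat 0, .ofNat 0, .ofNat 0, .ofNat 0, .ofNat 0, .ofNat 0, .ofNat 0, .ofNat 0, .ofNat 0, .ofNat 0, .ofNat 0, .ofNat 0, .ofNat 0, .ofNat 0, .ofNat 0, .ofNat 0, .ofNat 1061768631217, .ofNat 563791891720, .negSucc 58050085897],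
  [.ofNat 0, .ofNat 0, .ofNat 0, .ofNat 0, .ofNat 0, .ofNat 0, .ofNat 0, .ofNat 0, .ofNat 0, .ofNat 0, .ofNat 0, .ofNat 0, .ofNat 0, .ofNat 0, .ofNat 0, .ofNat 0, .ofNat 0, .ofNat 0, .ofNat 0, .ofNat 0, .ofNat 0, .ofNat 0, .ofNat 0, .ofNat 0, .ofNat 0, .ofNat 0, .ofNat 0, .ofNat 2022856207711, .negSucc 3038658254],
  [.ofNat 0, .ofNat 0, .ofNat 0, .ofNat 0, .ofNat 0, .ofNat 0, .ofNat 0, .ofNat 0, .ofNat 0, .ofNat 0, .ofNat 0, .ofNat 0, .ofNat 0, .ofNat 0, .ofNat 0, .ofNat 0, .ofNat 0, .ofNat 0, .ofNat 0, .ofNat 0, .ofNat 0, .ofNat 0, .ofNat 0, .ofNat 0, .ofNat 0, .ofNat 0, .ofNat 0, .ofNat 0, .ofNat 16403813943]]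

end Pool.Agent.P749578
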