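import Mathlib

namespace Pool.Agent.P749578

set_option maxRecDepth 100000

def dF11 : List (List ℤ) :=
  [[.ofNat 396361728, .ofNat 0, .ofNat 0, .ofNat 0, .ofNat 0, .ofNat 0, .ofNat 0, .ofNat 0, .ofNat 0, .ofNat 0, .ofNat 0, .ofNat 0, .ofNat 0, .ofNat 0, .ofNat 0, .ofNat 0, .ofNat 0, .ofNat 0, .ofNat 0, .ofNat 0, .ofNat 0, .ofNat 0, .ofNat 0, .ofNat 0, .ofNat 0, .ofNat 0, .ofNat 0, .ofNat 0, .ofNat 0],
  [.negSucc 198180863, .negSucc 198180863, .ofNat 0, .ofNat 0, .ofNat 0, .ofNat 0, .ofNat 0, .ofNat 0, .ofNat 0, .ofNat 0, .ofNat 0, .ofNat 0, .ofNat 0, .ofNat 0, .ofNat 0, .ofNat 0, .ofNat 0, .ofNat 0, .ofNat 0, .ofNat 0, .ofNat 0, .ofNat 0, .ofNat 0, .ofNat 0, .ofNat 0, .ofNat 0, .ofNat 0, .ofNat 0, .ofNat 0],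
  [.ofNat 54923904, .ofNat 0, .ofNat 0, .ofNat 0, .ofNat 0, .negSucc 894999423, .negSucc 136471551, .negSucc 4332287, .ofNat 1083392, .ofNat 5734272, .negSucc 6134196095, .ofNat 0, .ofNat 0, .ofNat 0, .ofNat 0, .ofNat 0, .ofNat 1783627776, .negSucc 56623103, .negSucc 113246207, .negSucc 4756340735, .negSucc 12801599, .negSucc 45839807, .ofNat 5230848, .negSucc 609599, .negSucc 3657599, .ofNat 1278208, .ofNat 0, .ofNat 1278208, .ofNat 0],
  [.ofNat 1781442432, .ofNat 0, .ofNat 0, .ofNat 0, .ofNat 0, .negSucc 182888319, .negSucc 107282559, .ofNat 2396576, .ofNat 12456192, .ofNat 14847840, .ofNat 27707484672, .ofNat 0, .ofNat 0, .ofNat 0, .ofNat 0, .ofNat 0, .negSucc 4161798143, .ofNat 396361728, .ofNat 0, .ofNat 0, .negSucc 458563391, .negSucc 1270067903, .ofNat 169661184, .negSucc 21836351, .negSucc 131018111, .ofNat 42834432, .ofNat 0, .ofNat 42834432, .ofNat 0],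
  [.ofNat 2674066752, .ofNat 0, .ofNat 0, .ofNat 0, .ofNat 0, .negSucc 14759299583, .negSucc 2099086079, .negSucc 45706943, .ofNat 58520832, .ofNat 129276096, .negSucc 52621761023, .ofNat 0, .ofNat 0, .ofNat 0, .ofNat 0, .ofNat 0, .negSucc 5747245055, .ofNat 320864256, .ofNat 0, .ofNat 0, .negSucc 1059629759, .negSucc 9562666175, .ofNat 254673024, .negSucc 50458559, .ofNat 376725888, .ofNat 587072, .negSucc 226492415, .ofNat 587072, .negSucc 4756340735],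
  [.negSucc 122721983, .ofNat 0, .ofNat 0, .ofNat 0, .ofNat 0, .ofNat 1129094112, .ofNat 159761280, .ofNat 3820704, .negSucc 3770111, .negSucc 9174335, .ofNat 5077489536, .ofNat 0, .ofNat 0, .ofNat 0, .ofNat 0, .ofNat 0, .ofNat 198180864, .ofNat 0, .ofNat 0, .ofNat 0, .ofNat 54677952, .ofNat 764777664, .negSucc 11687807, .ofNat 2603712, .negSucc 41000831, .ofNat 2607680, .ofNat 18874368, .ofNat 2607680, .ofNat 396361728],
  [.ofNat 1884701952, .ofNat 0, .ofNat 0, .ofNat 0, .ofNat 0, .negSucc 5296853151, .negSucc 775489791, .negSucc 13287455, .ofNat 28817216, .ofNat 62675712, .ofNat 5555257344, .ofNat 0, .ofNat 0, .ofNat 0, .ofNat 0, .ofNat 0, .negSucc 4954521599, .ofNat 396361728, .ofNat 0, .ofNat 0, .negSucc 706573727, .negSucc 3407429087, .ofNat 179495424, .negSucc 33646367, .ofNat 24614208, .ofNat 27180992, .negSucc 75497471, .ofNat 27180992, .negSucc 1585446911],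
  [.negSucc 104831, .ofNat 0, .ofNat 0, .ofNat 0, .ofNat 0, .negSucc 465759, .negSucc 71679, .negSucc 1951, .ofNat 1216, .ofNat 192, .ofNat 123475968, .ofNat 0, .ofNat 0, .ofNat 0, .ofNat 0, .ofNat 0, .ofNat 0, .ofNat 0, .ofNat 0, .ofNat 0, .negSucc 24191, .ofNat 330624, .negSucc 9983, .negSucc 1151, .negSucc 6911, .negSucc 895, .ofNat 0, .negSucc 895, .ofNat 0],
  [.ofNat 241706304, .ofNat 0, .ofNat 0, .ofNat 0, .ofNat 0, .ofNat 2121522016, .ofNat 259960960, .ofNat 7131360, .negSucc 4305919, .negSucc 17597951, .ofNat 15932391552, .ofNat 0, .ofNat 0, .ofNat 0, .ofNat 0, .ofNat 0, .negSucc 594542591, .ofNat 94371840, .ofNat 0, .ofNat 0, .ofNat 19291104, .ofNat 1005578784, .ofNat 23019648, .ofNat 918624, .negSucc 107734463, .ofNat 15807104, .ofNat 37748736, .ofNat 15807104, .ofNat 792723456],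
  [.negSucc 13740172991, .ofNat 0, .ofNat 0, .ofNat 0, .ofNat 0, .ofNat 8901890368, .ofNat 2294970496, .ofNat 5103200, .negSucc 153720063, .ofNat 121026144, .negSucc 287256219263, .ofNat 0, .ofNat 0, .ofNat 0, .ofNat 0, .ofNat 0, .ofNat 44194332672, .negSucc 4359979007, .ofNat 0, .ofNat 0, .ofNat 2362024224, .ofNat 1401202656, .negSucc 1384085375, .ofNat 263472288, .ofNat 1580833728, .negSucc 406329087, .ofNat 0, .negSucc 406329087, .ofNat 0],
  [.ofNat 18410091840, .ofNat 0, .ofNat 0, .ofNat 0, .ofNat 0, .negSucc 10474953791, .negSucc 2823405311, .negSucc 1683871, .ofNat 198304064, .negSucc 163268639, .ofNat 380407345920, .ofNat 0, .ofNat 0, .ofNat 0, .ofNat 0, .ofNat 0, .negSucc 58066993151, .ofNat 5643436032, .ofNat 0, .ofNat 0, .negSucc 2984742431, .negSucc 5249278943, .ofNat 1866588288, .negSucc 368623007, .negSucc 1871999423, .ofNat 519097984, .negSucc 113246207, .ofNat 519097984, .negSucc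 2378170367],
  [.negSucc 12070626623, .ofNat 0, .ofNat 0, .ofNat 0, .ofNat 0, .ofNat 5295142368, .ofNat 1570910208, .negSucc 3228799, .negSucc 118665471, .ofNat 97445472, .negSucc 226511123327, .ofNat 0, .ofNat 0, .ofNat 0, .ofNat 0, .ofNat 0, .ofNat 35474374656, .negSucc 3378511871, .ofNat 0, .ofNat 0, .ofNat 1811228832, .ofNat 7157874528, .negSucc 1225080959, .ofNat 237243936, .ofNat 970478784, .negSucc 312011135, .ofNat 150994944, .negSucc 312011135, .ofNat 3170893824],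
  [.negSucc 19666188863, .ofNat 0, .ofNat 0, .ofNat 0, .ofNat 0, .ofNat 11458699840, .ofNat 3143504896, .ofNat 7496768, .negSucc 209542527, .ofNat 129970944, .negSucc 405444783743, .ofNat 0, .ofNat 0, .ofNat 0, .ofNat 0, .ofNat 0, .ofNat 61237886976, .negSucc 6134169599, .ofNat 0, .ofNat 0, .ofNat 3626507808, .ofNat 589028832, .negSucc 1948467839, .ofNat 323685792, .ofNat 2395099584, .negSucc 590866815, .negSucc 150994943, .negSucc 590866815, .negSucc 3170893823],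
  [.ofNat 4032, .ofNat 0, .ofNat 0, .ofNat 0, .ofNat 0, .ofNat 450112, .ofNat 79744, .ofNat 2176, .negSucc 1343, .ofNat 2496, .negSucc 121516415, .ofNat 0, .ofNat 0, .ofNat 0, .ofNat 0, .ofNat 0, .ofNat 0, .ofNat 0, .ofNat 0, .ofNat 0, .ofNat 16128, .negSucc 88703, .ofNat 384, .ofNat 768, .ofNat 4608, .negSucc 447, .ofNat 0, .negSucc 447, .ofNat 0],
  [.negSucc 13636582847, .ofNat 0, .ofNat 0, .ofNat 0, .ofNat 0, .ofNat 9296908448, .ofNat 2429692160, .ofNat 5663904, .negSucc 162221631, .ofNat 224546688, .negSucc 296768054015, .ofNat 0, .ofNat 0, .ofNat 0, .ofNat 0, .ofNat 0, .ofNat 45779779584, .negSucc 4473225215, .ofNat 0, .ofNat 0, .ofNat 1632288672, .ofNat 2464529760, .negSucc 1411968383, .ofNat 304220448, .ofNat 1485584064, .negSucc 400392959, .ofNat 113246208, .negSucc 400392959, .ofNat 2378170368],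
  [.negSucc 15343578431, .ofNat 0, .ofNat 0, .ofNat 0, .ofNat 0, .ofNat 6620675488, .ofNat 1884434944, .negSucc 9635263, .negSucc 153873023, .ofNat 44275296, .negSucc 298129313663, .ofNat 0, .ofNat 0, .ofNat 0, .ofNat 0, .ofNat 0, .ofNat 44194332672, .negSucc 4359979007, .ofNat 0, .ofNat 0, .ofNat 2178410976, .ofNat 5526079776, .negSucc 1461293183, .ofNat 254728800, .ofNat 1528372800, .negSucc 413368063, .ofNat 0, .negSucc 413368063, .ofNat 0],
  [.negSucc 12261549887, .ofNat 1585446912, .ofNat 0, .negSucc 25165823, .ofNat 0, .ofNat 1737112544, .ofNat 1652454272, .ofNat 8782304, .negSucc 100467839, .ofNat 128524416, .negSucc 315786086783, .negSucc 528482303, .ofNat 0, .ofNat 50331648, .negSucc 75497471, .negSucc 19025362943, .ofNat 47365226496, .negSucc 4359979007, .negSucc 226492415, .ofNat 0, .ofNat 2388016512, .negSucc 6442345727, .negSucc 1243264127, .ofNat 264710016, .ofNat 1814752512, .negSucc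 408849855, .negSucc 75497471, .negSucc 408849855, .negSucc 1585446911],
  [.negSucc 30541391999, .ofNat 0, .ofNat 0, .ofNat 0, .ofNat 0, .negSucc 66954997023, .negSucc 6220896639, .negSucc 240940863, .negSucc 37531967, .ofNat 844865568, .negSucc 1047856739327, .ofNat 0, .ofNat 0, .ofNat 0, .ofNat 0, .ofNat 0, .ofNat 102063144960, .negSucc 10097786879, .ofNat 0, .ofNat 0, .ofNat 4255659072, .negSucc 25198834751, .negSucc 2908703999, .ofNat 353645376, .ofNat 5745750912, .negSucc 1098034943, .negSucc 1207959551, .negSucc 1022537471, .negSucc 25367150591],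
  [.ofNat 917993664, .ofNat 0, .ofNat 0, .negSucc 12582911, .ofNat 0, .ofNat 9489841440, .ofNat 1189590528, .ofNat 33077024, .negSucc 18816703, .negSucc 113147519, .ofNat 74662826112, .ofNat 0, .ofNat 0, .ofNat 0, .ofNat 0, .ofNat 0, .negSucc 4161798143, .ofNat 434110464, .ofNat 0, .ofNat 0, .ofNat 91318752, .ofNat 4049206560, .ofNat 87427968, .ofNat 4348512, .negSucc 426893759, .ofNat 62003968, .ofNat 150994944, .ofNat 49421056, .ofNat 3170893824],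
  [.ofNat 12879361152, .negSucc 1585446911, .ofNat 0, .ofNat 25165824, .ofNat 0, .negSucc 2994118591, .negSucc 1922109055, .negSucc 10319871, .ofNat 116653760, .negSucc 133722047, .ofNat 328854145536, .ofNat 528482304, .ofNat 0, .negSucc 50331647, .ofNat 75497472, .ofNat 19025362944, .negSucc 50536120319, .ofNat 4661968896, .ofNat 226492416, .ofNat 0, .negSucc 2696095583, .ofNat 6747118560, .ofNat 1302103296, .negSucc 279380447, .negSucc 1902775103, .ofNat 428436672, .ofNat 75497472, .ofNat 428436672, .ofNat 1585446912],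
  [.negSucc 3769919, .ofNat 0, .ofNat 0, .ofNat 0, .ofNat 0, .negSucc 12736511, .negSucc 1717631, .negSucc 31359, .ofNat 59968, .negSucc 98687, .negSucc 51190271, .ofNat 0, .ofNat 0, .ofNat 0, .ofNat 0, .ofNat 0, .ofNat 0, .ofNat 0, .ofNat 0, .ofNat 0, .negSucc 1003967, .ofNat 12559680, .negSucc 359039, .negSucc 47807, .negSucc 286847, .negSucc 27967, .ofNat 0, .negSucc 27967, .ofNat 0],
  [.ofNat 8055363456, .ofNat 0, .ofNat 0, .ofNat 0, .ofNat 0, .negSucc 8031731583, .negSucc 1971219711, .negSucc 17315487, .ofNat 106170432, .negSucc 211146335, .ofNat 174996775296, .ofNat 0, .ofNat 0, .ofNat 0, .ofNat 0, .ofNat 0, .negSucc 27547140095, .ofNat 2774532096, .ofNat 0, .ofNat 0, .negSucc 322898687, .ofNat 1358235648, .ofNat 767177472, .negSucc 166371071, .negSucc 998226431, .ofNat 238776960, .ofNat 0, .ofNat 238776960, .ofNat 0],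
  [.ofNat 23184604800, .ofNat 1585446912, .ofNat 0, .negSucc 25165823, .ofNat 0, .negSucc 25482914527, .negSucc 4651791871, .negSucc 20118751, .ofNat 292033344, .negSucc 197999231, .ofNat 369890696448, .negSucc 528482303, .ofNat 0, .ofNat 50331648, .negSucc 75497471, .negSucc 19025362943, .negSucc 62426972159, .ofNat 6322913280, .negSucc 226492415, .ofNat 0, .negSucc 3022657343, .negSucc 16986900671, .ofNat 2359052544, .negSucc 445925951, .negSucc 1769586047, .ofNat 589796096, .negSucc 301989887, .ofNat 589796096, .negSucc 6341787647],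
  [.negSucc 1176279551, .ofNat 0, .ofNat 0, .ofNat 0, .ofNat 0, .ofNat 12803496896, .ofNat 656961536, .negSucc 13119199, .negSucc 73164223, .negSucc 105654239, .ofNat 83666362752, .ofNat 0, .ofNat 0, .negSucc 50331647, .ofNat 0, .ofNat 0, .negSucc 7332691967, .ofNat 622854144, .ofNat 0, .ofNat 0, .ofNat 144841536, .ofNat 15897373632, .negSucc 112026623, .ofNat 6897216, .negSucc 638093951, .ofNat 77394048, .ofNat 301989888, .ofNat 52228224, .ofNat 4756340736],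
  [.negSucc 9436904063, .negSucc 396361727, .ofNat 0, .ofNat 6291456, .ofNat 0, .ofNat 7210442784, .ofNat 1782633216, .ofNat 9932160, .negSucc 107466623, .ofNat 110195616, .negSucc 186795141119, .ofNat 132120576, .negSucc 6291455, .negSucc 12582911, .ofNat 18874368, .ofNat 4756340736, .ofNat 28339863552, .negSucc 2925527039, .ofNat 56623104, .ofNat 0, .ofNat 1304825760, .ofNat 2044274400, .negSucc 936501503, .ofNat 175380768, .ofNat 995661504, .negSucc 273004095, .ofNat 0, .negSucc 266712639, .ofNat 396361728],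
  [.negSucc 5708868479, .ofNat 0, .ofNat 0, .ofNat 0, .ofNat 0, .negSucc 7534832415, .ofNat 551269376, .ofNat 12671360, .negSucc 14033663, .ofNat 226021728, .negSucc 246323863295, .ofNat 704643072, .ofNat 0, .ofNat 0, .ofNat 0, .ofNat 0, .ofNat 30321672192, .negSucc 3013607423, .ofNat 0, .ofNat 0, .ofNat 971014464, .negSucc 15105109823, .negSucc 543701759, .ofNat 96570432, .ofNat 1485392256, .negSucc 280826367, .negSucc 402653183, .negSucc 255660543, .negSucc 8455716863],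
  [.ofNat 62331252480, .ofNat 0, .ofNat 0, .ofNat 0, .ofNat 0, .ofNat 36500533952, .negSucc 2385139455, .ofNat 91175264, .ofNat 352717632, .negSucc 862621727, .ofNat 1700347614336, .negSucc 2113929215, .ofNat 0, .ofNat 0, .ofNat 0, .ofNat 0, .negSucc 208288088063, .ofNat 21422407680, .ofNat 0, .ofNat 0, .negSucc 13211682623, .ofNat 57133532736, .ofNat 5936309760, .negSucc 780122687, .negSucc 11022523775, .ofNat 2289607296, .ofNat 2415919104, .ofNat 2214109824, .ofNat 50734301184],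
  [.negSucc 197567, .ofNat 0, .ofNat 0, .ofNat 0, .ofNat 0, .negSucc 2093535, .negSucc 259839, .negSucc 5215, .ofNat 8128, .negSucc 1578239, .negSucc 8709119, .ofNat 0, .ofNat 0, .ofNat 0, .ofNat 1572864, .ofNat 396361728, .ofNat 0, .ofNat 0, .ofNat 0, .ofNat 0, .negSucc 16127, .ofNat 475776, .negSucc 18815, .negSucc 767, .negSucc 4607, .negSucc 2623, .ofNat 0, .negSucc 2623, .ofNat 33030144],
  [.ofNat 12464710272, .ofNat 1585446912, .ofNat 0, .negSucc 25165823, .ofNat 0, .negSucc 32469303487, .negSucc 5004739711, .negSucc 57789791, .ofNat 241901824, .negSucc 99201503, .ofNat 137540446848, .negSucc 528482303, .ofNat 0, .ofNat 50331648, .negSucc 150994943, .negSucc 38050725887, .negSucc 36267098111, .ofNat 3529506816, .negSucc 226492415, .ofNat 0, .negSucc 723762143, .negSucc 19725162911, .ofNat 1338110208, .negSucc 336454751, .negSucc 206789183, .ofNat 245994944, .negSucc 603979775, .ofNat 245994944,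 .negSucc 14269022207]]

def db11 : List (List ℤ) :=
  [[.ofNat 396361728],
  [.negSucc 198180863],
  [.ofNat 0],
  [.ofNat 0],
  [.ofNat 0],
  [.ofNat 0],
  [.ofNat 0],
  [.ofNat 0],
  [.ofNat 0],
  [.ofNat 0],
  [.ofNat 0],
  [.ofNat 0],
  [.ofNat 0],
  [.ofNat 0],
  [.ofNat 0],
  [.negSucc 396361727],
  [.negSucc 396361727],
  [.negSucc 10701766655],
  [.ofNat 1585446912],
  [.ofNat 396361728],
  [.ofNat 0],
  [.ofNat 792723456],
  [.negSucc 396361727],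
  [.ofNat 3567255552],
  [.negSucc 792723455],
  [.negSucc 3567255551],
  [.ofNat 10701766656],
  [.ofNat 0],
  [.negSucc 396361727]]

def dF21 : List (List ℤ) :=
  [[.ofNat 396361728, .ofNat 0, .ofNat 0, .ofNat 0, .ofNat 0, .ofNat 0, .ofNat 0, .ofNat 0, .ofNat 0, .ofNat 0, .ofNat 0, .ofNat 0, .ofNat 0, .ofNat 0, .ofNat 0, .ofNat 0, .ofNat 0, .ofNat 0, .ofNat 0, .ofNat 0, .ofNat 0, .ofNat 0, .ofNat 0, .ofNat 0, .ofNat 0],
  [.ofNat 198180864, .negSucc 198180863, .ofNat 0, .ofNat 0, .ofNat 0, .ofNat 0, .ofNat 0, .ofNat 0, .ofNat 0, .ofNat 0, .ofNat 0, .ofNat 0, .ofNat 0, .ofNat 0, .ofNat 0, .ofNat 0, .ofNat 0, .ofNat 0, .ofNat 0, .ofNat 0, .ofNat 0, .ofNat 0, .ofNat 0, .ofNat 0, .ofNat 0],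
  [.negSucc 36092511, .ofNat 0, .ofNat 0, .ofNat 0, .ofNat 0, .ofNat 1039369472, .negSucc 545886207, .ofNat 4332288, .negSucc 1083391, .negSucc 30076319, .negSucc 24342047, .ofNat 72185024, .ofNat 0, .ofNat 0, .ofNat 0, .ofNat 0, .ofNat 84986624, .ofNat 8177024, .negSucc 5230847, .ofNat 2438400, .ofNat 7315200, .negSucc 1278207, .ofNat 0, .negSucc 1278207, .ofNat 0],
  [.ofNat 467340848, .ofNat 0, .ofNat 0, .ofNat 0, .ofNat 0, .negSucc 1686475071, .negSucc 429130239, .negSucc 2396575, .negSucc 12456191, .ofNat 95102496, .ofNat 109950336, .negSucc 1331043423, .ofNat 0, .ofNat 0, .ofNat 0, .ofNat 0, .negSucc 476118303, .negSucc 3227498655, .negSucc 169661183, .ofNat 87345408, .ofNat 262036224, .negSucc 42834431, .ofNat 0, .negSucc 42834431, .ofNat 0],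
  [.ofNat 515053152, .ofNat 0, .ofNat 0, .ofNat 0, .ofNat 0, .ofNat 12699086976, .negSucc 8396344319, .ofNat 45706944, .negSucc 58520831, .negSucc 338092607, .negSucc 208816511, .negSucc 1030106303, .ofNat 0, .negSucc 75497471, .ofNat 0, .ofNat 0, .ofNat 29523456, .ofNat 3184426368, .negSucc 254673023, .ofNat 201834240, .negSucc 753451775, .negSucc 76084543, .negSucc 1056964607, .negSucc 76084543, .negSucc 75497471],
  [.negSucc 16216439, .ofNat 0, .ofNat 0, .ofNat 0, .ofNat 0, .negSucc 1064228351, .ofNat 639045120, .negSucc 3820703, .ofNat 3770112, .ofNat 29323104, .ofNat 20148768, .ofNat 32432880, .negSucc 198180863, .ofNat 0, .ofNat 0, .ofNat 0, .negSucc 22245071, .negSucc 486900815, .ofNat 11687808, .negSucc 10414847, .ofNat 82001664, .ofNat 3683776, .ofNat 88080384, .ofNat 3683776, .ofNat 6291456],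
  [.ofNat 455955032, .ofNat 0, .ofNat 0, .ofNat 0, .ofNat 0, .ofNat 3473033024, .negSucc 3101959167, .ofNat 13287456, .negSucc 28817215, .negSucc 40631039, .ofNat 22044672, .negSucc 911910063, .negSucc 792723455, .ofNat 0, .ofNat 0, .ofNat 0, .negSucc 205336335, .negSucc 1273884879, .negSucc 179495423, .ofNat 134585472, .negSucc 49228415, .negSucc 52346815, .negSucc 352321535, .negSucc 52346815, .negSucc 25165823],
  [.ofNat 2504, .ofNat 0, .ofNat 0, .ofNat 0, .ofNat 0, .ofNat 455744, .negSucc 286719, .ofNat 1952, .negSucc 1215, .ofNat 489792, .ofNat 489984, .negSucc 5007, .ofNat 0, .ofNat 0, .negSucc 2359295, .negSucc 2359295, .ofNat 19184, .negSucc 125967, .ofNat 9984, .ofNat 4608, .ofNat 13824, .ofNat 896, .ofNat 0, .ofNat 896, .ofNat 0],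
  [.ofNat 102287944, .ofNat 0, .ofNat 0, .ofNat 0, .ofNat 0, .negSucc 2530673791, .ofNat 1039843840, .negSucc 7131359, .ofNat 4305920, .ofNat 80821728, .ofNat 63223776, .negSucc 402756751, .ofNat 396361728, .ofNat 9437184, .ofNat 0, .ofNat 28311552, .negSucc 223866991, .negSucc 1693567279, .negSucc 23019647, .negSucc 3674495, .ofNat 215468928, .negSucc 3224191, .ofNat 176160768, .negSucc 3224191, .ofNat 12582912],
  [.negSucc 5198551231, .ofNat 0, .ofNat 0, .ofNat 0, .ofNat 0, .ofNat 11892314560, .ofNat 9179881984, .negSucc 5103199, .ofNat 153720064, .negSucc 1260931775, .negSucc 1139905631, .ofNat 10397102464, .ofNat 0, .ofNat 0, .ofNat 0, .ofNat 0, .ofNat 8035078240, .ofNat 34890798880, .ofNat 1384085376, .negSucc 1053889151, .negSucc 3161667455, .ofNat 406329088, .ofNat 0, .ofNat 406329088, .ofNat 0],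
  [.ofNat 6804170544, .ofNat 0, .ofNat 0, .ofNat 0, .ofNat 0, .negSucc 16741728383, .negSucc 11293621247, .ofNat 1683872, .negSucc 198304063, .ofNat 1672821600, .ofNat 1509552960, .negSucc 13608341087, .ofNat 0, .ofNat 0, .ofNat 0, .ofNat 0, .negSucc 10623598655, .negSucc 42801075455, .negSucc 1866588287, .ofNat 1474492032, .ofNat 3743998848, .negSucc 569429631, .negSucc 704643071, .negSucc 556846719, .negSucc 37748735],
  [.negSucc 4181450759, .ofNat 0, .ofNat 0, .ofNat 0, .ofNat 0, .ofNat 11430660672, .ofNat 6283640832, .ofNat 3228800, .ofNat 118665472, .negSucc 996299135, .negSucc 898853663, .ofNat 8362901520, .ofNat 0, .ofNat 0, .ofNat 0, .ofNat 0, .ofNat 6551672688, .ofNat 25346280240, .ofNat 1149583488, .negSucc 948975743, .negSucc 2167449983, .ofNat 362342784, .ofNat 704643072, .ofNat 362342784, .ofNat 50331648],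
  [.negSucc 7272357679, .ofNat 0, .ofNat 0, .ofNat 0, .ofNat 0, .ofNat 17630730880, .ofNat 12574019584, .negSucc 7496767, .ofNat 209542528, .negSucc 1738878815, .negSucc 1608907871, .ofNat 14544715360, .ofNat 0, .ofNat 0, .ofNat 0, .ofNat 0, .ofNat 10918207552, .ofNat 53288064256, .ofNat 1872970368, .negSucc 1445738111, .negSucc 5016691583, .ofNat 540535168, .negSucc 704643071, .ofNat 540535168, .negSucc 50331647],
  [.negSucc 19519, .ofNat 0, .ofNat 0, .ofNat 0, .ofNat 0, .negSucc 372031, .ofNat 318976, .negSucc 2175, .ofNat 1344, .negSucc 484703, .negSucc 482207, .ofNat 39040, .ofNat 0, .ofNat 0, .ofNat 0, .ofNat 0, .ofNat 22912, .ofNat 119680, .negSucc 383, .negSucc 3071, .negSucc 9215, .ofNat 448, .ofNat 0, .negSucc 261695, .negSucc 262143],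
  [.negSucc 5519157975, .ofNat 0, .ofNat 0, .ofNat 0, .ofNat 0, .ofNat 12779723456, .ofNat 9718768640, .negSucc 5663903, .ofNat 162221632, .negSucc 1402197695, .negSucc 1177651007, .ofNat 11038315952, .ofNat 0, .ofNat 0, .ofNat 0, .ofNat 0, .ofNat 8613303824, .ofNat 32676058064, .ofNat 1411968384, .negSucc 1141384319, .negSucc 2744675711, .ofNat 438141696, .ofNat 704643072, .ofNat 438141696, .ofNat 50331648],
  [.negSucc 5311820695, .ofNat 0, .ofNat 0, .ofNat 0, .ofNat 0, .ofNat 14626607296, .ofNat 7537739776, .ofNat 9635264, .ofNat 153873024, .negSucc 1227328127, .negSucc 1183052831, .ofNat 11416364848, .ofNat 0, .ofNat 0, .ofNat 0, .ofNat 0, .ofNat 8445230416, .ofNat 35784718480, .ofNat 1461293184, .negSucc 1018915199, .negSucc 3056745599, .ofNat 413368064, .ofNat 0, .ofNat 413368064, .ofNat 0],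
  [.negSucc 5382193335, .ofNat 1585446912, .negSucc 50331647, .ofNat 0, .negSucc 25165823, .ofNat 16620766976, .ofNat 6609817088, .ofNat 16383520, .ofNat 150799488, .negSucc 1381643807, .negSucc 1253119391, .ofNat 13142557040, .ofNat 0, .negSucc 75497471, .ofNat 0, .negSucc 226492415, .ofNat 6790923248, .ofNat 35388044528, .ofNat 1394259072, .negSucc 907845119, .negSucc 2723535359, .ofNat 383684032, .ofNat 0, .ofNat 383684032, .ofNat 0],
  [.negSucc 10922497527, .ofNat 0, .negSucc 150994943, .ofNat 0, .ofNat 0, .ofNat 110644987136, .negSucc 24883586559, .ofNat 240940864, .ofNat 37531968, .negSucc 5003027231, .negSucc 4158161663, .ofNat 28979506160, .negSucc 12683575295, .negSucc 226492415, .ofNat 0, .ofNat 0, .ofNat 17589335984, .ofNat 108126613808, .ofNat 2908704000, .negSucc 1414581503, .negSucc 11491501823, .ofNat 695381760, .negSucc 5637144575, .ofNat 619884288, .negSucc 402653183],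
  [.ofNat 441444840, .ofNat 0, .ofNat 0, .ofNat 0, .negSucc 12582911, .negSucc 11255620799, .ofNat 4758362112, .negSucc 33077023, .ofNat 18816704, .ofNat 409428576, .ofNat 296281056, .negSucc 1675613135, .ofNat 1585446912, .ofNat 37748736, .ofNat 0, .ofNat 0, .negSucc 974208431, .negSucc 6768083567, .negSucc 87427967, .negSucc 17394047, .ofNat 853787520, .negSucc 11672319, .ofNat 704643072, .ofNat 910592, .ofNat 50331648],
  [.ofNat 5088436480, .ofNat 0, .ofNat 50331648, .ofNat 0, .ofNat 25165824, .negSucc 17359627327, .negSucc 7688436223, .ofNat 10319872, .negSucc 116653759, .ofNat 1363201344, .ofNat 1304976768, .negSucc 10969596415, .ofNat 0, .ofNat 0, .ofNat 0, .ofNat 0, .negSucc 7480777375, .negSucc 37926373087, .negSucc 1453098239, .ofNat 1117521792, .ofNat 3352565376, .negSucc 428436671, .ofNat 0, .negSucc 428436671, .ofNat 0],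
  [.ofNat 198818064, .ofNat 0, .ofNat 0, .ofNat 0, .ofNat 0, .ofNat 10187712, .negSucc 6870527, .ofNat 31360, .negSucc 59967, .negSucc 104447, .negSucc 203135, .negSucc 1274399, .ofNat 0, .ofNat 0, .ofNat 0, .ofNat 0, .negSucc 270431, .negSucc 6294239, .ofNat 359040, .ofNat 191232, .ofNat 573696, .ofNat 27968, .ofNat 0, .ofNat 27968, .ofNat 0],
  [.ofNat 3554057888, .ofNat 0, .ofNat 0, .ofNat 0, .ofNat 0, .negSucc 6184499967, .negSucc 7884878847, .ofNat 17315488, .negSucc 106170431, .ofNat 905577984, .ofNat 694431648, .negSucc 7108115775, .ofNat 0, .ofNat 0, .ofNat 0, .ofNat 0, .negSucc 5199770175, .negSucc 22991631423, .negSucc 767177471, .ofNat 665484288, .ofNat 1996452864, .negSucc 238776959, .ofNat 0, .negSucc 238776959, .ofNat 0],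
  [.ofNat 5683417192, .ofNat 0, .negSucc 50331647, .ofNat 0, .ofNat 0, .negSucc 6763435711, .negSucc 18607167487, .negSucc 5047071, .negSucc 342364991, .ofNat 1741316928, .ofNat 1467820224, .negSucc 15330451663, .ofNat 0, .negSucc 75497471, .ofNat 0, .ofNat 0, .negSucc 13100517775, .negSucc 45505484047, .negSucc 2208057599, .ofNat 1783703808, .ofNat 3992156928, .negSucc 665293567, .negSucc 1409286143, .negSucc 665293567, .negSucc 75497471],
  [.ofNat 157119440, .ofNat 0, .ofNat 50331648, .ofNat 0, .ofNat 0, .negSucc 13431974655, .ofNat 2627846144, .ofNat 13119200, .ofNat 73164224, .ofNat 437663616, .ofNat 332009376, .negSucc 2692409247, .ofNat 0, .ofNat 75497472, .ofNat 0, .ofNat 0, .negSucc 459080415, .negSucc 13859053407, .ofNat 112026624, .negSucc 27588863, .ofNat 1276187904, .ofNat 23269248, .ofNat 1409286144, .ofNat 23269248, .ofNat 75497472],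
  [.negSucc 3588050327, .ofNat 0, .ofNat 0, .ofNat 0, .ofNat 0, .ofNat 7141758528, .ofNat 7130532864, .negSucc 9932159, .ofNat 107466624, .negSucc 870320543, .negSucc 741250559, .ofNat 7176100656, .ofNat 0, .ofNat 0, .ofNat 0, .ofNat 0, .ofNat 5474913168, .ofNat 23609272656, .ofNat 898752768, .negSucc 701523071, .negSucc 2104569215, .ofNat 266712640, .ofNat 0, .ofNat 266712640, .ofNat 0],
  [.negSucc 2945946567, .ofNat 0, .negSucc 50331647, .ofNat 0, .ofNat 0, .ofNat 19318618688, .ofNat 2205077504, .negSucc 12671359, .ofNat 14033664, .negSucc 1203497375, .negSucc 977475647, .ofNat 8270063504, .ofNat 0, .negSucc 75497471, .ofNat 0, .ofNat 0, .ofNat 4920878672, .ofNat 32414739920, .ofNat 543701760, .negSucc 386281727, .negSucc 2970784511, .ofNat 146608640, .negSucc 1879048191, .ofNat 121442816, .negSucc 134217727],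
  [.ofNat 22919020784, .ofNat 0, .ofNat 150994944, .ofNat 0, .ofNat 0, .negSucc 128176617087, .negSucc 9540557823, .negSucc 91175263, .negSucc 352717631, .ofNat 7610032896, .ofNat 6747411168, .negSucc 52972552671, .ofNat 12683575296, .ofNat 226492416, .ofNat 0, .ofNat 0, .negSucc 32626358943, .negSucc 227634079263, .negSucc 5936309759, .ofNat 3724470528, .ofNat 23856986880, .negSucc 1484300927, .ofNat 11274289152, .negSucc 1408803455, .ofNat 805306368],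
  [.ofNat 24968, .ofNat 0, .ofNat 0, .ofNat 0, .ofNat 0, .ofNat 1993664, .negSucc 1039359, .ofNat 5216, .negSucc 8127, .negSucc 29183, .negSucc 34559, .negSucc 49935, .ofNat 0, .ofNat 0, .ofNat 0, .ofNat 0, .negSucc 33807, .negSucc 130575, .ofNat 18816, .ofNat 3072, .ofNat 9216, .ofNat 2624, .ofNat 0, .ofNat 526912, .ofNat 524288],
  [.ofNat 5132913760, .ofNat 0, .negSucc 50331647, .ofNat 0, .ofNat 0, .ofNat 11937648448, .negSucc 20018958847, .ofNat 57789792, .negSucc 241901823, .ofNat 720494400, .ofNat 545795424, .negSucc 7887657151, .negSucc 3170893823, .negSucc 75497471, .ofNat 0, .ofNat 0, .negSucc 7956618463, .negSucc 13884638239, .negSucc 1187115263, .ofNat 1194824064, .ofNat 413578368, .negSucc 422155711, .negSucc 2818572287, .negSucc 447321535, .negSucc 201326591]]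

def db21 : List (List ℤ) :=
  [[.ofNat 396361728],
  [.ofNat 198180864],
  [.ofNat 0],
  [.ofNat 0],
  [.ofNat 0],
  [.ofNat 0],
  [.ofNat 0],
  [.ofNat 0],
  [.ofNat 0],
  [.ofNat 0],
  [.ofNat 0],
  [.ofNat 0],
  [.ofNat 0],
  [.ofNat 0],
  [.ofNat 0],
  [.ofNat 396361728],
  [.ofNat 396361728],
  [.ofNat 10701766656],
  [.negSucc 1585446911],
  [.negSucc 396361727],
  [.ofNat 198180864],
  [.ofNat 0],
  [.ofNat 396361728],
  [.negSucc 3567255551],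
  [.ofNat 0],
  [.ofNat 3567255552],
  [.negSucc 10701766655],
  [.ofNat 0],
  [.ofNat 3567255552]]

def dS01 : List (List ℤ) :=
  [[.ofNat 4, .negSucc 5, .ofNat 1, .negSucc 104, .negSucc 72, .negSucc 0, .negSucc 100, .ofNat 0, .negSucc 26, .ofNat 1163, .negSucc 1500, .ofNat 895, .ofNat 1641, .ofNat 0, .ofNat 1191, .ofNat 1159, .ofNat 1159, .ofNat 2651, .negSucc 108, .negSucc 1238, .ofNat 0, .negSucc 734, .negSucc 1682, .negSucc 124, .ofNat 775, .ofNat 769, .negSucc 5650, .ofNat 0, .negSucc 926],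
  [.ofNat 0, .ofNat 0, .negSucc 3, .ofNat 0, .ofNat 0, .ofNat 0, .ofNat 0, .ofNat 0, .ofNat 0, .ofNat 8, .negSucc 11, .ofNat 8, .ofNat 8, .ofNat 0, .ofNat 12, .ofNat 4, .ofNat 4, .negSucc 27, .ofNat 4, .negSucc 3, .ofNat 0, .negSucc 7, .negSucc 19, .negSucc 11, .ofNat 8, .ofNat 12, .negSucc 35, .ofNat 0, .negSucc 19],
  [.ofNat 0, .ofNat 0, .negSucc 12, .ofNat 105, .ofNat 73, .ofNat 1, .ofNat 101, .ofNat 0, .ofNat 27, .negSucc 1170, .ofNat 1513, .negSucc 902, .negSucc 1648, .ofNat 0, .negSucc 1202, .negSucc 1166, .negSucc 1166, .negSucc 2730, .ofNat 121, .ofNat 1247, .ofNat 0, .ofNat 751, .ofNat 1699, .ofNat 173, .negSucc 790, .negSucc 816, .ofNat 5795, .ofNat 0, .ofNat 943],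
  [.ofNat 0, .negSucc 11, .negSucc 17, .negSucc 125, .negSucc 101, .ofNat 0, .negSucc 125, .ofNat 0, .negSucc 29, .ofNat 1410, .negSucc 1829, .ofNat 1098, .ofNat 1974, .ofNat 0, .ofNat 1458, .ofNat 1410, .ofNat 1410, .ofNat 2970, .negSucc 101, .negSucc 1505, .ofNat 0, .negSucc 905, .negSucc 2057, .negSucc 149, .ofNat 954, .ofNat 942, .negSucc 6761, .ofNat 0, .negSucc 1169],
  [.ofNat 0, .ofNat 0, .negSucc 35, .ofNat 252, .ofNat 276, .negSucc 5, .ofNat 276, .ofNat 0, .ofNat 48, .negSucc 2747, .ofNat 3588, .negSucc 2171, .negSucc 3827, .ofNat 0, .negSucc 2843, .negSucc 2747, .negSucc 2747, .negSucc 6059, .ofNat 228, .ofNat 2940, .ofNat 0, .ofNat 1740, .ofNat 4044, .ofNat 372, .negSucc 1835, .negSucc 1859, .ofNat 13068, .ofNat 0, .ofNat 2364],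
  [.ofNat 0, .ofNat 0, .ofNat 30, .negSucc 125, .negSucc 101, .ofNat 0, .negSucc 125, .ofNat 0, .negSucc 29, .ofNat 1410, .negSucc 1829, .ofNat 1098, .ofNat 1974, .ofNat 0, .ofNat 1458, .ofNat 1410, .ofNat 1410, .ofNat 3354, .negSucc 149, .negSucc 1505, .ofNat 0, .negSucc 905, .negSucc 2057, .negSucc 149, .ofNat 954, .ofNat 942, .negSucc 6761, .ofNat 0, .negSucc 1169],
  [.ofNat 0, .negSucc 11, .negSucc 47, .ofNat 0, .ofNat 0, .ofNat 0, .ofNat 0, .ofNat 0, .ofNat 0, .ofNat 0, .ofNat 0, .ofNat 0, .ofNat 0, .ofNat 0, .ofNat 0, .ofNat 0, .ofNat 0, .negSucc 287, .ofNat 48, .ofNat 0, .ofNat 0, .ofNat 0, .ofNat 0, .ofNat 96, .negSucc 23, .negSucc 95, .ofNat 288, .ofNat 0, .ofNat 0],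
  [.ofNat 0, .ofNat 0, .negSucc 71, .ofNat 504, .ofNat 408, .ofNat 0, .ofNat 504, .ofNat 0, .ofNat 120, .negSucc 5543, .ofNat 7176, .negSucc 4295, .negSucc 7799, .ofNat 0, .negSucc 5687, .negSucc 5543, .negSucc 5543, .negSucc 12839, .ofNat 552, .ofNat 5928, .ofNat 0, .ofNat 3528, .ofNat 8040, .ofNat 792, .negSucc 3719, .negSucc 3831, .ofNat 27240, .ofNat 0, .ofNat 4488],
  [.ofNat 0, .negSucc 11, .negSucc 47, .ofNat 0, .ofNat 0, .ofNat 0, .ofNat 0, .ofNat 0, .ofNat 0, .ofNat 0, .ofNat 0, .ofNat 0, .ofNat 0, .ofNat 0, .ofNat 0, .ofNat 0, .ofNat 0, .ofNat 0, .ofNat 0, .ofNat 0, .ofNat 0, .ofNat 0, .ofNat 0, .ofNat 0, .ofNat 0, .ofNat 0, .ofNat 0, .ofNat 0, .ofNat 0],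
  [.ofNat 0, .ofNat 0, .negSucc 47, .ofNat 0, .ofNat 0, .ofNat 0, .ofNat 0, .ofNat 0, .ofNat 0, .ofNat 0, .ofNat 0, .ofNat 0, .ofNat 0, .ofNat 0, .ofNat 0, .ofNat 0, .ofNat 0, .ofNat 0, .ofNat 0, .ofNat 0, .ofNat 0, .ofNat 0, .ofNat 0, .ofNat 0, .ofNat 0, .ofNat 0, .ofNat 0, .ofNat 0, .ofNat 0]]

def dS11 : List (List ℤ) :=
  [[.ofNat 0, .ofNat 0, .ofNat 0, .negSucc 1, .negSucc 23, .ofNat 1, .ofNat 4, .ofNat 0, .negSucc 1, .ofNat 0, .ofNat 0, .ofNat 0, .ofNat 0, .ofNat 0, .ofNat 0, .ofNat 0, .ofNat 0, .ofNat 64, .negSucc 7, .ofNat 0, .ofNat 0, .ofNat 0, .ofNat 0, .ofNat 0, .ofNat 0, .ofNat 0, .negSucc 63, .ofNat 0, .ofNat 16],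
  [.ofNat 0, .ofNat 0, .ofNat 0, .ofNat 2, .ofNat 0, .ofNat 0, .ofNat 0, .ofNat 0, .ofNat 0, .ofNat 0, .ofNat 0, .ofNat 0, .ofNat 0, .ofNat 0, .ofNat 0, .ofNat 0, .ofNat 0, .ofNat 0, .ofNat 0, .ofNat 0, .ofNat 0, .ofNat 0, .ofNat 0, .ofNat 0, .ofNat 0, .ofNat 0, .ofNat 0, .ofNat 0, .ofNat 0],
  [.ofNat 4, .ofNat 6, .ofNat 0, .ofNat 0, .ofNat 24, .negSucc 0, .negSucc 3, .ofNat 0, .negSucc 1, .ofNat 0, .ofNat 0, .ofNat 0, .ofNat 0, .ofNat 0, .ofNat 0, .ofNat 4, .ofNat 4, .ofNat 44, .negSucc 7, .negSucc 3, .ofNat 2, .ofNat 0, .ofNat 4, .negSucc 35, .ofNat 0, .ofNat 36, .negSucc 43, .ofNat 0, .ofNat 20],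
  [.ofNat 0, .ofNat 0, .ofNat 0, .ofNat 0, .ofNat 0, .ofNat 0, .ofNat 24, .ofNat 0, .negSucc 11, .ofNat 0, .ofNat 0, .ofNat 0, .ofNat 0, .ofNat 0, .ofNat 0, .ofNat 0, .ofNat 0, .ofNat 384, .negSucc 47, .ofNat 0, .ofNat 0, .ofNat 0, .ofNat 0, .ofNat 0, .ofNat 0, .ofNat 0, .negSucc 383, .ofNat 0, .ofNat 96],
  [.ofNat 0, .ofNat 0, .ofNat 0, .ofNat 0, .ofNat 0, .ofNat 6, .ofNat 0, .ofNat 0, .ofNat 0, .ofNat 0, .ofNat 0, .ofNat 0, .ofNat 0, .ofNat 0, .ofNat 0, .ofNat 0, .ofNat 0, .ofNat 0, .ofNat 0, .ofNat 0, .ofNat 0, .ofNat 0, .ofNat 0, .ofNat 0, .ofNat 0, .ofNat 0, .ofNat 0, .ofNat 0, .ofNat 0],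
  [.ofNat 0, .negSucc 11, .ofNat 0, .ofNat 0, .ofNat 0, .ofNat 0, .ofNat 24, .ofNat 0, .ofNat 0, .ofNat 0, .ofNat 0, .ofNat 0, .ofNat 0, .ofNat 0, .ofNat 0, .ofNat 0, .ofNat 0, .ofNat 0, .ofNat 0, .ofNat 0, .ofNat 0, .ofNat 0, .ofNat 0, .ofNat 0, .ofNat 0, .ofNat 0, .ofNat 0, .ofNat 0, .ofNat 0],
  [.ofNat 0, .ofNat 12, .ofNat 0, .ofNat 0, .ofNat 0, .ofNat 0, .ofNat 0, .ofNat 0, .negSucc 11, .ofNat 0, .ofNat 0, .ofNat 0, .ofNat 0, .ofNat 0, .ofNat 0, .ofNat 0, .ofNat 0, .ofNat 288, .negSucc 47, .ofNat 0, .ofNat 0, .ofNat 0, .ofNat 96, .negSucc 95, .ofNat 0, .ofNat 96, .negSucc 287, .ofNat 0, .ofNat 96],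
  [.ofNat 0, .ofNat 12, .ofNat 0, .ofNat 0, .ofNat 96, .ofNat 0, .ofNat 0, .ofNat 0, .negSucc 11, .ofNat 0, .ofNat 0, .ofNat 0, .ofNat 0, .ofNat 0, .ofNat 0, .ofNat 0, .ofNat 0, .ofNat 288, .negSucc 47, .ofNat 0, .ofNat 0, .ofNat 0, .ofNat 96, .negSucc 95, .ofNat 0, .ofNat 96, .negSucc 287, .ofNat 0, .ofNat 96],
  [.ofNat 0, .ofNat 12, .ofNat 0, .ofNat 0, .ofNat 0, .ofNat 0, .ofNat 0, .ofNat 0, .negSucc 11, .ofNat 0, .ofNat 0, .ofNat 0, .ofNat 0, .ofNat 0, .ofNat 0, .ofNat 0, .ofNat 0, .ofNat 0, .ofNat 0, .ofNat 0, .ofNat 0, .ofNat 0, .ofNat 0, .ofNat 0, .ofNat 0, .ofNat 0, .ofNat 0, .ofNat 0, .ofNat 0],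
  [.ofNat 0, .ofNat 12, .ofNat 0, .ofNat 0, .ofNat 0, .ofNat 0, .ofNat 0, .ofNat 1, .negSucc 11, .ofNat 0, .ofNat 0, .ofNat 0, .ofNat 0, .ofNat 0, .ofNat 0, .ofNat 0, .ofNat 0, .ofNat 0, .ofNat 0, .ofNat 0, .ofNat 0, .ofNat 0, .ofNat 0, .ofNat 0, .ofNat 0, .ofNat 0, .ofNat 0, .ofNat 0, .ofNat 0]]

def dS21 : List (List ℤ) :=
  [[.ofNat 0, .ofNat 0, .ofNat 0, .ofNat 0, .ofNat 0, .ofNat 0, .ofNat 0, .ofNat 0, .ofNat 0, .ofNat 0, .ofNat 0, .ofNat 0, .ofNat 0, .ofNat 0, .ofNat 0, .ofNat 0, .ofNat 0, .ofNat 0, .ofNat 0, .ofNat 0, .ofNat 0, .ofNat 0, .ofNat 0, .ofNat 0, .ofNat 0, .ofNat 0, .ofNat 0, .ofNat 0, .ofNat 0],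
  [.ofNat 0, .ofNat 0, .ofNat 0, .ofNat 0, .ofNat 0, .ofNat 0, .ofNat 0, .ofNat 0, .ofNat 0, .ofNat 0, .ofNat 0, .ofNat 0, .ofNat 0, .ofNat 0, .ofNat 0, .ofNat 0, .ofNat 0, .ofNat 0, .ofNat 0, .ofNat 0, .ofNat 0, .ofNat 0, .ofNat 0, .ofNat 0, .ofNat 0, .ofNat 0, .ofNat 0, .ofNat 0, .ofNat 0],
  [.ofNat 0, .ofNat 0, .ofNat 0, .ofNat 0, .ofNat 0, .ofNat 0, .ofNat 0, .ofNat 0, .ofNat 0, .ofNat 0, .ofNat 0, .ofNat 0, .ofNat 0, .ofNat 0, .ofNat 0, .ofNat 0, .ofNat 0, .ofNat 0, .ofNat 0, .ofNat 0, .ofNat 0, .ofNat 0, .ofNat 0, .ofNat 0, .ofNat 0, .ofNat 0, .ofNat 0, .ofNat 0, .ofNat 0],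
  [.ofNat 0, .ofNat 0, .ofNat 0, .ofNat 0, .ofNat 0, .ofNat 0, .ofNat 0, .ofNat 0, .ofNat 0, .ofNat 0, .ofNat 0, .ofNat 0, .ofNat 0, .ofNat 0, .ofNat 0, .ofNat 0, .ofNat 0, .ofNat 0, .ofNat 0, .ofNat 0, .ofNat 0, .ofNat 0, .ofNat 0, .ofNat 0, .ofNat 0, .ofNat 0, .ofNat 0, .ofNat 0, .ofNat 0],
  [.ofNat 0, .ofNat 0, .ofNat 0, .ofNat 0, .ofNat 0, .ofNat 0, .ofNat 0, .ofNat 0, .ofNat 0, .ofNat 0, .ofNat 0, .ofNat 0, .ofNat 0, .ofNat 0, .ofNat 0, .ofNat 0, .ofNat 0, .ofNat 0, .ofNat 0, .ofNat 0, .ofNat 0, .ofNat 0, .ofNat 0, .ofNat 0, .ofNat 0, .ofNat 0, .ofNat 0, .ofNat 0, .ofNat 0],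
  [.ofNat 0, .ofNat 0, .ofNat 0, .ofNat 0, .ofNat 0, .ofNat 0, .ofNat 0, .ofNat 0, .ofNat 0, .ofNat 0, .ofNat 0, .ofNat 0, .ofNat 0, .ofNat 0, .ofNat 0, .ofNat 0, .ofNat 0, .ofNat 0, .ofNat 0, .ofNat 0, .ofNat 0, .ofNat 0, .ofNat 0, .ofNat 0, .ofNat 0, .ofNat 0, .ofNat 0, .ofNat 0, .ofNat 0],
  [.ofNat 0, .ofNat 0, .ofNat 0, .ofNat 0, .ofNat 0, .ofNat 0, .ofNat 0, .ofNat 0, .ofNat 0, .ofNat 0, .ofNat 0, .ofNat 0, .ofNat 0, .ofNat 0, .ofNat 0, .ofNat 0, .ofNat 0, .ofNat 0, .ofNat 0, .ofNat 0, .ofNat 0, .ofNat 0, .ofNat 0, .ofNat 0, .ofNat 0, .ofNat 0, .ofNat 0, .ofNat 0, .ofNat 0],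
  [.ofNat 0, .ofNat 0, .ofNat 0, .ofNat 0, .ofNat 0, .ofNat 0, .ofNat 0, .ofNat 0, .ofNat 0, .ofNat 0, .ofNat 0, .ofNat 0, .ofNat 0, .ofNat 0, .ofNat 0, .ofNat 0, .ofNat 0, .ofNat 0, .ofNat 0, .ofNat 0, .ofNat 0, .ofNat 0, .ofNat 0, .ofNat 0, .ofNat 0, .ofNat 0, .ofNat 0, .ofNat 0, .ofNat 0],
  [.ofNat 0, .ofNat 0, .ofNat 0, .ofNat 0, .ofNat 0, .ofNat 0, .ofNat 0, .ofNat 0, .ofNat 0, .ofNat 0, .ofNat 0, .ofNat 0, .ofNat 0, .ofNat 0, .ofNat 0, .ofNat 0, .ofNat 0, .ofNat 0, .ofNat 0, .ofNat 0, .ofNat 0, .ofNat 0, .ofNat 0, .ofNat 0, .ofNat 0, .ofNat 0, .ofNat 0, .ofNat 0, .ofNat 0],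
  [.ofNat 0, .ofNat 0, .ofNat 0, .ofNat 0, .ofNat 0, .ofNat 0, .ofNat 0, .ofNat 0, .ofNat 0, .ofNat 0, .ofNat 0, .ofNat 0, .ofNat 0, .ofNat 0, .ofNat 0, .ofNat 0, .ofNat 0, .ofNat 0, .ofNat 0, .ofNat 0, .ofNat 0, .ofNat 0, .ofNat 0, .ofNat 0, .ofNat 0, .ofNat 0, .ofNat 0, .ofNat 0, .ofNat 0]]

def dS31 : List (List ℤ) :=
  [[.ofNat 4, .negSucc 1, .ofNat 0, .ofNat 0, .ofNat 0, .ofNat 0, .ofNat 0, .ofNat 0, .ofNat 0, .negSucc 7, .ofNat 0, .ofNat 0, .ofNat 0, .ofNat 0, .negSucc 15, .ofNat 0, .ofNat 0, .ofNat 0, .ofNat 0, .ofNat 0, .ofNat 2, .ofNat 8, .ofNat 0, .ofNat 0, .negSucc 7, .ofNat 0, .ofNat 0, .ofNat 0, .ofNat 32],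
  [.ofNat 4, .negSucc 1, .ofNat 0, .ofNat 0, .ofNat 0, .ofNat 0, .ofNat 0, .ofNat 0, .ofNat 0, .ofNat 0, .ofNat 0, .ofNat 0, .ofNat 0, .ofNat 0, .ofNat 0, .ofNat 0, .ofNat 0, .ofNat 0, .ofNat 0, .ofNat 0, .ofNat 0, .ofNat 0, .ofNat 0, .ofNat 0, .ofNat 0, .ofNat 0, .ofNat 0, .ofNat 0, .ofNat 0],
  [.ofNat 0, .ofNat 0, .ofNat 0, .ofNat 0, .ofNat 0, .ofNat 0, .ofNat 0, .ofNat 0, .ofNat 0, .ofNat 8, .ofNat 0, .ofNat 0, .ofNat 0, .ofNat 0, .ofNat 0, .ofNat 0, .ofNat 0, .ofNat 0, .ofNat 0, .ofNat 0, .ofNat 0, .ofNat 0, .ofNat 0, .ofNat 0, .ofNat 0, .ofNat 0, .ofNat 0, .ofNat 0, .ofNat 0],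
  [.ofNat 0, .negSucc 11, .ofNat 0, .ofNat 0, .ofNat 0, .ofNat 0, .ofNat 0, .ofNat 0, .ofNat 0, .ofNat 0, .ofNat 0, .ofNat 0, .ofNat 48, .ofNat 0, .negSucc 47, .ofNat 0, .ofNat 0, .ofNat 0, .ofNat 0, .ofNat 0, .ofNat 0, .ofNat 0, .ofNat 0, .ofNat 0, .ofNat 0, .ofNat 0, .negSucc 383, .ofNat 0, .ofNat 96],
  [.ofNat 0, .negSucc 11, .ofNat 0, .ofNat 0, .ofNat 0, .ofNat 0, .ofNat 0, .ofNat 0, .ofNat 0, .ofNat 0, .ofNat 0, .ofNat 48, .ofNat 0, .ofNat 0, .ofNat 0, .ofNat 0, .ofNat 0, .ofNat 0, .ofNat 0, .ofNat 0, .ofNat 0, .ofNat 0, .ofNat 0, .ofNat 0, .ofNat 0, .ofNat 0, .ofNat 0, .ofNat 0, .ofNat 0],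
  [.ofNat 0, .ofNat 0, .ofNat 0, .ofNat 0, .ofNat 0, .ofNat 0, .ofNat 0, .ofNat 0, .ofNat 0, .ofNat 0, .ofNat 0, .ofNat 0, .ofNat 48, .ofNat 0, .ofNat 0, .ofNat 0, .ofNat 0, .ofNat 0, .ofNat 0, .ofNat 0, .ofNat 0, .ofNat 0, .ofNat 0, .ofNat 0, .ofNat 0, .ofNat 0, .ofNat 0, .ofNat 0, .ofNat 0],
  [.ofNat 0, .negSucc 11, .ofNat 0, .ofNat 0, .ofNat 0, .ofNat 0, .ofNat 0, .ofNat 0, .ofNat 0, .ofNat 0, .ofNat 0, .ofNat 0, .ofNat 0, .ofNat 0, .negSucc 47, .ofNat 0, .ofNat 0, .ofNat 0, .ofNat 0, .ofNat 0, .ofNat 0, .ofNat 0, .ofNat 96, .ofNat 0, .negSucc 23, .ofNat 0, .ofNat 0, .ofNat 0, .ofNat 96],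
  [.ofNat 0, .negSucc 11, .ofNat 0, .ofNat 0, .ofNat 0, .ofNat 0, .ofNat 0, .ofNat 0, .ofNat 0, .ofNat 0, .ofNat 48, .ofNat 0, .ofNat 0, .ofNat 0, .negSucc 47, .ofNat 0, .ofNat 0, .ofNat 0, .ofNat 0, .ofNat 0, .ofNat 0, .ofNat 0, .ofNat 96, .ofNat 0, .negSucc 23, .ofNat 0, .ofNat 0, .ofNat 0, .ofNat 96],
  [.ofNat 0, .negSucc 11, .ofNat 0, .ofNat 0, .ofNat 0, .ofNat 0, .ofNat 0, .ofNat 0, .ofNat 0, .ofNat 0, .ofNat 0, .ofNat 0, .ofNat 0, .ofNat 0, .negSucc 47, .ofNat 0, .ofNat 0, .ofNat 0, .ofNat 0, .ofNat 0, .ofNat 0, .ofNat 0, .ofNat 0, .ofNat 0, .ofNat 0, .ofNat 0, .ofNat 0, .ofNat 0, .ofNat 0],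
  [.ofNat 0, .negSucc 11, .ofNat 0, .ofNat 0, .ofNat 0, .ofNat 0, .ofNat 0, .ofNat 0, .ofNat 0, .ofNat 0, .ofNat 0, .ofNat 0, .ofNat 0, .ofNat 1, .negSucc 47, .ofNat 0, .ofNat 0, .ofNat 0, .ofNat 0, .ofNat 0, .ofNat 0, .ofNat 0, .ofNat 0, .ofNat 0, .ofNat 0, .ofNat 0, .ofNat 0, .ofNat 0, .ofNat 0]]

def dS41 : List (List ℤ) :=
  [[.ofNat 4, .negSucc 5, .ofNat 0, .ofNat 0, .ofNat 0, .ofNat 0, .ofNat 0, .ofNat 0, .ofNat 0, .ofNat 0, .ofNat 0, .ofNat 0, .ofNat 0, .ofNat 0, .ofNat 0, .negSucc 7, .ofNat 32, .ofNat 0, .ofNat 0, .negSucc 31, .ofNat 0, .ofNat 8, .ofNat 32, .ofNat 0, .negSucc 7, .ofNat 0, .ofNat 0, .ofNat 0, .ofNat 32],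
  [.ofNat 0, .ofNat 0, .ofNat 0, .ofNat 0, .ofNat 0, .ofNat 0, .ofNat 0, .ofNat 0, .ofNat 0, .ofNat 0, .ofNat 0, .ofNat 0, .ofNat 0, .ofNat 0, .ofNat 0, .ofNat 8, .ofNat 0, .ofNat 0, .ofNat 0, .ofNat 0, .ofNat 0, .ofNat 0, .ofNat 0, .ofNat 0, .ofNat 0, .ofNat 0, .ofNat 0, .ofNat 0, .ofNat 0],
  [.ofNat 4, .ofNat 6, .ofNat 0, .ofNat 0, .ofNat 0, .ofNat 0, .ofNat 0, .ofNat 0, .ofNat 0, .ofNat 0, .ofNat 0, .ofNat 0, .ofNat 0, .ofNat 0, .ofNat 0, .ofNat 0, .negSucc 31, .ofNat 0, .ofNat 0, .ofNat 0, .ofNat 2, .ofNat 0, .negSucc 31, .ofNat 0, .ofNat 0, .ofNat 0, .ofNat 0, .ofNat 0, .ofNat 0],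
  [.ofNat 0, .negSucc 11, .ofNat 0, .ofNat 0, .ofNat 0, .ofNat 0, .ofNat 0, .ofNat 0, .ofNat 0, .ofNat 0, .ofNat 0, .ofNat 0, .ofNat 0, .ofNat 0, .ofNat 0, .ofNat 0, .ofNat 96, .ofNat 0, .ofNat 0, .negSucc 95, .ofNat 0, .ofNat 0, .ofNat 96, .ofNat 0, .negSucc 23, .ofNat 0, .ofNat 0, .ofNat 0, .ofNat 96],
  [.ofNat 0, .ofNat 0, .ofNat 0, .ofNat 0, .ofNat 0, .ofNat 0, .ofNat 0, .ofNat 0, .ofNat 0, .ofNat 0, .ofNat 0, .ofNat 0, .ofNat 0, .ofNat 0, .ofNat 0, .ofNat 0, .ofNat 96, .ofNat 288, .ofNat 0, .negSucc 95, .ofNat 0, .ofNat 0, .ofNat 96, .negSucc 95, .ofNat 0, .ofNat 96, .negSucc 287, .ofNat 0, .ofNat 96],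
  [.ofNat 0, .negSucc 11, .ofNat 0, .ofNat 0, .ofNat 0, .ofNat 0, .ofNat 0, .ofNat 0, .ofNat 0, .ofNat 0, .ofNat 0, .ofNat 0, .ofNat 0, .ofNat 0, .ofNat 0, .ofNat 0, .ofNat 96, .ofNat 0, .ofNat 0, .ofNat 0, .ofNat 0, .ofNat 0, .ofNat 0, .ofNat 0, .ofNat 0, .ofNat 0, .ofNat 0, .ofNat 0, .ofNat 0],
  [.ofNat 0, .ofNat 0, .ofNat 0, .ofNat 0, .ofNat 0, .ofNat 0, .ofNat 0, .ofNat 0, .ofNat 0, .ofNat 0, .ofNat 0, .ofNat 0, .ofNat 0, .ofNat 0, .ofNat 0, .ofNat 0, .ofNat 0, .ofNat 0, .ofNat 0, .negSucc 95, .ofNat 0, .ofNat 0, .ofNat 0, .ofNat 0, .ofNat 0, .ofNat 0, .negSucc 383, .ofNat 0, .ofNat 96],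
  [.ofNat 0, .ofNat 12, .ofNat 0, .ofNat 0, .ofNat 0, .ofNat 0, .ofNat 0, .ofNat 0, .ofNat 0, .ofNat 0, .ofNat 0, .ofNat 0, .ofNat 0, .ofNat 0, .ofNat 0, .ofNat 0, .ofNat 0, .ofNat 384, .ofNat 0, .negSucc 95, .ofNat 0, .ofNat 0, .ofNat 0, .ofNat 0, .ofNat 0, .ofNat 0, .negSucc 383, .ofNat 0, .ofNat 96],
  [.ofNat 0, .ofNat 0, .ofNat 0, .ofNat 0, .ofNat 0, .ofNat 0, .ofNat 0, .ofNat 0, .ofNat 0, .ofNat 0, .ofNat 0, .ofNat 0, .ofNat 0, .ofNat 0, .ofNat 0, .ofNat 0, .ofNat 0, .ofNat 0, .ofNat 0, .negSucc 95, .ofNat 0, .ofNat 0, .ofNat 0, .ofNat 0, .ofNat 0, .ofNat 0, .ofNat 0, .ofNat 0, .ofNat 0],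
  [.ofNat 0, .ofNat 12, .ofNat 0, .ofNat 0, .ofNat 0, .ofNat 0, .ofNat 0, .ofNat 0, .ofNat 0, .ofNat 0, .ofNat 0, .ofNat 0, .ofNat 0, .ofNat 0, .ofNat 0, .ofNat 0, .ofNat 0, .ofNat 0, .ofNat 48, .negSucc 95, .ofNat 0, .ofNat 0, .ofNat 0, .ofNat 0, .ofNat 0, .ofNat 0, .ofNat 0, .ofNat 0, .ofNat 0]]

def dS51 : List (List ℤ) :=
  [[.ofNat 4, .negSucc 1, .ofNat 0, .ofNat 0, .ofNat 0, .ofNat 0, .ofNat 0, .ofNat 0, .ofNat 0, .ofNat 0, .ofNat 0, .ofNat 0, .ofNat 0, .ofNat 0, .ofNat 0, .ofNat 0, .ofNat 0, .ofNat 0, .ofNat 0, .ofNat 0, .ofNat 2, .ofNat 0, .ofNat 0, .ofNat 0, .ofNat 0, .ofNat 0, .ofNat 0, .ofNat 0, .ofNat 0],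
  [.ofNat 4, .negSucc 1, .ofNat 0, .ofNat 0, .ofNat 0, .ofNat 0, .ofNat 0, .ofNat 0, .ofNat 0, .ofNat 0, .ofNat 0, .ofNat 0, .ofNat 0, .ofNat 0, .ofNat 0, .ofNat 0, .ofNat 0, .ofNat 0, .ofNat 0, .ofNat 0, .ofNat 0, .ofNat 8, .ofNat 0, .ofNat 0, .ofNat 0, .ofNat 0, .ofNat 0, .ofNat 0, .ofNat 0],
  [.ofNat 0, .ofNat 0, .ofNat 0, .ofNat 0, .ofNat 0, .ofNat 0, .ofNat 0, .ofNat 0, .ofNat 0, .ofNat 0, .ofNat 0, .ofNat 0, .ofNat 0, .ofNat 0, .ofNat 0, .ofNat 0, .ofNat 0, .ofNat 0, .ofNat 0, .ofNat 0, .ofNat 0, .ofNat 0, .ofNat 0, .ofNat 0, .negSucc 7, .ofNat 0, .ofNat 0, .ofNat 0, .ofNat 0],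
  [.ofNat 0, .negSucc 11, .ofNat 0, .ofNat 0, .ofNat 0, .ofNat 0, .ofNat 0, .ofNat 0, .ofNat 0, .ofNat 0, .ofNat 0, .ofNat 0, .ofNat 0, .ofNat 0, .ofNat 0, .ofNat 0, .ofNat 0, .ofNat 0, .ofNat 0, .ofNat 0, .ofNat 0, .ofNat 0, .ofNat 96, .ofNat 0, .ofNat 0, .ofNat 0, .ofNat 0, .ofNat 0, .ofNat 0],
  [.ofNat 0, .negSucc 11, .ofNat 0, .ofNat 0, .ofNat 0, .ofNat 0, .ofNat 0, .ofNat 0, .ofNat 0, .ofNat 0, .ofNat 0, .ofNat 0, .ofNat 0, .ofNat 0, .ofNat 0, .ofNat 0, .ofNat 0, .ofNat 0, .ofNat 0, .ofNat 0, .ofNat 0, .ofNat 0, .ofNat 0, .ofNat 96, .ofNat 0, .ofNat 0, .ofNat 0, .ofNat 0, .ofNat 0],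
  [.ofNat 0, .ofNat 0, .ofNat 0, .ofNat 0, .ofNat 0, .ofNat 0, .ofNat 0, .ofNat 0, .ofNat 0, .ofNat 0, .ofNat 0, .ofNat 0, .ofNat 0, .ofNat 0, .ofNat 0, .ofNat 0, .ofNat 0, .ofNat 0, .ofNat 0, .ofNat 0, .ofNat 0, .ofNat 0, .ofNat 0, .ofNat 0, .ofNat 24, .ofNat 0, .ofNat 0, .ofNat 0, .ofNat 0],
  [.ofNat 0, .negSucc 11, .ofNat 0, .ofNat 0, .ofNat 0, .ofNat 0, .ofNat 0, .ofNat 0, .ofNat 0, .ofNat 0, .ofNat 0, .ofNat 0, .ofNat 0, .ofNat 0, .ofNat 0, .ofNat 0, .ofNat 0, .ofNat 0, .ofNat 0, .ofNat 0, .ofNat 0, .ofNat 0, .ofNat 0, .ofNat 0, .ofNat 0, .ofNat 0, .negSucc 383, .ofNat 0, .ofNat 0],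
  [.ofNat 0, .negSucc 11, .ofNat 0, .ofNat 0, .ofNat 0, .ofNat 0, .ofNat 0, .ofNat 0, .ofNat 0, .ofNat 0, .ofNat 0, .ofNat 0, .ofNat 0, .ofNat 0, .ofNat 0, .ofNat 0, .ofNat 0, .ofNat 0, .ofNat 0, .ofNat 0, .ofNat 0, .ofNat 0, .ofNat 0, .ofNat 0, .ofNat 0, .ofNat 128, .negSucc 383, .ofNat 0, .ofNat 0],
  [.ofNat 0, .negSucc 11, .ofNat 0, .ofNat 0, .ofNat 0, .ofNat 0, .ofNat 0, .ofNat 0, .ofNat 0, .ofNat 0, .ofNat 0, .ofNat 0, .ofNat 0, .ofNat 0, .ofNat 0, .ofNat 0, .ofNat 0, .ofNat 0, .ofNat 0, .ofNat 0, .ofNat 0, .ofNat 0, .ofNat 0, .ofNat 0, .ofNat 0, .ofNat 0, .ofNat 0, .ofNat 0, .negSucc 95],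
  [.ofNat 0, .negSucc 11, .ofNat 0, .ofNat 0, .ofNat 0, .ofNat 0, .ofNat 0, .ofNat 0, .ofNat 0, .ofNat 0, .ofNat 0, .ofNat 0, .ofNat 0, .ofNat 0, .ofNat 0, .ofNat 0, .ofNat 0, .ofNat 0, .ofNat 0, .ofNat 0, .ofNat 0, .ofNat 0, .ofNat 0, .ofNat 0, .ofNat 0, .ofNat 0, .ofNat 0, .ofNat 2, .negSucc 95]]

def dA1 : List ℤ :=
  [.ofNat 1048576, .ofNat 0, .ofNat 0, .ofNat 0, .ofNat 0, .ofNat 0, .ofNat 0, .ofNat 0, .ofNat 0, .ofNat 0, .ofNat 0, .ofNat 0, .ofNat 0, .ofNat 0, .ofNat 0, .ofNat 0, .ofNat 0, .ofNat 0, .ofNat 0, .ofNat 0, .ofNat 262144, .ofNat 1048576, .negSucc 3000391, .ofNat 0, .negSucc 298477, .ofNat 0, .ofNat 2715287, .ofNat 0, .ofNat 515090]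

def dB1 : List ℤ :=
  [.ofNat 0, .ofNat 1048576, .negSucc 5626, .ofNat 538722, .ofNat 797003, .negSucc 33674, .ofNat 557460, .negSucc 678, .ofNat 100736, .negSucc 7495762, .ofNat 9860357, .negSucc 6075259, .negSucc 10644876, .negSucc 715, .negSucc 7426945, .negSucc 6989430, .negSucc 6745482, .negSucc 10503013, .negSucc 60515, .ofNat 7165927, .ofNat 275801, .ofNat 3217763, .ofNat 8779728, .negSucc 6008064, .negSucc 4393843, .ofNat 717085, .ofNat 23213407, .ofNat 6431, .ofNat 7182477]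

def dW1 : List (List ℤ) :=
  [[.ofNat 0, .ofNat 0, .ofNat 276494046381, .negSucc 3638043777650, .negSucc 5124498475926, .ofNat 180488695525, .negSucc 4354073165032, .ofNat 131048870, .negSucc 501051695969, .ofNat 37691447179571, .negSucc 49491671329094, .ofNat 30265451179690, .ofNat 52362806686398, .negSucc 129773811, .ofNat 38775455996759, .ofNat 37998178823119, .ofNat 37555344700978, .ofNat 77033712438015, .negSucc 2277135255034, .negSucc 40251847673806, .ofNat 254498651, .negSucc 23096207796339, .negSucc 56064823624222, .negSucc 4965463787121, .ofNat 25482758291315, .ofNat 24619655259452, .negSucc 175630139146482, .ofNat 2126480004, .negSucc 33392036129225],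
  [.ofNat 0, .ofNat 0, .ofNat 0, .ofNat 3067519129138, .ofNat 4280975316480, .negSucc 147981184125, .ofNat 3691899028273, .negSucc 36350874, .ofNat 432911692962, .negSucc 32452514949544, .ofNat 42477583290818, .negSucc 25837661305723, .negSucc 45225737019380, .ofNat 45834195, .negSucc 33374952457597, .negSucc 32384262273642, .negSucc 32506150955055, .negSucc 64667692370510, .ofNat 1733682087118, .ofNat 34872405089784, .negSucc 1814738321, .ofNat 20228470973464, .ofNat 47807853360091, .ofNat 5551654620252, .negSucc 22202584207179, .negSucc 22325475299394, .ofNat 153847361511011, .negSucc 1365921956, .ofNat 28475322862222],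
  [.ofNat 0, .ofNat 0, .ofNat 0, .ofNat 0, .ofNat 1973328910810, .negSucc 153116579829, .ofNat 774412048526, .ofNat 77454096, .negSucc 344922509076, .ofNat 1312928864714, .negSucc 1414237477134, .ofNat 570965708124, .ofNat 1996007433833, .negSucc 189882757, .ofNat 1630956377920, .ofNat 756926902700, .ofNat 1464198283461, .ofNat 12123137203724, .negSucc 1375598919609, .negSucc 1368936210033, .negSucc 277530482, .negSucc 1584046103784, .negSucc 1473368481117, .negSucc 779807879586, .ofNat 984409950363, .ofNat 1797613162198, .negSucc 15014680740575, .ofNat 2338204553, .ofNat 762421416411],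
  [.ofNat 0, .ofNat 0, .ofNat 0, .ofNat 0, .ofNat 0, .ofNat 47316116406, .ofNat 241176238196, .negSucc 1800719834, .negSucc 52075979411, .negSucc 1240874136194, .ofNat 1481151204942, .negSucc 848102834931, .negSucc 1754480121978, .ofNat 1257550839, .negSucc 1236682193645, .negSucc 1384855999266, .negSucc 1158958154989, .ofNat 698633720456, .negSucc 303015585479, .ofNat 1230979922890, .ofNat 1045794703, .ofNat 762389006689, .ofNat 1656914603142, .negSucc 48722866823, .negSucc 765245095615, .negSucc 537820382232, .ofNat 1476632640756, .negSucc 3741317390, .ofNat 1895711480728],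
  [.ofNat 0, .ofNat 0, .ofNat 0, .ofNat 0, .ofNat 0, .ofNat 0, .ofNat 291738975006, .ofNat 2589165240, .negSucc 86635870871, .negSucc 807052910440, .ofNat 1057249658807, .negSucc 532372827570, .negSucc 1170096995581, .negSucc 1644050109, .negSucc 742431221920, .negSucc 877120724935, .negSucc 562139039382, .ofNat 1041957787272, .negSucc 218795757655, .ofNat 699264793762, .ofNat 3587694261, .ofNat 451778682310, .ofNat 1168628172073, .negSucc 214370222917, .negSucc 505778159456, .negSucc 481546356591, .ofNat 1032918551214, .ofNat 4085361463, .ofNat 1196707355696],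
  [.ofNat 0, .ofNat 0, .ofNat 0, .ofNat 0, .ofNat 0, .ofNat 0, .ofNat 0, .ofNat 1452230690, .negSucc 22646929862, .ofNat 830393877361, .negSucc 1068696121564, .ofNat 650678517001, .ofNat 1100338437903, .negSucc 821808285, .ofNat 973205068975, .ofNat 760417425922, .ofNat 577298596927, .ofNat 1084752556298, .negSucc 31974146875, .negSucc 817161577997, .ofNat 508504664, .negSucc 696410997391, .negSucc 1168450362416, .negSucc 217678014878, .ofNat 593094123305, .ofNat 557373002062, .negSucc 3103307428004, .ofNat 2395183067, .negSucc 1092476503890],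
  [.ofNat 0, .ofNat 0, .ofNat 0, .ofNat 0, .ofNat 0, .ofNat 0, .ofNat 0, .ofNat 0, .ofNat 41802458755, .negSucc 1609002931185, .ofNat 1891852506741, .negSucc 1012480965262, .negSucc 2545830405169, .ofNat 69441458, .negSucc 1655236821240, .negSucc 1534538877979, .negSucc 1637136994576, .negSucc 3682725665353, .ofNat 161298670951, .ofNat 1930627400541, .negSucc 385310195, .ofNat 1496593980902, .ofNat 1750629716359, .ofNat 1135607968292, .negSucc 1140992325677, .negSucc 2045531796170, .ofNat 9692911503467, .negSucc 659063703, .ofNat 1086807158085],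
  [.ofNat 0, .ofNat 0, .ofNat 0, .ofNat 0, .ofNat 0, .ofNat 0, .ofNat 0, .ofNat 0, .ofNat 0, .ofNat 2640835120198, .negSucc 3734599428941, .ofNat 2356598925229, .ofNat 3061951660430, .ofNat 216379296, .ofNat 3519479355916, .ofNat 2450963689429, .ofNat 2349593773377, .ofNat 3357408420587, .negSucc 22128481976, .negSucc 2677442706223, .ofNat 9647643187, .negSucc 2392352629285, .negSucc 4515822578412, .negSucc 1109291462948, .ofNat 2081913613534, .ofNat 2434934038576, .negSucc 8204477280080, .negSucc 637504993, .negSucc 4318533187046],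
  [.ofNat 0, .ofNat 0, .ofNat 0, .ofNat 0, .ofNat 0, .ofNat 0, .ofNat 0, .ofNat 0, .ofNat 0, .ofNat 0, .ofNat 402237144009, .negSucc 442321408087, .ofNat 644679194609, .negSucc 258528389, .negSucc 514803483728, .ofNat 289586676790, .ofNat 281073159623, .ofNat 585662203179, .negSucc 7441715770, .negSucc 385921144635, .ofNat 5629860478, .ofNat 12401346381, .ofNat 1245192894858, .negSucc 1035919738835, .negSucc 110690227321, .ofNat 1123012115650, .negSucc 3728235320063, .ofNat 1325078015, .ofNat 1376973768285],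
  [.ofNat 0, .ofNat 0, .ofNat 0, .ofNat 0, .ofNat 0, .ofNat 0, .ofNat 0, .ofNat 0, .ofNat 0, .ofNat 0, .ofNat 0, .ofNat 214159183245, .ofNat 163067962230, .negSucc 1476311339, .ofNat 31483366499, .negSucc 123620759587, .ofNat 350101731577, .ofNat 234260052431, .ofNat 45057737906, .negSucc 283494701534, .ofNat 3342660713, .negSucc 142781882879, .ofNat 126504616586, .negSucc 1124445029182, .ofNat 103838244653, .ofNat 693661538595, .negSucc 2152202043341, .ofNat 2879167977, .ofNat 142258416497],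
  [.ofNat 0, .ofNat 0, .ofNat 0, .ofNat 0, .ofNat 0, .ofNat 0, .ofNat 0, .ofNat 0, .ofNat 0, .ofNat 0, .ofNat 0, .ofNat 0, .ofNat 421231539816, .ofNat 1812942004, .negSucc 251455999982, .negSucc 50474927169, .ofNat 198461617646, .ofNat 832831741804, .negSucc 75301601271, .negSucc 230707181549, .ofNat 10430985807, .negSucc 44565204996, .ofNat 81738059420, .negSucc 787696871161, .ofNat 5239272139, .ofNat 724059679559, .negSucc 3674300407344, .negSucc 3868875428, .ofNat 878002096670],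
  [.ofNat 0, .ofNat 0, .ofNat 0, .ofNat 0, .ofNat 0, .ofNat 0, .ofNat 0, .ofNat 0, .ofNat 0, .ofNat 0, .ofNat 0, .ofNat 0, .ofNat 0, .ofNat 1241937184, .negSucc 31219368030, .negSucc 29310141737, .ofNat 33448385429, .ofNat 301154306457, .negSucc 25438178265, .ofNat 48146421570, .negSucc 663092003, .ofNat 55273792314, .negSucc 153320584343, .negSucc 60340241768, .ofNat 39375963163, .ofNat 197452024563, .negSucc 822478654454, .negSucc 2267422503, .ofNat 88807272238],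
  [.ofNat 0, .ofNat 0, .ofNat 0, .ofNat 0, .ofNat 0, .ofNat 0, .ofNat 0, .ofNat 0, .ofNat 0, .ofNat 0, .ofNat 0, .ofNat 0, .ofNat 0, .ofNat 0, .ofNat 394636179849, .negSucc 55882726494, .ofNat 1016629736281, .ofNat 1071667818082, .ofNat 23457756711, .negSucc 809842707908, .negSucc 15527429297, .negSucc 688053234558, .ofNat 1422841373995, .negSucc 1892150571407, .ofNat 207015298680, .ofNat 1996248163392, .negSucc 2285602357585, .negSucc 350945201, .ofNat 14575248806],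
  [.ofNat 0, .ofNat 0, .ofNat 0, .ofNat 0, .ofNat 0, .ofNat 0, .ofNat 0, .ofNat 0, .ofNat 0, .ofNat 0, .ofNat 0, .ofNat 0, .ofNat 0, .ofNat 0, .ofNat 0, .ofNat 1092912571569, .ofNat 10797926123, .ofNat 375484272268, .negSucc 46142650325, .ofNat 97243899500, .ofNat 18249670493, .negSucc 85077335717, .negSucc 18067505491, .ofNat 1114323421029, .negSucc 215429673963, .negSucc 818906205271, .ofNat 4465677033733, .negSucc 625884706, .negSucc 38625471767],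
  [.ofNat 0, .ofNat 0, .ofNat 0, .ofNat 0, .ofNat 0, .ofNat 0, .ofNat 0, .ofNat 0, .ofNat 0, .ofNat 0, .ofNat 0, .ofNat 0, .ofNat 0, .ofNat 0, .ofNat 0, .ofNat 0, .ofNat 1504093427774, .ofNat 2254413047695, .negSucc 44915917238, .negSucc 1207815164325, .ofNat 19377154784, .negSucc 78582922678, .ofNat 1262704918026, .negSucc 2183521140519, .ofNat 46143619480, .ofNat 2052077179587, .negSucc 4667866231243, .negSucc 1129167304, .ofNat 1295273021771],
  [.ofNat 0, .ofNat 0, .ofNat 0, .ofNat 0, .ofNat 0, .ofNat 0, .ofNat 0, .ofNat 0, .ofNat 0, .ofNat 0, .ofNat 0, .ofNat 0, .ofNat 0, .ofNat 0, .ofNat 0, .ofNat 0, .ofNat 0, .ofNat 2865960381765, .negSucc 412544643468, .negSucc 38842589188, .ofNat 8807494439, .negSucc 31817478045, .ofNat 155113342425, .negSucc 316639473650, .ofNat 60768018064, .ofNat 610998373437, .negSucc 2509662042743, .negSucc 3091283325, .ofNat 560428403356],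
  [.ofNat 0, .ofNat 0, .ofNat 0, .ofNat 0, .ofNat 0, .ofNat 0, .ofNat 0, .ofNat 0, .ofNat 0, .ofNat 0, .ofNat 0, .ofNat 0, .ofNat 0, .ofNat 0, .ofNat 0, .ofNat 0, .ofNat 0, .ofNat 0, .ofNat 92793760661, .negSucc 129178906377, .negSucc 5550120897, .ofNat 30827714162, .ofNat 185549693214, .ofNat 118358054413, .negSucc 19903531406, .negSucc 9495920275, .ofNat 143587770909, .negSucc 976354421, .ofNat 66712578436],
  [.ofNat 0, .ofNat 0, .ofNat 0, .ofNat 0, .ofNat 0, .ofNat 0, .ofNat 0, .ofNat 0, .ofNat 0, .ofNat 0, .ofNat 0, .ofNat 0, .ofNat 0, .ofNat 0, .ofNat 0, .ofNat 0, .ofNat 0, .ofNat 0, .ofNat 0, .ofNat 485163226447, .negSucc 2690962886, .ofNat 13928173148, .negSucc 1060677413427, .ofNat 1113941005714, .negSucc 50833706881, .negSucc 1198534994203, .ofNat 2167463840595, .ofNat 413357872, .negSucc 499575601024],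
  [.ofNat 0, .ofNat 0, .ofNat 0, .ofNat 0, .ofNat 0, .ofNat 0, .ofNat 0, .ofNat 0, .ofNat 0, .ofNat 0, .ofNat 0, .ofNat 0, .ofNat 0, .ofNat 0, .ofNat 0, .ofNat 0, .ofNat 0, .ofNat 0, .ofNat 0, .ofNat 0, .ofNat 41087995666, .negSucc 161382754073, .negSucc 664843347025, .ofNat 723780451476, .ofNat 28810271855, .negSucc 314228538453, .ofNat 103354072329, .negSucc 338277595, .ofNat 11875930188],
  [.ofNat 0, .ofNat 0, .ofNat 0, .ofNat 0, .ofNat 0, .ofNat 0, .ofNat 0, .ofNat 0, .ofNat 0, .ofNat 0, .ofNat 0, .ofNat 0, .ofNat 0, .ofNat 0, .ofNat 0, .ofNat 0, .ofNat 0, .ofNat 0, .ofNat 0, .ofNat 0, .ofNat 0, .ofNat 162528977123, .ofNat 91533592831, .ofNat 21899442400, .ofNat 12691212852, .ofNat 84612215583, .ofNat 425361418864, .ofNat 549330933, .negSucc 21535740300],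
  [.ofNat 0, .ofNat 0, .ofNat 0, .ofNat 0, .ofNat 0, .ofNat 0, .ofNat 0, .ofNat 0, .ofNat 0, .ofNat 0, .ofNat 0, .ofNat 0, .ofNat 0, .ofNat 0, .ofNat 0, .ofNat 0, .ofNat 0, .ofNat 0, .ofNat 0, .ofNat 0, .ofNat 0, .ofNat 0, .ofNat 827821129527, .negSucc 1199169456023, .ofNat 141001306436, .ofNat 1149895545016, .negSucc 1758366351486, .ofNat 1562707048, .ofNat 77903103201],
  [.ofNat 0, .ofNat 0, .ofNat 0, .ofNat 0, .ofNat 0, .ofNat 0, .ofNat 0, .ofNat 0, .ofNat 0, .ofNat 0, .ofNat 0, .ofNat 0, .ofNat 0, .ofNat 0, .ofNat 0, .ofNat 0, .ofNat 0, .ofNat 0, .ofNat 0, .ofNat 0, .ofNat 0, .ofNat 0, .ofNat 0, .ofNat 759554421826, .negSucc 239510478827, .negSucc 801965797642, .ofNat 1833401617240, .ofNat 1689821898, .ofNat 129473339511],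
  [.ofNat 0, .ofNat 0, .ofNat 0, .ofNat 0, .ofNat 0, .ofNat 0, .ofNat 0, .ofNat 0, .ofNat 0, .ofNat 0, .ofNat 0, .ofNat 0, .ofNat 0, .ofNat 0, .ofNat 0, .ofNat 0, .ofNat 0, .ofNat 0, .ofNat 0, .ofNat 0, .ofNat 0, .ofNat 0, .ofNat 0, .ofNat 0, .ofNat 180730753752, .ofNat 149595250638, .negSucc 161907751107, .negSucc 933117322, .ofNat 67138628222],
  [.ofNat 0, .ofNat 0, .ofNat 0, .ofNat 0, .ofNat 0, .ofNat 0, .ofNat 0, .ofNat 0, .ofNat 0, .ofNat 0, .ofNat 0, .ofNat 0, .ofNat 0, .ofNat 0, .ofNat 0, .ofNat 0, .ofNat 0, .ofNat 0, .ofNat 0, .ofNat 0, .ofNat 0, .ofNat 0, .ofNat 0, .ofNat 0, .ofNat 0, .ofNat 603349085925, .negSucc 1311058873896, .negSucc 8699689452, .ofNat 333894683486],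
  [.ofNat 0, .ofNat 0, .ofNat 0, .ofNat 0, .ofNat 0, .ofNat 0, .ofNat 0, .ofNat 0, .ofNat 0, .ofNat 0, .ofNat 0, .ofNat 0, .ofNat 0, .ofNat 0, .ofNat 0, .ofNat 0, .ofNat 0, .ofNat 0, .ofNat 0, .ofNat 0, .ofNat 0, .ofNat 0, .ofNat 0, .ofNat 0, .ofNat 0, .ofNat 0, .ofNat 1088513392394, .ofNat 2534340748, .negSucc 386590861267],
  [.ofNat 0, .ofNat 0, .ofNat 0, .ofNat 0, .ofNat 0, .ofNat 0, .ofNat 0, .ofNat 0, .ofNat 0, .ofNat 0, .ofNat 0, .ofNat 0, .ofNat 0, .ofNat 0, .ofNat 0, .ofNat 0, .ofNat 0, .ofNat 0, .ofNat 0, .ofNat 0, .ofNat 0, .ofNat 0, .ofNat 0, .ofNat 0, .ofNat 0, .ofNat 0, .ofNat 0, .ofNat 4986181733, .negSucc 144675778434],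
  [.ofNat 0, .ofNat 0, .ofNat 0, .ofNat 0, .ofNat 0, .ofNat 0, .ofNat 0, .ofNat 0, .ofNat 0, .ofNat 0, .ofNat 0, .ofNat 0, .ofNat 0, .ofNat 0, .ofNat 0, .ofNat 0, .ofNat 0, .ofNat 0, .ofNat 0, .ofNat 0, .ofNat 0, .ofNat 0, .ofNat 0, .ofNat 0, .ofNat 0, .ofNat 0, .ofNat 0, .ofNat 0, .ofNat 130757204400]]

end Pool.Agent.P749578
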