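import Mathlib

namespace Pool.Agent.P749578

set_option maxRecDepth 100000

def dF12 : List (List ℤ) :=
  [[.ofNat 396361728, .ofNat 0, .ofNat 0, .ofNat 0, .ofNat 0, .ofNat 0, .ofNat 0, .ofNat 0, .ofNat 0, .ofNat 0, .ofNat 0, .ofNat 0, .ofNat 0, .ofNat 0, .ofNat 0, .ofNat 0, .ofNat 0, .ofNat 0, .ofNat 0, .ofNat 0, .ofNat 0, .ofNat 0, .ofNat 0, .ofNat 0, .ofNat 0, .ofNat 0, .ofNat 0, .ofNat 0, .ofNat 0],
  [.ofNat 198180864, .negSucc 198180863, .ofNat 0, .ofNat 0, .ofNat 0, .ofNat 0, .ofNat 0, .ofNat 0, .ofNat 0, .ofNat 0, .ofNat 0, .ofNat 0, .ofNat 0, .ofNat 0, .ofNat 0, .ofNat 0, .ofNat 0, .ofNat 0, .ofNat 0, .ofNat 0, .ofNat 0, .ofNat 0, .ofNat 0, .ofNat 0, .ofNat 0, .ofNat 0, .ofNat 0, .ofNat 0, .ofNat 0],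
  [.negSucc 1457189747, .ofNat 3162088440, .ofNat 261865192, .negSucc 169977927, .negSucc 39711192191, .ofNat 0, .ofNat 0, .ofNat 0, .ofNat 0, .ofNat 150575640, .ofNat 0, .ofNat 919157400, .negSucc 46065727, .negSucc 174250799, .ofNat 577118088, .ofNat 25776400608, .negSucc 9165347855, .negSucc 6059711, .ofNat 1082829240, .ofNat 49178054016, .ofNat 410465664, .negSucc 9529228799, .negSucc 308416463, .ofNat 57667680, .ofNat 662965704, .negSucc 128031359, .negSucc 114550487, .negSucc 99634175, .negSucc 616537655],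
  [.negSucc 1394436959, .ofNat 1181163312, .ofNat 177075056, .negSucc 132116783, .negSucc 36298862207, .ofNat 0, .ofNat 0, .ofNat 0, .ofNat 0, .ofNat 56245872, .ofNat 0, .ofNat 4091048976, .ofNat 21684736, .negSucc 263569823, .ofNat 688864368, .ofNat 141561870912, .negSucc 16239708575, .negSucc 94728383, .ofNat 1792671408, .ofNat 13035012480, .negSucc 79325567, .negSucc 5204702159, .negSucc 202663199, .ofNat 23450208, .ofNat 486600912, .negSucc 109644415, .negSucc 180701231, .negSucc 82889983, .negSucc 2109196655],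
  [.ofNat 982860984, .negSucc 1148990975, .negSucc 187453407, .ofNat 102000896, .negSucc 37163218175, .ofNat 0, .ofNat 0, .ofNat 0, .ofNat 0, .negSucc 54713855, .ofNat 0, .negSucc 4179162623, .negSucc 20846079, .ofNat 254014016, .negSucc 782606783, .negSucc 100834191359, .ofNat 17499242880, .ofNat 32309376, .negSucc 2081184191, .negSucc 95812174079, .ofNat 503556480, .ofNat 6390444816, .ofNat 163543680, .negSucc 6469151, .negSucc 514798271, .ofNat 121831488, .ofNat 270784320, .ofNat 53798720, .ofNat 1400406336],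
  [.ofNat 422965368, .negSucc 179179055, .negSucc 22480847, .ofNat 19106288, .ofNat 8452104192, .ofNat 0, .ofNat 0, .ofNat 0, .ofNat 0, .negSucc 8532335, .ofNat 0, .ofNat 353235792, .ofNat 12437312, .ofNat 4115424, .negSucc 44785007, .ofNat 10337955264, .ofNat 149552928, .negSucc 15831743, .negSucc 49226543, .negSucc 1994799743, .negSucc 219276287, .ofNat 58292640, .ofNat 47377824, .negSucc 7567871, .negSucc 65944655, .ofNat 10788864, .negSucc 6458063, .ofNat 12749184, .negSucc 12119183],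
  [.ofNat 990695160, .negSucc 149382575, .negSucc 35298511, .ofNat 33111216, .ofNat 12978306432, .ofNat 0, .ofNat 0, .ofNat 0, .ofNat 0, .negSucc 7113455, .ofNat 0, .ofNat 550814544, .ofNat 21530304, .ofNat 14313184, .negSucc 94090799, .ofNat 15541751232, .ofNat 354951072, .negSucc 8881535, .negSucc 113077295, .negSucc 2010887423, .negSucc 413683199, .negSucc 701086175, .ofNat 97415328, .negSucc 11599103, .negSucc 112630607, .ofNat 19882432, .negSucc 12258575, .ofNat 23802176, .negSucc 10486223],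
  [.ofNat 44191611072, .negSucc 2769239087, .negSucc 1517325743, .ofNat 1462865776, .ofNat 459707899392, .ofNat 0, .ofNat 0, .ofNat 0, .ofNat 0, .negSucc 131868527, .ofNat 0, .ofNat 24368517936, .ofNat 1005435648, .ofNat 801830496, .negSucc 4947358895, .ofNat 730944502848, .ofNat 16938889632, .ofNat 453199296, .negSucc 6067507823, .negSucc 42780044159, .negSucc 19293603839, .negSucc 14410449647, .ofNat 4076411040, .negSucc 390378335, .negSucc 6869594447, .ofNat 1043598656, .ofNat 311833776, .ofNat 1171384704, .ofNat 14599030320],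
  [.ofNat 29046033828, .negSucc 24934006439, .negSucc 2334057143, .ofNat 1981740536, .ofNat 915713334144, .ofNat 0, .ofNat 0, .ofNat 0, .ofNat 0, .negSucc 1187333639, .ofNat 0, .ofNat 37296884184, .ofNat 1249774560, .ofNat 117785680, .negSucc 3607711991, .ofNat 1094149818720, .ofNat 17466846768, .negSucc 2733580223, .negSucc 3722565671, .negSucc 294489530495, .negSucc 21523670783, .ofNat 56607785136, .ofNat 3927692400, .negSucc 973076351, .negSucc 7303660055, .ofNat 1070688704, .negSucc 697932791, .ofNat 1272425664, .negSucc 1947160151],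
  [.ofNat 8121123864, .ofNat 2292104304, .ofNat 113429776, .ofNat 20834800, .negSucc 53498624255, .ofNat 0, .ofNat 0, .ofNat 0, .ofNat 0, .ofNat 109147824, .ofNat 0, .ofNat 2672539632, .ofNat 101702272, .ofNat 96294624, .negSucc 300244079, .ofNat 65493586368, .ofNat 4666550112, .ofNat 13667904, .negSucc 454950287, .ofNat 1722155904, .negSucc 327608063, .negSucc 17078326271, .ofNat 707585376, .negSucc 102186047, .negSucc 401273135, .ofNat 104380416, .negSucc 245023535, .ofNat 130948928, .negSucc 3471677999],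
  [.negSucc 8298145547, .negSucc 2273359031, .negSucc 116335175, .negSucc 31373335, .ofNat 32167691136, .ofNat 0, .ofNat 0, .ofNat 0, .ofNat 0, .negSucc 108255191, .ofNat 0, .negSucc 2698351319, .negSucc 101443679, .negSucc 99718479, .ofNat 269668440, .negSucc 48441740255, .negSucc 4330094831, .negSucc 32167295, .ofNat 365069448, .negSucc 4053079295, .ofNat 469348992, .ofNat 17531357760, .negSucc 724807727, .ofNat 107876640, .ofNat 392863608, .negSucc 101104639, .ofNat 274843224, .negSucc 141433343, .ofNat 3230999352],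
  [.negSucc 1038582719, .ofNat 711422208, .ofNat 85462016, .negSucc 65108799, .negSucc 32456180735, .ofNat 0, .ofNat 0, .ofNat 0, .ofNat 0, .ofNat 33877248, .ofNat 0, .negSucc 1009284191, .negSucc 34896511, .negSucc 6896191, .ofNat 136804032, .negSucc 30648191615, .negSucc 644394239, .ofNat 72262272, .ofNat 180676800, .ofNat 9105046272, .ofNat 595873152, .negSucc 2041256447, .negSucc 131716223, .ofNat 26227584, .ofNat 243357120, .negSucc 37958271, .ofNat 4438464, .negSucc 43449983, .negSucc 252770111],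
  [.ofNat 54830916, .ofNat 277849656, .ofNat 21042312, .negSucc 15239751, .negSucc 8024486399, .ofNat 0, .ofNat 0, .ofNat 0, .ofNat 0, .ofNat 13230936, .ofNat 0, .negSucc 227584391, .negSucc 6689471, .ofNat 3138064, .ofNat 24389448, .negSucc 7269702047, .ofNat 162619632, .ofNat 17246784, .ofNat 21885048, .ofNat 2173094784, .ofNat 192592512, .negSucc 1416914351, .negSucc 6170063, .ofNat 5493312, .ofNat 73528776, .negSucc 7706623, .negSucc 9048215, .negSucc 8007807, .negSucc 208987127],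
  [.ofNat 982604448, .negSucc 3025655135, .negSucc 294322239, .ofNat 207191648, .ofNat 113065085952, .ofNat 0, .ofNat 0, .ofNat 0, .ofNat 0, .negSucc 144078815, .ofNat 0, .ofNat 3628844352, .ofNat 112169120, .negSucc 29228479, .negSucc 449525855, .ofNat 93026755584, .ofNat 955870272, .negSucc 375090431, .negSucc 769358303, .negSucc 65989486079, .negSucc 3024870911, .ofNat 12259701216, .ofNat 213256512, .negSucc 95234111, .negSucc 799946783, .ofNat 91255232, .negSucc 23330783, .ofNat 72517760, .negSucc 1670407199],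
  [.negSucc 44585855, .ofNat 1958667984, .ofNat 127951216, .negSucc 96422895, .negSucc 49175973503, .ofNat 0, .ofNat 0, .ofNat 0, .ofNat 0, .ofNat 93269904, .ofNat 0, .negSucc 1379441615, .negSucc 43969631, .ofNat 5606624, .ofNat 213410352, .negSucc 41455907135, .ofNat 1082275488, .ofNat 84959040, .ofNat 221042448, .ofNat 12785738112, .ofNat 1377081216, .negSucc 10150351343, .negSucc 86906207, .ofNat 44355360, .ofNat 591489648, .negSucc 68928575, .negSucc 74621903, .negSucc 69834111, .negSucc 1624108751],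
  [.ofNat 51952824, .negSucc 1947191903, .negSucc 127584703, .ofNat 107557568, .ofNat 48922828416, .ofNat 0, .ofNat 0, .ofNat 0, .ofNat 0, .negSucc 92723423, .ofNat 0, .ofNat 1384506144, .ofNat 44192512, .negSucc 5519551, .negSucc 180000383, .ofNat 50024265984, .negSucc 1069056575, .negSucc 85128575, .negSucc 119952863, .negSucc 4483503359, .negSucc 1377686015, .ofNat 10117639728, .ofNat 86946624, .negSucc 44154719, .negSucc 591025247, .ofNat 68889088, .ofNat 74884512, .ofNat 80995776, .ofNat 2335296096],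
  [.negSucc 39649679, .ofNat 645926400, .ofNat 60568448, .negSucc 43136063, .negSucc 23253785855, .ofNat 0, .ofNat 0, .ofNat 0, .ofNat 0, .ofNat 30758400, .ofNat 0, .negSucc 580958111, .negSucc 20283711, .ofNat 241984, .ofNat 74718528, .negSucc 17982010367, .negSucc 149474303, .ofNat 47924352, .ofNat 81831744, .ofNat 6038468352, .ofNat 519015168, .negSucc 2445821279, .negSucc 47086847, .ofNat 12070848, .ofNat 162539712, .negSucc 21401407, .negSucc 16519103, .negSucc 22777407, .negSucc 433589183],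
  [.ofNat 211169448, .negSucc 340582031, .negSucc 40205359, .ofNat 26337968, .ofNat 15395474304, .ofNat 0, .ofNat 0, .ofNat 0, .ofNat 0, .negSucc 16218191, .ofNat 0, .ofNat 307910736, .ofNat 10223808, .negSucc 1292447, .negSucc 48917039, .ofNat 9706979520, .ofNat 374026464, .negSucc 41140223, .negSucc 88485839, .negSucc 5183668223, .negSucc 159401087, .ofNat 1872753120, .ofNat 37967328, .negSucc 10866047, .negSucc 111296303, .ofNat 16470464, .ofNat 8695632, .ofNat 17453568, .ofNat 244543824],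
  [.negSucc 13770922787, .ofNat 11600198568, .ofNat 1354755160, .negSucc 1113904151, .negSucc 514430880767, .ofNat 4161798144, .ofNat 0, .negSucc 33030143, .negSucc 66060287, .ofNat 552390408, .ofNat 0, .negSucc 13496246231, .negSucc 524030079, .negSucc 212461199, .ofNat 2482807704, .negSucc 402525601631, .negSucc 8513000495, .ofNat 1105334976, .ofNat 3146915304, .ofNat 139272206976, .ofNat 13753031040, .negSucc 41558691887, .negSucc 1925468015, .ofNat 381666816, .ofNat 4255802712, .negSucc 610693247, .negSucc 205102535, .negSucc 693234047, .negSucc 7426324583],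
  [.ofNat 22563829512, .negSucc 6197028767, .negSucc 1327278847, .ofNat 1176963552, .ofNat 500966097408, .ofNat 0, .ofNat 0, .ofNat 0, .ofNat 0, .negSucc 295096607, .ofNat 0, .ofNat 11260783968, .ofNat 547873536, .ofNat 485944640, .negSucc 3152896415, .ofNat 322808153472, .ofNat 14838578496, .negSucc 866269439, .negSucc 4190605919, .negSucc 121635343871, .negSucc 14959099007, .ofNat 18422952912, .ofNat 2598446784, .negSucc 426623519, .negSucc 4096684511, .ofNat 679894592, .negSucc 13696223, .ofNat 771834752, .ofNat 3423710304],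
  [.negSucc 219402539, .negSucc 5016070583, .negSucc 411828167, .ofNat 258974120, .ofNat 160017911424, .ofNat 0, .ofNat 0, .ofNat 0, .ofNat 0, .negSucc 238860503, .ofNat 0, .ofNat 4602985800, .ofNat 117140960, .negSucc 93663439, .negSucc 323178215, .ofNat 145602146592, .ofNat 682939152, .negSucc 448328063, .negSucc 517609079, .negSucc 52327537919, .negSucc 1595438207, .ofNat 24260035968, .ofNat 234306000, .negSucc 108655199, .negSucc 1194590087, .ofNat 144005952, .ofNat 97554456, .ofNat 159378176, .ofNat 3017093688],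
  [.ofNat 100044871920, .negSucc 49038006527, .negSucc 6869456383, .ofNat 5819829728, .ofNat 2695143096576, .ofNat 0, .ofNat 0, .ofNat 0, .ofNat 0, .negSucc 2335143167, .ofNat 0, .ofNat 86933977536, .ofNat 3236056640, .ofNat 1266874944, .negSucc 13469570783, .ofNat 2518290286848, .ofNat 47992170240, .negSucc 5859163391, .negSucc 17708493887, .negSucc 694555706879, .negSucc 70739899775, .ofNat 132341479200, .ofNat 12525057792, .negSucc 2314059455, .negSucc 22026000383, .ofNat 3285939776, .negSucc 438285887, .ofNat 3747780544, .ofNat 19891964736],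
  [.negSucc 277792955, .ofNat 2085099912, .ofNat 124687512, .negSucc 86502231, .negSucc 55192185215, .ofNat 0, .ofNat 0, .ofNat 0, .ofNat 0, .ofNat 99290472, .ofNat 0, .negSucc 3522635927, .negSucc 80245567, .ofNat 74508848, .ofNat 30776856, .negSucc 100154317535, .ofNat 1548351504, .ofNat 185577408, .negSucc 86204087, .ofNat 16248242304, .ofNat 585857664, .negSucc 5710003487, .negSucc 138812591, .ofNat 54029280, .ofNat 426008376, .negSucc 41556479, .ofNat 52795416, .negSucc 55094847, .ofNat 255786552],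
  [.negSucc 22945877135, .negSucc 25552888703, .negSucc 1675989887, .ofNat 1106309248, .ofNat 563860967040, .ofNat 0, .ofNat 0, .ofNat 0, .ofNat 0, .negSucc 622261631, .ofNat 0, .ofNat 241664640, .ofNat 70982592, .negSucc 84779775, .negSucc 1797433343, .ofNat 77201002368, .negSucc 6185523455, .negSucc 773338751, .negSucc 900773567, .negSucc 141139563263, .negSucc 10909721087, .ofNat 148746058272, .negSucc 1179587327, .negSucc 97370687, .negSucc 4629715775, .ofNat 428204096, .ofNat 1679664576, .ofNat 488431552, .ofNat 26581891392],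
  [.ofNat 23114909160, .ofNat 25629082416, .ofNat 1677870512, .negSucc 1005460623, .negSucc 563836629887, .ofNat 0, .ofNat 0, .ofNat 0, .ofNat 0, .ofNat 1220432496, .ofNat 0, .negSucc 234230639, .negSucc 70186079, .ofNat 85287776, .ofNat 1505596176, .negSucc 149908909247, .ofNat 6533777376, .ofNat 765339456, .ofNat 1791930096, .ofNat 140131651968, .ofNat 10909914624, .negSucc 149188937183, .ofNat 1191228000, .ofNat 99038592, .ofNat 4631760144, .negSucc 426359039, .negSucc 1676613935, .negSucc 385919551, .negSucc 32661204911],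
  [],
  [],
  [],
  []]

def db12 : List (List ℤ) :=
  [[.ofNat 396361728],
  [.ofNat 198180864],
  [.ofNat 0],
  [.ofNat 0],
  [.ofNat 0],
  [.ofNat 0],
  [.ofNat 0],
  [.ofNat 0],
  [.ofNat 0],
  [.ofNat 0],
  [.ofNat 0],
  [.ofNat 0],
  [.ofNat 0],
  [.ofNat 0],
  [.ofNat 0],
  [.ofNat 0],
  [.ofNat 99090432],
  [.ofNat 99090432],
  [.ofNat 2080899072],
  [.ofNat 0],
  [.ofNat 0],
  [.ofNat 0],
  [.ofNat 0],
  [.negSucc 12485394431],
  [.ofNat 12485394432],
  [],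
  [],
  [],
  []]

def dF22 : List (List ℤ) :=
  [[.ofNat 396361728, .ofNat 0, .ofNat 0, .ofNat 0, .ofNat 0, .ofNat 0, .ofNat 0, .ofNat 0, .ofNat 0, .ofNat 0, .ofNat 0, .ofNat 0, .ofNat 0, .ofNat 0, .ofNat 0, .ofNat 0, .ofNat 0, .ofNat 0, .ofNat 0, .ofNat 0, .ofNat 0, .ofNat 0, .ofNat 0, .ofNat 0, .ofNat 0, .ofNat 0, .ofNat 0, .ofNat 0, .ofNat 0],
  [.negSucc 198180863, .negSucc 198180863, .ofNat 0, .ofNat 0, .ofNat 0, .ofNat 0, .ofNat 0, .ofNat 0, .ofNat 0, .ofNat 0, .ofNat 0, .ofNat 0, .ofNat 0, .ofNat 0, .ofNat 0, .ofNat 0, .ofNat 0, .ofNat 0, .ofNat 0, .ofNat 0, .ofNat 0, .ofNat 0, .ofNat 0, .ofNat 0, .ofNat 0, .ofNat 0, .ofNat 0, .ofNat 0, .ofNat 0],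
  [.negSucc 4912384175, .negSucc 4237255007, .negSucc 827316503, .ofNat 0, .ofNat 0, .ofNat 0, .negSucc 2118627503, .ofNat 0, .negSucc 4237255007, .negSucc 3647590631, .ofNat 1939956984, .negSucc 333778535, .ofNat 2162747160, .ofNat 119657357568, .ofNat 4879705824, .ofNat 1036923552, .negSucc 341898731, .ofNat 156055725, .ofNat 1695701448, .ofNat 1342736640, .ofNat 17988158160, .ofNat 1294261920, .ofNat 270400788, .negSucc 832412195, .negSucc 739335743, .negSucc 827109737, .negSucc 119647520, .negSucc 52935023231, .negSucc 254962259],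
  [.negSucc 5062834727, .negSucc 4117288895, .negSucc 756226295, .ofNat 0, .ofNat 0, .ofNat 0, .negSucc 2058644447, .ofNat 0, .negSucc 4117288895, .negSucc 5552831339, .ofNat 470225952, .negSucc 1370856815, .ofNat 2370903192, .ofNat 32031949824, .ofNat 4941150984, .ofNat 812554848, .negSucc 912708215, .ofNat 46991448, .ofNat 797313888, .ofNat 155558592, .ofNat 12340744416, .ofNat 1521926532, .negSucc 101020247, .negSucc 637774703, .negSucc 1112521535, .negSucc 402565841, .negSucc 87197165, .negSucc 25764213887, .negSucc 138097511],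
  [.ofNat 6979439880, .ofNat 8374000320, .negSucc 774233711, .ofNat 0, .ofNat 0, .ofNat 0, .ofNat 4187000160, .ofNat 0, .ofNat 8374000320, .ofNat 5677863660, .negSucc 491444351, .ofNat 2421825840, .negSucc 2287608119, .negSucc 96382718207, .negSucc 6489433439, .negSucc 918612575, .ofNat 1370097792, .negSucc 119891267, .negSucc 2030646239, .negSucc 403985735, .negSucc 10997574335, .negSucc 1522108979, .ofNat 688475088, .ofNat 1080713088, .ofNat 1227298464, .ofNat 294178500, .negSucc 21831767, .ofNat 18827424000, .negSucc 623085119],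
  [.ofNat 529220664, .ofNat 320175072, .ofNat 176085504, .ofNat 0, .ofNat 0, .ofNat 0, .ofNat 160087536, .ofNat 0, .ofNat 320175072, .negSucc 150604523, .negSucc 461077847, .negSucc 115843895, .negSucc 77203727, .negSucc 21623777279, .negSucc 359959823, .negSucc 93816575, .ofNat 8277444, .negSucc 19842920, .negSucc 127868327, .negSucc 65470607, .negSucc 1923553295, .negSucc 129747491, .negSucc 44558891, .ofNat 79753212, .ofNat 141216768, .ofNat 93234078, .ofNat 11235105, .ofNat 5966980992, .ofNat 60377940],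
  [.ofNat 1137275496, .ofNat 855098496, .ofNat 270381384, .ofNat 0, .ofNat 0, .ofNat 0, .ofNat 427549248, .ofNat 0, .ofNat 855098496, .negSucc 247213259, .negSucc 829153079, .negSucc 125327663, .negSucc 150061967, .negSucc 39252632831, .negSucc 745096967, .negSucc 181464191, .ofNat 66030048, .negSucc 53369315, .negSucc 365218559, .negSucc 117615455, .negSucc 3403083599, .negSucc 251442323, .negSucc 39643127, .ofNat 167782608, .ofNat 319515840, .ofNat 141634710, .ofNat 12421710, .ofNat 9956435328, .ofNat 80554824],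
  [.ofNat 60710029128, .ofNat 51082313184, .ofNat 9577247904, .ofNat 0, .ofNat 0, .ofNat 0, .ofNat 25541156592, .ofNat 0, .ofNat 51082313184, .negSucc 11336773139, .negSucc 39976962479, .negSucc 3065033159, .negSucc 7006724927, .negSucc 1977678944639, .negSucc 39436522271, .negSucc 9197895167, .ofNat 4980453660, .negSucc 3038894396, .negSucc 22298524919, .negSucc 5655224231, .negSucc 167028684479, .negSucc 12761035307, .negSucc 871829531, .ofNat 8434775412, .ofNat 16416263808, .ofNat 5809447980, .ofNat 458262567, .ofNat 371804670720, .ofNat 2839365396],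
  [.ofNat 45896917752, .ofNat 23606202816, .ofNat 19077361128, .ofNat 0, .ofNat 0, .ofNat 0, .ofNat 11803101408, .ofNat 0, .ofNat 23606202816, .negSucc 14687394875, .negSucc 43862257655, .negSucc 13782398615, .negSucc 7161063839, .negSucc 2003293240703, .negSucc 31075540271, .negSucc 7897200191, .negSucc 1257653375, .negSucc 1194562781, .negSucc 6379145135, .negSucc 6373995767, .negSucc 201081719663, .negSucc 11665990475, .negSucc 6101408879, .ofNat 6498751896, .ofNat 9974458368, .ofNat 10035373446, .ofNat 1370224548, .ofNat 642263900544, .ofNat 7069576752],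
  [.ofNat 6565780368, .ofNat 8062915392, .negSucc 1114554671, .ofNat 0, .ofNat 0, .ofNat 0, .ofNat 4031457696, .ofNat 0, .ofNat 8062915392, .negSucc 1898081135, .negSucc 3083492159, .ofNat 413918064, .negSucc 185294087, .negSucc 141155094527, .negSucc 3018984191, .negSucc 413550143, .ofNat 1002718080, .negSucc 341134541, .negSucc 2310622271, .negSucc 111568463, .negSucc 14434580159, .negSucc 144809783, .ofNat 365671656, .ofNat 1024116408, .ofNat 469609056, .ofNat 493833564, .negSucc 176523353, .ofNat 31605348096, .negSucc 496866383],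
  [.negSucc 6075794087, .negSucc 6930520127, .ofNat 670160232, .ofNat 0, .ofNat 0, .ofNat 0, .negSucc 3465260063, .ofNat 0, .negSucc 6930520127, .ofNat 1931344380, .ofNat 3076966368, .negSucc 134892071, .ofNat 216943272, .ofNat 116398187136, .ofNat 2580049584, .ofNat 378114912, .negSucc 879853967, .ofNat 325902150, .ofNat 1972040112, .ofNat 35265888, .ofNat 14997282048, .ofNat 147480228, .negSucc 199174751, .negSucc 912442607, .negSucc 430803071, .negSucc 534950891, .ofNat 147585186, .negSucc 59207645951, .ofNat 272752200],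
  [.negSucc 1569206519, .negSucc 685750463, .negSucc 676170431, .ofNat 0, .ofNat 0, .ofNat 0, .negSucc 342875231, .ofNat 0, .negSucc 685750463, .ofNat 521725932, .ofNat 1387891512, .ofNat 378182448, .ofNat 232163064, .ofNat 65122807680, .ofNat 1067514336, .ofNat 247393440, .ofNat 43483608, .ofNat 46574388, .ofNat 286100640, .ofNat 247019976, .ofNat 6664094640, .ofNat 464197356, .ofNat 176086512, .negSucc 223413623, .negSucc 496038815, .negSucc 299625101, .negSucc 53300645, .negSucc 19176006527, .negSucc 256449815],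
  [.negSucc 251510111, .negSucc 13547519, .negSucc 167176799, .negSucc 99090431, .ofNat 0, .negSucc 198180863, .negSucc 56318975, .ofNat 0, .negSucc 13547519, .ofNat 76107024, .ofNat 279984096, .ofNat 101972304, .ofNat 44750160, .ofNat 13415842944, .ofNat 200893896, .ofNat 50942304, .ofNat 22874040, .ofNat 3168270, .ofNat 20602512, .ofNat 53880624, .ofNat 1213359840, .ofNat 74220048, .ofNat 41135976, .negSucc 30533327, .negSucc 118425887, .negSucc 53751977, .negSucc 14749055, .negSucc 3440126591, .negSucc 61368047],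
  [.ofNat 3782619288, .ofNat 605328192, .ofNat 2355522624, .ofNat 0, .ofNat 0, .ofNat 0, .ofNat 1863338400, .ofNat 0, .ofNat 605328192, .negSucc 1698699995, .negSucc 4264093511, .negSucc 1615331591, .negSucc 526239503, .negSucc 206307271295, .negSucc 3267756575, .negSucc 680593535, .negSucc 362282759, .ofNat 1277136, .ofNat 495439056, .negSucc 1051395407, .negSucc 18002084687, .negSucc 983759867, .negSucc 582440039, .ofNat 575645112, .ofNat 1286986176, .ofNat 868563864, .ofNat 160742232, .ofNat 55588087296, .ofNat 495411336],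
  [.negSucc 2719109231, .negSucc 1405242719, .negSucc 1024499447, .ofNat 0, .ofNat 0, .ofNat 0, .negSucc 876029615, .ofNat 0, .negSucc 1405242719, .ofNat 291738888, .ofNat 1991637144, .ofNat 341211024, .ofNat 445514832, .ofNat 95235315840, .ofNat 1961382024, .ofNat 497998368, .ofNat 1535940, .ofNat 99503649, .ofNat 695062872, .ofNat 438245640, .ofNat 9998151408, .ofNat 663973632, .ofNat 183242556, .negSucc 408520979, .negSucc 1090879775, .negSucc 443822651, .negSucc 91789298, .negSucc 28404649727, .negSucc 374288291],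
  [.ofNat 2391103008, .ofNat 752032512, .ofNat 1019225592, .ofNat 0, .ofNat 0, .ofNat 0, .ofNat 549424512, .ofNat 0, .ofNat 2139298560, .negSucc 299895119, .negSucc 1996536023, .negSucc 508023935, .negSucc 443331503, .negSucc 95384362751, .negSucc 1619808119, .negSucc 497847167, .negSucc 82578887, .negSucc 78559865, .negSucc 697910975, .negSucc 348357743, .negSucc 9975654863, .negSucc 663121871, .negSucc 263512367, .ofNat 325816344, .ofNat 1094992416, .ofNat 441996534, .ofNat 112124376, .ofNat 28287778176, .ofNat 543837672],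
  [.negSucc 701933399, .negSucc 133830143, .negSucc 484453871, .ofNat 0, .ofNat 0, .ofNat 0, .negSucc 66915071, .ofNat 0, .negSucc 133830143, .ofNat 158948748, .ofNat 778687560, .ofNat 286010928, .ofNat 159575976, .ofNat 36811079424, .ofNat 587211408, .ofNat 167517504, .ofNat 73354176, .ofNat 13526730, .ofNat 86541840, .ofNat 152343576, .ofNat 3287115216, .ofNat 286845804, .ofNat 125813520, .negSucc 80100719, .negSucc 245925791, .negSucc 154435679, .negSucc 37951829, .negSucc 9883883519, .negSucc 162643319],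
  [.ofNat 701781192, .ofNat 35753760, .ofNat 320739048, .ofNat 0, .ofNat 0, .ofNat 0, .ofNat 17876880, .ofNat 0, .ofNat 35753760, .negSucc 229564187, .negSucc 468208439, .negSucc 152086535, .negSucc 74967479, .negSucc 22034073599, .negSucc 350898407, .negSucc 59240159, .negSucc 61480187, .negSucc 6053984, .negSucc 32947991, .negSucc 119997863, .negSucc 2811893615, .negSucc 203011451, .negSucc 87935651, .ofNat 61515972, .ofNat 219246048, .ofNat 112088718, .ofNat 31308921, .ofNat 7173677952, .ofNat 132977628],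
  [.negSucc 28019324591, .negSucc 15706522943, .negSucc 10717310015, .ofNat 0, .ofNat 0, .ofNat 0, .negSucc 8893711007, .ofNat 0, .negSucc 15706522943, .ofNat 4304292048, .ofNat 21573353088, .ofNat 4326843024, .ofNat 4573181592, .ofNat 1028193143040, .ofNat 19861420824, .ofNat 4687157664, .ofNat 18771984, .ofNat 978848892, .ofNat 6530773536, .ofNat 4203575712, .ofNat 102674567520, .ofNat 7164998568, .ofNat 2013886224, .negSucc 3967066151, .negSucc 9095210207, .negSucc 4485714281, .negSucc 776501585, .negSucc 287085714047, .negSucc 3495902759],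
  [.ofNat 36433672632, .ofNat 26204500224, .ofNat 10436793696, .ofNat 0, .ofNat 0, .ofNat 0, .ofNat 14142699648, .ofNat 0, .ofNat 26204500224, .negSucc 2684644451, .negSucc 23164570799, .negSucc 2077883135, .negSucc 5896295999, .negSucc 1117338050303, .negSucc 24653088431, .negSucc 5574725855, .ofNat 1573522776, .negSucc 1541760695, .negSucc 10365803279, .negSucc 4441408775, .negSucc 110381590367, .negSucc 7925936507, .negSucc 909527471, .ofNat 5515336008, .ofNat 11239881408, .ofNat 4623563322, .ofNat 519651846, .ofNat 308393447040, .ofNat 2802636144],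
  [.ofNat 4288015872, .negSucc 2035526975, .ofNat 3333706488, .ofNat 0, .ofNat 0, .ofNat 0, .negSucc 1017763487, .ofNat 0, .negSucc 2035526975, .negSucc 2786673455, .negSucc 4953545351, .negSucc 2527260119, .negSucc 516418055, .negSucc 227043057023, .negSucc 2441821535, .negSucc 592044767, .negSucc 924133391, .ofNat 57582252, .ofNat 529362288, .negSucc 1079916767, .negSucc 25220965391, .negSucc 1733805359, .negSucc 1188976319, .ofNat 315998928, .ofNat 1673030016, .ofNat 1193759532, .ofNat 368797968, .ofNat 72238811904, .ofNat 1509544008],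
  [.ofNat 158310465768, .ofNat 93016008288, .ofNat 56148814512, .ofNat 0, .ofNat 0, .ofNat 0, .ofNat 51190027056, .ofNat 0, .ofNat 93016008288, .negSucc 38446656443, .negSucc 126640844567, .negSucc 27713890007, .negSucc 22236141815, .negSucc 5912622124415, .negSucc 106228750319, .negSucc 24775275167, .ofNat 937065276, .negSucc 5897318804, .negSucc 37563546887, .negSucc 21624682967, .negSucc 570808686671, .negSucc 38216255867, .negSucc 10941888131, .ofNat 22215138876, .ofNat 46329300864, .ofNat 24867770256, .ofNat 3562443675, .ofNat 1591537296384, .ofNat 17886770748],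
  [.negSucc 642940199, .ofNat 1234808064, .negSucc 1149837191, .ofNat 0, .ofNat 0, .ofNat 0, .ofNat 617404032, .ofNat 0, .ofNat 1234808064, .ofNat 1997434404, .ofNat 2561401584, .ofNat 1572569712, .negSucc 65482199, .ofNat 107910085248, .ofNat 374151456, .ofNat 200352096, .ofNat 429693264, .negSucc 50258123, .negSucc 615294287, .ofNat 185208912, .ofNat 9331574112, .ofNat 483707700, .ofNat 597180024, .negSucc 17825975, .negSucc 2572415, .negSucc 544862051, .negSucc 120402071, .negSucc 34871171327, .negSucc 588222935],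
  [.ofNat 11893248864, .negSucc 2843819999, .ofNat 11747103480, .ofNat 0, .ofNat 0, .ofNat 0, .ofNat 138764304, .ofNat 0, .negSucc 2843819999, .ofNat 8690306184, .negSucc 9183635999, .negSucc 1828930823, .negSucc 5720581439, .negSucc 530154205055, .negSucc 15113792231, .negSucc 4159354751, .negSucc 1602319067, .ofNat 2452905, .negSucc 1372805783, .negSucc 3982287959, .negSucc 57397229567, .negSucc 7051497767, .negSucc 2001380219, .ofNat 1716392916, .ofNat 9670258080, .ofNat 2788329852, .ofNat 1322064765, .ofNat 178453110528, .ofNat 4201875972],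
  [.negSucc 8698958855, .ofNat 9271448928, .negSucc 11746596455, .ofNat 0, .ofNat 0, .ofNat 0, .ofNat 3075050160, .ofNat 0, .ofNat 9271448928, .negSucc 8721733355, .ofNat 9179679096, .ofNat 3423292992, .ofNat 5735629368, .ofNat 529319145600, .ofNat 15115136904, .ofNat 4159306368, .ofNat 2393531028, .negSucc 198933272, .ofNat 1386467208, .ofNat 4771574136, .ofNat 57326795568, .ofNat 7061211612, .ofNat 2799079668, .negSucc 921695795, .negSucc 9639316511, .negSucc 2790581597, .negSucc 1519295714, .negSucc 103684855679, .negSucc 4198047587],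
  [],
  [],
  [],
  []]

def db22 : List (List ℤ) :=
  [[.ofNat 396361728],
  [.negSucc 198180863],
  [.ofNat 0],
  [.ofNat 0],
  [.ofNat 0],
  [.ofNat 0],
  [.ofNat 0],
  [.ofNat 0],
  [.ofNat 0],
  [.ofNat 0],
  [.ofNat 0],
  [.ofNat 0],
  [.ofNat 0],
  [.ofNat 0],
  [.ofNat 0],
  [.ofNat 0],
  [.ofNat 99090432],
  [.ofNat 99090432],
  [.ofNat 2080899072],
  [.ofNat 0],
  [.ofNat 0],
  [.ofNat 0],
  [.ofNat 0],
  [.negSucc 12485394431],
  [.ofNat 12485394432],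
  [],
  [],
  [],
  []]

def dS02 : List (List ℤ) :=
  [[.ofNat 0, .ofNat 0, .ofNat 0, .ofNat 0, .ofNat 0, .ofNat 0, .ofNat 0, .ofNat 0, .ofNat 0, .ofNat 0, .ofNat 0, .ofNat 0, .ofNat 0, .ofNat 0, .ofNat 0, .ofNat 0, .ofNat 0, .ofNat 0, .ofNat 0, .ofNat 0, .ofNat 0, .ofNat 0, .ofNat 0, .ofNat 0, .ofNat 0],
  [.ofNat 0, .ofNat 0, .ofNat 0, .ofNat 0, .ofNat 0, .ofNat 0, .ofNat 0, .ofNat 0, .ofNat 0, .ofNat 0, .ofNat 0, .ofNat 0, .ofNat 0, .ofNat 0, .ofNat 0, .ofNat 0, .ofNat 0, .ofNat 0, .ofNat 0, .ofNat 0, .ofNat 0, .ofNat 0, .ofNat 0, .ofNat 0, .ofNat 0],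
  [.ofNat 0, .ofNat 0, .ofNat 0, .ofNat 0, .ofNat 0, .ofNat 0, .ofNat 0, .ofNat 0, .ofNat 0, .ofNat 0, .ofNat 0, .ofNat 0, .ofNat 0, .ofNat 0, .ofNat 0, .ofNat 0, .ofNat 0, .ofNat 0, .ofNat 0, .ofNat 0, .ofNat 0, .ofNat 0, .ofNat 0, .ofNat 0, .ofNat 0],
  [.ofNat 0, .ofNat 0, .ofNat 0, .ofNat 0, .ofNat 0, .ofNat 0, .ofNat 0, .ofNat 0, .ofNat 0, .ofNat 0, .ofNat 0, .ofNat 0, .ofNat 0, .ofNat 0, .ofNat 0, .ofNat 0, .ofNat 0, .ofNat 0, .ofNat 0, .ofNat 0, .ofNat 0, .ofNat 0, .ofNat 0, .ofNat 0, .ofNat 0],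
  [.ofNat 0, .ofNat 0, .ofNat 0, .ofNat 0, .ofNat 0, .ofNat 0, .ofNat 0, .ofNat 0, .ofNat 0, .ofNat 0, .ofNat 0, .ofNat 0, .ofNat 0, .ofNat 0, .ofNat 0, .ofNat 0, .ofNat 0, .ofNat 0, .ofNat 0, .ofNat 0, .ofNat 0, .ofNat 0, .ofNat 0, .ofNat 0, .ofNat 0],
  [.ofNat 0, .ofNat 0, .ofNat 0, .ofNat 0, .ofNat 0, .ofNat 0, .ofNat 0, .ofNat 0, .ofNat 0, .ofNat 0, .ofNat 0, .ofNat 0, .ofNat 0, .ofNat 0, .ofNat 0, .ofNat 0, .ofNat 0, .ofNat 0, .ofNat 0, .ofNat 0, .ofNat 0, .ofNat 0, .ofNat 0, .ofNat 0, .ofNat 0],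
  [.ofNat 0, .ofNat 0, .ofNat 0, .ofNat 0, .ofNat 0, .ofNat 0, .ofNat 0, .ofNat 0, .ofNat 0, .ofNat 0, .ofNat 0, .ofNat 0, .ofNat 0, .ofNat 0, .ofNat 0, .ofNat 0, .ofNat 0, .ofNat 0, .ofNat 0, .ofNat 0, .ofNat 0, .ofNat 0, .ofNat 0, .ofNat 0, .ofNat 0],
  [.ofNat 0, .ofNat 0, .ofNat 0, .ofNat 0, .ofNat 0, .ofNat 0, .ofNat 0, .ofNat 0, .ofNat 0, .ofNat 0, .ofNat 0, .ofNat 0, .ofNat 0, .ofNat 0, .ofNat 0, .ofNat 0, .ofNat 0, .ofNat 0, .ofNat 0, .ofNat 0, .ofNat 0, .ofNat 0, .ofNat 0, .ofNat 0, .ofNat 0],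
  [.ofNat 0, .ofNat 0, .ofNat 0, .ofNat 0, .ofNat 0, .ofNat 0, .ofNat 0, .ofNat 0, .ofNat 0, .ofNat 0, .ofNat 0, .ofNat 0, .ofNat 0, .ofNat 0, .ofNat 0, .ofNat 0, .ofNat 0, .ofNat 0, .ofNat 0, .ofNat 0, .ofNat 0, .ofNat 0, .ofNat 0, .ofNat 0, .ofNat 0],
  [.ofNat 0, .ofNat 0, .ofNat 0, .ofNat 0, .ofNat 0, .ofNat 0, .ofNat 0, .ofNat 0, .ofNat 0, .ofNat 0, .ofNat 0, .ofNat 0, .ofNat 0, .ofNat 0, .ofNat 0, .ofNat 0, .ofNat 0, .ofNat 0, .ofNat 0, .ofNat 0, .ofNat 0, .ofNat 0, .ofNat 0, .ofNat 0, .ofNat 0]]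

def dS12 : List (List ℤ) :=
  [[.ofNat 4, .negSucc 1, .ofNat 212, .ofNat 331, .negSucc 330, .negSucc 2, .negSucc 7, .negSucc 534, .negSucc 141, .negSucc 30, .ofNat 31, .ofNat 8, .ofNat 2, .negSucc 28, .ofNat 17, .negSucc 16, .ofNat 6, .negSucc 1, .ofNat 164, .negSucc 187, .negSucc 19, .negSucc 604, .negSucc 10, .negSucc 390, .ofNat 391],
  [.ofNat 4, .negSucc 1, .negSucc 22, .ofNat 47, .negSucc 46, .ofNat 4, .ofNat 8, .ofNat 409, .ofNat 331, .ofNat 31, .negSucc 30, .negSucc 7, .negSucc 1, .ofNat 29, .negSucc 16, .ofNat 17, .negSucc 5, .ofNat 2, .negSucc 163, .ofNat 188, .ofNat 20, .ofNat 983, .negSucc 15, .ofNat 13, .negSucc 12],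
  [.ofNat 0, .ofNat 0, .negSucc 188, .negSucc 125, .ofNat 126, .negSucc 0, .ofNat 0, .ofNat 126, .negSucc 188, .ofNat 0, .ofNat 0, .ofNat 0, .ofNat 0, .ofNat 0, .ofNat 0, .ofNat 0, .ofNat 2, .ofNat 2, .ofNat 42, .ofNat 0, .ofNat 0, .negSucc 377, .ofNat 27, .ofNat 126, .negSucc 125],
  [.ofNat 0, .negSucc 11, .ofNat 378, .ofNat 756, .negSucc 755, .ofNat 0, .ofNat 0, .ofNat 0, .ofNat 0, .ofNat 0, .ofNat 0, .ofNat 0, .ofNat 0, .ofNat 0, .ofNat 0, .ofNat 0, .ofNat 0, .ofNat 0, .ofNat 0, .ofNat 0, .ofNat 0, .ofNat 756, .negSucc 53, .negSucc 755, .ofNat 756],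
  [.ofNat 0, .negSucc 11, .ofNat 0, .ofNat 0, .ofNat 0, .ofNat 0, .ofNat 0, .ofNat 0, .ofNat 0, .ofNat 0, .ofNat 0, .ofNat 0, .ofNat 0, .ofNat 0, .ofNat 0, .ofNat 0, .ofNat 0, .ofNat 0, .ofNat 0, .ofNat 0, .ofNat 0, .ofNat 0, .ofNat 0, .ofNat 0, .ofNat 0],
  [.ofNat 0, .ofNat 0, .ofNat 378, .ofNat 0, .ofNat 0, .ofNat 0, .ofNat 0, .ofNat 0, .ofNat 0, .ofNat 0, .ofNat 0, .ofNat 0, .ofNat 0, .ofNat 0, .ofNat 0, .ofNat 0, .ofNat 0, .ofNat 0, .ofNat 0, .ofNat 0, .ofNat 0, .ofNat 0, .ofNat 0, .ofNat 0, .ofNat 0],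
  [.ofNat 0, .negSucc 11, .ofNat 0, .ofNat 756, .negSucc 755, .ofNat 0, .ofNat 0, .ofNat 0, .ofNat 0, .ofNat 0, .ofNat 0, .ofNat 0, .ofNat 0, .ofNat 0, .ofNat 0, .ofNat 0, .ofNat 0, .ofNat 0, .ofNat 126, .ofNat 0, .negSucc 41, .ofNat 0, .ofNat 0, .negSucc 755, .ofNat 756],
  [.ofNat 0, .negSucc 11, .negSucc 503, .negSucc 251, .ofNat 252, .ofNat 0, .ofNat 9, .ofNat 1008, .negSucc 503, .ofNat 0, .ofNat 0, .ofNat 0, .ofNat 0, .ofNat 0, .ofNat 0, .ofNat 0, .ofNat 0, .ofNat 0, .ofNat 126, .ofNat 0, .negSucc 41, .negSucc 1007, .ofNat 72, .ofNat 252, .negSucc 251],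
  [.ofNat 0, .negSucc 11, .ofNat 0, .ofNat 756, .negSucc 755, .ofNat 0, .ofNat 0, .ofNat 0, .ofNat 0, .ofNat 0, .ofNat 0, .ofNat 0, .ofNat 0, .ofNat 0, .ofNat 0, .ofNat 0, .ofNat 0, .ofNat 0, .ofNat 0, .ofNat 0, .ofNat 0, .ofNat 0, .ofNat 0, .ofNat 0, .ofNat 0],
  [.ofNat 0, .negSucc 11, .ofNat 0, .ofNat 0, .negSucc 755, .ofNat 0, .ofNat 0, .ofNat 0, .ofNat 0, .ofNat 0, .ofNat 0, .ofNat 0, .ofNat 0, .ofNat 0, .ofNat 0, .ofNat 0, .ofNat 0, .ofNat 0, .ofNat 0, .ofNat 0, .ofNat 0, .ofNat 0, .ofNat 0, .ofNat 0, .ofNat 0]]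

def dS22 : List (List ℤ) :=
  [[.ofNat 0, .ofNat 0, .ofNat 0, .ofNat 0, .ofNat 0, .negSucc 0, .ofNat 0, .ofNat 0, .ofNat 0, .ofNat 84, .negSucc 83, .ofNat 0, .ofNat 0, .ofNat 0, .ofNat 0, .ofNat 0, .ofNat 2, .ofNat 2, .ofNat 42, .ofNat 0, .ofNat 0, .ofNat 0, .ofNat 0, .negSucc 251, .ofNat 252],
  [.ofNat 4, .ofNat 2, .ofNat 0, .ofNat 0, .ofNat 0, .ofNat 0, .ofNat 0, .ofNat 0, .ofNat 0, .ofNat 0, .ofNat 0, .ofNat 0, .ofNat 0, .ofNat 0, .ofNat 0, .ofNat 0, .ofNat 0, .ofNat 0, .ofNat 0, .ofNat 0, .ofNat 0, .ofNat 0, .ofNat 0, .ofNat 0, .ofNat 0],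
  [.ofNat 4, .ofNat 2, .ofNat 0, .ofNat 0, .ofNat 0, .ofNat 1, .ofNat 0, .ofNat 0, .ofNat 0, .ofNat 0, .ofNat 0, .ofNat 0, .ofNat 0, .ofNat 0, .ofNat 0, .ofNat 0, .ofNat 0, .ofNat 0, .ofNat 0, .ofNat 0, .ofNat 0, .ofNat 0, .ofNat 0, .ofNat 0, .ofNat 0],
  [.ofNat 0, .ofNat 0, .ofNat 0, .ofNat 0, .ofNat 0, .ofNat 0, .ofNat 0, .ofNat 0, .ofNat 378, .ofNat 252, .negSucc 251, .ofNat 0, .ofNat 0, .ofNat 0, .ofNat 0, .ofNat 0, .ofNat 0, .ofNat 0, .ofNat 0, .ofNat 0, .ofNat 0, .ofNat 756, .negSucc 53, .negSucc 755, .ofNat 756],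
  [.ofNat 0, .negSucc 11, .ofNat 0, .ofNat 0, .ofNat 0, .ofNat 0, .ofNat 0, .ofNat 756, .ofNat 0, .ofNat 0, .ofNat 0, .ofNat 0, .ofNat 0, .ofNat 0, .ofNat 0, .ofNat 0, .ofNat 0, .ofNat 0, .ofNat 0, .ofNat 0, .ofNat 0, .ofNat 0, .ofNat 0, .ofNat 0, .ofNat 0],
  [.ofNat 0, .negSucc 11, .ofNat 0, .ofNat 0, .ofNat 0, .ofNat 0, .ofNat 0, .ofNat 0, .ofNat 378, .ofNat 0, .ofNat 0, .ofNat 0, .ofNat 0, .ofNat 0, .ofNat 0, .ofNat 0, .ofNat 0, .ofNat 0, .ofNat 0, .ofNat 0, .ofNat 0, .ofNat 0, .ofNat 0, .ofNat 0, .ofNat 0],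
  [.ofNat 0, .ofNat 12, .ofNat 0, .ofNat 0, .ofNat 0, .ofNat 0, .ofNat 0, .ofNat 0, .ofNat 0, .ofNat 252, .negSucc 251, .ofNat 0, .ofNat 0, .ofNat 0, .ofNat 0, .ofNat 0, .ofNat 0, .ofNat 0, .ofNat 126, .ofNat 0, .negSucc 41, .ofNat 0, .ofNat 0, .negSucc 755, .ofNat 756],
  [.ofNat 0, .ofNat 0, .ofNat 0, .ofNat 0, .ofNat 0, .ofNat 0, .negSucc 8, .ofNat 0, .ofNat 0, .ofNat 0, .ofNat 0, .ofNat 0, .ofNat 0, .ofNat 0, .ofNat 0, .ofNat 0, .ofNat 0, .ofNat 0, .ofNat 0, .ofNat 0, .ofNat 0, .ofNat 0, .ofNat 0, .ofNat 0, .ofNat 0],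
  [.ofNat 0, .ofNat 12, .ofNat 0, .ofNat 0, .ofNat 0, .ofNat 0, .ofNat 0, .ofNat 0, .ofNat 0, .ofNat 252, .negSucc 251, .ofNat 0, .ofNat 0, .ofNat 0, .ofNat 0, .ofNat 0, .ofNat 0, .ofNat 0, .ofNat 0, .ofNat 0, .ofNat 0, .ofNat 0, .ofNat 0, .ofNat 0, .ofNat 0],
  [.ofNat 0, .ofNat 0, .ofNat 0, .ofNat 0, .ofNat 0, .ofNat 0, .ofNat 0, .ofNat 0, .ofNat 0, .ofNat 0, .negSucc 251, .ofNat 0, .ofNat 0, .ofNat 0, .ofNat 0, .ofNat 0, .ofNat 0, .ofNat 0, .ofNat 0, .ofNat 0, .ofNat 0, .ofNat 0, .ofNat 0, .ofNat 0, .ofNat 0]]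

def dS32 : List (List ℤ) :=
  [[.ofNat 0, .ofNat 0, .ofNat 0, .ofNat 0, .ofNat 0, .ofNat 0, .ofNat 0, .ofNat 0, .ofNat 0, .ofNat 0, .ofNat 0, .ofNat 0, .ofNat 0, .ofNat 0, .ofNat 0, .ofNat 0, .ofNat 0, .ofNat 0, .ofNat 0, .ofNat 0, .ofNat 0, .ofNat 0, .ofNat 0, .ofNat 0, .ofNat 0],
  [.ofNat 0, .ofNat 0, .ofNat 0, .ofNat 0, .ofNat 0, .ofNat 0, .ofNat 0, .ofNat 0, .ofNat 0, .ofNat 0, .ofNat 0, .ofNat 0, .ofNat 0, .ofNat 0, .ofNat 0, .ofNat 0, .ofNat 0, .ofNat 0, .ofNat 0, .ofNat 0, .ofNat 0, .ofNat 0, .ofNat 0, .ofNat 0, .ofNat 0],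
  [.ofNat 0, .ofNat 0, .ofNat 0, .ofNat 0, .ofNat 0, .ofNat 0, .ofNat 0, .ofNat 0, .ofNat 0, .ofNat 0, .ofNat 0, .ofNat 0, .ofNat 0, .ofNat 0, .ofNat 0, .ofNat 0, .ofNat 0, .ofNat 0, .ofNat 0, .ofNat 0, .ofNat 0, .ofNat 0, .ofNat 0, .ofNat 0, .ofNat 0],
  [.ofNat 0, .ofNat 0, .ofNat 0, .ofNat 0, .ofNat 0, .ofNat 0, .ofNat 0, .ofNat 0, .ofNat 0, .ofNat 0, .ofNat 0, .ofNat 0, .ofNat 0, .ofNat 0, .ofNat 0, .ofNat 0, .ofNat 0, .ofNat 0, .ofNat 0, .ofNat 0, .ofNat 0, .ofNat 0, .ofNat 0, .ofNat 0, .ofNat 0],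
  [.ofNat 0, .ofNat 0, .ofNat 0, .ofNat 0, .ofNat 0, .ofNat 0, .ofNat 0, .ofNat 0, .ofNat 0, .ofNat 0, .ofNat 0, .ofNat 0, .ofNat 0, .ofNat 0, .ofNat 0, .ofNat 0, .ofNat 0, .ofNat 0, .ofNat 0, .ofNat 0, .ofNat 0, .ofNat 0, .ofNat 0, .ofNat 0, .ofNat 0],
  [.ofNat 0, .ofNat 0, .ofNat 0, .ofNat 0, .ofNat 0, .ofNat 0, .ofNat 0, .ofNat 0, .ofNat 0, .ofNat 0, .ofNat 0, .ofNat 0, .ofNat 0, .ofNat 0, .ofNat 0, .ofNat 0, .ofNat 0, .ofNat 0, .ofNat 0, .ofNat 0, .ofNat 0, .ofNat 0, .ofNat 0, .ofNat 0, .ofNat 0],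
  [.ofNat 0, .ofNat 0, .ofNat 0, .ofNat 0, .ofNat 0, .ofNat 0, .ofNat 0, .ofNat 0, .ofNat 0, .ofNat 0, .ofNat 0, .ofNat 0, .ofNat 0, .ofNat 0, .ofNat 0, .ofNat 0, .ofNat 0, .ofNat 0, .ofNat 0, .ofNat 0, .ofNat 0, .ofNat 0, .ofNat 0, .ofNat 0, .ofNat 0],
  [.ofNat 0, .ofNat 0, .ofNat 0, .ofNat 0, .ofNat 0, .ofNat 0, .ofNat 0, .ofNat 0, .ofNat 0, .ofNat 0, .ofNat 0, .ofNat 0, .ofNat 0, .ofNat 0, .ofNat 0, .ofNat 0, .ofNat 0, .ofNat 0, .ofNat 0, .ofNat 0, .ofNat 0, .ofNat 0, .ofNat 0, .ofNat 0, .ofNat 0],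
  [.ofNat 0, .ofNat 0, .ofNat 0, .ofNat 0, .ofNat 0, .ofNat 0, .ofNat 0, .ofNat 0, .ofNat 0, .ofNat 0, .ofNat 0, .ofNat 0, .ofNat 0, .ofNat 0, .ofNat 0, .ofNat 0, .ofNat 0, .ofNat 0, .ofNat 0, .ofNat 0, .ofNat 0, .ofNat 0, .ofNat 0, .ofNat 0, .ofNat 0],
  [.ofNat 0, .ofNat 0, .ofNat 0, .ofNat 0, .ofNat 0, .ofNat 0, .ofNat 0, .ofNat 0, .ofNat 0, .ofNat 0, .ofNat 0, .ofNat 0, .ofNat 0, .ofNat 0, .ofNat 0, .ofNat 0, .ofNat 0, .ofNat 0, .ofNat 0, .ofNat 0, .ofNat 0, .ofNat 0, .ofNat 0, .ofNat 0, .ofNat 0]]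

def dS42 : List (List ℤ) :=
  [[.ofNat 4, .negSucc 1, .ofNat 0, .ofNat 0, .ofNat 0, .ofNat 0, .ofNat 0, .ofNat 0, .ofNat 0, .ofNat 0, .ofNat 0, .negSucc 1, .ofNat 2, .ofNat 0, .ofNat 28, .negSucc 27, .ofNat 2, .ofNat 2, .ofNat 42, .ofNat 0, .ofNat 0, .ofNat 0, .ofNat 0, .negSucc 251, .ofNat 252],
  [.ofNat 4, .negSucc 1, .ofNat 0, .ofNat 0, .ofNat 0, .ofNat 0, .ofNat 0, .ofNat 0, .ofNat 0, .ofNat 0, .ofNat 0, .ofNat 2, .ofNat 0, .ofNat 0, .ofNat 0, .ofNat 0, .ofNat 0, .ofNat 0, .ofNat 0, .ofNat 0, .ofNat 0, .ofNat 0, .ofNat 0, .ofNat 0, .ofNat 0],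
  [.ofNat 0, .ofNat 0, .ofNat 0, .ofNat 0, .ofNat 0, .ofNat 0, .ofNat 0, .ofNat 0, .ofNat 0, .ofNat 0, .ofNat 0, .ofNat 0, .negSucc 1, .ofNat 0, .ofNat 0, .ofNat 0, .ofNat 0, .ofNat 0, .ofNat 0, .ofNat 0, .ofNat 0, .ofNat 0, .ofNat 0, .ofNat 0, .ofNat 0],
  [.ofNat 0, .negSucc 11, .ofNat 0, .ofNat 0, .ofNat 0, .ofNat 0, .ofNat 0, .ofNat 0, .ofNat 0, .ofNat 0, .ofNat 0, .ofNat 0, .ofNat 6, .ofNat 0, .ofNat 84, .negSucc 83, .ofNat 0, .ofNat 0, .ofNat 126, .ofNat 0, .negSucc 41, .ofNat 0, .ofNat 0, .negSucc 755, .ofNat 756],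
  [.ofNat 0, .negSucc 11, .ofNat 0, .ofNat 0, .ofNat 0, .ofNat 0, .ofNat 0, .ofNat 0, .ofNat 0, .ofNat 0, .ofNat 0, .ofNat 0, .ofNat 6, .negSucc 188, .ofNat 21, .negSucc 20, .ofNat 0, .ofNat 0, .ofNat 126, .negSucc 125, .ofNat 0, .negSucc 566, .ofNat 0, .negSucc 188, .ofNat 189],
  [.ofNat 0, .ofNat 0, .ofNat 0, .ofNat 0, .ofNat 0, .ofNat 0, .ofNat 0, .ofNat 0, .ofNat 0, .ofNat 0, .ofNat 0, .ofNat 0, .ofNat 6, .ofNat 0, .ofNat 0, .ofNat 0, .ofNat 0, .ofNat 0, .ofNat 0, .ofNat 0, .ofNat 0, .ofNat 0, .ofNat 0, .ofNat 0, .ofNat 0],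
  [.ofNat 0, .negSucc 11, .ofNat 0, .ofNat 0, .ofNat 0, .ofNat 0, .ofNat 0, .ofNat 0, .ofNat 0, .ofNat 0, .ofNat 0, .ofNat 0, .ofNat 0, .ofNat 0, .ofNat 84, .negSucc 83, .ofNat 0, .ofNat 0, .ofNat 0, .ofNat 0, .ofNat 0, .ofNat 756, .negSucc 53, .negSucc 755, .ofNat 756],
  [.ofNat 0, .negSucc 11, .ofNat 0, .ofNat 0, .ofNat 0, .ofNat 0, .ofNat 0, .ofNat 0, .ofNat 0, .ofNat 0, .ofNat 0, .ofNat 0, .ofNat 0, .negSucc 251, .ofNat 0, .ofNat 0, .ofNat 0, .ofNat 0, .ofNat 0, .ofNat 0, .ofNat 0, .ofNat 0, .ofNat 0, .ofNat 0, .ofNat 0],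
  [.ofNat 0, .negSucc 11, .ofNat 0, .ofNat 0, .ofNat 0, .ofNat 0, .ofNat 0, .ofNat 0, .ofNat 0, .ofNat 0, .ofNat 0, .ofNat 0, .ofNat 0, .ofNat 0, .ofNat 84, .negSucc 83, .ofNat 0, .ofNat 0, .ofNat 0, .ofNat 0, .ofNat 0, .ofNat 0, .ofNat 0, .ofNat 0, .ofNat 0],
  [.ofNat 0, .negSucc 11, .ofNat 0, .ofNat 0, .ofNat 0, .ofNat 0, .ofNat 0, .ofNat 0, .ofNat 0, .ofNat 0, .ofNat 0, .ofNat 0, .ofNat 0, .ofNat 0, .ofNat 0, .negSucc 83, .ofNat 0, .ofNat 0, .ofNat 0, .ofNat 0, .ofNat 0, .ofNat 0, .ofNat 0, .ofNat 0, .ofNat 0]]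

def dS52 : List (List ℤ) :=
  [[.ofNat 0, .ofNat 0, .ofNat 0, .ofNat 0, .ofNat 0, .ofNat 0, .ofNat 0, .ofNat 0, .ofNat 0, .ofNat 0, .ofNat 0, .ofNat 0, .ofNat 0, .ofNat 0, .ofNat 0, .ofNat 0, .ofNat 0, .ofNat 0, .ofNat 42, .ofNat 0, .ofNat 0, .ofNat 0, .ofNat 0, .ofNat 0, .ofNat 0],
  [.ofNat 4, .ofNat 2, .ofNat 0, .ofNat 0, .ofNat 0, .ofNat 0, .ofNat 0, .ofNat 0, .ofNat 0, .ofNat 0, .ofNat 0, .ofNat 0, .ofNat 0, .ofNat 0, .ofNat 0, .ofNat 0, .ofNat 2, .ofNat 0, .ofNat 0, .ofNat 0, .ofNat 0, .ofNat 0, .ofNat 0, .ofNat 0, .ofNat 0],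
  [.ofNat 4, .ofNat 2, .ofNat 0, .ofNat 0, .ofNat 0, .ofNat 0, .ofNat 0, .ofNat 0, .ofNat 0, .ofNat 0, .ofNat 0, .ofNat 0, .ofNat 0, .ofNat 0, .ofNat 0, .ofNat 0, .ofNat 0, .ofNat 2, .ofNat 0, .ofNat 0, .ofNat 0, .ofNat 0, .ofNat 0, .ofNat 0, .ofNat 0],
  [.ofNat 0, .ofNat 0, .ofNat 0, .ofNat 0, .ofNat 0, .ofNat 0, .ofNat 0, .ofNat 0, .ofNat 0, .ofNat 0, .ofNat 0, .ofNat 0, .ofNat 0, .ofNat 0, .ofNat 0, .ofNat 0, .ofNat 0, .ofNat 0, .ofNat 126, .ofNat 0, .ofNat 0, .ofNat 0, .ofNat 0, .ofNat 0, .ofNat 0],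
  [.ofNat 0, .negSucc 11, .ofNat 0, .ofNat 0, .ofNat 0, .ofNat 0, .ofNat 0, .ofNat 0, .ofNat 0, .ofNat 0, .ofNat 0, .ofNat 0, .ofNat 0, .ofNat 0, .ofNat 0, .ofNat 0, .ofNat 0, .ofNat 0, .ofNat 0, .ofNat 126, .ofNat 0, .ofNat 0, .ofNat 0, .ofNat 0, .ofNat 0],
  [.ofNat 0, .negSucc 11, .ofNat 0, .ofNat 0, .ofNat 0, .ofNat 0, .ofNat 0, .ofNat 0, .ofNat 0, .ofNat 0, .ofNat 0, .ofNat 0, .ofNat 0, .ofNat 0, .ofNat 0, .ofNat 0, .ofNat 0, .ofNat 0, .ofNat 0, .ofNat 0, .ofNat 42, .ofNat 0, .ofNat 0, .ofNat 0, .ofNat 0],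
  [.ofNat 0, .ofNat 12, .ofNat 0, .ofNat 0, .ofNat 0, .ofNat 0, .ofNat 0, .ofNat 0, .ofNat 0, .ofNat 0, .ofNat 0, .ofNat 0, .ofNat 0, .ofNat 0, .ofNat 0, .ofNat 0, .ofNat 0, .ofNat 0, .ofNat 0, .ofNat 0, .ofNat 0, .ofNat 756, .negSucc 53, .ofNat 0, .ofNat 0],
  [.ofNat 0, .ofNat 0, .ofNat 0, .ofNat 0, .ofNat 0, .ofNat 0, .ofNat 0, .ofNat 0, .ofNat 0, .ofNat 0, .ofNat 0, .ofNat 0, .ofNat 0, .ofNat 0, .ofNat 0, .ofNat 0, .ofNat 0, .ofNat 0, .ofNat 0, .ofNat 0, .ofNat 0, .ofNat 0, .negSucc 53, .ofNat 0, .ofNat 0],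
  [.ofNat 0, .ofNat 12, .ofNat 0, .ofNat 0, .ofNat 0, .ofNat 0, .ofNat 0, .ofNat 0, .ofNat 0, .ofNat 0, .ofNat 0, .ofNat 0, .ofNat 0, .ofNat 0, .ofNat 0, .ofNat 0, .ofNat 0, .ofNat 0, .ofNat 0, .ofNat 0, .ofNat 0, .ofNat 0, .ofNat 0, .ofNat 756, .negSucc 755],
  [.ofNat 0, .ofNat 0, .ofNat 0, .ofNat 0, .ofNat 0, .ofNat 0, .ofNat 0, .ofNat 0, .ofNat 0, .ofNat 0, .ofNat 0, .ofNat 0, .ofNat 0, .ofNat 0, .ofNat 0, .ofNat 0, .ofNat 0, .ofNat 0, .ofNat 0, .ofNat 0, .ofNat 0, .ofNat 0, .ofNat 0, .ofNat 0, .negSucc 755]]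

def dA2 : List ℤ :=
  [.ofNat 1048576, .ofNat 0, .ofNat 0, .ofNat 0, .ofNat 0, .ofNat 0, .ofNat 0, .ofNat 0, .ofNat 0, .ofNat 0, .ofNat 0, .ofNat 0, .ofNat 0, .ofNat 0, .ofNat 0, .ofNat 0, .ofNat 262144, .ofNat 262144, .ofNat 1567009, .ofNat 0, .ofNat 1312672, .negSucc 5345720, .ofNat 381837, .negSucc 4056332, .ofNat 4056333, .ofNat 0, .ofNat 0, .ofNat 0, .ofNat 0]

def dB2 : List ℤ :=
  [.ofNat 0, .ofNat 1048576, .negSucc 1771039, .negSucc 1386905, .ofNat 1860425, .negSucc 54859, .negSucc 109714, .negSucc 6532137, .negSucc 6625529, .negSucc 1410185, .ofNat 1568223, .negSucc 132723, .negSucc 111236, .ofNat 2201554, .negSucc 691790, .ofNat 443589, .ofNat 324777, .negSucc 27430, .negSucc 663006, .negSucc 2577868, .negSucc 274479, .negSucc 9854318, .ofNat 517579, .ofNat 10083165, .negSucc 12317236, .ofNat 0, .ofNat 0, .ofNat 0, .ofNat 0]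

def dW2 : List (List ℤ) :=
  [[.ofNat 0, .ofNat 0, .ofNat 5080871973221, .ofNat 3368701270628, .negSucc 4180224202107, .negSucc 285213841448, .negSucc 523903161477, .negSucc 24360977320708, .negSucc 27133610458499, .negSucc 2068397779459, .ofNat 2145408383882, .ofNat 809770773136, .ofNat 146610713819, .negSucc 2408650746562, .ofNat 1272950266904, .negSucc 1171413911986, .ofNat 489864072432, .negSucc 244321770168, .ofNat 13749713669584, .negSucc 16441370682794, .negSucc 2306748241014, .negSucc 76476325122825, .ofNat 882453426061, .negSucc 9488439006989, .ofNat 8480279049605],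
  [.ofNat 0, .ofNat 0, .ofNat 0, .ofNat 2193056986000, .negSucc 1497616402959, .ofNat 125353460099, .ofNat 207966207082, .ofNat 8206521558496, .ofNat 12882570793733, .ofNat 618806206227, .negSucc 698348772734, .negSucc 355398300524, .negSucc 99226691235, .ofNat 1630777484303, .negSucc 557476863761, .ofNat 461716704916, .negSucc 250897111479, .ofNat 101955581381, .negSucc 6083659625350, .ofNat 6083786608887, .ofNat 1175939817814, .ofNat 36329873919376, .negSucc 889495068956, .ofNat 1650940364892, .negSucc 826924379992],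
  [.ofNat 0, .ofNat 0, .ofNat 0, .ofNat 0, .ofNat 2358589203381, .negSucc 149653436664, .negSucc 247799459847, .negSucc 11271347244252, .negSucc 15153508806834, .negSucc 1142340030193, .ofNat 821121739860, .ofNat 439646245110, .ofNat 94667769875, .negSucc 503997002583, .ofNat 654217784047, .negSucc 980114231900, .ofNat 260037822997, .negSucc 142045808425, .ofNat 6964373881519, .negSucc 7692551880729, .negSucc 1495468025877, .negSucc 43685400565763, .ofNat 784639690583, .negSucc 84042450077, .ofNat 3064377919708],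
  [.ofNat 0, .ofNat 0, .ofNat 0, .ofNat 0, .ofNat 0, .ofNat 294019860477, .ofNat 606953019278, .ofNat 31582547123576, .ofNat 22953991093808, .ofNat 1887597593873, .negSucc 1960278006219, .negSucc 783077442684, .negSucc 172778661636, .ofNat 2408023601680, .negSucc 1388382514003, .ofNat 1355141658981, .negSucc 466538099451, .ofNat 201385823573, .negSucc 13270761138161, .ofNat 15732508320745, .ofNat 1974856202099, .ofNat 76816721896747, .negSucc 1011391766711, .ofNat 6706518365032, .negSucc 6614364213451],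
  [.ofNat 0, .ofNat 0, .ofNat 0, .ofNat 0, .ofNat 0, .ofNat 0, .ofNat 78752085804, .ofNat 6814173266615, .negSucc 5282146559389, .negSucc 87682616096, .negSucc 15481362189, .ofNat 99864617284, .ofNat 30166922082, .negSucc 534188062351, .ofNat 204563035125, .negSucc 223448329046, .ofNat 48144870283, .negSucc 98768920433, .ofNat 1634327735331, .negSucc 774395078612, .negSucc 1016842717994, .negSucc 7960926484709, .ofNat 369326991379, .negSucc 1556241644791, .ofNat 1777784180511],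
  [.ofNat 0, .ofNat 0, .ofNat 0, .ofNat 0, .ofNat 0, .ofNat 0, .ofNat 0, .ofNat 3525013209218, .ofNat 622692115721, .ofNat 256839508608, .ofNat 256294909539, .ofNat 6880420554, .negSucc 22932747691, .negSucc 111207125744, .negSucc 47670813288, .ofNat 201830564225, .negSucc 22356846528, .negSucc 9478632851, .negSucc 113499445739, .negSucc 471122818590, .ofNat 2593440455, .ofNat 605023290246, .negSucc 54909094668, .negSucc 385694834474, .negSucc 1075628731939],
  [.ofNat 0, .ofNat 0, .ofNat 0, .ofNat 0, .ofNat 0, .ofNat 0, .ofNat 0, .ofNat 0, .ofNat 3666471804759, .ofNat 896924310126, .negSucc 1374630765989, .negSucc 5676803849, .negSucc 24895399022, .ofNat 730904833621, .negSucc 219949680856, .ofNat 65443421966, .negSucc 10728706251, .ofNat 3804804154, .negSucc 1298829688153, .ofNat 1087809920274, .negSucc 111747850914, .ofNat 6762940379206, .negSucc 128108481324, .negSucc 807424084986, .ofNat 1980645401788],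
  [.ofNat 0, .ofNat 0, .ofNat 0, .ofNat 0, .ofNat 0, .ofNat 0, .ofNat 0, .ofNat 0, .ofNat 0, .ofNat 2085630077404, .negSucc 2042504951864, .ofNat 86004011427, .ofNat 75100499494, .negSucc 900522812805, .ofNat 346068188982, .negSucc 341596676754, .ofNat 185695152802, .negSucc 76586705226, .ofNat 2761720356715, .negSucc 2513998169322, .negSucc 679800893240, .negSucc 7664780027500, .negSucc 247711396934, .negSucc 9440274089829, .ofNat 9235120207590],
  [.ofNat 0, .ofNat 0, .ofNat 0, .ofNat 0, .ofNat 0, .ofNat 0, .ofNat 0, .ofNat 0, .ofNat 0, .ofNat 0, .ofNat 350945454257, .negSucc 35334082453, .negSucc 13294255914, .negSucc 140914029352, .negSucc 179139929286, .ofNat 280305122325, .negSucc 10489222564, .ofNat 34116437315, .negSucc 1289462747429, .ofNat 1824772970952, .ofNat 79118038998, .ofNat 5229155626931, .ofNat 277287324403, .ofNat 1639205927605, .negSucc 2535122469739],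
  [.ofNat 0, .ofNat 0, .ofNat 0, .ofNat 0, .ofNat 0, .ofNat 0, .ofNat 0, .ofNat 0, .ofNat 0, .ofNat 0, .ofNat 0, .ofNat 272047239660, .ofNat 25441813152, .negSucc 430886457865, .ofNat 49505417157, .negSucc 340425777, .negSucc 11891355331, .negSucc 262443752610, .ofNat 1370805606496, .negSucc 1393046207294, .negSucc 2091343424436, .negSucc 10002866138394, .ofNat 392285103869, .negSucc 624698758442, .ofNat 188222993495],
  [.ofNat 0, .ofNat 0, .ofNat 0, .ofNat 0, .ofNat 0, .ofNat 0, .ofNat 0, .ofNat 0, .ofNat 0, .ofNat 0, .ofNat 0, .ofNat 0, .ofNat 82747405875, .negSucc 1061862702835, .ofNat 407536494261, .negSucc 379893702755, .ofNat 25517645270, .negSucc 25047039665, .ofNat 1859291079421, .negSucc 2220345473496, .negSucc 191043329887, .negSucc 6844359285026, .negSucc 154614792366, .negSucc 3770235058279, .ofNat 3564419293683],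
  [.ofNat 0, .ofNat 0, .ofNat 0, .ofNat 0, .ofNat 0, .ofNat 0, .ofNat 0, .ofNat 0, .ofNat 0, .ofNat 0, .ofNat 0, .ofNat 0, .ofNat 0, .ofNat 1150676671311, .negSucc 111402337764, .negSucc 220464643352, .ofNat 3118887372, .ofNat 1547321591, .negSucc 725121986938, .ofNat 1161367861717, .negSucc 107515275200, .ofNat 2533614785058, .ofNat 95736847130, .ofNat 1084142013177, .ofNat 74189339184],
  [.ofNat 0, .ofNat 0, .ofNat 0, .ofNat 0, .ofNat 0, .ofNat 0, .ofNat 0, .ofNat 0, .ofNat 0, .ofNat 0, .ofNat 0, .ofNat 0, .ofNat 0, .ofNat 0, .ofNat 465959419705, .negSucc 491646657245, .negSucc 1992981221, .ofNat 4542176775, .ofNat 1894390282639, .negSucc 2913919209212, .ofNat 197913524749, .negSucc 5417932725264, .negSucc 458126857790, .negSucc 4285940552525, .ofNat 4201270475171],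
  [.ofNat 0, .ofNat 0, .ofNat 0, .ofNat 0, .ofNat 0, .ofNat 0, .ofNat 0, .ofNat 0, .ofNat 0, .ofNat 0, .ofNat 0, .ofNat 0, .ofNat 0, .ofNat 0, .ofNat 0, .ofNat 149731414571, .ofNat 5065115989, .ofNat 5739654116, .negSucc 180624838374, .ofNat 209496492918, .ofNat 29183667256, .ofNat 382249888191, .ofNat 60941492140, .negSucc 26420708803, .negSucc 456152723903],
  [.ofNat 0, .ofNat 0, .ofNat 0, .ofNat 0, .ofNat 0, .ofNat 0, .ofNat 0, .ofNat 0, .ofNat 0, .ofNat 0, .ofNat 0, .ofNat 0, .ofNat 0, .ofNat 0, .ofNat 0, .ofNat 0, .ofNat 61329055262, .negSucc 31905189088, .ofNat 144475103746, .ofNat 489820773923, .negSucc 254428191257, .negSucc 1086487757182, .ofNat 150448894362, .negSucc 3461283743, .ofNat 3624671981],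
  [.ofNat 0, .ofNat 0, .ofNat 0, .ofNat 0, .ofNat 0, .ofNat 0, .ofNat 0, .ofNat 0, .ofNat 0, .ofNat 0, .ofNat 0, .ofNat 0, .ofNat 0, .ofNat 0, .ofNat 0, .ofNat 0, .ofNat 0, .ofNat 28357973977, .negSucc 219112941209, .negSucc 601019185326, .ofNat 219553728489, .negSucc 653244356161, .negSucc 51463812898, .negSucc 15161045133, .ofNat 31385982660],
  [.ofNat 0, .ofNat 0, .ofNat 0, .ofNat 0, .ofNat 0, .ofNat 0, .ofNat 0, .ofNat 0, .ofNat 0, .ofNat 0, .ofNat 0, .ofNat 0, .ofNat 0, .ofNat 0, .ofNat 0, .ofNat 0, .ofNat 0, .ofNat 0, .ofNat 1407037474167, .negSucc 1209037680340, .ofNat 195097323372, .negSucc 2829277184813, .negSucc 235379551208, .negSucc 1121883428024, .ofNat 739589219608],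
  [.ofNat 0, .ofNat 0, .ofNat 0, .ofNat 0, .ofNat 0, .ofNat 0, .ofNat 0, .ofNat 0, .ofNat 0, .ofNat 0, .ofNat 0, .ofNat 0, .ofNat 0, .ofNat 0, .ofNat 0, .ofNat 0, .ofNat 0, .ofNat 0, .ofNat 0, .ofNat 1454636767376, .negSucc 301417391334, .ofNat 2365232511480, .ofNat 214251016163, .negSucc 345360109484, .ofNat 763313028903],
  [.ofNat 0, .ofNat 0, .ofNat 0, .ofNat 0, .ofNat 0, .ofNat 0, .ofNat 0, .ofNat 0, .ofNat 0, .ofNat 0, .ofNat 0, .ofNat 0, .ofNat 0, .ofNat 0, .ofNat 0, .ofNat 0, .ofNat 0, .ofNat 0, .ofNat 0, .ofNat 0, .ofNat 221385755718, .ofNat 141804272130, .negSucc 91515458036, .ofNat 1758384846535, .negSucc 1512026112481],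
  [.ofNat 0, .ofNat 0, .ofNat 0, .ofNat 0, .ofNat 0, .ofNat 0, .ofNat 0, .ofNat 0, .ofNat 0, .ofNat 0, .ofNat 0, .ofNat 0, .ofNat 0, .ofNat 0, .ofNat 0, .ofNat 0, .ofNat 0, .ofNat 0, .ofNat 0, .ofNat 0, .ofNat 0, .ofNat 3039593573021, .negSucc 59400435464, .negSucc 2581186908604, .ofNat 670758154967],
  [.ofNat 0, .ofNat 0, .ofNat 0, .ofNat 0, .ofNat 0, .ofNat 0, .ofNat 0, .ofNat 0, .ofNat 0, .ofNat 0, .ofNat 0, .ofNat 0, .ofNat 0, .ofNat 0, .ofNat 0, .ofNat 0, .ofNat 0, .ofNat 0, .ofNat 0, .ofNat 0, .ofNat 0, .ofNat 0, .ofNat 153200413205, .negSucc 45777957550, .negSucc 1877321503890],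
  [.ofNat 0, .ofNat 0, .ofNat 0, .ofNat 0, .ofNat 0, .ofNat 0, .ofNat 0, .ofNat 0, .ofNat 0, .ofNat 0, .ofNat 0, .ofNat 0, .ofNat 0, .ofNat 0, .ofNat 0, .ofNat 0, .ofNat 0, .ofNat 0, .ofNat 0, .ofNat 0, .ofNat 0, .ofNat 0, .ofNat 0, .ofNat 1918616408498, .negSucc 1334698646554],
  [.ofNat 0, .ofNat 0, .ofNat 0, .ofNat 0, .ofNat 0, .ofNat 0, .ofNat 0, .ofNat 0, .ofNat 0, .ofNat 0, .ofNat 0, .ofNat 0, .ofNat 0, .ofNat 0, .ofNat 0, .ofNat 0, .ofNat 0, .ofNat 0, .ofNat 0, .ofNat 0, .ofNat 0, .ofNat 0, .ofNat 0, .ofNat 0, .ofNat 1074662036110]]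

end Pool.Agent.P749578
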