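import Pool.Agent.P.MP_749578_co.Bound
import Pool.Agent.P.MP_749578_co.Data0
import Pool.Agent.P.MP_749578_co.Data1
import Pool.Agent.P.MP_749578_co.Data2

namespace Pool.Agent.P749578

set_option maxRecDepth 100000

def sel {α : Type} (a b c : α) : Fin 3 → α
  | ⟨0, _⟩ => a
  | ⟨1, _⟩ => b
  | _ => c

def cert : Cert where
  D := 396361728
  F1 := sel dF10 dF11 dF12
  F2 := sel dF20 dF21 dF22
  b1 := sel db10 db11 db12
  b2 := sel db20 db21 db22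
  SX := fun R d => bif d then sel dS10 dS11 dS12 R else sel dS00 dS01 dS02 R
  SXt := fun R d => bif d then sel dS30 dS31 dS32 R else sel dS20 dS21 dS22 R
  SY := sel dS40 dS41 dS42
  SYt := sel dS50 dS51 dS52
  A := sel dA0 dA1 dA2
  B := sel dB0 dB1 dB2
  W := sel dW0 dW1 dW2

def PX (c : Cert) (R : Fin 3) (d : Bool) : Bool :=
  chkBlk (decide (d = d1 R)) (decide (d = d2 R)) c.D (c.F1 R) (c.F2 R) (tr 29 (c.SX R d))
    (c.SY (r1 R)) (c.SY (r2 R)) (tr 10 LYm)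
def PXt (c : Cert) (R : Fin 3) (d : Bool) : Bool :=
  chkBlk (decide (d = dp (d1 R) (r1 R))) (decide (d = dp (d2 R) (r2 R))) c.D (c.F1 R)
    (c.F2 R) (tr 29 (c.SXt R d)) (c.SYt (r1 R)) (c.SYt (r2 R)) (tr 10 LYm)
def PY (c : Cert) (R : Fin 3) (d : Bool) : Bool :=
  chkBlk true true c.D (c.F1 R) (c.F2 R) (tr 29 (c.SY R))
    (c.SX (r1 R) d) (c.SX (r2 R) d) (tr 10 (LXm d))
def PYt (c : Cert) (R : Fin 3) (d : Bool) : Bool :=
  chkBlk true true c.D (c.F1 R) (c.F2 R) (tr 29 (c.SYt R))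
    (c.SXt (r1 R) d) (c.SXt (r2 R) d) (tr 10 (LXm d))

end Pool.Agent.P749578
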