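import Pool.Agent.P.MP_749578_co.Cert

namespace Pool.Agent.P749578

set_option maxRecDepth 100000

theorem chk_PX_1_false : PX cert 1 false = true := by decide +kernel

theorem chk_PX_1_true : PX cert 1 true = true := by decide +kernel

theorem chk_PXt_1_false : PXt cert 1 false = true := by decide +kernel

theorem chk_PXt_1_true : PXt cert 1 true = true := by decide +kernel

theorem chk_PY_1_false : PY cert 1 false = true := by decide +kernel

theorem chk_PY_1_true : PY cert 1 true = true := by decide +kernel

theorem chk_PYt_1_false : PYt cert 1 false = true := by decide +kernel

theorem chk_PYt_1_true : PYt cert 1 true = true := by decide +kernel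


end Pool.Agent.P749578
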