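import Pool.Agent.P.MP_749578_co.Defs

namespace Pool.Agent.P749578

open Finset

/-- Row sum plus column sum minus the entry, as a real number. -/
noncomputable def cross {I : Type} [Fintype I] (f : I × I → ℕ) (a b : I) : ℝ :=
  (∑ y, (f (a, y) : ℝ)) + (∑ x, (f (x, b) : ℝ)) - f (a, b)

end Pool.Agent.P749578
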