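import Mathlib

namespace Pool.Agent.P749578

open Finset

/-- The pairs of marginals that are realised by a balanced signed measure supported on `S`. -/
def ctrlW {N C : Type} [Fintype N] [Fintype C] (S : N → N → C → Prop) :
    Submodule ℚ ((N → ℚ) × (N → ℚ)) where
  carrier := {p | ∃ ν : N → N → C → ℚ, (∀ i j c, ¬ S i j c → ν i j c = 0) ∧
    (∀ c, ∑ i, ∑ j, ν i j c = 0) ∧ (∀ i, ∑ j, ∑ c, ν i j c = p.1 i) ∧
    (∀ j, ∑ i, ∑ c, ν i j c = p.2 j)}
  zero_mem' := ⟨0, by simp⟩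
  add_mem' := by
    rintro p q ⟨ν, h1, h2, h3, h4⟩ ⟨ν', g1, g2, g3, g4⟩
    refine ⟨ν + ν', fun i j c h => ?_, fun c => ?_, fun i => ?_, fun j => ?_⟩
    · simp [h1 i j c h, g1 i j c h]
    · simp [sum_add_distrib, h2, g2]
    · simp [sum_add_distrib, h3, g3]
    · simp [sum_add_distrib, h4, g4]
  smul_mem' := by
    rintro a p ⟨ν, h1, h2, h3, h4⟩
    refine ⟨a • ν, fun i j c h => ?_, fun c => ?_, fun i => ?_, fun j => ?_⟩
    · simp [h1 i j c h]
    · simp [← mul_sum, h2]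
    · simp [← mul_sum, h3]
    · simp [← mul_sum, h4]

theorem ctrl_gen {N C : Type} [Fintype N] [Fintype C] [DecidableEq N] (S : N → N → C → Prop)
    {i j i' j' : N} {c : C} (h : S i j c) (h' : S i' j' c) :
    ((Pi.single i 1 - Pi.single i' 1, Pi.single j 1 - Pi.single j' 1) : (N → ℚ) × (N → ℚ)) ∈
      ctrlW S := by
  classical
  refine ⟨fun x y z => (if x = i then if y = j then if z = c then 1 else 0 else 0 else 0) -
    (if x = i' then if y = j' then if z = c then 1 else 0 else 0 else 0),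
    fun x y z hS => ?_, fun z => ?_, fun x => ?_, fun y => ?_⟩
  · have e1 : (if x = i then if y = j then if z = c then (1 : ℚ) else 0 else 0 else 0) = 0 := by
      split_ifs with a1 a2 a3 <;> first | rfl | exact absurd (a1 ▸ a2 ▸ a3 ▸ h) hS
    have e2 : (if x = i' then if y = j' then if z = c then (1 : ℚ) else 0 else 0 else 0) = 0 := by
      split_ifs with a1 a2 a3 <;> first | rfl | exact absurd (a1 ▸ a2 ▸ a3 ▸ h') hS
    simp only [e1, e2, sub_self]
  · simp [sum_sub_distrib]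
  · simp [sum_sub_distrib, Pi.single_apply]
  · simp [sum_sub_distrib, Pi.single_apply]

theorem ctrl {N C : Type} [Fintype N] [Fintype C] (S : N → N → C → Prop)
    (hconn : ∀ lam kap : N → ℚ,
      (∀ i j i' j' c, S i j c → S i' j' c → lam i + kap j = lam i' + kap j') →
      (∀ i i', lam i = lam i') ∧ (∀ j j', kap j = kap j'))
    (A B : N → ℚ) (hA : ∑ i, A i = 0) (hB : ∑ j, B j = 0) :
    ∃ ν : N → N → C → ℚ, (∀ i j c, ¬ S i j c → ν i j c = 0) ∧ (∀ c, ∑ i, ∑ j, ν i j c = 0) ∧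
      (∀ i, ∑ j, ∑ c, ν i j c = A i) ∧ (∀ j, ∑ i, ∑ c, ν i j c = B j) := by
  classical
  by_contra hn
  have hW : (A, B) ∉ ctrlW S := hn
  obtain ⟨φ, hφ, hm⟩ := Submodule.exists_dual_map_eq_bot_of_notMem hW inferInstance
  have h0 : ∀ p ∈ ctrlW S, φ p = 0 := fun p hp => by
    have := Submodule.mem_map_of_mem (f := φ) hp
    rwa [hm, Submodule.mem_bot] at this
  obtain ⟨hl, hk⟩ := hconn (fun i => φ (Pi.single i 1, 0)) (fun j => φ (0, Pi.single j 1))
    fun i j i' j' c h h' => by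
      have e := h0 _ (ctrl_gen S h h')
      rw [← sub_eq_zero, ← e, ← map_add, ← map_add, ← map_sub]
      simp
  have e : (A, B) = ∑ i, A i • ((Pi.single i 1, 0) : (N → ℚ) × (N → ℚ)) +
      ∑ j, B j • ((0, Pi.single j 1) : (N → ℚ) × (N → ℚ)) := by
    ext x <;> simp [Prod.fst_sum, Prod.snd_sum, Finset.sum_apply, Pi.single_apply]
  apply hφ
  rw [e, map_add, map_sum, map_sum]
  simp only [map_smul, smul_eq_mul]
  rcases isEmpty_or_nonempty N with hN | ⟨⟨i0⟩⟩
  · simp
  · rw [sum_congr rfl fun i _ => congrArg (A i * ·) (hl i i0),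
      sum_congr rfl fun j _ => congrArg (B j * ·) (hk j i0), ← sum_mul, ← sum_mul, hA, hB]
    simp

end Pool.Agent.P749578
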