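import Mathlib

namespace Pool.Agent.P749578

open Finset

/-- The `k × k` rooks graph: distinct cells are adjacent iff they share a row or a column. -/
def rook (k : ℕ) : SimpleGraph (Fin k × Fin k) where
  Adj u v := u ≠ v ∧ (u.1 = v.1 ∨ u.2 = v.2)
  symm := ⟨fun _ _ h => ⟨h.1.symm, h.2.imp Eq.symm Eq.symm⟩⟩
  loopless := ⟨fun _ h => h.1 rfl⟩

variable {V : Type} [Fintype V]

open Classical in
/-- `f(N[v])`, the sum of `f` over the closed neighbourhood of `v`. -/
noncomputable def closedSum (G : SimpleGraph V) (f : V → ℕ) (v : V) : ℕ :=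
  ∑ x ∈ univ.filter (fun x => x = v ∨ G.Adj x v), f x

/-- `f` is a bijection from the vertex set onto `{1, …, n}`, `n` the number of vertices. -/
def IsLabeling (f : V → ℕ) : Prop :=
  Set.BijOn f Set.univ (Set.Icc 1 (Fintype.card V))

/-- `NS(f)`, the largest closed neighbourhood sum. -/
noncomputable def maxSum (G : SimpleGraph V) (f : V → ℕ) : ℕ := sSup (Set.range (closedSum G f))

/-- `NS⁻(f)`, the smallest closed neighbourhood sum. -/
noncomputable def minSum (G : SimpleGraph V) (f : V → ℕ) : ℕ := sInf (Set.range (closedSum G f))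

/-- `NS[G]`, the minimum of `NS(f)` over labelings. -/
noncomputable def NS (G : SimpleGraph V) : ℕ :=
  sInf {s | ∃ f : V → ℕ, IsLabeling f ∧ s = maxSum G f}

/-- `NS⁻[G]`, the maximum of `NS⁻(f)` over labelings. -/
noncomputable def NSminus (G : SimpleGraph V) : ℕ :=
  sSup {s | ∃ f : V → ℕ, IsLabeling f ∧ s = minSum G f}

/-- `NS^sp[G]`, the minimum of `NS(f) - NS⁻(f)` over labelings. -/
noncomputable def NSsp (G : SimpleGraph V) : ℕ :=
  sInf {s | ∃ f : V → ℕ, IsLabeling f ∧ s = maxSum G f - minSum G f}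

end Pool.Agent.P749578
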