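import Pool.Agent.P.MP_749578_co.IC
import Pool.Agent.P.MP_749578_co.Ctrl
import Pool.Agent.P.MP_749578_co.Bridge

namespace Pool.Agent.P749578

open Finset

theorem gct_den {ι : Type} [Fintype ι] (x : ι → ℚ) :
    ∃ (D : ℕ) (z : ι → ℤ), 0 < D ∧ ∀ i, (z i : ℚ) = D * x i := by
  have h : ∀ i, ∃ z : ℤ, (z : ℚ) = (∏ j, (x j).den : ℕ) * x i := fun i => by
    obtain ⟨k, hk⟩ := Finset.dvd_prod_of_mem (fun j => (x j).den) (mem_univ i)
    refine ⟨k * (x i).num, ?_⟩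
    rw [hk]
    push_cast
    rw [← Rat.den_mul_eq_num]
    ring
  choose z hz using h
  exact ⟨_, z, prod_pos fun j _ => (x j).den_pos, hz⟩

/-- The sign pattern on subclasses. -/
def gct_s (u : ℕ) : ℤ := (if u = 1 then 1 else 0) - if u = 0 then 1 else 0

theorem gct_s_abs (u : ℕ) : |gct_s u| ≤ 1 := by
  unfold gct_s
  split_ifs <;> simp

theorem gct_s_sum {q : ℕ} (hq : 2 ≤ q) (g : ℕ → ℚ) :
    ∑ u : Fin q, (gct_s u : ℚ) * g u = g 1 - g 0 := by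
  rw [Fin.sum_univ_eq_sum_range fun u => (gct_s u : ℚ) * g u]
  have h0 : 0 < q := by omega
  have h1 : 1 < q := by omega
  simp [gct_s, sub_mul, sum_sub_distrib, h0, h1]

theorem gct_odd (q : ℕ) : ∑ u : Fin q, (2 * ((u : ℕ) : ℚ) + 1) = (q : ℚ) ^ 2 := by
  rw [Fin.sum_univ_eq_sum_range fun u => 2 * (u : ℚ) + 1]
  induction q with
  | zero => simp
  | succ q ih =>
    rw [sum_range_succ, ih]
    push_cast
    ring

theorem gct_start {L q : ℕ} (N0 b : ℕ) (c : Fin (2 * L)) (u : Fin q) :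
    (start N0 b (L * q) (finProdFinEquiv (c, u)) : ℚ) =
      ((u : ℕ) + q * (c : ℕ)) * N0 + (if L ≤ (c : ℕ) then 1 else 0) * b := by
  have h : L * q ≤ u + q * c ↔ L ≤ (c : ℕ) := by
    have hu := u.2
    constructor
    · intro h
      by_contra h'
      have : q * (c + 1) ≤ q * L := Nat.mul_le_mul_left _ (by omega)
      nlinarith
    · intro h
      have : q * L ≤ q * c := Nat.mul_le_mul_left _ h
      nlinarith
  simp only [start, finProdFinEquiv_apply_val, h]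
  split_ifs <;> simp

theorem gct_sum {L q : ℕ} (hq : 2 ≤ q) (N0 b : ℕ) (x y : Fin (2 * L) → ℚ)
    (cnt : Fin (2 * L * q) → ℕ)
    (h : ∀ c u, (cnt (finProdFinEquiv (c, u)) : ℚ) = x c + y c * gct_s u) :
    ((∑ κ, cnt κ * (2 * start N0 b (L * q) κ + N0) : ℕ) : ℚ) =
      q ^ 2 * N0 * ∑ c, x c * (2 * (c : ℕ) + 1) +
        2 * b * q * ∑ c, x c * (if L ≤ (c : ℕ) then 1 else 0) + 2 * N0 * ∑ c, y c := by
  rw [← finProdFinEquiv.sum_comp, Fintype.sum_prod_type, mul_sum, mul_sum, mul_sum,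
    ← sum_add_distrib, ← sum_add_distrib]
  push_cast
  refine sum_congr rfl fun c _ => ?_
  obtain ⟨e, he⟩ : ∃ e : ℚ, e = if L ≤ (c : ℕ) then 1 else 0 := ⟨_, rfl⟩
  have h1 := gct_s_sum hq fun u => y c * (2 * ((u + q * (c : ℕ)) * N0 + e * b) + N0)
  have h2 : ∀ u : Fin q, (cnt (finProdFinEquiv (c, u)) : ℚ) *
      (2 * (start N0 b (L * q) (finProdFinEquiv (c, u)) : ℚ) + N0) =
      x c * N0 * (2 * ((u : ℕ) : ℚ) + 1) + x c * (2 * (q * (c : ℕ) * N0 + e * b)) +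
        (gct_s u : ℚ) * (y c * (2 * (((u : ℕ) + q * (c : ℕ)) * N0 + e * b) + N0)) := fun u => by
    rw [h, gct_start, ← he]
    ring
  rw [sum_congr rfl fun u _ => h2 u, sum_add_distrib, sum_add_distrib, h1, ← mul_sum, gct_odd,
    sum_const, card_univ, Fintype.card_fin, nsmul_eq_mul, ← he]
  push_cast
  ring

theorem gct_row {k t M R E ρ e m S T : ℚ} (ht : 0 ≤ t) (hM : t ≤ M) (hm : 0 ≤ m) (hk : m ≤ k)
    (hρ : |ρ| ≤ R) (he : |e| ≤ E)
    (h1 : k ^ 3 / 2 + ρ * k ^ 2 + (2 * t * k + t ^ 2) * (k / 2) + 2 * m * t ^ 2 * e - k ≤ S)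
    (h2 : S ≤ k ^ 3 / 2 + ρ * k ^ 2 + (2 * t * k + t ^ 2) * (k / 2) + 2 * m * t ^ 2 * e)
    (h3 : t * (k ^ 2 / 2) ≤ T) (h4 : T ≤ t * (k ^ 2 / 2 + (2 * t * k + t ^ 2))) :
    |S + T - ((k + t) ^ 3 / 2 + ρ * (k + t) ^ 2)| ≤
      (5 * M ^ 2 + 2 * M ^ 2 * E + 3 * R * M + 1) * (k + t) := by
  have hk0 : 0 ≤ k := hm.trans hk
  have hM0 : 0 ≤ M := ht.trans hM
  have hR : 0 ≤ R := (abs_nonneg _).trans hρ
  have hE : 0 ≤ E := (abs_nonneg _).trans he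
  have a0 : t ^ 2 ≤ M ^ 2 := by gcongr
  have a1 : t ^ 2 * k ≤ M ^ 2 * (k + t) := by gcongr; linarith
  have a2 : t ^ 2 * t ≤ M ^ 2 * (k + t) := by gcongr; linarith
  have a3 : |m * t ^ 2 * e| ≤ (k + t) * M ^ 2 * E := by
    rw [abs_mul, abs_of_nonneg (by positivity : 0 ≤ m * t ^ 2)]
    gcongr
    linarith
  have a4 : |ρ * (t * k)| ≤ R * (M * (k + t)) := by
    rw [abs_mul, abs_of_nonneg (by positivity : 0 ≤ t * k)]
    gcongr
    linarith
  have a5 : |ρ * (t * t)| ≤ R * (M * (k + t)) := by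
    rw [abs_mul, abs_of_nonneg (by positivity : 0 ≤ t * t)]
    gcongr
    linarith
  have a6 : 0 ≤ t ^ 2 * k := by positivity
  have a7 : 0 ≤ t ^ 2 * t := by positivity
  rw [abs_le] at a3 a4 a5 ⊢
  constructor <;> linarith [a3.1, a3.2, a4.1, a4.2, a5.1, a5.2]

theorem gct_avg {N : Type} [Fintype N] [Nonempty N] {γ : N → ℚ} (hγ : ∑ j, γ j = 0) {x lo hi : ℚ}
    (h : ∀ j, lo ≤ x + γ j ∧ x + γ j ≤ hi) : lo ≤ x ∧ x ≤ hi := by
  constructor
  · by_contra h'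
    exact (sum_pos (fun j _ => by linarith [(h j).1, not_le.1 h']) univ_nonempty).ne' hγ
  · by_contra h'
    exact (sum_neg (fun j _ => by linarith [(h j).2, not_le.1 h']) univ_nonempty).ne hγ

/-- The bookkeeping for one value of the parameters. -/
theorem gct_core {N : Type} [Fintype N] [Nonempty N] {m Λ C t h : ℕ} {cnt : N → N → Fin Λ → ℕ}
    {f : Idx N m t × Idx N m t → ℕ} (hf : ICspec m Λ C t h cnt f) {k M R E lo hi : ℚ}
    (hk : k = 2 * (Fintype.card N : ℚ) * m) (hM : (t : ℚ) ≤ M) {ρ γ e e' : N → ℚ}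
    (hρ : ∑ i, ρ i = 0) (hγ : ∑ j, γ j = 0) (hR : ∀ i, |ρ i| ≤ R ∧ |γ i| ≤ R)
    (hE : ∀ i, |e i| ≤ E ∧ |e' i| ≤ E) (hh : 2 * (h : ℚ) * (4 * m * C) = k ^ 2)
    (hb : ∀ i j, lo ≤ ρ i + γ j - 1 / 2 ∧ ρ i + γ j - 1 / 2 ≤ hi)
    (hr : ∀ i, ((∑ j, ∑ κ, cnt i j κ * (2 * start (4 * m * C)
      (2 * t * (2 * Fintype.card N * m) + t ^ 2) h κ + 4 * m * C) : ℕ) : ℚ) =
      k ^ 3 / 2 + ρ i * k ^ 2 + (2 * t * k + t ^ 2) * (k / 2) + 2 * m * t ^ 2 * e i)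
    (hs : ∀ j, ((∑ i, ∑ κ, cnt i j κ * (2 * start (4 * m * C)
      (2 * t * (2 * Fintype.card N * m) + t ^ 2) h κ + 4 * m * C) : ℕ) : ℚ) =
      k ^ 3 / 2 + γ j * k ^ 2 + (2 * t * k + t ^ 2) * (k / 2) + 2 * m * t ^ 2 * e' j)
    (hw : ∀ i j κ, 0 < cnt i j κ → ∃ α α' : ℚ, 0 ≤ α' ∧ α ≤ 1 ∧ lo ≤ ρ i + γ j - α' ∧
      ρ i + γ j - α ≤ hi ∧ α * k ^ 2 ≤ (κ : ℕ) * (4 * m * C) ∧
      ((κ : ℕ) + 1) * (4 * m * C) ≤ α' * k ^ 2) (u v : Idx N m t) :
    (k + t) ^ 3 + lo * (k + t) ^ 2 -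
        (2 * (5 * M ^ 2 + 2 * M ^ 2 * E + 3 * R * M + 1) + 2 * M) * (k + t) ≤
      (∑ y, (f (u, y) : ℚ)) + (∑ x, (f (x, v) : ℚ)) - f (u, v) ∧
    (∑ y, (f (u, y) : ℚ)) + (∑ x, (f (x, v) : ℚ)) - f (u, v) ≤ (k + t) ^ 3 + hi * (k + t) ^ 2 +
      (2 * (5 * M ^ 2 + 2 * M ^ 2 * E + 3 * R * M + 1) + 2 * M) * (k + t) := by
  obtain ⟨-, -, s1, s2, s3, s4, s5, s6⟩ := hf
  have hn : (1 : ℚ) ≤ Fintype.card N := by exact_mod_cast Fintype.card_pos
  have ht : (0 : ℚ) ≤ t := t.cast_nonneg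
  have hm : (0 : ℚ) ≤ m := m.cast_nonneg
  have hmk : (m : ℚ) ≤ k := by rw [hk]; nlinarith
  have hk0 : 0 ≤ k := hm.trans hmk
  obtain ⟨i₀⟩ := ‹Nonempty N›
  have hR0 : |(0 : ℚ)| ≤ R := by simpa using (abs_nonneg _).trans (hR i₀).1
  have hE0 : |(0 : ℚ)| ≤ E := by simpa using (abs_nonneg _).trans (hE i₀).1
  have b1 : ∀ (a : Fin t) (v : Idx N m t), (k ^ 2 / 2 ≤ f (Sum.inr a, v) ∧
      (f (Sum.inr a, v) : ℚ) ≤ k ^ 2 / 2 + (2 * t * k + t ^ 2)) ∧ k ^ 2 / 2 ≤ f (v, Sum.inr a) ∧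
      (f (v, Sum.inr a) : ℚ) ≤ k ^ 2 / 2 + (2 * t * k + t ^ 2) := fun a v => by
    obtain ⟨c1, c2, c3, c4⟩ := s2 a v
    have d1 := (Nat.cast_le (α := ℚ)).2 c1
    have d2 := (Nat.cast_le (α := ℚ)).2 c2.le
    have d3 := (Nat.cast_le (α := ℚ)).2 c3
    have d4 := (Nat.cast_le (α := ℚ)).2 c4.le
    push_cast at d1 d2 d3 d4
    rw [← hk] at d2 d4
    exact ⟨⟨by linarith, by linarith⟩, by linarith, by linarith⟩
  have b2 : ∀ g : Fin t → ℚ, (∀ a, k ^ 2 / 2 ≤ g a ∧ g a ≤ k ^ 2 / 2 + (2 * t * k + t ^ 2)) →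
      t * (k ^ 2 / 2) ≤ ∑ a, g a ∧ ∑ a, g a ≤ t * (k ^ 2 / 2 + (2 * t * k + t ^ 2)) := fun g hg => by
    have d1 := card_nsmul_le_sum univ g _ fun a _ => (hg a).1
    have d2 := sum_le_card_nsmul univ g _ fun a _ => (hg a).2
    rw [card_univ, Fintype.card_fin, nsmul_eq_mul] at d1 d2
    exact ⟨d1, d2⟩
  have r1 : ∀ u : Idx N m t, |∑ y, (f (u, y) : ℚ) - ((k + t) ^ 3 / 2 +
      Sum.elim (fun u => ρ u.1) 0 u * (k + t) ^ 2)| ≤
      (5 * M ^ 2 + 2 * M ^ 2 * E + 3 * R * M + 1) * (k + t) := fun u => by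
    have d := b2 _ fun a => (b1 a u).2
    rw [Fintype.sum_sum_type]
    rcases u with u | a <;> simp only [Sum.elim_inl, Sum.elim_inr, Pi.zero_apply]
    · have c := congrArg (Nat.cast : ℕ → ℚ) (s3 u)
      rw [hr] at c
      push_cast at c
      exact gct_row ht hM hm hmk (hR u.1).1 (hE u.1).1 (by linarith) (by linarith) d.1 d.2
    · have c := congrArg (Nat.cast : ℕ → ℚ) (s5 a)
      push_cast at c
      rw [← hk, hh, show (Fintype.card N : ℚ) * m = k / 2 by linarith] at c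
      exact gct_row ht hM hm hmk hR0 hE0 (by linarith) (by linarith) d.1 d.2
  have r2 : ∀ v : Idx N m t, |∑ x, (f (x, v) : ℚ) - ((k + t) ^ 3 / 2 +
      Sum.elim (fun v => γ v.1) 0 v * (k + t) ^ 2)| ≤
      (5 * M ^ 2 + 2 * M ^ 2 * E + 3 * R * M + 1) * (k + t) := fun v => by
    have d := b2 _ fun a => (b1 a v).1
    rw [Fintype.sum_sum_type]
    rcases v with v | a <;> simp only [Sum.elim_inl, Sum.elim_inr, Pi.zero_apply]
    · have c1 := (Nat.cast_le (α := ℚ)).2 (s4 v).1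
      have c2 := (Nat.cast_le (α := ℚ)).2 (s4 v).2
      rw [hs] at c1 c2
      push_cast at c1 c2
      exact gct_row ht hM hm hmk (hR v.1).2 (hE v.1).2 (by linarith) c1 d.1 d.2
    · have c := congrArg (Nat.cast : ℕ → ℚ) (s6 a)
      push_cast at c
      rw [← hk, hh, show (Fintype.card N : ℚ) * m = k / 2 by linarith] at c
      exact gct_row ht hM hm hmk hR0 hE0 (by linarith) (by linarith) d.1 d.2
  have r3 : ∃ α α' : ℚ, 0 ≤ α' ∧ α ≤ 1 ∧
      lo ≤ Sum.elim (fun u => ρ u.1) 0 u + Sum.elim (fun v => γ v.1) 0 v - α' ∧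
      Sum.elim (fun u => ρ u.1) 0 u + Sum.elim (fun v => γ v.1) 0 v - α ≤ hi ∧
      α * k ^ 2 ≤ f (u, v) ∧ (f (u, v) : ℚ) ≤ α' * k ^ 2 + (2 * t * k + t ^ 2) := by
    have a1 : ∀ i, lo ≤ ρ i - 1 / 2 ∧ ρ i - 1 / 2 ≤ hi := fun i =>
      gct_avg hγ fun j => ⟨by linarith [(hb i j).1], by linarith [(hb i j).2]⟩
    have a2 : ∀ j, lo ≤ γ j - 1 / 2 ∧ γ j - 1 / 2 ≤ hi := fun j =>
      gct_avg hρ fun i => ⟨by linarith [(hb i j).1], by linarith [(hb i j).2]⟩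
    have a3 : lo ≤ -1 / 2 ∧ -1 / 2 ≤ hi :=
      gct_avg hρ fun i => ⟨by linarith [(a1 i).1], by linarith [(a1 i).2]⟩
    rcases u with u | a <;> rcases v with v | a'
    · obtain ⟨κ, c1, c2, c3⟩ := s1 u v
      obtain ⟨α, α', d1, d2, d3, d4, d5, d6⟩ := hw _ _ κ c1
      have c4 := (Nat.cast_le (α := ℚ)).2 (le_trans (Nat.le_add_right _ _) c2)
      have c5 := (Nat.cast_le (α := ℚ)).2 (le_trans c3.le (Nat.add_le_add_right
        (Nat.add_le_add_left (ite_le_sup _ _ _) _) _))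
      simp only [Nat.zero_le, sup_of_le_left] at c5
      push_cast at c4 c5
      rw [← hk] at c5
      exact ⟨α, α', d1, d2, d3, d4, by linarith, by linarith⟩
    · exact ⟨1 / 2, 1 / 2, by norm_num, by norm_num, by simpa using (a1 u.1).1,
        by simpa using (a1 u.1).2, by linarith [(b1 a' (.inl u)).2.1],
        by linarith [(b1 a' (.inl u)).2.2]⟩
    · exact ⟨1 / 2, 1 / 2, by norm_num, by norm_num, by simpa using (a2 v.1).1,
        by simpa using (a2 v.1).2, by linarith [(b1 a (.inl v)).1.1],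
        by linarith [(b1 a (.inl v)).1.2]⟩
    · exact ⟨1 / 2, 1 / 2, by norm_num, by norm_num, by simp; linarith [a3.1],
        by simp; linarith [a3.2], by linarith [(b1 a (.inr a')).1.1],
        by linarith [(b1 a (.inr a')).1.2]⟩
  obtain ⟨α, α', d1, d2, d3, d4, d5, d6⟩ := r3
  have e1 := abs_le.1 (r1 u)
  have e2 := abs_le.1 (r2 v)
  have e3 := mul_le_mul_of_nonneg_right d3 (sq_nonneg (k + t))
  have e4 := mul_le_mul_of_nonneg_right d4 (sq_nonneg (k + t))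
  have e5 : 0 ≤ 2 * t * k + t ^ 2 := by positivity
  have e6 : 2 * t * k + t ^ 2 ≤ 2 * M * (k + t) := by nlinarith
  have e7 := mul_nonneg d1 e5
  have e8 := mul_le_mul_of_nonneg_right d2 e5
  constructor <;> linarith [e1.1, e1.2, e2.1, e2.2]

theorem GCT {N : Type} [Fintype N] [Nonempty N] (L : ℕ) (hL : 0 < L)
    (μ : N → N → Fin (2 * L) → ℚ) (h0 : ∀ i j c, 0 ≤ μ i j c) (h1 : ∀ i j, ∑ c, μ i j c = 1)
    (hc : ∀ c, ∑ i, ∑ j, μ i j c = (Fintype.card N : ℚ) ^ 2 / (2 * L))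
    (hr : ∀ i, ∑ j, ∑ c, μ i j c * (2 * (c : ℕ) + 1) = (Fintype.card N : ℚ) * (2 * L))
    (hs : ∀ j, ∑ i, ∑ c, μ i j c * (2 * (c : ℕ) + 1) = (Fintype.card N : ℚ) * (2 * L))
    (hconn : ∀ lam kap : N → ℚ,
      (∀ i j i' j' c, 0 < μ i j c → 0 < μ i' j' c → lam i + kap j = lam i' + kap j') →
      (∀ i i', lam i = lam i') ∧ (∀ j j', kap j = kap j'))
    (ρ γ : N → ℚ) (hρ : ∑ i, ρ i = 0) (hγ : ∑ j, γ j = 0) (lo hi : ℚ)
    (hw : ∀ i j c, 0 < μ i j c →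
      lo ≤ ρ i + γ j - ((c : ℕ) + 1) / (2 * L) ∧ ρ i + γ j - (c : ℕ) / (2 * L) ≤ hi)
    (hb : ∀ i j, lo ≤ ρ i + γ j - 1 / 2 ∧ ρ i + γ j - 1 / 2 ≤ hi) :
    ∃ (Cst : ℝ) (K1 : ℕ), ∀ K : ℕ, K1 ≤ K → ∃ f : Fin K × Fin K → ℕ, IsLabeling f ∧ ∀ a b,
      (K : ℝ) ^ 3 + lo * (K : ℝ) ^ 2 - Cst * K ≤ cross f a b ∧
      cross f a b ≤ (K : ℝ) ^ 3 + hi * (K : ℝ) ^ 2 + Cst * K := by
  have hL' : (0 : ℚ) < L := by exact_mod_cast hL
  have hn0 : 0 < Fintype.card N := Fintype.card_pos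
  have hχ : ∑ c : Fin (2 * L), (if L ≤ (c : ℕ) then 1 else 0 : ℚ) = L := by
    rw [Fin.sum_univ_eq_sum_range fun c => (if L ≤ c then 1 else 0 : ℚ), two_mul, sum_range_add,
      sum_eq_zero fun c hc => if_neg (not_le.2 (mem_range.1 hc))]
    simp
  have hP : ∑ i, ∑ j, ∑ c, μ i j c * (if L ≤ (c : ℕ) then 1 else 0) =
      (Fintype.card N : ℚ) ^ 2 / 2 := by
    rw [sum_congr rfl fun i _ => sum_comm, sum_comm]
    simp only [← sum_mul, hc]
    rw [← mul_sum, hχ]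
    field_simp
  obtain ⟨e, he⟩ : ∃ e : N → ℚ, ∀ i, ∑ j, ∑ c, μ i j c * (if L ≤ (c : ℕ) then 1 else 0) =
      e i + Fintype.card N / 2 := ⟨_, fun i => (sub_add_cancel _ _).symm⟩
  obtain ⟨e', he'⟩ : ∃ e : N → ℚ, ∀ j, ∑ i, ∑ c, μ i j c * (if L ≤ (c : ℕ) then 1 else 0) =
      e j + Fintype.card N / 2 := ⟨_, fun i => (sub_add_cancel _ _).symm⟩
  have hP' := hP
  rw [sum_comm] at hP'
  simp only [he, he', sum_add_distrib, sum_const, card_univ, nsmul_eq_mul] at hP hP'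
  obtain ⟨ν, a1, a2, a3, a4⟩ := ctrl (fun i j c => 0 < μ i j c) hconn ρ γ hρ hγ
  obtain ⟨ν', b1, b2, b3, b4⟩ := ctrl (fun i j c => 0 < μ i j c) hconn e e' (by linarith)
    (by linarith)
  obtain ⟨D, z, hD, hz⟩ := gct_den fun p : Fin 3 × N × N × Fin (2 * L) =>
    ![μ p.2.1 p.2.2.1 p.2.2.2, ν p.2.1 p.2.2.1 p.2.2.2, ν' p.2.1 p.2.2.1 p.2.2.2] p.1
  have z0 : ∀ i j c, (z (0, i, j, c) : ℚ) = D * μ i j c := fun i j c => hz _
  have z1 : ∀ i j c, (z (1, i, j, c) : ℚ) = D * ν i j c := fun i j c => hz _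
  have z2 : ∀ i j c, (z (2, i, j, c) : ℚ) = D * ν' i j c := fun i j c => hz _
  obtain ⟨A, hA⟩ := Finite.exists_le fun p => (z p).natAbs
  obtain ⟨R, hR⟩ := Finite.exists_le fun i => max |ρ i| |γ i|
  obtain ⟨E, hE⟩ := Finite.exists_le fun i => max |e i| |e' i|
  obtain ⟨n, hn⟩ : ∃ n, n = Fintype.card N := ⟨_, rfl⟩
  obtain ⟨q, hq⟩ : ∃ q, q = 2 * n * D := ⟨_, rfl⟩
  obtain ⟨M, hM⟩ : ∃ M, M = 2 * n * (q * D) := ⟨_, rfl⟩
  rw [← hn] at hn0 hc hr hs he he'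
  have hq2 : 2 ≤ q := by
    have := Nat.mul_pos hn0 hD
    rw [hq, mul_assoc]
    omega
  have hM0 : 0 < M := by
    rw [hM]
    positivity
  refine ⟨((2 * (5 * M ^ 2 + 2 * M ^ 2 * E + 3 * R * M + 1) + 2 * M + 2 : ℚ) : ℝ),
    M * (2 * L * n * A + 4 * M * L * A + 1), fun K hK => ?_⟩
  obtain ⟨w, hw'⟩ : ∃ w, w = K / M := ⟨_, rfl⟩
  obtain ⟨t, ht⟩ : ∃ t, t = K % M := ⟨_, rfl⟩
  have hKw : M * w + t = K := by rw [hw', ht, Nat.div_add_mod]
  have htM : t < M := ht ▸ Nat.mod_lt _ hM0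
  have hw1 : 2 * L * n * A + 4 * M * L * A + 1 ≤ w :=
    hw' ▸ (Nat.le_div_iff_mul_le hM0).2 (by rwa [mul_comm])
  obtain ⟨a, ha⟩ : ∃ a : N → N → Fin (2 * L) → ℤ, ∀ i j c,
      a i j c = 2 * L * n * z (1, i, j, c) - 4 * t * L * z (2, i, j, c) := ⟨_, fun _ _ _ => rfl⟩
  have ha' : ∀ i j c, (a i j c : ℚ) = 2 * L * n * D * ν i j c - 4 * t * L * D * ν' i j c :=
    fun i j c => by
    rw [ha]
    push_cast
    rw [z1, z2]
    ring
  have ha0 : ∀ i j c, ¬ 0 < μ i j c → (a i j c : ℚ) = 0 := fun i j c h => by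
    rw [ha', a1 i j c h, b1 i j c h]
    ring
  have hpos : ∀ i j c u, 0 ≤ z (0, i, j, c) * w + a i j c * gct_s u := fun i j c u => by
    by_cases h : 0 < μ i j c
    · have c1 : 0 < z (0, i, j, c) := by
        have : (0 : ℚ) < z (0, i, j, c) := by rw [z0]; positivity
        exact_mod_cast this
      have c2 : ∀ p, |z p| ≤ A := fun p => by
        rw [Int.abs_eq_natAbs]
        exact_mod_cast hA p
      have c3 : |a i j c| ≤ 2 * L * n * A + 4 * M * L * A := by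
        rw [ha]
        refine (abs_sub _ _).trans (add_le_add ?_ ?_) <;>
          rw [abs_mul, abs_of_nonneg (by positivity)] <;> gcongr <;> exact c2 _
      have c4 : |a i j c * gct_s u| ≤ |a i j c| := by
        rw [abs_mul]
        exact mul_le_of_le_one_right (abs_nonneg _) (gct_s_abs u)
      have c5 : (2 * L * n * A + 4 * M * L * A + 1 : ℤ) ≤ w := by exact_mod_cast hw1
      have c6 : (w : ℤ) ≤ z (0, i, j, c) * w := le_mul_of_one_le_left (by positivity) c1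
      linarith [(abs_le.1 c4).1]
    · have c1 : a i j c = 0 := by exact_mod_cast ha0 i j c h
      have c2 : (0 : ℚ) ≤ z (0, i, j, c) := z0 i j c ▸ mul_nonneg D.cast_nonneg (h0 i j c)
      have c3 : 0 ≤ z (0, i, j, c) := by exact_mod_cast c2
      rw [c1, zero_mul, add_zero]
      positivity
  obtain ⟨cnt, hcnt⟩ : ∃ cnt : N → N → Fin (2 * L * q) → ℕ, ∀ i j c u,
      (cnt i j (finProdFinEquiv (c, u)) : ℚ) = D * w * μ i j c + a i j c * gct_s u := by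
    refine ⟨fun i j κ => (z (0, i, j, (finProdFinEquiv.symm κ).1) * w +
      a i j (finProdFinEquiv.symm κ).1 * gct_s (finProdFinEquiv.symm κ).2).toNat,
      fun i j c u => ?_⟩
    simp only [Equiv.symm_apply_apply]
    rw [← Int.cast_natCast, Int.toNat_of_nonneg (hpos i j c u)]
    push_cast
    rw [z0]
    ring
  have hcls : ∀ κ, ((∑ i, ∑ j, cnt i j κ : ℕ) : ℚ) = D * w * (n ^ 2 / (2 * L)) := fun κ => by
    obtain ⟨⟨c, u⟩, rfl⟩ := finProdFinEquiv.surjective κ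
    push_cast
    simp only [hcnt, ha', sum_add_distrib, sum_sub_distrib, ← mul_sum, ← sum_mul, hc, a2, b2]
    ring
  obtain ⟨C, hC⟩ : ∃ C : ℕ, (C : ℚ) = D * w * (n ^ 2 / (2 * L)) :=
    ⟨_, hcls ⟨0, by positivity⟩⟩
  have hrow : ∀ i j, ∑ κ, cnt i j κ = q * D * w := fun i j => by
    refine Nat.cast_injective (R := ℚ) ?_
    have c : ∑ u : Fin q, (gct_s u : ℚ) = 0 := by simpa using gct_s_sum hq2 fun _ => 1
    rw [← finProdFinEquiv.sum_comp, Fintype.sum_prod_type]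
    push_cast
    simp only [hcnt, sum_add_distrib, ← mul_sum, c, mul_zero, sum_const, card_univ,
      Fintype.card_fin, nsmul_eq_mul, h1]
    ring
  obtain ⟨m, hm⟩ : ∃ m, m = q * D * w := ⟨_, rfl⟩
  have hm0 : 0 < m := by
    have : 0 < w := by omega
    rw [hm]
    positivity
  obtain ⟨f, hf⟩ := IC m (2 * L * q) C t (L * q) hm0 (Nat.mul_le_mul_right _ (by omega)) cnt
    (hm ▸ hrow) fun κ => Nat.cast_injective (R := ℚ) ((hcls κ).trans hC.symm)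
  have hK2 : 2 * n * m + t = K := by
    rw [← hKw, hM, hm]
    ring
  have hq' : (q : ℚ) = 2 * n * D := by exact_mod_cast hq
  have hm' : (m : ℚ) = q * D * w := by exact_mod_cast hm
  have hN0 : (q : ℚ) * (4 * m * C) = (2 * n * m) ^ 2 / (2 * L) := by
    rw [hC, hm']
    field_simp
    ring
  have key := gct_core hf (k := 2 * n * m) (M := M) (R := R) (E := E) (lo := lo) (hi := hi)
    (by rw [hn]) (by exact_mod_cast htM.le) (e := e) (e' := e') hρ hγ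
    (fun i => max_le_iff.1 (hR i)) (fun i => max_le_iff.1 (hE i))
    (by
      push_cast
      rw [mul_assoc, mul_assoc, hN0]
      field_simp) hb
    (fun i => by
      rw [Nat.cast_sum, sum_congr rfl fun j _ => gct_sum hq2 _ _ _ _ _ (hcnt i j), ← hn]
      simp only [ha', sum_add_distrib, sum_sub_distrib, ← mul_sum, mul_assoc, hr, he, a3, b3]
      push_cast
      rw [hC, hm', hq']
      field_simp
      ring)
    (fun j => by
      rw [Nat.cast_sum, sum_congr rfl fun i _ => gct_sum hq2 _ _ _ _ _ (hcnt i j), ← hn]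
      simp only [ha', sum_add_distrib, sum_sub_distrib, ← mul_sum, mul_assoc, hs, he', a4, b4]
      push_cast
      rw [hC, hm', hq']
      field_simp
      ring)
    (fun i j κ hκ => by
      obtain ⟨⟨c, u⟩, rfl⟩ := finProdFinEquiv.surjective κ
      have c1 : 0 < μ i j c := by
        by_contra h
        have c2 := (Nat.cast_pos (α := ℚ)).2 hκ
        rw [hcnt, ha0 i j c h, le_antisymm (not_lt.1 h) (h0 i j c)] at c2
        simp at c2
      have c2 : ((c : ℕ) : ℚ) ≤ 2 * L := by exact_mod_cast c.2.le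
      have c3 : ((u : ℕ) : ℚ) + 1 ≤ q := by exact_mod_cast u.2
      have c4 : (0 : ℚ) ≤ 4 * m * C := by positivity
      have c5 : (0 : ℚ) ≤ (u : ℕ) * (4 * m * C) := by positivity
      have c6 := mul_le_mul_of_nonneg_right c3 c4
      refine ⟨_, _, by positivity, (div_le_one (by positivity)).2 c2, (hw i j c c1).1,
        (hw i j c c1).2, ?_, ?_⟩ <;> rw [div_mul_eq_mul_div, mul_div_assoc, ← hN0,
          finProdFinEquiv_apply_val] <;> push_cast <;> linarith)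
  have hK3 : (2 * n * m + t : ℚ) = K := by exact_mod_cast hK2
  have hK4 : (1 : ℝ) ≤ K := by
    have := Nat.mul_pos hn0 hm0
    exact_mod_cast (by rw [← hK2, mul_assoc]; omega : 1 ≤ K)
  obtain ⟨g, hg, hg'⟩ := labeling_transfer (I := Idx N m t) K
    (by simp [← hK2, ← hn]; ring) f hf.1 (by simpa [← hK2, hn] using hf.2.1)
  refine ⟨g, hg, fun a b => ?_⟩
  obtain ⟨u, v, huv⟩ := hg' a b
  obtain ⟨k1, k2⟩ := key u v
  rw [hK3] at k1 k2
  have k3 := (Rat.cast_le (K := ℝ)).2 k1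
  have k4 := (Rat.cast_le (K := ℝ)).2 k2
  rw [huv, cross]
  push_cast at k3 k4 ⊢
  constructor <;> linarith

end Pool.Agent.P749578
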