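import Pool.Agent.P.MP_749578_co.ICDefs

namespace Pool.Agent.P749578

open Finset

/-- Offsets inside a class. -/
def icOff (M p : ℕ) : Bool → Bool → ℕ
  | false, false => 2 * p
  | false, true => 4 * M - 1 - 2 * p
  | true, false => 4 * M - 2 - 2 * p
  | true, true => 2 * p + 1

/-- Offsets inside the border block. -/
def icBd (b q : ℕ) : Bool → ℕ
  | false => q
  | true => b - 1 - q

theorem ic_off_lt {M p : ℕ} (hp : p < M) (β γ : Bool) : icOff M p β γ < 4 * M := by
  cases β <;> cases γ <;> simp only [icOff] <;> omega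

theorem ic_off_inj {M p p' : ℕ} (hp : p < M) (hp' : p' < M) {β γ β' γ' : Bool}
    (h : icOff M p β γ = icOff M p' β' γ') : p = p' ∧ β = β' ∧ γ = γ' := by
  cases β <;> cases γ <;> cases β' <;> cases γ' <;> simp only [icOff] at h <;>
    first | exact ⟨by omega, rfl, rfl⟩ | omega

theorem ic_off_row {M p : ℕ} (hp : p < M) (β : Bool) :
    icOff M p β true + icOff M p β false + 1 = 4 * M := by
  cases β <;> simp only [icOff] <;> omega

theorem ic_off_col {M p : ℕ} (hp : p < M) (γ : Bool) :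
    icOff M p true γ + icOff M p false γ ≤ 4 * M ∧
      4 * M ≤ icOff M p true γ + icOff M p false γ + 2 := by
  cases γ <;> simp only [icOff] <;> omega

theorem ic_bd_lt {T R b q : ℕ} (hb : b = 2 * T + R) (hq : q < T) (β : Bool) : icBd b q β < b := by
  cases β <;> simp only [icBd] <;> omega

theorem ic_bd_inj {T R b q q' : ℕ} (hb : b = 2 * T + R) (hq : q < T) (hq' : q' < T) {β β' : Bool}
    (h : icBd b q β = icBd b q' β') : q = q' ∧ β = β' := by
  cases β <;> cases β' <;> simp only [icBd] at h <;> first | exact ⟨by omega, rfl⟩ | omega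

theorem ic_bd_ne {T R b q r : ℕ} (hb : b = 2 * T + R) (hq : q < T) (hr : r < R) (β : Bool) :
    icBd b q β ≠ T + r := by
  cases β <;> simp only [icBd] <;> omega

theorem ic_bd_sum {T R b q : ℕ} (hb : b = 2 * T + R) (hq : q < T) :
    icBd b q true + icBd b q false + 1 = b := by
  simp only [icBd]
  omega

theorem ic_start_inj {N0 b h κ κ' o o' : ℕ} (ho : o < N0) (ho' : o' < N0)
    (e : start N0 b h κ + o = start N0 b h κ' + o') : κ = κ' := by
  have key : ∀ κ κ', κ < κ' → start N0 b h κ + N0 ≤ start N0 b h κ' := fun κ κ' hk => by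
    have := Nat.mul_le_mul_right N0 (Nat.succ_le_of_lt hk)
    rw [Nat.succ_mul] at this
    unfold start
    split_ifs <;> omega
  rcases lt_trichotomy κ κ' with hk | hk | hk
  · have := key _ _ hk
    omega
  · exact hk
  · have := key _ _ hk
    omega

theorem ic_start_ne {N0 b h κ o w : ℕ} (ho : o < N0) (hw : w < b) :
    start N0 b h κ + o ≠ h * N0 + w := by
  unfold start
  split_ifs with hk
  · have := Nat.mul_le_mul_right N0 hk
    omega
  · have := Nat.mul_le_mul_right N0 (Nat.succ_le_of_lt (not_le.1 hk))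
    rw [Nat.succ_mul] at this
    omega

theorem ic_start_lt {N0 b h κ o Λ : ℕ} (ho : o < N0) (hk : κ < Λ) :
    start N0 b h κ + o < Λ * N0 + b := by
  have := Nat.mul_le_mul_right N0 (Nat.succ_le_of_lt hk)
  rw [Nat.succ_mul] at this
  unfold start
  split_ifs <;> omega

theorem ic_d {m Λ : ℕ} (c : Fin Λ → ℕ) (hc : ∑ κ, c κ = m) : ∃ d : Fin m → Fin Λ,
    (∀ x, 0 < c (d x)) ∧ ∀ g : Fin Λ → ℕ, ∑ x, g (d x) = ∑ κ, c κ * g κ := by
  have e : Fin m ≃ Σ κ, Fin (c κ) := Fintype.equivOfCardEq (by simp [hc])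
  refine ⟨fun x => (e x).1, fun x => (e x).2.pos, fun g => ?_⟩
  rw [e.sum_comp fun y => g y.1, Fintype.sum_sigma]
  simp

theorem ic_p {α β : Type} [Fintype α] [DecidableEq β] (cl : α → β) (M : ℕ)
    (h : ∀ κ, ∑ a, (if cl a = κ then 1 else 0) = M) :
    ∃ p : α → ℕ, (∀ a, p a < M) ∧ ∀ a a', cl a = cl a' → p a = p a' → a = a' := by
  have e : ∀ κ, {a // cl a = κ} ≃ Fin M := fun κ => Fintype.equivFinOfCardEq (by
    rw [Fintype.card_subtype, card_filter, h])
  have key : ∀ κ a a' (ha : cl a = κ) (ha' : cl a' = κ),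
      (e κ ⟨a, ha⟩ : ℕ) = e (cl a') ⟨a', rfl⟩ → a = a' := by
    rintro _ a a' ha rfl he
    exact congrArg Subtype.val ((e _).injective (Fin.ext he))
  exact ⟨fun a => e (cl a) ⟨a, rfl⟩, fun a => (e _ _).2, fun a a' h1 h2 =>
    key _ a a' rfl h1.symm h2⟩

theorem ic_sum {N : Type} [Fintype N] {m : ℕ} (F : N × Fin m × Bool → ℕ) (c : ℕ) :
    ∑ v, F v + c * Fintype.card N * m = ∑ j, ∑ y, (F (j, y, true) + F (j, y, false) + c) := by
  simp only [Fintype.sum_prod_type, Fintype.sum_bool, sum_add_distrib, sum_const, card_univ,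
    Fintype.card_fin, smul_eq_mul]
  ring

theorem IC {N : Type} [Fintype N] (m Λ C t h : ℕ) (hm : 0 < m) (hh : h ≤ Λ)
    (cnt : N → N → Fin Λ → ℕ) (hrow : ∀ i j, ∑ κ, cnt i j κ = m)
    (hcls : ∀ κ, ∑ i, ∑ j, cnt i j κ = C) :
    ∃ f : Idx N m t × Idx N m t → ℕ, ICspec m Λ C t h cnt f := by
  have : NeZero m := ⟨hm.ne'⟩
  choose d hd0 hd using fun i j => ic_d (cnt i j) (hrow i j)
  have hr : ∀ i j x (g : Fin Λ → ℕ), ∑ y, g (d i j (x + y)) = ∑ κ, cnt i j κ * g κ :=
    fun i j x g => (Equiv.sum_comp (Equiv.addLeft x) fun y => g (d i j y)).trans (hd i j g)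
  have hc : ∀ i j y (g : Fin Λ → ℕ), ∑ x, g (d i j (x + y)) = ∑ κ, cnt i j κ * g κ :=
    fun i j y g => (Equiv.sum_comp (Equiv.addRight y) fun x => g (d i j x)).trans (hd i j g)
  obtain ⟨p, hp, hpi⟩ := ic_p (fun w : (N × Fin m) × N × Fin m => d w.1.1 w.2.1 (w.1.2 + w.2.2))
    (m * C) fun κ => by
      simp only [Fintype.sum_prod_type, hr _ _ _ fun κ' => if κ' = κ then 1 else 0, mul_ite,
        mul_one, mul_zero, sum_ite_eq', mem_univ, if_true, sum_const, card_univ, Fintype.card_fin,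
        smul_eq_mul, ← mul_sum, hcls]
  obtain ⟨n, hn⟩ : ∃ n, n = Fintype.card N := ⟨_, rfl⟩
  have q : (Fin t × N × Fin m) ⊕ (Fin t × N × Fin m) ≃ Fin (t * (2 * n * m)) :=
    Fintype.equivFinOfCardEq (by simp [hn]; ring)
  obtain ⟨b, hb⟩ : ∃ b, b = 2 * (t * (2 * n * m)) + t * t := ⟨_, rfl⟩
  have e1 : 2 * t * (2 * n * m) + t ^ 2 = b := by rw [hb]; ring
  have e2 : (2 * n * m + t) ^ 2 = Λ * (4 * (m * C)) + b := by
    have h1 : ∑ κ, ∑ i, ∑ j, cnt i j κ = ∑ i, ∑ j, ∑ κ, cnt i j κ := by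
      rw [sum_comm]
      exact sum_congr rfl fun i _ => sum_comm
    simp only [hcls, hrow, sum_const, card_univ, Fintype.card_fin, smul_eq_mul, ← hn] at h1
    rw [hb]
    linear_combination (4 * m) * h1.symm
  have hq := fun x => (q x).2
  have hR := fun x : Fin t × Fin t => (finProdFinEquiv x).2
  have hh' := Nat.mul_le_mul_right (4 * (m * C)) hh
  have hR' : ∀ x : Fin t × Fin t, t * (2 * n * m) + finProdFinEquiv x < b := fun x => by
    have := hR x
    omega
  refine ⟨fun v => match v with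
    | (.inl u, .inl v) => start (4 * (m * C)) b h (d u.1 v.1 (u.2.1 + v.2.1)) +
        icOff (m * C) (p ((u.1, u.2.1), v.1, v.2.1)) u.2.2 v.2.2
    | (.inr a, .inl v) => h * (4 * (m * C)) + icBd b (q (.inl (a, v.1, v.2.1))) v.2.2
    | (.inl u, .inr a) => h * (4 * (m * C)) + icBd b (q (.inr (a, u.1, u.2.1))) u.2.2
    | (.inr a, .inr a') => h * (4 * (m * C)) + (t * (2 * n * m) + finProdFinEquiv (a, a')), ?_⟩
  simp only [ICspec, ← hn, mul_assoc 4 m C, e1, e2]
  refine ⟨?_, ?_, fun u v => ⟨_, hd0 _ _ _, Nat.le_add_right _ _,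
    Nat.add_lt_add_left (ic_off_lt (hp _) _ _) _⟩, ?_, fun u => ?_, fun v => ?_, fun a => ?_,
    fun a => ?_⟩
  · rintro ⟨u | a, v | a'⟩ ⟨u' | c, v' | c'⟩ e
    · have k1 := Fin.ext (ic_start_inj (ic_off_lt (hp _) _ _) (ic_off_lt (hp _) _ _) e)
      simp only [k1, add_right_inj] at e
      obtain ⟨k2, k3, k4⟩ := ic_off_inj (hp _) (hp _) e
      have k5 := hpi _ _ k1 k2
      simp only [Prod.mk.injEq] at k5
      rw [Prod.ext k5.1.1 (Prod.ext k5.1.2 k3), Prod.ext k5.2.1 (Prod.ext k5.2.2 k4)]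
    · exact absurd e (ic_start_ne (ic_off_lt (hp _) _ _) (ic_bd_lt hb (hq _) _))
    · exact absurd e (ic_start_ne (ic_off_lt (hp _) _ _) (ic_bd_lt hb (hq _) _))
    · exact absurd e (ic_start_ne (ic_off_lt (hp _) _ _) (hR' _))
    · exact absurd e.symm (ic_start_ne (ic_off_lt (hp _) _ _) (ic_bd_lt hb (hq _) _))
    · obtain ⟨k1, k2⟩ := ic_bd_inj hb (hq _) (hq _) (Nat.add_left_cancel e)
      have k3 := q.injective (Fin.ext k1)
      simp only [Sum.inr.injEq, Prod.mk.injEq] at k3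
      rw [k3.1, Prod.ext k3.2.1 (Prod.ext k3.2.2 k2)]
    · exact absurd (q.injective (Fin.ext
        (ic_bd_inj hb (hq _) (hq _) (Nat.add_left_cancel e)).1)) Sum.inr_ne_inl
    · exact absurd (Nat.add_left_cancel e) (ic_bd_ne hb (hq _) (hR _) _)
    · exact absurd e.symm (ic_start_ne (ic_off_lt (hp _) _ _) (ic_bd_lt hb (hq _) _))
    · exact absurd (q.injective (Fin.ext
        (ic_bd_inj hb (hq _) (hq _) (Nat.add_left_cancel e)).1)) Sum.inl_ne_inr
    · obtain ⟨k1, k2⟩ := ic_bd_inj hb (hq _) (hq _) (Nat.add_left_cancel e)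
      have k3 := q.injective (Fin.ext k1)
      simp only [Sum.inl.injEq, Prod.mk.injEq] at k3
      rw [k3.1, Prod.ext k3.2.1 (Prod.ext k3.2.2 k2)]
    · exact absurd (Nat.add_left_cancel e) (ic_bd_ne hb (hq _) (hR _) _)
    · exact absurd e.symm (ic_start_ne (ic_off_lt (hp _) _ _) (hR' _))
    · exact absurd (Nat.add_left_cancel e).symm (ic_bd_ne hb (hq _) (hR _) _)
    · exact absurd (Nat.add_left_cancel e).symm (ic_bd_ne hb (hq _) (hR _) _)
    · have k := finProdFinEquiv.injective (Fin.ext (Nat.add_left_cancel (Nat.add_left_cancel e)))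
      simp only [Prod.mk.injEq] at k
      rw [k.1, k.2]
  · rintro ⟨u | a, v | a'⟩
    · exact ic_start_lt (ic_off_lt (hp _) _ _) (d _ _ _).2
    · exact add_lt_add_of_le_of_lt hh' (ic_bd_lt hb (hq _) _)
    · exact add_lt_add_of_le_of_lt hh' (ic_bd_lt hb (hq _) _)
    · exact add_lt_add_of_le_of_lt hh' (hR' _)
  · rintro a (v | a')
    · exact ⟨Nat.le_add_right _ _, Nat.add_lt_add_left (ic_bd_lt hb (hq _) _) _,
        Nat.le_add_right _ _, Nat.add_lt_add_left (ic_bd_lt hb (hq _) _) _⟩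
    · exact ⟨Nat.le_add_right _ _, Nat.add_lt_add_left (hR' _) _,
        Nat.le_add_right _ _, Nat.add_lt_add_left (hR' _) _⟩
  · rw [← one_mul n, hn, ic_sum]
    refine sum_congr rfl fun j _ => ?_
    rw [← hr u.1 j u.2.1 fun κ => 2 * start (4 * (m * C)) b h κ + 4 * (m * C)]
    refine sum_congr rfl fun y _ => ?_
    have := ic_off_row (hp ((u.1, u.2.1), j, y)) u.2.2
    dsimp only
    omega
  · constructor
    · rw [← add_zero (∑ u, _), ← zero_mul m, ← zero_mul (Fintype.card N), ic_sum]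
      refine sum_le_sum fun i _ => ?_
      rw [← hc i v.1 v.2.1 fun κ => 2 * start (4 * (m * C)) b h κ + 4 * (m * C)]
      refine sum_le_sum fun x _ => ?_
      have := ic_off_col (hp ((i, x), v.1, v.2.1)) v.2.2
      dsimp only
      omega
    · rw [hn, ic_sum]
      refine sum_le_sum fun i _ => ?_
      rw [← hc i v.1 v.2.1 fun κ => 2 * start (4 * (m * C)) b h κ + 4 * (m * C)]
      refine sum_le_sum fun x _ => ?_
      have := ic_off_col (hp ((i, x), v.1, v.2.1)) v.2.2
      dsimp only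
      omega
  · rw [show ∀ s, s + n * m = s + 1 * Fintype.card N * m from fun s => by rw [one_mul, hn], ic_sum,
      sum_congr rfl fun j _ => sum_congr rfl fun y _ => (?_ : _ = 2 * h * (4 * (m * C)) + b)]
    · simp [hn, mul_assoc]
    · have := ic_bd_sum hb (hq (.inl (a, j, y)))
      rw [mul_assoc 2 h]
      dsimp only
      omega
  · rw [show ∀ s, s + n * m = s + 1 * Fintype.card N * m from fun s => by rw [one_mul, hn], ic_sum,
      sum_congr rfl fun j _ => sum_congr rfl fun y _ => (?_ : _ = 2 * h * (4 * (m * C)) + b)]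
    · simp [hn, mul_assoc]
    · have := ic_bd_sum hb (hq (.inr (a, j, y)))
      rw [mul_assoc 2 h]
      dsimp only
      omega

end Pool.Agent.P749578
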