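import Mathlib

namespace Pool.Agent.P749578

open Finset

/-- Row and column indices: main indices (type, micro index, parity) and `t` border indices. -/
abbrev Idx (N : Type) (m t : ℕ) : Type := (N × Fin m × Bool) ⊕ Fin t

/-- First label of class `κ`: classes have size `N0`, and a block of `b` labels is inserted
before class `h`. -/
def start (N0 b h κ : ℕ) : ℕ := κ * N0 + if h ≤ κ then b else 0

/-- The conclusion of the integer construction. -/
def ICspec {N : Type} [Fintype N] (m Λ C t h : ℕ) (cnt : N → N → Fin Λ → ℕ)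
    (f : Idx N m t × Idx N m t → ℕ) : Prop :=
  let n := Fintype.card N
  let K0 := 2 * n * m
  let N0 := 4 * m * C
  let b := 2 * t * K0 + t ^ 2
  Function.Injective f ∧ (∀ v, f v < (K0 + t) ^ 2) ∧
  (∀ u v : N × Fin m × Bool, ∃ κ : Fin Λ, 0 < cnt u.1 v.1 κ ∧
    start N0 b h κ ≤ f (Sum.inl u, Sum.inl v) ∧ f (Sum.inl u, Sum.inl v) < start N0 b h κ + N0) ∧
  (∀ (a : Fin t) (v : Idx N m t), h * N0 ≤ f (Sum.inr a, v) ∧ f (Sum.inr a, v) < h * N0 + b ∧
    h * N0 ≤ f (v, Sum.inr a) ∧ f (v, Sum.inr a) < h * N0 + b) ∧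
  (∀ u : N × Fin m × Bool, (∑ v : N × Fin m × Bool, f (Sum.inl u, Sum.inl v)) + n * m =
    ∑ j, ∑ κ, cnt u.1 j κ * (2 * start N0 b h κ + N0)) ∧
  (∀ v : N × Fin m × Bool,
    (∑ u : N × Fin m × Bool, f (Sum.inl u, Sum.inl v)) ≤
      ∑ i, ∑ κ, cnt i v.1 κ * (2 * start N0 b h κ + N0) ∧
    ∑ i, ∑ κ, cnt i v.1 κ * (2 * start N0 b h κ + N0) ≤
      (∑ u : N × Fin m × Bool, f (Sum.inl u, Sum.inl v)) + 2 * n * m) ∧
  (∀ a : Fin t, (∑ v : N × Fin m × Bool, f (Sum.inr a, Sum.inl v)) + n * m =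
    n * m * (2 * h * N0 + b)) ∧
  (∀ a : Fin t, (∑ u : N × Fin m × Bool, f (Sum.inl u, Sum.inr a)) + n * m =
    n * m * (2 * h * N0 + b))

end Pool.Agent.P749578
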