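import Mathlib

namespace Pool.Agent.P749578

open Finset

/-- integer dot product of lists -/
def dot : List ℤ → List ℤ → ℤ
  | a :: l, b :: m => a * b + dot l m
  | _, _ => 0

/-- rational dot product of lists -/
def dq : List ℚ → List ℚ → ℚ
  | a :: l, b :: m => a * b + dq l m
  | _, _ => 0

/-- integer covector applied to a rational vector -/
def dz : List ℤ → List ℚ → ℚ
  | a :: l, b :: m => (a : ℚ) * b + dz l m
  | _, _ => 0

def vadd : List ℚ → List ℚ → List ℚ
  | a :: l, b :: m => (a + b) :: vadd l m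
  | [], m => m
  | l, [] => l

/-- linear combination of integer columns -/
def lcq : List ℚ → List (List ℤ) → List ℚ
  | a :: l, c :: M => vadd (c.map fun z : ℤ => a * (z : ℚ)) (lcq l M)
  | _, _ => []

/-- matrix (given by rows) applied to a vector -/
def mv (M : List (List ℤ)) (v : List ℚ) : List ℚ := M.map fun r => dz r v

/-- transpose, first `n` columns -/
def tr : ℕ → List (List ℤ) → List (List ℤ)
  | 0, _ => []
  | n + 1, M => M.map (fun r => r.headD 0) :: tr n (M.map List.tail)

@[simp] theorem dot_nil_left (m : List ℤ) : dot [] m = 0 := by cases m <;> rfl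
@[simp] theorem dot_nil_right (m : List ℤ) : dot m [] = 0 := by cases m <;> rfl
@[simp] theorem dot_cons (a b : ℤ) (l m : List ℤ) : dot (a :: l) (b :: m) = a * b + dot l m := rfl
@[simp] theorem dq_nil_left (m : List ℚ) : dq [] m = 0 := by cases m <;> rfl
@[simp] theorem dq_nil_right (m : List ℚ) : dq m [] = 0 := by cases m <;> rfl
@[simp] theorem dq_cons (a b : ℚ) (l m : List ℚ) : dq (a :: l) (b :: m) = a * b + dq l m := rfl
@[simp] theorem dz_nil_left (m : List ℚ) : dz [] m = 0 := by cases m <;> rfl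
@[simp] theorem dz_nil_right (m : List ℤ) : dz m [] = 0 := by cases m <;> rfl
@[simp] theorem dz_cons (a : ℤ) (b : ℚ) (l : List ℤ) (m : List ℚ) :
    dz (a :: l) (b :: m) = (a : ℚ) * b + dz l m := rfl
@[simp] theorem vadd_nil_left (m : List ℚ) : vadd [] m = m := by cases m <;> rfl
@[simp] theorem vadd_nil_right (m : List ℚ) : vadd m [] = m := by cases m <;> rfl
@[simp] theorem vadd_cons (a b : ℚ) (l m : List ℚ) :
    vadd (a :: l) (b :: m) = (a + b) :: vadd l m := rfl
@[simp] theorem lcq_nil_left (M : List (List ℤ)) : lcq [] M = [] := by cases M <;> rfl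
@[simp] theorem lcq_nil_right (v : List ℚ) : lcq v [] = [] := by cases v <;> rfl
@[simp] theorem lcq_cons (a : ℚ) (l : List ℚ) (c : List ℤ) (M : List (List ℤ)) :
    lcq (a :: l) (c :: M) = vadd (c.map fun z : ℤ => a * (z : ℚ)) (lcq l M) := rfl

theorem dq_comm : ∀ l m : List ℚ, dq l m = dq m l
  | [], m => by simp
  | _ :: _, [] => by simp
  | a :: l, b :: m => by simp [dq_comm l m, mul_comm]

theorem dot_comm : ∀ l m : List ℤ, dot l m = dot m l
  | [], m => by simp
  | _ :: _, [] => by simp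
  | a :: l, b :: m => by simp [dot_comm l m, mul_comm]

theorem dz_eq_dq : ∀ (c : List ℤ) (v : List ℚ), dz c v = dq (c.map fun z : ℤ => (z : ℚ)) v
  | [], m => by simp
  | _ :: _, [] => by simp
  | a :: l, b :: m => by simp [dz_eq_dq l m]

theorem dz_cast : ∀ c d : List ℤ, dz c (d.map fun z : ℤ => (z : ℚ)) = (dot c d : ℚ)
  | [], m => by simp
  | _ :: _, [] => by simp
  | a :: l, b :: m => by simp [dz_cast l m]

theorem dq_vadd : ∀ x l m : List ℚ, dq x (vadd l m) = dq x l + dq x m
  | [], _, _ => by simp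
  | _ :: _, [], _ => by simp
  | _ :: _, _ :: _, [] => by simp
  | c :: x, a :: l, b :: m => by simp [dq_vadd x l m]; ring

theorem dq_map_mul (a : ℚ) : ∀ (x : List ℚ) (c : List ℤ),
    dq x (c.map fun z : ℤ => a * (z : ℚ)) = a * dz c x
  | [], _ => by simp
  | _ :: _, [] => by simp
  | y :: x, z :: c => by simp [dq_map_mul a x c]; ring

theorem dq_map_div (D : ℚ) : ∀ x v : List ℚ, dq x (v.map fun z => z / D) = dq x v / D
  | [], _ => by simp
  | _ :: _, [] => by simp
  | y :: x, z :: c => by simp [dq_map_div D x c]; ring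

theorem dz_map_div (D : ℚ) (c : List ℤ) (v : List ℚ) :
    dz c (v.map fun z => z / D) = dz c v / D := by
  rw [dz_eq_dq, dq_map_div, ← dz_eq_dq]

theorem dq_lcq (x : List ℚ) : ∀ (v : List ℚ) (M : List (List ℤ)),
    dq x (lcq v M) = dq v (M.map fun c => dz c x)
  | [], _ => by simp
  | _ :: _, [] => by simp
  | a :: v, c :: M => by simp [dq_vadd, dq_map_mul, dq_lcq x v M]

/-- covector applied to a combination of columns -/
theorem dz_lcq (c : List ℤ) : ∀ (v : List ℚ) (M : List (List ℤ)),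
    dz c (lcq v M) = dz (M.map fun f => dot c f) v
  | [], _ => by simp
  | _ :: _, [] => by simp
  | a :: v, f :: M => by
    have h := dz_lcq c v M
    rw [dz_eq_dq] at h
    rw [lcq_cons, dz_eq_dq, dq_vadd, dq_map_mul, h, dz_cast, dot_comm]
    simp [mul_comm]

theorem dz_cons_right (r : List ℤ) (x : ℚ) (v : List ℚ) :
    dz r (x :: v) = (r.headD 0 : ℤ) * x + dz r.tail v := by
  cases r <;> simp

theorem dq_mv_cons (x : ℚ) (v : List ℚ) : ∀ (w : List ℚ) (M : List (List ℤ)),
    dq w (mv M (x :: v)) = x * dz (M.map fun r => r.headD 0) w + dq w (mv (M.map List.tail) v)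
  | [], _ => by simp
  | _ :: _, [] => by simp [mv]
  | a :: w, r :: M => by
    have h := dq_mv_cons x v w M
    simp only [mv, List.map_cons, dq_cons, dz_cons] at h ⊢
    rw [h, dz_cons_right]; ring

theorem dq_mv_nil : ∀ (w : List ℚ) (M : List (List ℤ)), dq w (mv M []) = 0
  | [], _ => by simp
  | _ :: _, [] => by simp [mv]
  | a :: w, r :: M => by
    have h := dq_mv_nil w M
    simp only [mv, List.map_cons, dq_cons] at h ⊢
    rw [h]; simp

/-- transposition -/
theorem dq_mv_tr (w : List ℚ) : ∀ (n : ℕ) (v : List ℚ) (M : List (List ℤ)), v.length ≤ n →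
    dq w (mv M v) = dq v (mv (tr n M) w)
  | _, [], M, _ => by simp [dq_mv_nil]
  | 0, _ :: _, _, h => by simp at h
  | n + 1, x :: v, M, h => by
    rw [dq_mv_cons, dq_mv_tr w n v _ (by simpa using h)]
    simp [tr, mv]

theorem dz_mv_tr (c : List ℤ) (n : ℕ) (v : List ℚ) (M : List (List ℤ)) (h : v.length ≤ n) :
    dz c (mv M v) = dz ((tr n M).map fun f => dot c f) v := by
  rw [dz_eq_dq, dq_mv_tr _ n v M h, dz_eq_dq, dq_comm]
  congr 1
  simp [mv, dz_cast, dot_comm]

theorem vadd_length_le (n : ℕ) : ∀ l m : List ℚ, l.length ≤ n → m.length ≤ n →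
    (vadd l m).length ≤ n := by
  induction n with
  | zero => intro l m hl hm; simp_all
  | succ n ih =>
    intro l m hl hm
    cases l with
    | nil => simpa using hm
    | cons a l =>
      cases m with
      | nil => simpa using hl
      | cons b m => simpa using ih l m (by simpa using hl) (by simpa using hm)

theorem lcq_length_le (n : ℕ) : ∀ (v : List ℚ) (M : List (List ℤ)),
    (∀ c ∈ M, c.length ≤ n) → (lcq v M).length ≤ n
  | [], _, _ => by simp
  | _ :: _, [], _ => by simp
  | a :: v, c :: M, h => by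
    rw [lcq_cons]
    exact vadd_length_le n _ _ (by simpa using h c (by simp))
      (lcq_length_le n v M fun d hd => h d (by simp [hd]))

/-- one row of a matrix identity `4 (c1 r1 F1 + c2 r2 F2) = D lc S` -/
def chkRow (c1 c2 : Bool) (D : ℤ) (r1 r2 lc : List ℤ) :
    List (List ℤ) → List (List ℤ) → List (List ℤ) → Bool
  | f1 :: F1, f2 :: F2, s :: S =>
    decide (4 * ((if c1 then dot r1 f1 else 0) + (if c2 then dot r2 f2 else 0)) = D * dot lc s) &&
      chkRow c1 c2 D r1 r2 lc F1 F2 S
  | [], [], [] => true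
  | _, _, _ => false

theorem chkRow_sound (c1 c2 : Bool) (D : ℤ) (r1 r2 lc : List ℤ) :
    ∀ (F1 F2 S : List (List ℤ)) (v : List ℚ), chkRow c1 c2 D r1 r2 lc F1 F2 S = true →
      4 * ((if c1 then dz r1 (lcq v F1) else 0) + (if c2 then dz r2 (lcq v F2) else 0)) =
        D * dz (S.map fun s => dot lc s) v
  | _, _, _, [], _ => by simp
  | [], [], [], _ :: _, _ => by simp
  | [], [], _ :: _, _ :: _, h => by simp [chkRow] at h
  | [], _ :: _, _, _ :: _, h => by simp [chkRow] at h
  | _ :: _, [], _, _ :: _, h => by simp [chkRow] at h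
  | _ :: _, _ :: _, [], _ :: _, h => by simp [chkRow] at h
  | f1 :: F1, f2 :: F2, s :: S, x :: v, h => by
    simp only [chkRow, Bool.and_eq_true, decide_eq_true_eq] at h
    have ih := chkRow_sound c1 c2 D r1 r2 lc F1 F2 S v h.2
    have h1 : (4 : ℚ) * ((if c1 then (dot r1 f1 : ℚ) else 0) + (if c2 then (dot r2 f2 : ℚ) else 0))
        = D * (dot lc s : ℚ) := by
      have := congrArg (fun z : ℤ => (z : ℚ)) h.1
      cases c1 <;> cases c2 <;> simpa using this
    simp only [dz_lcq] at ih ⊢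
    simp only [List.map_cons, dz_cons]
    cases c1 <;> cases c2 <;> simp only [if_true, if_false, Bool.false_eq_true] at ih h1 ⊢ <;>
      linear_combination ih + x * h1

/-- a block of rows -/
def chkBlk (c1 c2 : Bool) (D : ℤ) (F1 F2 S : List (List ℤ)) :
    List (List ℤ) → List (List ℤ) → List (List ℤ) → Bool
  | r1 :: R1, r2 :: R2, lc :: L => chkRow c1 c2 D r1 r2 lc F1 F2 S && chkBlk c1 c2 D F1 F2 S R1 R2 L
  | [], [], [] => true
  | _, _, _ => false

theorem chkBlk_aux (c1 c2 : Bool) (D : ℤ) (F1 F2 S : List (List ℤ)) (v : List ℚ) :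
    ∀ (R1 R2 L : List (List ℤ)) (B : List ℚ), chkBlk c1 c2 D F1 F2 S R1 R2 L = true →
      4 * ((if c1 then dq B (mv R1 (lcq v F1)) else 0) + (if c2 then dq B (mv R2 (lcq v F2)) else 0))
        = D * dq B (L.map fun lc => dz (S.map fun s => dot lc s) v)
  | _, _, _, [], _ => by simp
  | [], [], [], _ :: _, _ => by simp [mv]
  | [], [], _ :: _, _ :: _, h => by simp [chkBlk] at h
  | [], _ :: _, _, _ :: _, h => by simp [chkBlk] at h
  | _ :: _, [], _, _ :: _, h => by simp [chkBlk] at h
  | _ :: _, _ :: _, [], _ :: _, h => by simp [chkBlk] at h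
  | r1 :: R1, r2 :: R2, lc :: L, x :: B, h => by
    simp only [chkBlk, Bool.and_eq_true] at h
    have ih := chkBlk_aux c1 c2 D F1 F2 S v R1 R2 L B h.2
    have h1 := chkRow_sound c1 c2 D r1 r2 lc F1 F2 S v h.1
    simp only [mv, List.map_cons, dq_cons] at ih ⊢
    cases c1 <;> cases c2 <;> simp only [if_true, if_false, Bool.false_eq_true] at ih h1 ⊢ <;>
      linear_combination ih + x * h1

theorem chkBlk_sound (c1 c2 : Bool) (D : ℤ) (F1 F2 S L R1 R2 : List (List ℤ)) (n k : ℕ)
    (h : chkBlk c1 c2 D F1 F2 (tr n S) R1 R2 (tr k L) = true) (v B : List ℚ) (hv : v.length ≤ n)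
    (hB : B.length ≤ k) :
    4 * ((if c1 then dq B (mv R1 (lcq v F1)) else 0) + (if c2 then dq B (mv R2 (lcq v F2)) else 0))
      = D * dq (mv L B) (mv S v) := by
  rw [chkBlk_aux c1 c2 D F1 F2 _ v R1 R2 _ B h, dq_comm (mv L B), dq_mv_tr _ k B L hB]
  congr 2
  simp only [mv]
  refine List.map_congr_left fun lc _ => ?_
  exact (dz_mv_tr lc n v S hv).symm

/-- diagonal dominance -/
theorem diag_dom {ι : Type} [Fintype ι] (E : ι → ι → ℚ) (hs : ∀ i j, E i j = E j i)
    (h : ∀ i, ∑ j, |E i j| ≤ 2 * E i i) (v : ι → ℚ) : 0 ≤ ∑ i, ∑ j, v i * v j * E i j := by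
  classical
  have hd : ∀ i, 0 ≤ E i i := fun i => by
    have := h i
    have h2 : 0 ≤ ∑ j, |E i j| := sum_nonneg fun j _ => abs_nonneg _
    linarith
  have key : ∀ i j, (if i = j then 2 * E i i * v i ^ 2 else 0) - (v i ^ 2 + v j ^ 2) / 2 * |E i j|
      ≤ v i * v j * E i j := fun i j => by
    by_cases hij : i = j
    · subst hij
      simp only [if_true, abs_of_nonneg (hd i)]
      nlinarith
    · simp only [hij, if_false]
      rcases abs_cases (E i j) with ⟨h1, h2⟩ | ⟨h1, h2⟩ <;> rw [h1] <;>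
        nlinarith [sq_nonneg (v i + v j), sq_nonneg (v i - v j)]
  refine le_trans ?_ (sum_le_sum fun i _ => sum_le_sum fun j _ => key i j)
  simp only [sum_sub_distrib, sum_ite_eq, mem_univ, if_true]
  have e1 : ∑ i, ∑ j, (v i ^ 2 + v j ^ 2) / 2 * |E i j| = ∑ i, v i ^ 2 * ∑ j, |E i j| := by
    have : ∑ i, ∑ j, v j ^ 2 / 2 * |E i j| = ∑ i, ∑ j, v i ^ 2 / 2 * |E i j| := by
      rw [sum_comm]
      exact sum_congr rfl fun i _ => sum_congr rfl fun j _ => by rw [hs]
    simp only [add_div, add_mul, sum_add_distrib, this, mul_sum]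
    rw [← sum_add_distrib]
    refine sum_congr rfl fun i _ => ?_
    rw [← sum_add_distrib]
    exact sum_congr rfl fun j _ => by ring
  rw [e1, sub_nonneg]
  exact sum_le_sum fun i _ => by nlinarith [h i, sq_nonneg (v i)]

/-- entry of the difference of Gram matrices -/
def gramE (w : ℤ) (c d : List ℤ × List ℤ) : ℤ := w * dot c.1 d.1 - dot c.2 d.2

def sumAbs (w : ℤ) (c : List ℤ × List ℤ) : List (List ℤ × List ℤ) → ℕ
  | [] => 0
  | d :: l => (gramE w c d).natAbs + sumAbs w c l

def chkDom (w : ℤ) (C : List (List ℤ × List ℤ)) : Bool :=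
  C.all fun c => decide ((sumAbs w c C : ℤ) ≤ 2 * gramE w c c)

theorem sumAbs_eq (w : ℤ) (c : List ℤ × List ℤ) : ∀ l : List (List ℤ × List ℤ),
    (sumAbs w c l : ℚ) = (l.map fun d => |(gramE w c d : ℚ)|).sum
  | [] => by simp [sumAbs]
  | d :: l => by
    simp only [sumAbs, Nat.cast_add, sumAbs_eq w c l, List.map_cons, List.sum_cons, Nat.cast_natAbs,
      Int.cast_abs]

theorem dq_eq_sum {α : Type} (f : α → ℚ) : ∀ (C : List α) (v : List ℚ),
    dq v (C.map f) = ∑ i : Fin C.length, v.getD i 0 * f (C.get i)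
  | [], _ => by simp
  | c :: C, [] => by simp
  | c :: C, x :: v => by
    rw [List.map_cons, dq_cons, dq_eq_sum f C v]
    simp [Fin.sum_univ_succ]

theorem gram_lcq {α : Type} (g : α → List ℤ) (C : List α) (v : List ℚ) :
    dq (lcq v (C.map g)) (lcq v (C.map g)) =
      ∑ i : Fin C.length, ∑ j : Fin C.length,
        v.getD i 0 * v.getD j 0 * (dot (g (C.get i)) (g (C.get j)) : ℚ) := by
  rw [dq_lcq, List.map_map, dq_eq_sum]
  refine sum_congr rfl fun i _ => ?_
  simp only [Function.comp]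
  rw [dz_lcq, dz_eq_dq, dq_comm, List.map_map, List.map_map, dq_eq_sum, mul_sum]
  exact sum_congr rfl fun j _ => by simp only [Function.comp]; ring

theorem dq_mv_self (n : ℕ) (M : List (List ℤ)) (v : List ℚ) (hv : v.length ≤ n) :
    dq (mv M v) (mv M v) = dq (lcq v (tr n M)) (lcq v (tr n M)) := by
  have h : ∀ x, dq x (mv M v) = dq x (lcq v (tr n M)) := fun x => by
    rw [dq_mv_tr x n v M hv, dq_lcq]; rfl
  rw [h, dq_comm, h]

theorem chkDom_sound (w : ℤ) (n : ℕ) (P N : List (List ℤ)) (C : List (List ℤ × List ℤ))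
    (hP : tr n P = C.map Prod.fst) (hN : tr n N = C.map Prod.snd) (h : chkDom w C = true)
    (v : List ℚ) (hv : v.length ≤ n) :
    dq (mv N v) (mv N v) ≤ w * dq (mv P v) (mv P v) := by
  rw [dq_mv_self n P v hv, dq_mv_self n N v hv, hP, hN, gram_lcq, gram_lcq]
  have key := diag_dom (ι := Fin C.length) (fun i j => (gramE w (C.get i) (C.get j) : ℚ))
    (fun i j => by simp only [gramE]; rw [dot_comm (C.get i).1, dot_comm (C.get i).2])
    (fun i => by
      have h1 := List.all_eq_true.1 h (C.get i) (List.get_mem C i)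
      have h2 : ((sumAbs w (C.get i) C : ℤ) : ℚ) ≤ ((2 * gramE w (C.get i) (C.get i) : ℤ) : ℚ) := by
        exact_mod_cast of_decide_eq_true h1
      push_cast at h2
      rw [sumAbs_eq] at h2
      rw [← List.sum_ofFn]
      have h3 : List.ofFn (fun j : Fin C.length => |(gramE w (C.get i) (C.get j) : ℚ)|) =
          C.map fun d => |(gramE w (C.get i) d : ℚ)| := by
        generalize C.get i = c
        conv_rhs => rw [← List.ofFn_get C]
        rw [List.map_ofFn]; rfl
      rw [h3]; exact h2)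
    (fun i => v.getD i 0)
  rw [← sub_nonneg, mul_sum, ← sum_sub_distrib]
  refine le_of_le_of_eq key (sum_congr rfl fun i _ => ?_)
  rw [mul_sum, ← sum_sub_distrib]
  exact sum_congr rfl fun j _ => by simp only [gramE]; push_cast; ring

end Pool.Agent.P749578
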