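import Pool.Agent.P.MP_749578_co.Cross

namespace Pool.Agent.P749578

open Finset

theorem lower_sum {V : Type} [Fintype V] {f : V → ℕ} (hf : IsLabeling f) (g : ℝ → ℝ) :
    ∑ v, g (f v) = ∑ i ∈ range (Fintype.card V), g (i + 1) := by
  have h1 : ∑ v, g (f v) = ∑ i ∈ Ico 1 (Fintype.card V + 1), g i := by
    refine sum_nbij f (fun v _ => ?_) (fun v _ w _ e => hf.injOn trivial trivial e)
      (fun i hi => ?_) fun _ _ => rfl
    · exact mem_Ico.2 ⟨(hf.mapsTo trivial).1, Nat.lt_succ_of_le (hf.mapsTo trivial).2⟩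
    · have hi' := mem_Ico.1 (mem_coe.1 hi)
      simpa using hf.surjOn ⟨hi'.1, Nat.le_of_lt_succ hi'.2⟩
  rw [h1, sum_Ico_eq_sum_range]
  simp [add_comm]

theorem lower_one (N : ℕ) (c : ℝ) :
    ∑ i ∈ range N, ((i : ℝ) + 1 - c) = N * (N + 1) / 2 - N * c := by
  induction N with
  | zero => simp
  | succ n ih =>
    rw [sum_range_succ, ih]
    push_cast
    ring

theorem lower_two (N : ℕ) (c : ℝ) : ∑ i ∈ range N, ((i : ℝ) + 1 - c) ^ 2 =
    N * (N + 1) * (2 * N + 1) / 6 - N * (N + 1) * c + N * c ^ 2 := by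
  induction N with
  | zero => simp
  | succ n ih =>
    rw [sum_range_succ, ih]
    push_cast
    ring

theorem lower_abs (N : ℕ) : ∑ i ∈ range N, |(i : ℝ) + 1 - (N + 1) / 2| ≤ (N : ℝ) ^ 2 / 4 := by
  induction N using Nat.twoStepInduction with
  | zero => simp
  | one => norm_num
  | more n ih _ =>
    have hn : (0 : ℝ) ≤ n := n.cast_nonneg
    have e : ∀ i : ℕ, ((i + 1 : ℕ) : ℝ) + 1 - ((n + 2 : ℕ) + 1) / 2 = i + 1 - (n + 1) / 2 :=
      fun i => by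
      push_cast
      ring
    rw [sum_range_succ', sum_range_succ]
    simp only [e]
    push_cast
    rw [abs_of_nonneg (by linarith : (0 : ℝ) ≤ n + 1 - (n + 1) / 2), abs_of_nonpos (by linarith)]
    linarith

theorem lower_sq {K : ℕ} (hK : 0 < K) {α : Fin K → ℝ} {M : ℝ} (h0 : ∑ a, α a = 0)
    (h : ∀ a a', α a - α a' ≤ M) : ∑ a, α a ^ 2 ≤ K * M ^ 2 := by
  have hK' : (0 : ℝ) < K := Nat.cast_pos.2 hK
  refine (sum_le_sum (g := fun _ => M ^ 2) fun a _ => sq_le_sq' ?_ ?_).trans_eq (by simp)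
  · have := sum_le_sum fun a' (_ : a' ∈ univ) => h a' a
    simp only [sum_sub_distrib, h0, sum_const, card_univ, Fintype.card_fin, nsmul_eq_mul] at this
    exact le_of_mul_le_mul_left (by linarith) hK'
  · have := sum_le_sum fun a' (_ : a' ∈ univ) => h a a'
    simp only [sum_sub_distrib, h0, sum_const, card_univ, Fintype.card_fin, nsmul_eq_mul] at this
    exact le_of_mul_le_mul_left (by linarith) hK'

theorem spread_lower (K : ℕ) (hK : 0 < K) (f : Fin K × Fin K → ℕ) (hf : IsLabeling f) (X Y : ℝ)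
    (h : ∀ a b, X ≤ cross f a b ∧ cross f a b ≤ Y) :
    2 / 3 * (K : ℝ) ^ 2 - 65 * K ≤ Y - X := by
  have hK1 : (1 : ℝ) ≤ K := by exact_mod_cast hK
  obtain ⟨N, hN⟩ : ∃ N : ℝ, N = (K : ℝ) ^ 2 := ⟨_, rfl⟩
  have hc : (Fintype.card (Fin K × Fin K) : ℝ) = N := by simp [hN, sq]
  have hN1 : 1 ≤ N := hN ▸ one_le_pow₀ hK1
  obtain ⟨y, hy⟩ : ∃ y : Fin K × Fin K → ℝ, ∀ v, y v = f v - (N + 1) / 2 := ⟨_, fun _ => rfl⟩
  have s1 : ∑ v, y v = 0 := by
    simp only [hy]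
    rw [lower_sum hf fun t => t - (N + 1) / 2, lower_one, hc]
    ring
  have s2 : ∑ v, y v ^ 2 = N * (N ^ 2 - 1) / 12 := by
    simp only [hy]
    rw [lower_sum hf fun t => (t - (N + 1) / 2) ^ 2, lower_two, hc]
    ring
  have s3 : ∑ v, |y v| ≤ N ^ 2 / 4 := by
    simp only [hy]
    rw [lower_sum hf fun t => |t - (N + 1) / 2|, ← hc]
    exact lower_abs _
  have s4 : ∀ v w, y v - y w ≤ N := fun v w => by
    have h1 : (f v : ℝ) ≤ N := hc ▸ Nat.cast_le.2 (hf.mapsTo trivial).2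
    have h2 : (0 : ℝ) ≤ f w := Nat.cast_nonneg _
    rw [hy, hy]
    linarith
  obtain ⟨α, hα⟩ : ∃ α : Fin K → ℝ, ∀ a, α a = ∑ b, y (a, b) := ⟨_, fun _ => rfl⟩
  obtain ⟨β, hβ⟩ : ∃ β : Fin K → ℝ, ∀ b, β b = ∑ a, y (a, b) := ⟨_, fun _ => rfl⟩
  have e : ∀ a b, cross f a b = α a + β b - y (a, b) + (K * (N + 1) - (N + 1) / 2) := fun a b => by
    simp only [cross, hα, hβ, hy, sum_sub_distrib, sum_const, card_univ, Fintype.card_fin,
      nsmul_eq_mul]
    ring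
  simp only [e] at h
  generalize K * (N + 1) - (N + 1) / 2 = d at h
  rw [← hN]
  by_contra hlt
  rw [not_le] at hlt
  have a1 : ∑ a, α a ^ 2 ≤ K * (2 * N) ^ 2 :=
    lower_sq hK (by simp only [hα]; rw [← s1, Fintype.sum_prod_type]) fun a a' => by
      linarith [(h a a).2, (h a' a).1, s4 (a, a) (a', a)]
  have a2 : ∑ b, β b ^ 2 ≤ K * (2 * N) ^ 2 :=
    lower_sq hK (by simp only [hβ]; rw [← s1, Fintype.sum_prod_type_right]) fun b b' => by
      linarith [(h b b).2, (h b b').1, s4 (b, b) (b, b')]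
  have a3 : ∑ v : Fin K × Fin K, y v * (α v.1 + β v.2 + (d - (X + Y) / 2)) =
      ∑ a, α a ^ 2 + ∑ b, β b ^ 2 := by
    simp only [mul_add, sum_add_distrib]
    rw [← sum_mul, s1, zero_mul, add_zero, Fintype.sum_prod_type, Fintype.sum_prod_type_right]
    simp only [← sum_mul, ← hα, ← hβ, sq]
  have hs : 0 ≤ (Y - X) / 2 := by linarith [(h ⟨0, hK⟩ ⟨0, hK⟩).1, (h ⟨0, hK⟩ ⟨0, hK⟩).2]
  have a4 : ∑ v : Fin K × Fin K, (y v ^ 2 - (Y - X) / 2 * |y v|) ≤
      ∑ v : Fin K × Fin K, y v * (α v.1 + β v.2 + (d - (X + Y) / 2)) := by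
    refine sum_le_sum fun v _ => ?_
    have h1 : |α v.1 + β v.2 + (d - (X + Y) / 2) - y v| ≤ (Y - X) / 2 :=
      abs_le.2 ⟨by linarith [(h v.1 v.2).1], by linarith [(h v.1 v.2).2]⟩
    have h2 := mul_le_mul_of_nonneg_right h1 (abs_nonneg (y v))
    rw [← abs_mul] at h2
    linarith [neg_abs_le ((α v.1 + β v.2 + (d - (X + Y) / 2) - y v) * y v)]
  rw [a3, sum_sub_distrib, ← mul_sum, s2] at a4
  have a5 := mul_le_mul_of_nonneg_left s3 hs
  have a6 := mul_lt_mul_of_pos_right hlt (by positivity : 0 < N ^ 2 / 8)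
  have a7 : N * 1 ≤ N * (K * N) :=
    mul_le_mul_of_nonneg_left (one_le_mul_of_one_le_of_one_le hK1 hN1) (by linarith)
  linarith

end Pool.Agent.P749578
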