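import Pool.Agent.P.MP_749578_co.Top
import Pool.Agent.P.MP_749578_co.Lower

namespace Pool.Agent.P749578

open Filter Topology

theorem spread_limit :
    Tendsto (fun k : ℕ => (NSsp (rook k) : ℝ) / (k : ℝ) ^ 2) atTop (𝓝 (2 / 3)) := by
  have hinv : ∀ C : ℝ, Tendsto (fun k : ℕ => C / (k : ℝ)) atTop (𝓝 0) := fun C =>
    tendsto_const_div_atTop_nhds_zero_nat C
  rw [tendsto_order]
  refine ⟨fun a ha => ?_, fun a ha => ?_⟩
  · filter_upwards [(hinv 65).eventually (gt_mem_nhds (show (0 : ℝ) < 2 / 3 - a by linarith)),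
      eventually_gt_atTop 0] with k h1 hk
    have hk' : (0 : ℝ) < k := by exact_mod_cast hk
    have h2 := le_NSsp k hk _ fun f hf X Y h => spread_lower k hk f hf X Y h
    rw [lt_div_iff₀ (by positivity)]
    rw [div_lt_iff₀ hk'] at h1
    nlinarith
  · obtain ⟨n, hn⟩ := exists_nat_gt (1 / (a - 2 / 3) + 3)
    have hpos : 0 < 1 / (a - 2 / 3) := by apply one_div_pos.2; linarith
    have hn3 : 3 ≤ n := by exact_mod_cast (by linarith : (3 : ℝ) ≤ n)
    obtain ⟨C, K1, h⟩ := upper n hn3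
    have hr : (n : ℝ) ≤ ((2 ^ (n + 1) : ℕ) : ℝ) := by
      exact_mod_cast (Nat.lt_two_pow_self.le.trans (Nat.pow_le_pow_right two_pos n.le_succ))
    have hr2 : 1 / (4 * ((2 ^ (n + 1) : ℕ) : ℝ)) ≤ (a - 2 / 3) / 4 := by
      rw [div_le_div_iff₀ (by positivity) (by norm_num)]
      have : 1 / (a - 2 / 3) ≤ ((2 ^ (n + 1) : ℕ) : ℝ) := by linarith
      rw [div_le_iff₀ (by linarith)] at this
      nlinarith
    filter_upwards [(hinv (2 * C)).eventually
      (gt_mem_nhds (show (0 : ℝ) < (a - 2 / 3) / 2 by linarith)),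
      eventually_gt_atTop 0, eventually_ge_atTop K1] with k h1 hk hk1
    have hk' : (0 : ℝ) < k := by exact_mod_cast hk
    obtain ⟨f, hf, hb⟩ := h k hk1
    have h2 := NSsp_le k hk f hf _ _ hb
    rw [div_lt_iff₀ (by positivity)]
    rw [div_lt_iff₀ hk'] at h1
    have h3 := mul_le_mul_of_nonneg_right hr2 (sq_nonneg (k : ℝ))
    nlinarith [mul_lt_mul_of_pos_right h1 hk']

end Pool.Agent.P749578
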