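import Pool.Agent.P.MP_749578_co.Tree

namespace Pool.Agent.P749578

open Finset

def LXm : Bool → List (List ℤ)
  | false => [[0, 4, 4, 0, 0, 0, 0, 0, 0, 0], [4, 0, 0, 0, 0, 0, 0, 0, 0, 0],
      [0, 0, 0, 0, 0, 0, 0, 0, 0, 0], [0, -1, -1, 0, -2, -2, 0, 0, 0, 0],
      [-1, 0, 0, -2, 0, 0, 0, 0, 0, 0], [0, 0, 0, 0, 0, 0, 0, 0, 0, 0],
      [0, 0, 0, 0, 0, 0, 2, 0, 0, 0], [0, 0, 0, 0, 0, 0, -2, 0, 0, 0],
      [0, 0, 0, 0, 0, 0, 0, 0, 2, 0], [0, 0, 0, 0, 0, 0, 0, 0, -2, 0]]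
  | true => [[0, 0, 0, 0, 0, 0, 0, 0, 0, 0], [0, 0, 4, 0, 0, 0, 0, 0, 0, 0],
      [4, 4, 0, 0, 0, 0, 0, 0, 0, 0], [0, 0, 0, 0, 0, 0, 0, 0, 0, 0],
      [0, 0, 1, 0, 0, -2, 0, 0, 0, 0], [1, 1, 0, -2, -2, 0, 0, 0, 0, 0],
      [0, 0, 0, 0, 0, 0, 0, 0, 0, 0], [0, 0, 0, 0, 0, 0, 2, 2, 0, 0],
      [0, 0, 0, 0, 0, 0, 0, 0, 0, 0], [0, 0, 0, 0, 0, 0, 0, 0, 2, 2]]

def LYm : List (List ℤ) :=
  [[0, 4, 4, 0, 0, 0, 0, 0, 0, 0], [4, 0, 4, 0, 0, 0, 0, 0, 0, 0], [4, 4, 0, 0, 0, 0, 0, 0, 0, 0],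
   [0, 0, 0, 0, -2, -2, 0, 0, 0, 0], [0, 0, 0, -2, 0, -2, 0, 0, 0, 0],
   [0, 0, 0, -2, -2, 0, 0, 0, 0, 0], [0, -1, -1, 0, 0, 0, 2, 0, 0, 0],
   [-1, 0, 1, 0, 0, 0, 0, 2, 0, 0], [0, 0, 0, 0, 0, 0, 0, 0, 2, 0], [0, 0, 0, 0, 0, 0, 0, 0, 0, 2]]

def L0m : List (List ℤ) := [[3], [3], [3], [0], [0], [0], [0], [0], [-1], [0]]

/-- auxiliary vectors of conditional sums -/
def Bv : ∀ (n : ℕ) (r : Bool), Pat n r → List ℚ
  | 0, _, _ => (mv L0m [1]).map fun z => z / 3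
  | n + 1, true, a => (mv (LXm (a : Bool × Pat n false).1)
      (Bv n false (a : Bool × Pat n false).2)).map fun z => z / 4
  | n + 1, false, b => (mv LYm (Bv n true b)).map fun z => z / 4

theorem Bv_length : ∀ (n : ℕ) (r : Bool) (a : Pat n r), (Bv n r a).length = 10
  | 0, _, _ => rfl
  | n + 1, true, a => by
    simp only [Bv, mv, List.length_map]
    cases (a : Bool × Pat n false).1 <;> rfl
  | n + 1, false, b => by simp only [Bv, mv, List.length_map]; rfl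

theorem len10 (l : List ℚ) (h : l.length = 10) : ∃ a b c d e f g i j k : ℚ,
    l = [a, b, c, d, e, f, g, i, j, k] := by
  match l, h with
  | [a, b, c, d, e, f, g, i, j, k], _ => exact ⟨a, b, c, d, e, f, g, i, j, k, rfl⟩

def ind {n : ℕ} (S : Fin 3) (p : Pt n) : ℚ := if reg p = S then 1 else 0

def eI (S : Fin 3) : List ℤ := if S = 0 then [1] else if S = 1 then [0, 1] else [0, 0, 1]
def eU (S : Fin 3) : List ℤ := if S = 0 then [0, 0, 0, 1, 0, 0, 1, 0, 1, 0] else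
  if S = 1 then [0, 0, 0, 0, 1, 0, 0, 1, 0, 1] else [0, 0, 0, 0, 0, 1, -1, -1, -1, -1]

theorem ind_cons {n : ℕ} (S : Fin 3) (d : Bool) (q : Pt n) :
    ind S (cons d q) = (if regf d 0 = S then ind 0 q else 0) + ((if regf d 1 = S then ind 1 q else 0)
      + (if regf d 2 = S then ind 2 q else 0)) := by
  have : reg (cons d q) = regf d (reg q) := rfl
  unfold ind
  rw [this]
  generalize reg q = r
  fin_cases r <;> simp

theorem uind_cons {n : ℕ} (S : Fin 3) (d : Bool) (q : Pt n) :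
    uu (cons d q) * ind S (cons d q) =
      (if regf d 0 = S then (if d then 1 / 4 else -1 / 4) * ind 0 q + (-1 / 2) * (uu q * ind 0 q)
        else 0) +
      ((if regf d 1 = S then (if d then 1 / 4 else -1 / 4) * ind 1 q + (-1 / 2) * (uu q * ind 1 q)
        else 0) +
      (if regf d 2 = S then (if d then 1 / 4 else -1 / 4) * ind 2 q + (-1 / 2) * (uu q * ind 2 q)
        else 0)) := by
  rw [ind_cons, uu_succ, hd_cons, tl_cons]
  split_ifs <;> ring

theorem pw_sums : ∀ (n : ℕ) (S : Fin 3),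
    (∀ a, SX (ind S : Pt n → ℚ) a = dz (eI S) (Bv n true a)) ∧
    (∀ b, SY (ind S : Pt n → ℚ) b = dz (eI S) (Bv n false b)) ∧
    (∀ a, SX (fun p : Pt n => uu p * ind S p) a = dz (eU S) (Bv n true a)) ∧
    (∀ b, SY (fun p : Pt n => uu p * ind S p) b = dz (eU S) (Bv n false b))
  | 0, S => by
    have h1 : ∀ f : Pat 0 true → ℚ, ∑ a, f a = f () := fun f => Fintype.sum_unique (ι := Unit) f
    have h2 : ∀ f : Pat 0 false → ℚ, ∑ a, f a = f () := fun f => Fintype.sum_unique (ι := Unit) f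
    refine ⟨fun a => ?_, fun a => ?_, fun a => ?_, fun a => ?_⟩ <;>
      simp only [SX, SY, h1, h2, Fin.sum_univ_three, ind, reg, uu, off, ee, Bv, mv, L0m, eI, eU] <;>
      fin_cases S <;> norm_num [Fin.ext_iff]
  | n + 1, S => by
    have i0 := pw_sums n 0
    have i1 := pw_sums n 1
    have i2 := pw_sums n 2
    refine ⟨fun a => ?_, fun a => ?_, fun a => ?_, fun a => ?_⟩
    · obtain ⟨d, b⟩ := a
      rw [SX_succ]
      simp only [ind_cons, SY_add, SY_ite, i0.2.1, i1.2.1, i2.2.1, Bv]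
      obtain ⟨x0, x1, x2, x3, x4, x5, x6, x7, x8, x9, h⟩ := len10 _ (Bv_length n false b)
      rw [h]
      cases d <;> fin_cases S <;> simp [regf, eI, LXm, mv] <;> ring
    · rw [SY_succ]
      simp only [ind_cons, SX_add, SX_ite, i0.1, i1.1, i2.1, Bv]
      obtain ⟨x0, x1, x2, x3, x4, x5, x6, x7, x8, x9, h⟩ := len10 _ (Bv_length n true a)
      rw [h]
      fin_cases S <;> simp [regf, eI, LYm, mv] <;> ring
    · obtain ⟨d, b⟩ := a
      rw [SX_succ]
      simp only [uind_cons, SY_add, SY_ite, SY_mul, i0.2.1, i1.2.1, i2.2.1, i0.2.2.2, i1.2.2.2,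
        i2.2.2.2, Bv]
      obtain ⟨x0, x1, x2, x3, x4, x5, x6, x7, x8, x9, h⟩ := len10 _ (Bv_length n false b)
      rw [h]
      cases d <;> fin_cases S <;> simp [regf, eI, eU, LXm, mv] <;> ring
    · rw [SY_succ]
      simp only [uind_cons, SX_add, SX_ite, SX_mul, i0.1, i1.1, i2.1, i0.2.2.1, i1.2.2.1,
        i2.2.2.1, Bv]
      obtain ⟨x0, x1, x2, x3, x4, x5, x6, x7, x8, x9, h⟩ := len10 _ (Bv_length n true a)
      rw [h]
      fin_cases S <;> simp [regf, eI, eU, LYm, mv] <;> ring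

def d1 (R : Fin 3) : Bool := decide (R = 2)
def d2 (R : Fin 3) : Bool := decide (R ≠ 0)
def r1 (R : Fin 3) : Fin 3 := if R = 0 then 1 else 0
def r2 (R : Fin 3) : Fin 3 := if R = 2 then 1 else 2
def s1 (R : Fin 3) : ℤ := if R = 1 then -1 else 1
def s2 (R : Fin 3) : ℤ := if R = 1 then 1 else -1

/-- certificate data -/
structure Cert where
  D : ℤ
  F1 : Fin 3 → List (List ℤ)
  F2 : Fin 3 → List (List ℤ)
  b1 : Fin 3 → List (List ℤ)
  b2 : Fin 3 → List (List ℤ)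
  SX : Fin 3 → Bool → List (List ℤ)
  SXt : Fin 3 → Bool → List (List ℤ)
  SY : Fin 3 → List (List ℤ)
  SYt : Fin 3 → List (List ℤ)
  A : Fin 3 → List ℤ
  B : Fin 3 → List ℤ
  W : Fin 3 → List (List ℤ)

variable (c : Cert)

def ch (F : List (List ℤ)) (v : List ℚ) : List ℚ := (lcq v F).map fun z => z / c.D
def bv (F : List (List ℤ)) (v : List ℚ) : ℚ := dz [1] (ch c F v)

def G : ∀ (n : ℕ), Fin 3 → List ℚ → Pt (n + 1) → ℚ
  | 0, R, v, p => (if hd p = d1 R then bv c (c.b1 R) v * ind (r1 R) (tl p) else 0) +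
      (if hd p = d2 R then bv c (c.b2 R) v * ind (r2 R) (tl p) else 0)
  | n + 1, R, v, p => (if hd p = d1 R then G n (r1 R) (ch c (c.F1 R) v) (tl p) else 0) +
      (if hd p = d2 R then G n (r2 R) (ch c (c.F2 R) v) (tl p) else 0)

def Gt : ∀ (n : ℕ), Fin 3 → List ℚ → Pt (n + 1) → ℚ
  | 0, R, v, p =>
      (if hd p = dp (d1 R) (r1 R) then bv c (c.b1 R) v * ind (r1 R + 1) (tl p) else 0) +
      (if hd p = dp (d2 R) (r2 R) then bv c (c.b2 R) v * ind (r2 R + 1) (tl p) else 0)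
  | n + 1, R, v, p =>
      (if hd p = dp (d1 R) (r1 R) then Gt n (r1 R) (ch c (c.F1 R) v) (tl p) else 0) +
      (if hd p = dp (d2 R) (r2 R) then Gt n (r2 R) (ch c (c.F2 R) v) (tl p) else 0)

theorem regf1 (R : Fin 3) : regf (d1 R) (r1 R) = R := by fin_cases R <;> rfl
theorem regf2 (R : Fin 3) : regf (d2 R) (r2 R) = R := by fin_cases R <;> rfl
theorem r1_ne (R : Fin 3) : r1 R ≠ r2 R := by fin_cases R <;> decide
theorem dp_inj (r : Fin 3) (d d' : Bool) : dp d r = dp d' r ↔ d = d' := by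
  fin_cases r <;> cases d <;> cases d' <;> decide

theorem G_supp : ∀ (n : ℕ) (R : Fin 3) (v : List ℚ) (p : Pt (n + 1)), reg p ≠ R → G c n R v p = 0
  | 0, R, v, p, h => by
    rw [reg_succ] at h
    have h1 : hd p = d1 R → ind (r1 R) (tl p) = 0 := fun e => by
      rw [ind, if_neg]; intro e2; rw [e, e2, regf1] at h; exact h rfl
    have h2 : hd p = d2 R → ind (r2 R) (tl p) = 0 := fun e => by
      rw [ind, if_neg]; intro e2; rw [e, e2, regf2] at h; exact h rfl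
    simp only [G]
    split_ifs with e1 e2 e2
    · simp [h1 e1, h2 e2]
    · simp [h1 e1]
    · simp [h2 e2]
    · simp
  | n + 1, R, v, p, h => by
    rw [reg_succ] at h
    have h1 : hd p = d1 R → G c n (r1 R) (ch c (c.F1 R) v) (tl p) = 0 := fun e =>
      G_supp n _ _ _ fun e2 => by rw [e, e2, regf1] at h; exact h rfl
    have h2 : hd p = d2 R → G c n (r2 R) (ch c (c.F2 R) v) (tl p) = 0 := fun e =>
      G_supp n _ _ _ fun e2 => by rw [e, e2, regf2] at h; exact h rfl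
    simp only [G]
    split_ifs with e1 e2 e2
    · simp [h1 e1, h2 e2]
    · simp [h1 e1]
    · simp [h2 e2]
    · simp

theorem ite_dp (d d' : Bool) (r ρ : Fin 3) (x : ℚ) (hx : ρ ≠ r → x = 0) :
    (if dp d ρ = dp d' r then x else 0) = if d = d' then x else 0 := by
  by_cases h : ρ = r
  · subst h; simp only [dp_inj]
  · simp [hx h]

theorem Gt_T : ∀ (n : ℕ) (R : Fin 3) (v : List ℚ) (p : Pt (n + 1)), Gt c n R v (T p) = G c n R v p
  | 0, R, v, p => by
    have h : ∀ r : Fin 3, ind (r + 1) (T (tl p)) = ind r (tl p) := fun r => by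
      simp only [ind, reg_T, add_left_inj]
    rw [T_succ]
    simp only [Gt, G, hd_cons, tl_cons, h]
    rw [ite_dp, ite_dp] <;> intro e <;> simp [ind, e]
  | n + 1, R, v, p => by
    rw [T_succ]
    simp only [Gt, G, hd_cons, tl_cons, Gt_T n]
    rw [ite_dp, ite_dp] <;> intro e <;> exact G_supp c n _ _ _ e

/-- linear identities required from a certificate -/
structure Cert.Lin (c : Cert) : Prop where
  hD : c.D ≠ 0
  len1 : ∀ R, ∀ f ∈ c.F1 R, f.length ≤ 29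
  len2 : ∀ R, ∀ f ∈ c.F2 R, f.length ≤ 29
  hX : ∀ R d, chkBlk (decide (d = d1 R)) (decide (d = d2 R)) c.D (c.F1 R) (c.F2 R) (tr 29 (c.SX R d))
    (c.SY (r1 R)) (c.SY (r2 R)) (tr 10 LYm) = true
  hXt : ∀ R d, chkBlk (decide (d = dp (d1 R) (r1 R))) (decide (d = dp (d2 R) (r2 R))) c.D (c.F1 R)
    (c.F2 R) (tr 29 (c.SXt R d)) (c.SYt (r1 R)) (c.SYt (r2 R)) (tr 10 LYm) = true
  hY : ∀ R d, chkBlk true true c.D (c.F1 R) (c.F2 R) (tr 29 (c.SY R))
    (c.SX (r1 R) d) (c.SX (r2 R) d) (tr 10 (LXm d)) = true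
  hYt : ∀ R d, chkBlk true true c.D (c.F1 R) (c.F2 R) (tr 29 (c.SYt R))
    (c.SXt (r1 R) d) (c.SXt (r2 R) d) (tr 10 (LXm d)) = true
  bX : ∀ R d, chkBlk (decide (d = d1 R)) (decide (d = d2 R)) c.D (c.b1 R) (c.b2 R) (tr 29 (c.SX R d))
    [[3]] [[3]] (tr 1 L0m) = true
  bXt : ∀ R d, chkBlk (decide (d = dp (d1 R) (r1 R))) (decide (d = dp (d2 R) (r2 R))) c.D (c.b1 R)
    (c.b2 R) (tr 29 (c.SXt R d)) [[3]] [[3]] (tr 1 L0m) = true
  bY : ∀ R, chkBlk true true c.D (c.b1 R) (c.b2 R) (tr 29 (c.SY R)) [[3]] [[3]] (tr 1 L0m) = true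
  bYt : ∀ R, chkBlk true true c.D (c.b1 R) (c.b2 R) (tr 29 (c.SYt R)) [[3]] [[3]] (tr 1 L0m) = true

theorem ch_length (F : List (List ℤ)) (h : ∀ f ∈ F, f.length ≤ 29) (v : List ℚ) :
    (ch c F v).length ≤ 29 := by
  simpa [ch] using lcq_length_le 29 v F h

theorem dq_mv_ch (B : List ℚ) (S F : List (List ℤ)) (v : List ℚ) :
    dq B (mv S (ch c F v)) = dq B (mv S (lcq v F)) / c.D := by
  rw [← dq_map_div]
  congr 1
  simp [mv, ch, dz_map_div]

theorem step_id (hD : c.D ≠ 0) (c1 c2 : Prop) [Decidable c1] [Decidable c2]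
    (F1 F2 S L R1 R2 : List (List ℤ))
    (h : chkBlk (decide c1) (decide c2) c.D F1 F2 (tr 29 S) R1 R2 (tr 10 L) = true) (v B : List ℚ)
    (hv : v.length ≤ 29) (hB : B.length = 10) :
    (if c1 then dq B (mv R1 (ch c F1 v)) / 4 else 0) + (if c2 then dq B (mv R2 (ch c F2 v)) / 4 else 0)
      = dq ((mv L B).map fun z => z / 4) (mv S v) / 4 := by
  have k := chkBlk_sound _ _ _ _ _ _ _ _ _ _ _ h v B hv hB.le
  have hD' : (c.D : ℚ) ≠ 0 := by exact_mod_cast hD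
  rw [dq_comm (List.map _ _), dq_map_div, dq_comm (mv S v), dq_mv_ch, dq_mv_ch]
  have k2 := (div_eq_iff hD').2 (k.trans (mul_comm _ _))
  rw [← k2]
  by_cases e1 : c1 <;> by_cases e2 : c2 <;> simp only [e1, e2, decide_true, decide_false, if_true,
    if_false, Bool.false_eq_true] <;> ring

theorem base_id (hD : c.D ≠ 0) (c1 c2 : Prop) [Decidable c1] [Decidable c2]
    (F1 F2 S : List (List ℤ))
    (h : chkBlk (decide c1) (decide c2) c.D F1 F2 (tr 29 S) [[3]] [[3]] (tr 1 L0m) = true)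
    (v : List ℚ) (hv : v.length ≤ 29) :
    (if c1 then bv c F1 v else 0) + (if c2 then bv c F2 v else 0)
      = dq ((mv L0m [1]).map fun z => z / 3) (mv S v) / 4 := by
  have k := chkBlk_sound _ _ _ _ _ _ _ _ _ _ _ h v [1] hv le_rfl
  have hD' : (c.D : ℚ) ≠ 0 := by exact_mod_cast hD
  have e : ∀ F, dq [1] (mv [[3]] (lcq v F)) = 3 * dz [1] (lcq v F) := fun F => by
    cases lcq v F <;> simp [mv]
  rw [dq_comm (List.map _ _), dq_map_div, dq_comm (mv S v), bv, bv, ch, ch, dz_map_div, dz_map_div]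
  rw [e, e] at k
  have k2 := (div_eq_iff hD').2 (k.trans (mul_comm _ _))
  rw [← k2]
  by_cases e1 : c1 <;> by_cases e2 : c2 <;> simp only [e1, e2, decide_true, decide_false, if_true,
    if_false, Bool.false_eq_true] <;> ring

theorem ind_sum0 (S : Fin 3) : (∀ a, SX (ind S : Pt 0 → ℚ) a = 1) ∧
    (∀ a, SY (ind S : Pt 0 → ℚ) a = 1) := by
  refine ⟨fun a => ?_, fun a => ?_⟩
  · rw [(pw_sums 0 S).1]; fin_cases S <;> simp [eI, Bv, mv, L0m]
  · rw [(pw_sums 0 S).2.1]; fin_cases S <;> simp [eI, Bv, mv, L0m]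

theorem G_sums (h : c.Lin) : ∀ (n : ℕ) (R : Fin 3) (v : List ℚ), v.length ≤ 29 →
    (∀ d b, SX (G c n R v) ((d, b) : Bool × Pat n false) = dq (Bv n false b) (mv (c.SX R d) v) / 4) ∧
    (∀ d b, SX (Gt c n R v) ((d, b) : Bool × Pat n false) =
      dq (Bv n false b) (mv (c.SXt R d) v) / 4) ∧
    (∀ a : Pat n true, SY (G c n R v) a = dq (Bv n true a) (mv (c.SY R) v) / 4) ∧
    (∀ a : Pat n true, SY (Gt c n R v) a = dq (Bv n true a) (mv (c.SYt R) v) / 4)
  | 0, R, v, hv => by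
    refine ⟨fun d b => ?_, fun d b => ?_, fun a => ?_, fun a => ?_⟩
    · rw [SX_succ]
      simp only [G, hd_cons, tl_cons, SY_add, SY_ite, SY_mul, (ind_sum0 _).2, mul_one]
      exact base_id c h.hD _ _ _ _ _ (h.bX R d) v hv
    · rw [SX_succ]
      simp only [Gt, hd_cons, tl_cons, SY_add, SY_ite, SY_mul, (ind_sum0 _).2, mul_one]
      exact base_id c h.hD _ _ _ _ _ (h.bXt R d) v hv
    · rw [SY_succ]
      simp only [G, hd_cons, tl_cons, SX_add, SX_ite, SX_mul, (ind_sum0 _).1, mul_one]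
      have k := base_id c h.hD True True _ _ _ (h.bY R) v hv
      simp only [if_true] at k
      refine Eq.trans ?_ k
      cases d1 R <;> cases d2 R <;> simp [add_comm]
    · rw [SY_succ]
      simp only [Gt, hd_cons, tl_cons, SX_add, SX_ite, SX_mul, (ind_sum0 _).1, mul_one]
      have k := base_id c h.hD True True _ _ _ (h.bYt R) v hv
      simp only [if_true] at k
      refine Eq.trans ?_ k
      cases dp (d1 R) (r1 R) <;> cases dp (d2 R) (r2 R) <;> simp [add_comm]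
  | n + 1, R, v, hv => by
    have i1 := G_sums h n (r1 R) _ (ch_length c _ (h.len1 R) v)
    have i2 := G_sums h n (r2 R) _ (ch_length c _ (h.len2 R) v)
    refine ⟨fun d b => ?_, fun d b => ?_, fun a => ?_, fun a => ?_⟩
    · rw [SX_succ]
      simp only [G, hd_cons, tl_cons, SY_add, SY_ite]
      rw [i1.2.2.1, i2.2.2.1]
      exact step_id c h.hD _ _ _ _ _ _ _ _ (h.hX R d) v _ hv (Bv_length _ _ _)
    · rw [SX_succ]
      simp only [Gt, hd_cons, tl_cons, SY_add, SY_ite]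
      rw [i1.2.2.2, i2.2.2.2]
      exact step_id c h.hD _ _ _ _ _ _ _ _ (h.hXt R d) v _ hv (Bv_length _ _ _)
    · obtain ⟨d, b⟩ := a
      rw [SY_succ]
      simp only [G, hd_cons, tl_cons, SX_add, SX_ite]
      rw [i1.1, i2.1]
      have k := step_id c h.hD True True _ _ _ _ _ _ (h.hY R d) v _ hv (Bv_length n false b)
      simp only [if_true] at k
      refine Eq.trans ?_ k
      cases d1 R <;> cases d2 R <;> simp [add_comm]
    · obtain ⟨d, b⟩ := a
      rw [SY_succ]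
      simp only [Gt, hd_cons, tl_cons, SX_add, SX_ite]
      rw [i1.2.1, i2.2.1]
      have k := step_id c h.hD True True _ _ _ _ _ _ (h.hYt R d) v _ hv (Bv_length n false b)
      simp only [if_true] at k
      refine Eq.trans ?_ k
      cases dp (d1 R) (r1 R) <;> cases dp (d2 R) (r2 R) <;> simp [add_comm]

end Pool.Agent.P749578
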