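import Pool.Agent.P.MP_749578_co.GCT

namespace Pool.Agent.P749578

open Finset

/-- Probability of the upper label for a cell with shift bit one. -/
def piOne (r : ℕ) (g : ℕ → ℚ) (l : ℕ) : ℚ := if l < 2 * r then 1 / 2 + g l else 0

/-- Probability of the upper label for a cell with shift bit zero. -/
def piZero (r : ℕ) (g : ℕ → ℚ) (l : ℕ) : ℚ := if l < r then 1 else 1 / 2 - g (l - r)

/-- Probability of the upper label. -/
def templPi (r : ℕ) (g : ℕ → ℚ) (ε : Bool) (l : ℕ) : ℚ :=
  if ε = true then piOne r g l else piZero r g l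

/-- Shifted position. -/
def templSh (r : ℕ) (ε : Bool) (l : ℕ) : ℕ := l + if ε = true then r else 0

/-- Mass of class `c`. -/
def templW (r : ℕ) (g : ℕ → ℚ) (ε : Bool) (l c : ℕ) : ℚ :=
  (if c = templSh r ε l + 3 * r then templPi r g ε l else 0) +
    if c + r = templSh r ε l then 1 - templPi r g ε l else 0

theorem templ_pi_mem {r : ℕ} {g : ℕ → ℚ} (hg : ∀ l, |g l| < 1 / 2) (ε : Bool) (l : ℕ) :
    0 ≤ templPi r g ε l ∧ templPi r g ε l ≤ 1 := by
  have h1 := abs_lt.1 (hg l)
  have h2 := abs_lt.1 (hg (l - r))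
  unfold templPi piOne piZero
  split_ifs <;> constructor <;> linarith [h1.1, h1.2, h2.1, h2.2]

theorem templ_w_nonneg {r : ℕ} {g : ℕ → ℚ} (hg : ∀ l, |g l| < 1 / 2) (ε : Bool) (l c : ℕ) :
    0 ≤ templW r g ε l c := by
  have h := templ_pi_mem (r := r) hg ε l
  unfold templW
  split_ifs <;> linarith [h.1, h.2]

theorem templ_w_pos {r : ℕ} {g : ℕ → ℚ} {ε : Bool} {l c : ℕ} (h : templW r g ε l c ≠ 0) :
    c = templSh r ε l + 3 * r ∨ c + r = templSh r ε l := by
  by_contra hc
  rw [not_or] at hc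
  exact h (by rw [templW, if_neg hc.1, if_neg hc.2, add_zero])

theorem templ_w_sum {r : ℕ} (g : ℕ → ℚ) (ε : Bool) {l : ℕ} (hl : l < 3 * r) (φ : ℚ → ℚ) :
    ∑ c : Fin (2 * (3 * r)), templW r g ε l c * φ (c : ℕ) =
      templPi r g ε l * φ (templSh r ε l + 3 * r) +
        (1 - templPi r g ε l) * φ (templSh r ε l - r) := by
  rw [Fin.sum_univ_eq_sum_range (fun c => templW r g ε l c * φ (c : ℕ))]
  simp only [templW, add_mul, sum_add_distrib, ite_mul, zero_mul]
  congr 1
  · rw [sum_ite_eq']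
    split_ifs with h
    · push_cast
      rfl
    · have e : templPi r g ε l = 0 := by
        cases ε
        · simp [templSh] at h
          omega
        · simp [templSh] at h
          simp [templPi, piOne]
          omega
      rw [e, zero_mul]
  · by_cases h : r ≤ templSh r ε l
    · have h2 : templSh r ε l < 4 * r := by
        unfold templSh
        split_ifs <;> omega
      rw [sum_eq_single_of_mem (templSh r ε l - r) (mem_range.2 (by omega))
        fun c _ hc => if_neg (by omega), if_pos (by omega), Nat.cast_sub h]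
    · have e : templPi r g ε l = 1 := by
        cases ε
        · simp [templSh] at h
          simp [templPi, piZero, h]
        · simp [templSh] at h
      rw [e, sub_self]
      simp

theorem templ_ite_sum (n k c : ℕ) (ψ : ℕ → ℚ) :
    ∑ l ∈ range n, (if c = l + k then ψ l else 0) =
      if k ≤ c ∧ c - k < n then ψ (c - k) else 0 := by
  split_ifs with h
  · rw [sum_eq_single_of_mem (c - k) (mem_range.2 h.2) fun l _ hl => if_neg (by omega),
      if_pos (by omega)]
  · exact sum_eq_zero fun l hl => if_neg (by have := mem_range.1 hl; omega)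

theorem templ_w_tot {r : ℕ} (g : ℕ → ℚ) {c : ℕ} (hc : c < 2 * (3 * r)) :
    ∑ l ∈ range (3 * r), (templW r g true l c + templW r g false l c) = 1 := by
  have e : ∀ l, templW r g true l c + templW r g false l c =
      (if c = l + 4 * r then piOne r g l else 0) + (if c = l + 0 then 1 - piOne r g l else 0) +
      (if c = l + 3 * r then piZero r g l else 0) +
        if c + r = l + 0 then 1 - piZero r g l else 0 := by
    intro l
    have a1 : r + 3 * r = 4 * r := by ring
    simp only [templW, templSh, templPi, if_true, a1, add_left_inj, add_zero, add_assoc,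
      Bool.false_eq_true, if_false]
  simp only [e, sum_add_distrib, templ_ite_sum, piOne, piZero, Nat.sub_zero, Nat.add_sub_cancel]
  have a2 : 4 * r ≤ c → c - 3 * r - r = c - 4 * r := by omega
  split_ifs <;> first | omega | (rw [a2 (by omega)]; ring) | ring

theorem templ_conn {A B : Type} {r : ℕ} (hr3 : ¬ 3 ∣ r)
    {pos : A × B × Fin 3 → ℕ} (hinj : Function.Injective pos) (hlt : ∀ p, pos p < 3 * r)
    (hsurj : ∀ l, l < 3 * r → ∃ p, pos p = l)
    (htri : ∀ a b s s', pos (a, b, s) / 3 = pos (a, b, s') / 3)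
    (htop : ∀ a, (∀ b s, r ≤ pos (a, b, s)) ∨ (∀ b s, pos (a, b, s) < 2 * r))
    (lam : B → Bool → ℚ) (kap : A → ℚ)
    (h : ∀ p q, pos q = pos p + r → lam p.2.1 true + kap p.1 = lam q.2.1 false + kap q.1) :
    (∀ b ε b' ε', lam b ε = lam b' ε') ∧ ∀ a a', kap a = kap a' := by
  have hr : 0 < r := Nat.pos_of_ne_zero fun h => hr3 (h ▸ dvd_zero 3)
  have hB : ∀ p q : A × B × Fin 3, pos p / 3 = pos q / 3 → p.1 = q.1 ∧ p.2.1 = q.2.1 := by
    rintro ⟨a, b, s⟩ q hq
    have d : ∀ s s' : Fin 3, s ≠ s' → pos (a, b, s) ≠ pos (a, b, s') := fun s s' hs e =>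
      hs (congrArg (fun p : A × B × Fin 3 => p.2.2) (hinj e))
    have d1 := d 0 1 (by decide)
    have d2 := d 0 2 (by decide)
    have d3 := d 1 2 (by decide)
    have t0 := htri a b s 0
    have t1 := htri a b s 1
    have t2 := htri a b s 2
    have : pos (a, b, 0) = pos q ∨ pos (a, b, 1) = pos q ∨ pos (a, b, 2) = pos q := by omega
    rcases this with e | e | e <;> rw [← hinj e] <;> exact ⟨rfl, rfl⟩
  obtain ⟨m, hm⟩ := hsurj r (by omega)
  have hF : ∀ n p, pos p = r + n → lam p.2.1 false + kap p.1 = lam m.2.1 false + kap m.1 := by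
    intro n
    induction n with
    | zero => intro p hp; rw [hinj (hp.trans hm.symm)]
    | succ n ih =>
      intro p hp
      have := hlt p
      obtain ⟨p', hp'⟩ := hsurj (r + n) (by omega)
      rw [← ih p' hp']
      by_cases h3 : pos p / 3 = pos p' / 3
      · rw [(hB p p' h3).1, (hB p p' h3).2]
      · obtain ⟨q, hq⟩ := hsurj (n + 1) (by omega)
        obtain ⟨q', hq'⟩ := hsurj n (by omega)
        have h4 : pos q / 3 = pos q' / 3 := by omega
        rw [← h q p (by omega), ← h q' p' (by omega), (hB q q' h4).1, (hB q q' h4).2]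
  have hF0 : ∀ p, r ≤ pos p → lam p.2.1 false + kap p.1 = lam m.2.1 false + kap m.1 :=
    fun p hp => hF (pos p - r) p (by omega)
  have hF1 : ∀ p, pos p < 2 * r → lam p.2.1 true + kap p.1 = lam m.2.1 false + kap m.1 := by
    intro p hp
    obtain ⟨q, hq⟩ := hsurj (pos p + r) (by omega)
    rw [h p q hq, hF0 q (by omega)]
  obtain ⟨u, hu⟩ := hsurj (3 * r - 1) (by omega)
  obtain ⟨v, hv⟩ := hsurj 0 (by omega)
  have hu' : ∀ b, lam b false + kap u.1 = lam m.2.1 false + kap m.1 := by
    rcases htop u.1 with e | e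
    · exact fun b => hF0 (u.1, b, 0) (e b 0)
    · have : pos u < 2 * r := e u.2.1 u.2.2
      omega
  have hv' : ∀ b, lam b true + kap v.1 = lam m.2.1 false + kap m.1 := by
    rcases htop v.1 with e | e
    · have : r ≤ pos v := e v.2.1 v.2.2
      omega
    · exact fun b => hF1 (v.1, b, 0) (e b 0)
  have hl : ∀ b ε, lam b ε = lam m.2.1 false := by
    intro b ε
    cases ε
    · linarith [hu' b, hu' m.2.1]
    · linarith [hv' b, hv' m.2.1, hF1 m (by omega)]
  have hk : ∀ a, kap a = kap m.1 := by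
    intro a
    rcases le_or_gt r (pos (a, m.2.1, 0)) with e | e
    · linarith [hF0 _ e]
    · linarith [hF1 (a, m.2.1, 0) (by omega), hl m.2.1 true]
  exact ⟨fun b ε b' ε' => (hl b ε).trans (hl b' ε').symm, fun a a' => (hk a).trans (hk a').symm⟩

theorem templ {A B : Type} [Fintype A] [Fintype B] (r : ℕ) (hr3 : ¬ 3 ∣ r)
    (pos : A × B × Fin 3 → ℕ) (hinj : Function.Injective pos) (hlt : ∀ p, pos p < 3 * r)
    (hsurj : ∀ l, l < 3 * r → ∃ p, pos p = l)
    (x : A → ℚ) (y : B → ℚ) (e : Fin 3 → ℚ) (hx : ∑ a, x a = 0) (hy : ∑ b, y b = 0)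
    (he : ∀ s, |e s| ≤ 1 / (3 * r))
    (hu : ∀ a b s, 2 * (pos (a, b, s) : ℚ) + 1 = 6 * r * (x a + y b + e s) + 3 * r)
    (htri : ∀ a b s s', pos (a, b, s) / 3 = pos (a, b, s') / 3)
    (htop : ∀ a, (∀ b s, r ≤ pos (a, b, s)) ∨ (∀ b s, pos (a, b, s) < 2 * r))
    (g : ℕ → ℚ) (hg : ∀ l, |g l| < 1 / 2)
    (h1 : ∀ b, ∑ a, ∑ s, (piOne r g (pos (a, b, s)) - 3 / 8 + 3 / 4 * (x a + y b + e s)) = 0)
    (h0 : ∀ b, ∑ a, ∑ s, (piZero r g (pos (a, b, s)) - 5 / 8 + 3 / 4 * (x a + y b + e s)) = 0)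
    (hc : ∀ a, ∑ b, ∑ s, (piOne r g (pos (a, b, s)) + piZero r g (pos (a, b, s)) - 1
      + 3 / 2 * (x a + y b + e s)) = 0) :
    ∃ (Cst : ℝ) (K1 : ℕ), ∀ K : ℕ, K1 ≤ K → ∃ f : Fin K × Fin K → ℕ, IsLabeling f ∧ ∀ a b,
      (K : ℝ) ^ 3 + (-5 / 6 - 1 / (4 * r)) * (K : ℝ) ^ 2 - Cst * K ≤ cross f a b ∧
      cross f a b ≤ (K : ℝ) ^ 3 + (-1 / 6 + 1 / (4 * r)) * (K : ℝ) ^ 2 + Cst * K := by
  classical
  have hr : 0 < r := Nat.pos_of_ne_zero fun h => hr3 (h ▸ dvd_zero 3)
  have hrq : (0 : ℚ) < r := by exact_mod_cast hr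
  obtain ⟨p0, -⟩ := hsurj 0 (by omega)
  have : Nonempty (A × B × Bool) := ⟨(p0.1, p0.2.1, true)⟩
  have hsum : ∀ φ : ℕ → ℚ, ∑ a, ∑ b, ∑ s, φ (pos (a, b, s)) = ∑ l ∈ range (3 * r), φ l := by
    intro φ
    have e : ∑ a, ∑ b, ∑ s, φ (pos (a, b, s)) = ∑ p, φ (pos p) := by
      simp only [Fintype.sum_prod_type]
    rw [e]
    exact sum_bij (fun p _ => pos p) (fun p _ => mem_range.2 (hlt p)) (fun p _ q _ h => hinj h)
      (fun l hl => (hsurj l (mem_range.1 hl)).imp fun p hp => ⟨mem_univ _, hp⟩) fun _ _ => rfl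
  have hcard : (Fintype.card A : ℚ) * Fintype.card B = r := by
    have := hsum fun _ => 1
    simp at this
    linarith
  have hN : (Fintype.card (A × B × Bool) : ℚ) = Fintype.card A * (Fintype.card B * 2) := by simp
  have hM : (Fintype.card (B × Bool) : ℚ) = Fintype.card B * 2 := by simp
  let μ : A × B × Bool → A × B × Bool → Fin (2 * (3 * r)) → ℚ := fun i j c =>
    (∑ s, templW r g i.2.2 (pos (j.1, i.2.1, s)) c) / 3
  have m0 : ∀ i j c, 0 ≤ μ i j c := fun i j c =>
    div_nonneg (sum_nonneg fun s _ => templ_w_nonneg hg _ _ _) (by norm_num)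
  have mφ : ∀ (φ : ℚ → ℚ) i j, ∑ c, μ i j c * φ (c : ℕ) =
      (∑ s, (templPi r g i.2.2 (pos (j.1, i.2.1, s)) *
        φ (templSh r i.2.2 (pos (j.1, i.2.1, s)) + 3 * r) +
        (1 - templPi r g i.2.2 (pos (j.1, i.2.1, s))) *
        φ (templSh r i.2.2 (pos (j.1, i.2.1, s)) - r))) / 3 := by
    intro φ i j
    simp only [μ, div_mul_eq_mul_div, ← sum_div, sum_mul]
    rw [sum_comm]
    simp only [templ_w_sum g _ (hlt _)]
  have m1 : ∀ i j, ∑ c, μ i j c = 1 := by
    intro i j
    have := mφ (fun _ => 1) i j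
    simp only [mul_one, add_sub_cancel] at this
    rw [this]
    simp
  have m2 : ∀ i j, ∑ c, μ i j c * (2 * (c : ℕ) + 1) = 6 * r + 8 * r / 3 *
      ∑ s, (templPi r g i.2.2 (pos (j.1, i.2.1, s)) - (if i.2.2 = true then 3 / 8 else 5 / 8) +
        3 / 4 * (x j.1 + y i.2.1 + e s)) := by
    rintro ⟨a', b, ε⟩ ⟨a, b', ε'⟩
    rw [mφ (fun t => 2 * t + 1)]
    simp only [Fin.sum_univ_three, templSh]
    cases ε <;> simp only [Bool.false_eq_true, if_false, if_true] <;> push_cast <;>
      linear_combination (hu a b 0 + hu a b 1 + hu a b 2) / 3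
  have mpos : ∀ (i j : A × B × Bool) (s : Fin 3) (c : Fin (2 * (3 * r))),
      0 < templW r g i.2.2 (pos (j.1, i.2.1, s)) c → 0 < μ i j c := fun i j s c h =>
    div_pos (h.trans_le (single_le_sum (f := fun s => templW r g i.2.2 (pos (j.1, i.2.1, s)) c)
      (fun s _ => templ_w_nonneg hg _ _ _) (mem_univ s))) (by norm_num)
  have hρ : ∀ (a : A) (b : B) (ε : Bool) (s : Fin 3),
      y b / 2 + (if ε = true then 1 / 12 else -1 / 12) + x a / 2 =
      (templSh r ε (pos (a, b, s)) + 1 / 2) / (6 * r) - 1 / 3 - e s / 2 := by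
    intro a b ε s
    cases ε <;> simp only [templSh, Bool.false_eq_true, if_false, if_true] <;> push_cast <;>
      field_simp <;> linear_combination (-36) * hu a b s
  have he' : ∀ s, -(4 * (1 / (12 * r))) ≤ e s ∧ e s ≤ 4 * (1 / (12 * r)) := by
    intro s
    have a1 : (1 : ℚ) / (3 * r) = 4 * (1 / (12 * r)) := by field_simp; norm_num
    exact abs_le.1 (a1 ▸ he s)
  have q4 : (1 : ℚ) / (4 * r) = 3 * (1 / (12 * r)) := by field_simp; norm_num
  have q0 : (0 : ℚ) < 1 / (12 * r) := by positivity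
  refine (GCT (N := A × B × Bool) (3 * r) (by omega) μ m0 m1 ?_ ?_ ?_ ?_
    (fun i => y i.2.1 / 2 + if i.2.2 = true then 1 / 12 else -1 / 12) (fun j => x j.1 / 2) ?_ ?_
    (-5 / 6 - 1 / (4 * r)) (-1 / 6 + 1 / (4 * r)) ?_ ?_).imp fun Cst =>
      Exists.imp fun K1 hK K hK1 => ?_
  · intro c
    have a1 := hsum fun l => templW r g true l c + templW r g false l c
    rw [templ_w_tot g c.2] at a1
    have a2 : ∑ i, ∑ j, μ i j c = Fintype.card A * (Fintype.card B * 2) / 3 *
        ∑ a, ∑ b, ∑ s, (templW r g true (pos (a, b, s)) c +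
          templW r g false (pos (a, b, s)) c) := by
      rw [sum_comm (f := fun a b => ∑ s, (templW r g true (pos (a, b, s)) c +
          templW r g false (pos (a, b, s)) c))]
      simp only [μ, Fintype.sum_prod_type, sum_const, card_univ, nsmul_eq_mul, Fintype.sum_bool,
        sum_add_distrib, ← mul_sum, ← sum_div, hM]
      ring
    rw [a2, a1, hN, ← mul_assoc, hcard]
    push_cast
    field_simp
  · rintro ⟨a', b, ε⟩
    have a1 : ∑ a, ∑ s, (templPi r g ε (pos (a, b, s)) - (if ε = true then 3 / 8 else 5 / 8) +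
        3 / 4 * (x a + y b + e s)) = 0 := by
      cases ε
      · exact h0 b
      · exact h1 b
    simp only [m2, Fintype.sum_prod_type, sum_const, card_univ, nsmul_eq_mul, sum_add_distrib
      (f := fun _ : A => (6 * r : ℚ)), ← mul_sum, a1, hN, hM]
    push_cast
    ring
  · rintro ⟨a, b', ε'⟩
    have a1 : ∑ b, ∑ ε, ∑ s, (templPi r g ε (pos (a, b, s)) -
        (if ε = true then 3 / 8 else 5 / 8) + 3 / 4 * (x a + y b + e s)) = 0 := by
      rw [← hc a]
      refine sum_congr rfl fun b _ => ?_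
      rw [Fintype.sum_bool, ← sum_add_distrib]
      refine sum_congr rfl fun s _ => ?_
      simp only [templPi, if_true, Bool.false_eq_true, if_false]
      ring
    simp only [m2, Fintype.sum_prod_type, sum_const, card_univ, nsmul_eq_mul, sum_add_distrib
      (f := fun _ : Bool => (6 * r : ℚ)), sum_add_distrib
      (f := fun _ : B => ((2 : ℕ) * (6 * r) : ℚ)), ← mul_sum, a1, hN, Fintype.card_bool]
    push_cast
    ring
  · intro lam kap H
    have a1 : ∀ i j i' j' : A × B × Bool, i.2 = i'.2 → j.1 = j'.1 →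
        lam i + kap j = lam i' + kap j' := by
      intro i j i' j' e1 e2
      obtain ⟨c, -, hc⟩ := exists_ne_zero_of_sum_ne_zero ((m1 i j).trans_ne one_ne_zero)
      have b1 := (m0 i j c).lt_of_ne' hc
      refine H i j i' j' c b1 ?_
      simpa only [μ, e1, e2] using b1
    have a2 := templ_conn hr3 hinj hlt hsurj htri htop (fun b ε => lam (p0.1, b, ε))
      (fun a => kap (a, p0.2.1, true)) fun p q hq => by
        have b1 := hlt q
        have b2 := abs_lt.1 (hg (pos p))
        refine H _ _ _ _ ⟨pos p + 4 * r, by omega⟩ (mpos _ _ p.2.2 _ ?_) (mpos _ _ q.2.2 _ ?_)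
        · change 0 < templW r g true (pos p) (pos p + 4 * r)
          simp only [templW, templSh, templPi, piOne, if_true]
          rw [if_pos (by omega), if_pos (by omega), if_neg (by omega)]
          linarith [b2.1]
        · change 0 < templW r g false (pos q) (pos p + 4 * r)
          simp only [templW, templSh, templPi, piZero, Bool.false_eq_true, if_false]
          rw [if_pos (by omega), if_neg (by omega), if_neg (by omega), hq, Nat.add_sub_cancel]
          linarith [b2.2]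
    refine ⟨fun i i' => ?_, fun j j' => ?_⟩
    · linarith [a1 i i (p0.1, i.2) i rfl rfl, a1 i' i (p0.1, i'.2) i rfl rfl,
        a2.1 i.2.1 i.2.2 i'.2.1 i'.2.2]
    · linarith [a1 j j j (j.1, p0.2.1, true) rfl rfl, a1 j j' j (j'.1, p0.2.1, true) rfl rfl,
        a2.2 j.1 j'.1]
  · simp only [Fintype.sum_prod_type, Fintype.sum_bool, if_true, Bool.false_eq_true, if_false]
    have a1 : ∀ b, y b / 2 + 1 / 12 + (y b / 2 + -1 / 12) = y b := fun b => by ring
    simp only [a1, hy, sum_const_zero]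
  · simp only [Fintype.sum_prod_type, sum_const, nsmul_eq_mul, ← mul_sum, ← sum_div, hx]
    simp
  · rintro ⟨a', b, ε⟩ ⟨a, b', ε'⟩ c hc
    obtain ⟨s, -, hs⟩ := exists_ne_zero_of_sum_ne_zero (div_ne_zero_iff.1 hc.ne').1
    have a1 := he' s
    simp only [hρ a b ε s, q4]
    push_cast
    rcases templ_w_pos hs with a2 | a2
    · have a3 : ((c : ℕ) : ℚ) = templSh r ε (pos (a, b, s)) + 3 * r := by exact_mod_cast a2
      have a4 : ∀ t : ℚ, (t + 1 / 2) / (6 * r) - (t + 3 * r) / (2 * (3 * r)) =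
        1 / (12 * r) - 1 / 2 := fun t => by field_simp; ring
      have a5 : ∀ t : ℚ, (t + 1 / 2) / (6 * r) - (t + 3 * r + 1) / (2 * (3 * r)) =
        -(1 / (12 * r)) - 1 / 2 := fun t => by field_simp; ring
      rw [a3]
      constructor <;> linarith [a4 (templSh r ε (pos (a, b, s))), a5 (templSh r ε (pos (a, b, s))),
        a1.1, a1.2]
    · have a3 : (templSh r ε (pos (a, b, s)) : ℚ) = (c : ℕ) + r := by exact_mod_cast a2.symm
      have a4 : ∀ t : ℚ, (t + r + 1 / 2) / (6 * r) - t / (2 * (3 * r)) =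
        1 / (12 * r) + 1 / 6 := fun t => by field_simp; ring
      have a5 : ∀ t : ℚ, (t + r + 1 / 2) / (6 * r) - (t + 1) / (2 * (3 * r)) =
        -(1 / (12 * r)) + 1 / 6 := fun t => by field_simp; ring
      rw [a3]
      constructor <;> linarith [a4 (c : ℕ), a5 (c : ℕ), a1.1, a1.2]
  · rintro ⟨a', b, ε⟩ ⟨a, b', ε'⟩
    have a1 := he' 0
    have a2 : templSh r ε (pos (a, b, 0)) + 1 ≤ 4 * r := by
      have := hlt (a, b, 0)
      unfold templSh
      split_ifs <;> omega
    have a3 : (templSh r ε (pos (a, b, 0)) : ℚ) + 1 ≤ 4 * r := by exact_mod_cast a2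
    have a4 : ((templSh r ε (pos (a, b, 0)) : ℚ) + 1 / 2) / (6 * r) ≤ 2 / 3 := by
      rw [div_le_iff₀ (by positivity)]
      linarith
    have a5 : 0 ≤ ((templSh r ε (pos (a, b, 0)) : ℚ) + 1 / 2) / (6 * r) := by positivity
    simp only [hρ a b ε 0, q4]
    constructor <;> linarith [a1.1, a1.2]
  · have := hK K hK1
    push_cast at this
    exact this

end Pool.Agent.P749578
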