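import Pool.Agent.P.MP_749578_co.ChkLin0
import Pool.Agent.P.MP_749578_co.ChkLin1
import Pool.Agent.P.MP_749578_co.ChkLin2
import Pool.Agent.P.MP_749578_co.ChkDom0
import Pool.Agent.P.MP_749578_co.ChkDom1
import Pool.Agent.P.MP_749578_co.ChkDom2
import Pool.Agent.P.MP_749578_co.ChkTree
import Pool.Agent.P.MP_749578_co.Templ

namespace Pool.Agent.P749578

open Finset

set_option maxRecDepth 100000

theorem all3 {P : Fin 3 → Bool → Prop} (a : P 0 false) (b : P 0 true) (c : P 1 false) (d : P 1 true)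
    (e : P 2 false) (f : P 2 true) : ∀ R x, P R x := fun R x => by
  fin_cases R <;> cases x <;> assumption

theorem cert_lin : cert.Lin where
  hD := by decide
  len1 := by decide +kernel
  len2 := by decide +kernel
  hX := all3 chk_PX_0_false chk_PX_0_true chk_PX_1_false chk_PX_1_true chk_PX_2_false chk_PX_2_true
  hXt := all3 chk_PXt_0_false chk_PXt_0_true chk_PXt_1_false chk_PXt_1_true chk_PXt_2_false
    chk_PXt_2_true
  hY := all3 chk_PY_0_false chk_PY_0_true chk_PY_1_false chk_PY_1_true chk_PY_2_false chk_PY_2_true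
  hYt := all3 chk_PYt_0_false chk_PYt_0_true chk_PYt_1_false chk_PYt_1_true chk_PYt_2_false
    chk_PYt_2_true
  bX := by decide +kernel
  bXt := by decide +kernel
  bY := by decide +kernel
  bYt := by decide +kernel

theorem cert_lyap : cert.Lyap where
  l1 := by decide +kernel
  l2 := by decide +kernel
  l3 := by decide +kernel
  l4 := by decide +kernel
  l5 := by decide +kernel
  dom := fun R => by
    fin_cases R
    · exact ⟨dC0, chk_P0, chk_N0, chk_D0⟩
    · exact ⟨dC1, chk_P1, chk_N1, chk_D1⟩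
    · exact ⟨dC2, chk_P2, chk_N2, chk_D2⟩

def v0 : List ℚ := emb 198180864 tree0.root
def v1 : List ℚ := emb 198180864 tree1.root

def tv (S0 S1 : List (List ℤ)) : List ℤ :=
  vaddz (S0.map fun r => dot r tree0.root) (S1.map fun r => dot r tree1.root)

theorem mv_emb (den : ℤ) (v : List ℤ) (S : List (List ℤ)) :
    mv S (emb den v) = emb den (S.map fun r => dot r v) := by
  simp only [mv, dz_emb]
  simp [emb]

theorem dq_tv (B : List ℚ) (S0 S1 : List (List ℤ)) :
    dq B (mv S0 v0) / 4 + dq B (mv S1 v1) / 4 = dq B (emb 198180864 (tv S0 S1)) / 4 := by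
  rw [v0, v1, mv_emb, mv_emb, tv, emb_vaddz, dq_vadd, add_div]

theorem tv0 : tv (cert.SX 0 false) (cert.SX 1 false) =
    [242861976, 48733776, 142854264, 456164352, 581297472, -401490432, 857388672, 886223520, 857412864, 1612191168] := by decide +kernel

theorem tv1 : tv (cert.SX 0 true) (cert.SX 1 true) =
    [249583824, 147643776, -62416368, 1004113152, -6350400, 148526784, 855852480, -67882752, 855828288, -792021888] := by decide +kernel

theorem tv2 : tv (cert.SXt 0 false) (cert.SXt 1 false) =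
    [-54409320, 147824208, 241944696, -138378240, -13245120, -996033024, 857388672, 886223520, 857412864, 1612191168] := by decide +kernel

theorem tv3 : tv (cert.SXt 0 true) (cert.SXt 1 true) =
    [150493392, 48553344, 234854928, 409570560, -600892992, -446015808, 855852480, -67882752, 855828288, -792021888] := by decide +kernel

theorem tv4 : tv (cert.SY 0) (cert.SY 1) =
    [198180864, 198180864, -198180864, 594542592, 594542592, 594542592, 0, 0, 0, 0] := by decide +kernel

theorem tv5 : tv (cert.SYt 0) (cert.SYt 1) =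
    [-198180864, 198180864, 198180864, -594542592, -594542592, -594542592, 0, 0, 0, 0] := by decide +kernel

theorem v0_len : v0.length ≤ 29 := by
  rw [v0, emb, List.length_map]; decide +kernel
theorem v1_len : v1.length ≤ 29 := by
  rw [v1, emb, List.length_map]; decide +kernel

def gg (n : ℕ) (p : Pt (n + 1)) : ℚ := G cert n 0 v0 p + G cert n 1 v1 p
def ggt (n : ℕ) (p : Pt (n + 1)) : ℚ := Gt cert n 0 v0 p + Gt cert n 1 v1 p

theorem gg_bound (n : ℕ) (hn : 3 ≤ n) (p : Pt (n + 1)) : |gg n p| < 1 / 2 := by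
  have h0 := chkTr_sound cert cert_lin cert_lyap (by decide) tree0 n 0 198180864 (by norm_num)
    (by decide +kernel) (le_trans (by decide +kernel) hn) chk_T0 p
  have h1 := chkTr_sound cert cert_lin cert_lyap (by decide) tree1 n 1 198180864 (by norm_num)
    (by decide +kernel) (le_trans (by decide +kernel) hn) chk_T1 p
  rw [gg]
  by_cases e : reg p = 0
  · rw [G_supp cert n 1 _ _ (by rw [e]; decide), add_zero]
    exact lt_of_le_of_lt h0 (by norm_num)
  · rw [G_supp cert n 0 _ _ e, zero_add]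
    exact lt_of_le_of_lt h1 (by norm_num)

theorem gg_two (n : ℕ) (p : Pt (n + 1)) (h : reg p = 2) : gg n p = 0 := by
  rw [gg, G_supp cert n 0 _ _ (by rw [h]; decide), G_supp cert n 1 _ _ (by rw [h]; decide), add_zero]

theorem ggt_T (n : ℕ) (p : Pt (n + 1)) : ggt n (T p) = gg n p := by
  rw [ggt, Gt_T, Gt_T, gg]

open Classical in
noncomputable def gf (n : ℕ) (l : ℕ) : ℚ :=
  if h : ∃ p : Pt (n + 1), pos p = l then gg n h.choose else 0

theorem gf_pos (n : ℕ) (p : Pt (n + 1)) : gf n (pos p) = gg n p := by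
  have h : ∃ q : Pt (n + 1), pos q = pos p := ⟨p, rfl⟩
  rw [gf, dif_pos h, pos_inj h.choose_spec]

theorem gf_bound (n : ℕ) (hn : 3 ≤ n) (l : ℕ) : |gf n l| < 1 / 2 := by
  rw [gf]
  split_ifs
  · exact gg_bound n hn _
  · norm_num

theorem piOne_eq (n : ℕ) (p : Pt (n + 1)) :
    piOne (2 ^ (n + 1)) (gf n) (pos p) = 1 / 2 * ind 0 p + 1 / 2 * ind 1 p + gg n p := by
  have h := pos_reg p
  have h2 := gg_two n p
  rw [piOne, gf_pos, ind, ind]
  generalize reg p = r at *
  generalize 2 ^ (n + 1) = m at *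
  fin_cases r <;> simp at h h2 ⊢
  · omega
  · omega
  · rw [if_neg (by omega), h2]

theorem piZero_eq (n : ℕ) (p : Pt (n + 1)) :
    piZero (2 ^ (n + 1)) (gf n) (pos p) = 1 / 2 + 1 / 2 * ind 0 p - ggt n p := by
  have h := pos_reg p
  have hl := pos_lt p
  rw [piZero, ind]
  by_cases e : pos p < 2 ^ (n + 1)
  · obtain ⟨q, hq⟩ := pos_surj (n + 1) (pos p + 2 * 2 ^ (n + 1)) (by omega)
    have h1 := pos_reg q
    have h2 := pos_T q
    have h3 : reg q = 2 := by
      generalize reg q = r at *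
      generalize 2 ^ (n + 1) = m at *
      fin_cases r <;> simp at h1 ⊢ <;> omega
    have h4 : T q = p := pos_inj (by rw [if_pos h3] at h2; omega)
    have h5 : reg p = 0 := by rw [← h4, reg_T, h3]; rfl
    rw [if_pos e, if_pos h5, ← h4, ggt_T, gg_two n q h3]; norm_num
  · obtain ⟨q, hq⟩ := pos_surj (n + 1) (pos p - 2 ^ (n + 1)) (by omega)
    have h1 := pos_reg q
    have h2 := pos_T q
    have h3 : reg q ≠ 2 := by
      generalize reg q = r at *
      generalize 2 ^ (n + 1) = m at *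
      fin_cases r <;> simp at h1 ⊢ <;> omega
    have h4 : T q = p := pos_inj (by rw [if_neg h3] at h2; omega)
    have h5 : reg p ≠ 0 := by
      intro h5
      rw [h5] at h
      simp at h
      omega
    rw [if_neg e, if_neg h5, ← hq, gf_pos, ← ggt_T, h4]; norm_num

theorem comb {n : ℕ} (p : Pt n) (a b c k : ℚ) :
    a * ind 0 p + b * ind 1 p + c + k * uu p =
      (a + c) * ind 0 p + (b + c) * ind 1 p + c * ind 2 p +
        (k * (uu p * ind 0 p) + k * (uu p * ind 1 p) + k * (uu p * ind 2 p)) := by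
  unfold ind
  generalize reg p = r
  fin_cases r <;> simp <;> ring

theorem upper (n : ℕ) (hn : 3 ≤ n) :
    ∃ (Cst : ℝ) (K1 : ℕ), ∀ K : ℕ, K1 ≤ K → ∃ f : Fin K × Fin K → ℕ, IsLabeling f ∧ ∀ a b,
      (K : ℝ) ^ 3 + (-5 / 6 - 1 / (4 * ((2 ^ (n + 1) : ℕ) : ℝ))) * (K : ℝ) ^ 2 - Cst * K
        ≤ cross f a b ∧
      cross f a b ≤
        (K : ℝ) ^ 3 + (-1 / 6 + 1 / (4 * ((2 ^ (n + 1) : ℕ) : ℝ))) * (K : ℝ) ^ 2 + Cst * K := by
  have g0 := G_sums cert cert_lin n 0 v0 v0_len
  have g1 := G_sums cert cert_lin n 1 v1 v1_len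
  have p0 := pw_sums (n + 1) 0
  have p1 := pw_sums (n + 1) 1
  have p2 := pw_sums (n + 1) 2
  refine templ (A := Pat (n + 1) true) (B := Pat (n + 1) false) (2 ^ (n + 1)) ?_ pos pos_inj pos_lt
    (pos_surj (n + 1)) (off (n + 1) true) (off (n + 1) false) (ee (n + 1)) (sum_off _ _)
    (sum_off _ _) (ee_le _) (fun a b s => pos_uu (a, b, s)) pos_tri pos_top (gf n) (gf_bound n hn)
    (fun b => ?_) (fun b => ?_) (fun a => ?_)
  · intro h
    exact absurd (Nat.prime_three.dvd_of_dvd_pow h) (by decide)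
  · have e : ∀ p : Pt (n + 1), piOne (2 ^ (n + 1)) (gf n) (pos p) - 3 / 8 + 3 / 4 * uu p =
        (G cert n 0 v0 p + G cert n 1 v1 p) + (1 / 2 * ind 0 p + 1 / 2 * ind 1 p + (-3 / 8) +
          3 / 4 * uu p) := fun p => by rw [piOne_eq, gg]; ring
    change SY (fun p => piOne (2 ^ (n + 1)) (gf n) (pos p) - 3 / 8 + 3 / 4 * uu p) b = 0
    simp only [e, comb, SY_add, SY_mul]
    rw [g0.2.2.1, g1.2.2.1, dq_tv, tv4, p0.2.1, p1.2.1, p2.2.1, p0.2.2.2, p1.2.2.2, p2.2.2.2]
    simp only [Bv]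
    obtain ⟨x0, x1, x2, x3, x4, x5, x6, x7, x8, x9, h⟩ := len10 _ (Bv_length n true b)
    rw [h]
    simp [eI, eU, LYm, mv, emb]
    ring
  · have e : ∀ p : Pt (n + 1), piZero (2 ^ (n + 1)) (gf n) (pos p) - 5 / 8 + 3 / 4 * uu p =
        (-1) * (Gt cert n 0 v0 p + Gt cert n 1 v1 p) + (1 / 2 * ind 0 p + 0 * ind 1 p + (-1 / 8) +
          3 / 4 * uu p) := fun p => by rw [piZero_eq, ggt]; ring
    change SY (fun p => piZero (2 ^ (n + 1)) (gf n) (pos p) - 5 / 8 + 3 / 4 * uu p) b = 0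
    simp only [e, comb, SY_add, SY_mul]
    rw [g0.2.2.2, g1.2.2.2, dq_tv, tv5, p0.2.1, p1.2.1, p2.2.1, p0.2.2.2, p1.2.2.2, p2.2.2.2]
    simp only [Bv]
    obtain ⟨x0, x1, x2, x3, x4, x5, x6, x7, x8, x9, h⟩ := len10 _ (Bv_length n true b)
    rw [h]
    simp [eI, eU, LYm, mv, emb]
    ring
  · have e : ∀ p : Pt (n + 1), piOne (2 ^ (n + 1)) (gf n) (pos p) +
        piZero (2 ^ (n + 1)) (gf n) (pos p) - 1 + 3 / 2 * uu p =
        (G cert n 0 v0 p + G cert n 1 v1 p) + (-1) * (Gt cert n 0 v0 p + Gt cert n 1 v1 p) +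
          (1 * ind 0 p + 1 / 2 * ind 1 p + (-1 / 2) + 3 / 2 * uu p) := fun p => by
      rw [piOne_eq, piZero_eq, gg, ggt]; ring
    change SX (fun p => piOne (2 ^ (n + 1)) (gf n) (pos p) +
        piZero (2 ^ (n + 1)) (gf n) (pos p) - 1 + 3 / 2 * uu p) a = 0
    obtain ⟨d, b⟩ := a
    simp only [e, comb, SX_add, SX_mul]
    rw [g0.1, g1.1, g0.2.1, g1.2.1, dq_tv, dq_tv, p0.1, p1.1, p2.1, p0.2.2.1, p1.2.2.1, p2.2.2.1]
    simp only [Bv]
    obtain ⟨x0, x1, x2, x3, x4, x5, x6, x7, x8, x9, h⟩ := len10 _ (Bv_length n false b)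
    rw [h]
    cases d
    · rw [tv0, tv2]
      simp [eI, eU, LXm, mv, emb]
      ring
    · rw [tv1, tv3]
      simp [eI, eU, LXm, mv, emb]
      ring

end Pool.Agent.P749578
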