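import Pool.Agent.P.MP_749578_co.LA

namespace Pool.Agent.P749578

open Finset

/-- digit patterns of the two players -/
def Pat : ℕ → Bool → Type
  | 0, _ => Unit
  | n + 1, true => Bool × Pat n false
  | n + 1, false => Pat n true

instance patFintype : ∀ n r, Fintype (Pat n r)
  | 0, _ => inferInstanceAs (Fintype Unit)
  | n + 1, true => have := patFintype n false; inferInstanceAs (Fintype (Bool × Pat n false))
  | n + 1, false => patFintype n true

abbrev Pt (n : ℕ) : Type := Pat n true × Pat n false × Fin 3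

def hd {n : ℕ} (p : Pt (n + 1)) : Bool := (p.1 : Bool × Pat n false).1
def tl {n : ℕ} (p : Pt (n + 1)) : Pt n := (p.2.1, (p.1 : Bool × Pat n false).2, p.2.2)
def cons {n : ℕ} (d : Bool) (q : Pt n) : Pt (n + 1) := ((d, q.2.1), q.1, q.2.2)

@[simp] theorem hd_cons {n : ℕ} (d : Bool) (q : Pt n) : hd (cons d q) = d := rfl
@[simp] theorem tl_cons {n : ℕ} (d : Bool) (q : Pt n) : tl (cons d q) = q := rfl
@[simp] theorem cons_hd_tl {n : ℕ} (p : Pt (n + 1)) : cons (hd p) (tl p) = p := rfl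

def SX {n : ℕ} (g : Pt n → ℚ) (a : Pat n true) : ℚ := ∑ b, ∑ s, g (a, b, s)
def SY {n : ℕ} (g : Pt n → ℚ) (b : Pat n false) : ℚ := ∑ a, ∑ s, g (a, b, s)

theorem SX_succ {n : ℕ} (g : Pt (n + 1) → ℚ) (d : Bool) (b : Pat n false) :
    SX g ((d, b) : Bool × Pat n false) = SY (fun q => g (cons d q)) b := rfl

theorem sum_pat_succ {n : ℕ} (f : Pat (n + 1) true → ℚ) :
    ∑ a, f a = (∑ b : Pat n false, f ((false, b) : Bool × Pat n false)) +
      ∑ b : Pat n false, f ((true, b) : Bool × Pat n false) := by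
  have : ∑ a, f a = ∑ a : Bool × Pat n false, f a := rfl
  rw [this, Fintype.sum_prod_type, Fintype.sum_bool, add_comm]

theorem SY_succ {n : ℕ} (g : Pt (n + 1) → ℚ) (a : Pat n true) :
    SY g a = SX (fun q => g (cons false q)) a + SX (fun q => g (cons true q)) a := by
  unfold SY
  rw [sum_pat_succ]; rfl

theorem SX_add {n : ℕ} (f g : Pt n → ℚ) (a) : SX (fun p => f p + g p) a = SX f a + SX g a := by
  simp [SX, sum_add_distrib]
theorem SY_add {n : ℕ} (f g : Pt n → ℚ) (a) : SY (fun p => f p + g p) a = SY f a + SY g a := by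
  simp [SY, sum_add_distrib]
theorem SX_mul {n : ℕ} (c : ℚ) (f : Pt n → ℚ) (a) : SX (fun p => c * f p) a = c * SX f a := by
  simp [SX, mul_sum]
theorem SY_mul {n : ℕ} (c : ℚ) (f : Pt n → ℚ) (a) : SY (fun p => c * f p) a = c * SY f a := by
  simp [SY, mul_sum]
theorem SY_ite {n : ℕ} (c : Prop) [Decidable c] (f : Pt n → ℚ) (a) :
    SY (fun p => if c then f p else 0) a = if c then SY f a else 0 := by
  split_ifs <;> simp [SY]
theorem SX_ite {n : ℕ} (c : Prop) [Decidable c] (f : Pt n → ℚ) (a) :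
    SX (fun p => if c then f p else 0) a = if c then SX f a else 0 := by
  split_ifs <;> simp [SX]

def regf : Bool → Fin 3 → Fin 3
  | false, r => if r = 0 then 1 else 0
  | true, r => if r = 2 then 1 else 2

def dp (d : Bool) (r : Fin 3) : Bool := if r = 2 then d else !d

def reg : ∀ {n : ℕ}, Pt n → Fin 3
  | 0, p => p.2.2
  | _ + 1, p => regf (hd p) (reg (tl p))

def T : ∀ {n : ℕ}, Pt n → Pt n
  | 0, p => (p.1, p.2.1, p.2.2 + 1)
  | _ + 1, p => cons (dp (hd p) (reg (tl p))) (T (tl p))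

def pos : ∀ {n : ℕ}, Pt n → ℕ
  | 0, p => p.2.2
  | n + 1, p => (if hd p then 6 else 3) * 2 ^ n - 1 - pos (tl p)

theorem reg_succ {n : ℕ} (p : Pt (n + 1)) : reg p = regf (hd p) (reg (tl p)) := rfl
theorem T_succ {n : ℕ} (p : Pt (n + 1)) : T p = cons (dp (hd p) (reg (tl p))) (T (tl p)) := rfl
theorem pos_succ {n : ℕ} (p : Pt (n + 1)) :
    pos p = (if hd p then 6 else 3) * 2 ^ n - 1 - pos (tl p) := rfl

theorem pos_reg : ∀ {n : ℕ} (p : Pt n),
    (reg p : ℕ) * 2 ^ n ≤ pos p ∧ pos p < ((reg p : ℕ) + 1) * 2 ^ n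
  | 0, p => by simp [reg, pos]
  | n + 1, p => by
    have ih := pos_reg (tl p)
    rw [reg_succ, pos_succ, pow_succ]
    generalize reg (tl p) = r at ih ⊢
    generalize pos (tl p) = l at ih ⊢
    generalize 2 ^ n = m at ih ⊢
    cases hd p <;> fin_cases r <;> simp [regf] at ih ⊢ <;> omega

theorem pos_lt {n : ℕ} (p : Pt n) : pos p < 3 * 2 ^ n := by
  have h := (pos_reg p).2
  have h2 : (reg p : ℕ) + 1 ≤ 3 := (reg p).2
  exact h.trans_le (Nat.mul_le_mul_right _ h2)

theorem reg_T : ∀ {n : ℕ} (p : Pt n), reg (T p) = reg p + 1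
  | 0, p => rfl
  | n + 1, p => by
    rw [T_succ, reg_succ, hd_cons, tl_cons, reg_T (tl p), reg_succ]
    generalize reg (tl p) = r
    cases hd p <;> fin_cases r <;> rfl

theorem pos_T : ∀ {n : ℕ} (p : Pt n),
    pos (T p) + (if reg p = 2 then 3 * 2 ^ n else 0) = pos p + 2 ^ n
  | 0, p => by
    obtain ⟨a, b, s⟩ := p
    fin_cases s <;> simp [pos, T, reg]
  | n + 1, p => by
    have ih := pos_T (tl p)
    have h1 := pos_reg (tl p)
    have h2 := pos_lt (T (tl p))
    rw [T_succ, pos_succ, hd_cons, tl_cons, reg_succ, pos_succ, pow_succ]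
    generalize reg (tl p) = r at *
    generalize pos (tl p) = l at *
    generalize pos (T (tl p)) = l' at *
    generalize 2 ^ n = m at *
    cases hd p <;> fin_cases r <;> simp [regf, dp] at ih h1 ⊢ <;> omega

theorem pos_inj : ∀ {n : ℕ}, Function.Injective (pos : Pt n → ℕ)
  | 0 => fun p q h => by
    obtain ⟨a, b, s⟩ := p
    obtain ⟨a', b', s'⟩ := q
    have : s = s' := Fin.ext h
    subst this; rfl
  | n + 1 => fun p q h => by
    have h1 := pos_lt (tl p)
    have h2 := pos_lt (tl q)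
    rw [pos_succ, pos_succ] at h
    have : hd p = hd q ∧ pos (tl p) = pos (tl q) := by
      generalize 2 ^ n = m at *
      cases hp : hd p <;> cases hq : hd q <;> simp [hp, hq] at h ⊢ <;> omega
    rw [← cons_hd_tl p, ← cons_hd_tl q, this.1, pos_inj this.2]

theorem pos_surj : ∀ (n l : ℕ), l < 3 * 2 ^ n → ∃ p : Pt n, pos p = l
  | 0, l, h => ⟨((), (), ⟨l, by simpa using h⟩), rfl⟩
  | n + 1, l, h => by
    rw [pow_succ] at h
    by_cases hl : l < 3 * 2 ^ n
    · obtain ⟨q, hq⟩ := pos_surj n (3 * 2 ^ n - 1 - l) (by omega)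
      exact ⟨cons false q, by rw [pos_succ]; simp [hq]; omega⟩
    · obtain ⟨q, hq⟩ := pos_surj n (6 * 2 ^ n - 1 - l) (by omega)
      exact ⟨cons true q, by rw [pos_succ]; simp [hq]; omega⟩

theorem pos_tri : ∀ {n : ℕ} (a : Pat n true) (b : Pat n false) (s s' : Fin 3),
    pos ((a, b, s) : Pt n) / 3 = pos ((a, b, s') : Pt n) / 3
  | 0, a, b, s, s' => by
    have h1 := s.2
    have h2 := s'.2
    show (s : ℕ) / 3 = (s' : ℕ) / 3
    omega
  | n + 1, a, b, s, s' => by
    have ih := pos_tri (n := n) b (a : Bool × Pat n false).2 s s'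
    have h1 := pos_lt (tl ((a, b, s) : Pt (n + 1)))
    have h2 := pos_lt (tl ((a, b, s') : Pt (n + 1)))
    rw [pos_succ, pos_succ]
    change pos (tl ((a, b, s) : Pt (n + 1))) / 3 = pos (tl ((a, b, s') : Pt (n + 1))) / 3 at ih
    have h3 : hd ((a, b, s) : Pt (n + 1)) = hd ((a, b, s') : Pt (n + 1)) := rfl
    rw [h3]
    generalize 2 ^ n = m at *
    cases hd ((a, b, s') : Pt (n + 1)) <;> simp <;> omega

theorem pos_top {n : ℕ} (a : Pat (n + 1) true) :
    (∀ b s, 2 ^ (n + 1) ≤ pos ((a, b, s) : Pt (n + 1))) ∨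
      (∀ b s, pos ((a, b, s) : Pt (n + 1)) < 2 * 2 ^ (n + 1)) := by
  cases h : (a : Bool × Pat n false).1
  · right
    intro b s
    have h3 : hd ((a, b, s) : Pt (n + 1)) = false := h
    have := Nat.one_le_two_pow (n := n)
    rw [pos_succ, h3, pow_succ]; simp; omega
  · left
    intro b s
    have h3 : hd ((a, b, s) : Pt (n + 1)) = true := h
    have h1 := pos_lt (tl ((a, b, s) : Pt (n + 1)))
    rw [pos_succ, h3, pow_succ]; simp; omega

/-- centred offsets of the two players -/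
def off : ∀ (n : ℕ) (r : Bool), Pat n r → ℚ
  | 0, _, _ => 0
  | n + 1, true, a => (if (a : Bool × Pat n false).1 then 1 / 4 else -1 / 4)
      - off n false (a : Bool × Pat n false).2 / 2
  | n + 1, false, b => - off n true b / 2

def ee (n : ℕ) (s : Fin 3) : ℚ := (-1 / 2) ^ n * (((s : ℕ) - 1) / 3)

def uu {n : ℕ} (p : Pt n) : ℚ := off n true p.1 + off n false p.2.1 + ee n p.2.2

theorem uu_succ {n : ℕ} (p : Pt (n + 1)) :
    uu p = (if hd p then 1 / 4 else -1 / 4) - uu (tl p) / 2 := by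
  simp only [uu, off, ee, hd, tl, pow_succ]; ring_nf

theorem sum_off : ∀ (n : ℕ) (r : Bool), ∑ a, off n r a = 0
  | 0, _ => by simp [off]
  | n + 1, true => by
    rw [sum_pat_succ]
    simp only [off, sum_sub_distrib, ← sum_div, sum_off n false]
    simp; ring
  | n + 1, false => by
    have : ∑ a, off (n + 1) false a = ∑ a : Pat n true, - off n true a / 2 := rfl
    rw [this, ← sum_div, sum_neg_distrib, sum_off n true]; simp

theorem ee_le (n : ℕ) (s : Fin 3) : |ee n s| ≤ 1 / (3 * ((2 ^ n : ℕ) : ℚ)) := by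
  have h : |(((s : ℕ) : ℚ) - 1) / 3| ≤ 1 / 3 := by
    fin_cases s <;> norm_num [abs_le]
  have h2 : |(-1 / 2 : ℚ)| = 1 / 2 := by norm_num [abs_of_neg]
  rw [ee, abs_mul, abs_pow, h2]
  calc (1 / 2 : ℚ) ^ n * |(((s : ℕ) : ℚ) - 1) / 3| ≤ (1 / 2 : ℚ) ^ n * (1 / 3) := by gcongr
    _ = _ := by push_cast; field_simp; rw [← mul_pow]; norm_num

theorem pos_uu : ∀ {n : ℕ} (p : Pt n),
    2 * (pos p : ℚ) + 1 = 6 * ((2 ^ n : ℕ) : ℚ) * uu p + 3 * ((2 ^ n : ℕ) : ℚ)
  | 0, p => by
    simp only [pos, uu, off, ee]; push_cast; ring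
  | n + 1, p => by
    have ih := pos_uu (tl p)
    have h1 := pos_lt (tl p)
    have h2 : pos p + 1 + pos (tl p) = (if hd p then 6 else 3) * 2 ^ n := by
      rw [pos_succ]; split_ifs <;> omega
    have h3 : (pos p : ℚ) + 1 + pos (tl p) = (if hd p then 6 else 3) * ((2 ^ n : ℕ) : ℚ) := by
      exact_mod_cast h2
    rw [uu_succ, pow_succ, Nat.cast_mul]
    split_ifs at h3 ⊢ <;> push_cast at * <;> linear_combination 2 * h3 - ih

end Pool.Agent.P749578
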